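import Pool.Agent.Lib.MP_fa98d2_nt.W.Stmts

/-!
Short-window density theorem: the eigenvalues of the Gelfand invariants are Lipschitz in the
Langlands parameters.
-/

open MeasureTheory Filter Topology Matrix
open scoped ENNReal Real ContDiff ComplexConjugate InnerProductSpace

noncomputable section

namespace Pool.Agent.Lib.MP_fa98d2_nt.D

namespace SW

namespace NearA

open Kappa

variable {n : ℕ}

/-- size and Lipschitz bound of a function that behaves as a polynomial of degree `m` -/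
def Pl (m : ℕ) (f : (Fin n → ℂ) → ℂ) : Prop :=
  ∃ C : ℝ, 0 ≤ C ∧ ∀ (ν ν' : Fin n → ℂ) (B U : ℝ), 1 ≤ B → 0 ≤ U → (∀ i, ‖ν i‖ ≤ B) →
    (∀ i, ‖ν' i‖ ≤ B) → (∀ i, ‖ν i - ν' i‖ ≤ U) →
    ‖f ν‖ ≤ C * B ^ m ∧ ‖f ν - f ν'‖ * B ≤ C * U * B ^ m

theorem pl_const (c : ℂ) : Pl 0 (fun _ : Fin n → ℂ => c) :=
  ⟨‖c‖, norm_nonneg _, fun _ _ B U _ hU _ _ _ => ⟨by simp, by
    simp only [sub_self, norm_zero, zero_mul]; positivity⟩⟩

theorem Pl.succ {m : ℕ} {f : (Fin n → ℂ) → ℂ} (h : Pl m f) : Pl (m + 1) f := by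
  obtain ⟨C, h0, hC⟩ := h
  refine ⟨C, h0, fun ν ν' B U hB hU h1 h2 h3 => ?_⟩
  obtain ⟨a, b⟩ := hC ν ν' B U hB hU h1 h2 h3
  have hp : B ^ m ≤ B ^ (m + 1) := pow_le_pow_right₀ hB (Nat.le_succ m)
  exact ⟨a.trans (mul_le_mul_of_nonneg_left hp h0),
    b.trans (mul_le_mul_of_nonneg_left hp (mul_nonneg h0 hU))⟩

theorem pl_zero (m : ℕ) : Pl m (fun _ : Fin n → ℂ => 0) :=
  ⟨0, le_rfl, fun _ _ B U _ _ _ _ _ => ⟨by simp, by simp⟩⟩

theorem Pl.add {m : ℕ} {f g : (Fin n → ℂ) → ℂ} (h : Pl m f) (h' : Pl m g) :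
    Pl m fun ν => f ν + g ν := by
  obtain ⟨C, h0, hC⟩ := h
  obtain ⟨C', h0', hC'⟩ := h'
  refine ⟨C + C', add_nonneg h0 h0', fun ν ν' B U hB hU h1 h2 h3 => ?_⟩
  obtain ⟨a, b⟩ := hC ν ν' B U hB hU h1 h2 h3
  obtain ⟨a', b'⟩ := hC' ν ν' B U hB hU h1 h2 h3
  refine ⟨(norm_add_le _ _).trans (by rw [add_mul]; exact add_le_add a a'), ?_⟩
  have h4 : ‖f ν + g ν - (f ν' + g ν')‖ ≤ ‖f ν - f ν'‖ + ‖g ν - g ν'‖ := by
    rw [add_sub_add_comm]; exact norm_add_le _ _
  have h5 := mul_le_mul_of_nonneg_right h4 (by linarith : (0 : ℝ) ≤ B)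
  simp only [add_mul] at h5 ⊢
  linarith

theorem Pl.neg {m : ℕ} {f : (Fin n → ℂ) → ℂ} (h : Pl m f) : Pl m fun ν => -f ν := by
  obtain ⟨C, h0, hC⟩ := h
  refine ⟨C, h0, fun ν ν' B U hB hU h1 h2 h3 => ?_⟩
  obtain ⟨a, b⟩ := hC ν ν' B U hB hU h1 h2 h3
  refine ⟨by rwa [norm_neg], ?_⟩
  rwa [neg_sub_neg, norm_sub_rev]

theorem Pl.mul {m : ℕ} {f : (Fin n → ℂ) → ℂ} (h : Pl m f) (i : Fin n) :
    Pl (m + 1) fun ν => ν i * f ν := by
  obtain ⟨C, h0, hC⟩ := h
  refine ⟨2 * C, by positivity, fun ν ν' B U hB hU h1 h2 h3 => ?_⟩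
  obtain ⟨a, b⟩ := hC ν ν' B U hB hU h1 h2 h3
  have hB0 : 0 ≤ B := by linarith
  have hp : 0 ≤ B ^ m := pow_nonneg hB0 m
  have hq : 0 ≤ C * B ^ m := mul_nonneg h0 hp
  refine ⟨?_, ?_⟩
  · rw [norm_mul, pow_succ]
    have := mul_le_mul (h1 i) a (norm_nonneg _) hB0
    nlinarith [mul_nonneg hq hB0]
  · have h4 : ‖ν i * f ν - ν' i * f ν'‖ ≤ U * (C * B ^ m) + B * ‖f ν - f ν'‖ := by
      rw [show ν i * f ν - ν' i * f ν' = (ν i - ν' i) * f ν + ν' i * (f ν - f ν') by ring]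
      refine (norm_add_le _ _).trans (add_le_add ?_ ?_)
      · rw [norm_mul]; exact mul_le_mul (h3 i) a (norm_nonneg _) hU
      · rw [norm_mul]; exact mul_le_mul_of_nonneg_right (h2 i) (norm_nonneg _)
    have h5 := mul_le_mul_of_nonneg_right h4 hB0
    have h6 := mul_le_mul_of_nonneg_left b hB0
    rw [pow_succ]
    nlinarith

/-- the highest weight functional is an eigenvector, the eigenvalue depends only on the weight -/
def Gd (m : ℕ) (T : Op n) : Prop :=
  ∃ f : (Fin n → ℂ) → ℂ, Pl m f ∧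
    ∀ (M : Type) [AddCommGroup M] [Module ℂ M] (e : Fin n → Fin n → Module.End ℂ M),
      Comm 1 e → ∀ (L : M →ₗ[ℂ] ℂ), WhF 0 e L → ∀ ν : Fin n → ℂ,
      (∀ i, L ∘ₗ e i i = ν i • L) → L ∘ₗ T M e = f ν • L

theorem Gd.congr {m : ℕ} {T T' : Op n} (h : Gd m T)
    (hT : ∀ (M : Type) [AddCommGroup M] [Module ℂ M] (e : Fin n → Fin n → Module.End ℂ M),
      Comm 1 e → T' M e = T M e) : Gd m T' := by
  obtain ⟨f, h0, hC⟩ := h
  refine ⟨f, h0, fun M _ _ e he L hL ν hν => ?_⟩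
  rw [hT M e he]
  exact hC M e he L hL ν hν

theorem Gd.succ {m : ℕ} {T : Op n} (h : Gd m T) : Gd (m + 1) T := by
  obtain ⟨f, h0, hC⟩ := h
  exact ⟨f, h0.succ, hC⟩

theorem gd_zero (m : ℕ) : Gd m (fun _ _ _ _ => 0 : Op n) :=
  ⟨fun _ => 0, pl_zero m, fun M _ _ e _ L _ _ _ => by simp⟩

theorem Gd.add {m : ℕ} {T T' : Op n} (h : Gd m T) (h' : Gd m T') :
    Gd m fun M _ _ e => T M e + T' M e := by
  obtain ⟨f, h0, hC⟩ := h
  obtain ⟨g, h0', hC'⟩ := h'
  refine ⟨fun ν => f ν + g ν, h0.add h0', fun M _ _ e he L hL ν hν => ?_⟩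
  rw [LinearMap.comp_add, hC M e he L hL ν hν, hC' M e he L hL ν hν, add_smul]

theorem Gd.neg {m : ℕ} {T : Op n} (h : Gd m T) : Gd m fun M _ _ e => -T M e := by
  obtain ⟨f, h0, hC⟩ := h
  refine ⟨fun ν => -f ν, h0.neg, fun M _ _ e he L hL ν hν => ?_⟩
  rw [LinearMap.comp_neg, hC M e he L hL ν hν, neg_smul]

theorem gd_sum {m : ℕ} {κ : Type} (s : Finset κ) (T : κ → Op n) (h : ∀ a ∈ s, Gd m (T a)) :
    Gd m fun M _ _ e => ∑ a ∈ s, T a M e := by
  classical
  induction s using Finset.induction_on with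
  | empty => exact (gd_zero m).congr fun M _ _ e _ => Finset.sum_empty
  | insert a s ha ih =>
    exact ((h a (Finset.mem_insert_self _ _)).add
      (ih fun b hb => h b (Finset.mem_insert_of_mem hb))).congr
        fun M _ _ e _ => Finset.sum_insert ha

theorem gd_low (z : List (Fin n × Fin n)) (h : ∀ x ∈ z, x.2 ≤ x.1) (h0 : ht z = 0) :
    Gd z.length fun _ _ _ e => ew e z := by
  induction z with
  | nil => exact ⟨fun _ => 1, pl_const 1, fun M _ _ e he L hL ν hν => by ext x; simp⟩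
  | cons x z ih =>
    have h1 : x.2.val ≤ x.1.val := h x List.mem_cons_self
    have h2 := ht_nonneg z fun y hy => h y (List.mem_cons_of_mem _ hy)
    rw [ht_cons] at h0
    obtain ⟨f, hf, hw⟩ := ih (fun y hy => h y (List.mem_cons_of_mem _ hy)) (by omega)
    have h3 : x.2 = x.1 := Fin.ext (by omega)
    refine ⟨fun ν => ν x.1 * f ν, hf.mul x.1, fun M _ _ e he L hL ν hν => ?_⟩
    show L ∘ₗ ew e (x :: z) = _
    rw [ew_cons, h3]
    show (L ∘ₗ e x.1 x.1) ∘ₗ ew e z = _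
    rw [hν, LinearMap.smul_comp, hw M e he L hL ν hν, smul_smul]

theorem gd_front (m : ℕ) (x : Fin n × Fin n) (hx : x.1 < x.2) (z : List (Fin n × Fin n)) :
    Gd m fun _ _ _ e => ew e (x :: z) := by
  refine ⟨fun _ => 0, pl_zero m, fun M _ _ e he L hL ν hν => ?_⟩
  show L ∘ₗ ew e (x :: z) = _
  rw [ew_cons]
  show (L ∘ₗ e x.1 x.2) ∘ₗ ew e z = _
  rw [hL _ _ hx]
  simp

theorem gd_word (m : ℕ) : ∀ z : List (Fin n × Fin n), z.length = m → ht z = 0 →
    Gd m fun _ _ _ e => ew e z := by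
  induction m with
  | zero =>
    intro z hz h0
    obtain rfl := List.length_eq_zero_iff.1 hz
    exact gd_low [] (by simp) rfl
  | succ m ih =>
    have key : ∀ (x : Fin n × Fin n), x.1 < x.2 → ∀ p s : List (Fin n × Fin n),
        (p ++ x :: s).length = m + 1 → ht (p ++ x :: s) = 0 →
        Gd (m + 1) fun _ _ _ e => ew e (p ++ x :: s) := by
      intro x hx p
      induction p using List.reverseRecOn with
      | nil => intro s _ _; exact gd_front _ x hx s
      | append_singleton p y ihp =>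
        intro s hl h0
        simp only [List.length_append, List.length_cons, List.length_nil, ht_append, ht_cons,
          ht_nil] at hl h0
        have g1 := ihp (y :: s) (by simp only [List.length_append, List.length_cons]; omega)
          (by simp only [ht_append, ht_cons]; omega)
        have g2 : Gd (m + 1) fun _ _ _ e =>
            if y.2 = x.1 then ew e (p ++ (y.1, x.2) :: s) else 0 := by
          split_ifs with h
          · refine (ih _ (by simp only [List.length_append, List.length_cons]; omega) ?_).succ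
            simp only [ht_append, ht_cons]
            rw [h] at h0
            omega
          · exact gd_zero _
        have g3 : Gd (m + 1) fun _ _ _ e =>
            if x.2 = y.1 then ew e (p ++ (x.1, y.2) :: s) else 0 := by
          split_ifs with h
          · refine (ih _ (by simp only [List.length_append, List.length_cons]; omega) ?_).succ
            simp only [ht_append, ht_cons]
            rw [h] at h0
            omega
          · exact gd_zero _
        refine ((g1.add g2).add g3.neg).congr fun M _ _ e he => ?_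
        have h1 := he y.1 y.2 x.1 x.2
        rw [one_smul, sub_eq_iff_eq_add] at h1
        simp only [ew_append, ew_cons, ew_nil, mul_one]
        rw [mul_assoc, ← mul_assoc (e y.1 y.2), h1]
        split_ifs <;> noncomm_ring
    intro z hz h0
    by_cases h : ∀ x ∈ z, x.2 ≤ x.1
    · exact hz ▸ gd_low z h h0
    · simp only [not_forall, not_le] at h
      obtain ⟨x, hx, hx'⟩ := h
      obtain ⟨p, s, rfl⟩ := List.append_of_mem hx
      exact key x hx' p s hz h0

theorem gd_epw (k : ℕ) : ∀ (p : List (Fin n × Fin n)) (i j : Fin n),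
    ht p + i.val - j.val = 0 → Gd (p.length + k) fun _ _ _ e => ew e p * epw e k i j := by
  induction k with
  | zero =>
    intro p i j h
    by_cases hij : i = j
    · subst hij
      exact (gd_word _ p rfl (by omega)).congr fun M _ _ e _ => by simp [epw]
    · exact (gd_zero _).congr fun M _ _ e _ => by simp [epw, hij]
  | succ k ih =>
    intro p i j h
    have := gd_sum (m := p.length + (k + 1)) Finset.univ
      (fun l : Fin n => (fun _ _ _ e => ew e (p ++ [(i, l)]) * epw e k l j : Op n)) fun l _ => by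
        have h1 := ih (p ++ [(i, l)]) l j (by simp only [ht_append, ht_cons, ht_nil]; omega)
        rwa [List.length_append, List.length_singleton, add_assoc, add_comm 1 k] at h1
    refine this.congr fun M _ _ e _ => ?_
    simp [epw, Finset.mul_sum, mul_assoc]

theorem gd_gel (n k : ℕ) : Gd k (fun _ _ _ e => egel e k : Op n) := by
  have := gd_sum (m := k) Finset.univ
    (fun i : Fin n => (fun _ _ _ e => ew e [] * epw e k i i : Op n)) fun i _ => by
      simpa using gd_epw k [] i i (by simp)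
  exact this.congr (T' := fun _ _ _ e => egel e k) fun M _ _ e _ => by simp [egel]

open Bridge

/-- the half sum of the positive roots -/
def rh (n : ℕ) (i : Fin n) : ℂ := ((n : ℂ) - 1 - 2 * (i.val : ℂ)) / 2

theorem norm_rh (i : Fin n) : ‖rh n i‖ ≤ 2 * n + 1 := by
  have h2 : (i.val : ℝ) ≤ n := by exact_mod_cast i.2.le
  have h3 : rh n i = ((((n : ℝ) - 1 - 2 * (i.val : ℝ)) / 2 : ℝ) : ℂ) := by
    unfold rh; push_cast; ring
  have h4 : (0 : ℝ) ≤ i.val := Nat.cast_nonneg _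
  rw [h3, Complex.norm_real, Real.norm_eq_abs, abs_le]
  constructor <;> linarith

theorem gel_val (n m : ℕ) : ∃ f : (Fin n → ℂ) → ℂ, Pl m f ∧ ∀ (μ : Fin n → ℂ) (P : Mat n → ℂ),
    IsPower μ P → gelfand m P 1 = f fun i => μ i + rh n i := by
  obtain ⟨f, hf, hCb⟩ := gd_gel n m
  refine ⟨f, hf, fun μ P hP => ?_⟩
  set ν : Fin n → ℂ := fun i => μ i + rh n i with hν
  obtain ⟨e, hcomm, he, -, hg⟩ := hC.mod n (indV hC ν) (fun w hw => hw.1)
    fun a b => rd_mem hC ν _
  let L : indV hC ν →ₗ[ℂ] ℂ := (LinearMap.proj (1 : G n)).comp (indV hC ν).subtype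
  have hL : ∀ w : indV hC ν, L w = (w : G n → ℂ) 1 := fun _ => rfl
  have hLz := hCb (indV hC ν) e hcomm L
    (fun i j hij => LinearMap.ext fun w => by
      rw [LinearMap.comp_apply, hL, he, rd_one hC ν hij.le w.2, deriv_off ν hij.ne]
      simp) ν
    (fun i => LinearMap.ext fun w => by
      rw [LinearMap.comp_apply, hL, he, rd_one hC ν le_rfl w.2, deriv_diag]
      rfl)
  have hPV : (fun g : G n => P g.val) ∈ indV hC ν :=
    ⟨sm_of hP.smooth, fun b hb g => hP.left _ _ (det_ne b) (det_ne g) hb⟩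
  have h1 := LinearMap.congr_fun hLz ⟨_, hPV⟩
  rw [LinearMap.comp_apply, hL, hg, LinearMap.smul_apply, hL] at h1
  simpa only [gel_eq, Units.val_one, hP.one, smul_eq_mul, mul_one] using h1

theorem cen_val {φ : Mat n → ℂ} {μ : Fin n → ℂ} {α : ℕ → Fin n → ℂ} (h : SphCusp φ μ α)
    {γ : ℕ → ℂ} (hγ : Cen γ fun g : G n => φ g.val) :
    ∃ P, IsPower μ P ∧ ∀ m, γ m = gelfand m P 1 := by
  obtain ⟨P, hP, hgel⟩ := h.arch
  refine ⟨P, hP, fun m => ?_⟩
  obtain ⟨g, hg, hne⟩ := h.nonzero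
  have h1 := congrFun (hγ m) (mkG g)
  rw [gel_eq, Pi.smul_apply, val_mkG hg, hgel m g hg, smul_eq_mul] at h1
  exact (mul_right_cancel₀ hne h1).symm

end NearA

open NearA in
theorem near : NearStmt := by
  intro n
  choose f hf hv using gel_val n
  choose C hC0 hCb using hf
  refine ⟨∑ m ∈ Finset.range (n + 1), C m * (2 * n + 2) ^ m,
    fun φ φ' μ μ' α α' h h' T U hT hU h1 h2 h3 γ γ' hγ hγ' m hm => ?_⟩
  obtain ⟨P, hP, e1⟩ := cen_val h hγ
  obtain ⟨P', hP', e2⟩ := cen_val h' hγ'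
  have hn : (0 : ℝ) ≤ n := Nat.cast_nonneg _
  have hb : ∀ μ : Fin n → ℂ, (∀ i, ‖μ i‖ ≤ T) → ∀ i, ‖μ i + rh n i‖ ≤ (2 * n + 2) * T :=
    fun μ hμ i => (norm_add_le _ _).trans (by nlinarith [hμ i, norm_rh i])
  have h4 := (hCb m (fun i => μ i + rh n i) (fun i => μ' i + rh n i) ((2 * n + 2) * T) U
    (by nlinarith) hU (hb μ h1) (hb μ' h2) fun i => by
      rw [add_sub_add_right_eq_sub]; exact h3 i).2
  rw [← hv m μ P hP, ← hv m μ' P' hP', ← e1, ← e2] at h4
  have h5 : C m * (2 * n + 2) ^ m ≤ ∑ m ∈ Finset.range (n + 1), C m * (2 * n + 2) ^ m :=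
    Finset.single_le_sum (f := fun m => C m * (2 * (n : ℝ) + 2) ^ m)
      (fun i _ => mul_nonneg (hC0 i) (by positivity)) (Finset.mem_range.2 (Nat.lt_succ_of_le hm))
  have hT0 : 0 < T := by linarith
  have h6 : T ^ m ≤ T ^ (m - 1) * T := by
    rw [← pow_succ]; exact pow_le_pow_right₀ hT (by omega)
  have h7 : ‖γ m - γ' m‖ * T ≤ C m * (2 * n + 2) ^ m * U * T ^ (m - 1) * T := by
    have h8 : ‖γ m - γ' m‖ * T ≤ ‖γ m - γ' m‖ * ((2 * n + 2) * T) :=
      mul_le_mul_of_nonneg_left (by nlinarith) (norm_nonneg _)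
    refine h8.trans (h4.trans ?_)
    have h9 : 0 ≤ C m * (2 * n + 2) ^ m * U :=
      mul_nonneg (mul_nonneg (hC0 m) (by positivity)) hU
    calc C m * U * ((2 * n + 2) * T) ^ m = C m * (2 * n + 2) ^ m * U * T ^ m := by
          rw [mul_pow]; ring
      _ ≤ C m * (2 * n + 2) ^ m * U * (T ^ (m - 1) * T) := mul_le_mul_of_nonneg_left h6 h9
      _ = _ := by ring
  refine (le_of_mul_le_mul_right h7 hT0).trans ?_
  gcongr

end SW

end Pool.Agent.Lib.MP_fa98d2_nt.D
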