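import Pool.Agent.Lib.MP_fa98d2_nt.W.Stmts

/-!
Short-window density theorem: from the identity in the symmetric algebra to the identity in the
enveloping algebra, up to words of lower degree.
-/

open Matrix

noncomputable section

namespace Pool.Agent.Lib.MP_fa98d2_nt.D

namespace SW

namespace Alg

variable {N : ℕ}

/-- the free algebra on the letters -/
abbrev FA (N : ℕ) : Type := FreeAlgebra ℂ (Fin (N + 1) × Fin (N + 1))

/-- a word as an element of the free algebra -/
def wd (l : Wd N) : FA N := (l.map (FreeAlgebra.ι ℂ)).prod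

lemma wd_nil : wd ([] : Wd N) = 1 := rfl

lemma wd_cons (x : Fin (N + 1) × Fin (N + 1)) (l : Wd N) :
    wd (x :: l) = FreeAlgebra.ι ℂ x * wd l := by simp [wd]

lemma wd_append (l l' : Wd N) : wd (l ++ l') = wd l * wd l' := by simp [wd]

/-- evaluation in a module -/
def ev {M : Type} [AddCommGroup M] [Module ℂ M]
    (e : Fin (N + 1) → Fin (N + 1) → Module.End ℂ M) : FA N →ₐ[ℂ] Module.End ℂ M :=
  FreeAlgebra.lift ℂ fun p : Fin (N + 1) × Fin (N + 1) => e p.1 p.2

lemma ev_ι {M : Type} [AddCommGroup M] [Module ℂ M]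
    (e : Fin (N + 1) → Fin (N + 1) → Module.End ℂ M) (x : Fin (N + 1) × Fin (N + 1)) :
    ev e (FreeAlgebra.ι ℂ x) = e x.1 x.2 := FreeAlgebra.lift_ι_apply _ _

lemma ev_wd {M : Type} [AddCommGroup M] [Module ℂ M]
    (e : Fin (N + 1) → Fin (N + 1) → Module.End ℂ M) (l : Wd N) : ev e (wd l) = ew e l := by
  induction l with
  | nil => simp [wd_nil]
  | cons x l ih => rw [wd_cons, map_mul, ih, ev_ι, Kappa.ew_cons]

/-- the symbol -/
def sig (N : ℕ) : FA N →ₐ[ℂ] PP N := FreeAlgebra.lift ℂ MvPolynomial.X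

lemma sig_ι (x : Fin (N + 1) × Fin (N + 1)) : sig N (FreeAlgebra.ι ℂ x) = MvPolynomial.X x :=
  FreeAlgebra.lift_ι_apply _ _

lemma sig_wd (l : Wd N) : sig N (wd l) = (l.map MvPolynomial.X).prod := by
  induction l with
  | nil => simp [wd_nil]
  | cons x l ih => rw [wd_cons, map_mul, ih, sig_ι, List.map_cons, List.prod_cons]

/-- homogeneous elements -/
def Fk (N k : ℕ) : Submodule ℂ (FA N) := Submodule.span ℂ {y | ∃ l : Wd N, l.length = k ∧ y = wd l}

lemma wd_mem (l : Wd N) : wd l ∈ Fk N l.length := Submodule.subset_span ⟨l, rfl, rfl⟩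

lemma one_mem : (1 : FA N) ∈ Fk N 0 := wd_mem []

lemma ι_mem (x : Fin (N + 1) × Fin (N + 1)) : FreeAlgebra.ι ℂ x ∈ Fk N 1 := by
  simpa [wd] using wd_mem [x]

lemma mul_mem {k l : ℕ} {a b : FA N} (ha : a ∈ Fk N k) (hb : b ∈ Fk N l) :
    a * b ∈ Fk N (k + l) := by
  have h : Fk N k * Fk N l ≤ Fk N (k + l) := by
    rw [Fk, Fk, Submodule.span_mul_span]
    refine Submodule.span_mono ?_
    rintro _ ⟨_, ⟨u, hu, rfl⟩, _, ⟨v, hv, rfl⟩, rfl⟩
    exact ⟨u ++ v, by rw [List.length_append, hu, hv], (wd_append u v).symm⟩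
  exact h (Submodule.mul_mem_mul ha hb)

lemma ofFn_mem : ∀ {m : ℕ} (a : Fin m → FA N) (d : Fin m → ℕ), (∀ k, a k ∈ Fk N (d k)) →
    (List.ofFn a).prod ∈ Fk N (∑ k, d k)
  | 0, _, _, _ => by simpa using one_mem
  | m + 1, a, d, h => by
    rw [List.ofFn_succ, List.prod_cons, Fin.sum_univ_succ]
    exact mul_mem (h 0) (ofFn_mem _ _ fun k => h k.succ)

lemma sum_deg : ∀ N : ℕ, ∑ k : Fin N, (k.val + 1) = DD N
  | 0 => rfl
  | N + 1 => by
    rw [Fin.sum_univ_castSucc]
    simp only [Fin.val_castSucc, Fin.val_last]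
    rw [sum_deg N, DD, DD, Nat.choose_succ_succ' (N + 1) 1, Nat.choose_one_right, add_comm]

lemma vv_mem (k : ℕ) : ∀ i : Fin N,
    Kappa.vv (fun a b : Fin (N + 1) => (FreeAlgebra.ι ℂ (a, b) : FA N)) k i ∈ Fk N (k + 1) := by
  induction k with
  | zero => intro i; exact ι_mem _
  | succ k ih => intro i; exact Submodule.sum_mem _ fun j _ => mul_mem (ih j) (ι_mem _)

lemma kap_mem :
    Kappa.kap (fun a b : Fin (N + 1) => (FreeAlgebra.ι ℂ (a, b) : FA N)) ∈ Fk N (DD N) := by
  refine Submodule.sum_mem _ fun σ _ => ?_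
  rw [Units.smul_def]
  refine zsmul_mem ?_ _
  rw [← sum_deg N]
  exact ofFn_mem _ _ fun k => vv_mem k _

lemma ecomb_smul {M : Type} [AddCommGroup M] [Module ℂ M]
    (e : Fin (N + 1) → Fin (N + 1) → Module.End ℂ M) (c : ℂ) (z : List (ℂ × Wd N)) :
    ecomb e (z.map fun x => (c * x.1, x.2)) = c • ecomb e z := by
  induction z with
  | nil => simp [ecomb]
  | cons x z ih =>
    simp only [ecomb, List.map_cons, List.sum_cons, smul_add] at ih ⊢
    rw [ih, smul_smul]

/-- elements that act in every module as a fixed combination of words of length at most `k` -/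
def Lo (N k : ℕ) : Submodule ℂ (FA N) where
  carrier := {y | ∃ low : List (ℂ × Wd N), (∀ x ∈ low, x.2.length ≤ k) ∧
    ∀ (M : Type) [AddCommGroup M] [Module ℂ M] (e : Fin (N + 1) → Fin (N + 1) → Module.End ℂ M),
      Comm 1 e → ev e y = ecomb e low}
  zero_mem' := ⟨[], by simp, fun M _ _ e _ => by simp [ecomb]⟩
  add_mem' := by
    rintro a b ⟨z, hz, ha⟩ ⟨z', hz', hb⟩
    refine ⟨z ++ z', fun x hx => ?_, fun M _ _ e he => ?_⟩
    · rcases List.mem_append.1 hx with h | h
      exacts [hz x h, hz' x h]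
    · rw [map_add, ha M e he, hb M e he, Kappa.ecomb_append]
  smul_mem' := by
    rintro c a ⟨z, hz, ha⟩
    refine ⟨z.map fun x => (c * x.1, x.2), fun x hx => ?_, fun M _ _ e he => ?_⟩
    · obtain ⟨y, hy, rfl⟩ := List.mem_map.1 hx
      exact hz y hy
    · rw [map_smul, ha M e he, ecomb_smul]

lemma lo_swap {k : ℕ} (p s : Wd N) (x y : Fin (N + 1) × Fin (N + 1))
    (h : p.length + s.length + 1 ≤ k) :
    wd (p ++ x :: y :: s) - wd (p ++ y :: x :: s) ∈ Lo N k := by
  refine ⟨[(if x.2 = y.1 then 1 else 0, p ++ (x.1, y.2) :: s),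
    (if y.2 = x.1 then -1 else 0, p ++ (y.1, x.2) :: s)], ?_, fun M _ _ e he => ?_⟩
  · intro z hz
    simp only [List.mem_cons, List.not_mem_nil, or_false] at hz
    rcases hz with rfl | rfl <;> simp only [List.length_append, List.length_cons] <;> omega
  · have h1 := he x.1 x.2 y.1 y.2
    rw [map_sub, ev_wd, ev_wd]
    simp only [Kappa.ew_append, Kappa.ew_cons, ecomb, List.map_cons, List.map_nil, List.sum_cons,
      List.sum_nil, add_zero]
    calc _ = ew e p * (e x.1 x.2 * e y.1 y.2 - e y.1 y.2 * e x.1 x.2) * ew e s := by noncomm_ring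
      _ = _ := by
        rw [h1, one_smul]
        split_ifs <;> simp [mul_assoc, sub_eq_add_neg, mul_add, add_mul]

lemma lo_perm {k : ℕ} {l l' : Wd N} (h : l.Perm l') : ∀ p : Wd N,
    p.length + l.length ≤ k + 1 → wd (p ++ l) - wd (p ++ l') ∈ Lo N k := by
  induction h with
  | nil => intro p _; simp
  | cons x _ ih =>
    intro p hp
    have := ih (p ++ [x]) (by
      simp only [List.length_append, List.length_cons, List.length_nil] at hp ⊢; omega)
    simpa only [List.append_assoc, List.singleton_append] using this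
  | swap x y l =>
    intro p hp
    exact lo_swap p l y x (by simp only [List.length_cons] at hp; omega)
  | trans h1 _ ih1 ih2 =>
    intro p hp
    have := Submodule.add_mem _ (ih1 p hp) (ih2 p (h1.length_eq ▸ hp))
    rwa [sub_add_sub_cancel] at this

/-- a linear section of the symbol -/
def sec (N : ℕ) : PP N →ₗ[ℂ] FA N :=
  (MvPolynomial.basisMonomials (Fin (N + 1) × Fin (N + 1)) ℂ).constr ℂ
    fun m => wd (Finsupp.toMultiset m).toList

lemma prod_X (l : Wd N) : ((l.map MvPolynomial.X).prod : PP N) =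
    MvPolynomial.monomial (Multiset.toFinsupp (l : Multiset (Fin (N + 1) × Fin (N + 1)))) 1 := by
  induction l with
  | nil => simp
  | cons x l ih =>
    rw [List.map_cons, List.prod_cons, ih, ← Multiset.cons_coe, ← Multiset.singleton_add, map_add,
      Multiset.toFinsupp_singleton, MvPolynomial.X, MvPolynomial.monomial_mul, one_mul]

lemma sec_sig (l : Wd N) :
    sec N (sig N (wd l)) = wd (l : Multiset (Fin (N + 1) × Fin (N + 1))).toList := by
  rw [sig_wd, prod_X]
  have := (MvPolynomial.basisMonomials (Fin (N + 1) × Fin (N + 1)) ℂ).constr_basis ℂ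
    (fun m => (wd (Finsupp.toMultiset m).toList : FA N))
    (Multiset.toFinsupp (l : Multiset (Fin (N + 1) × Fin (N + 1))))
  rw [Multiset.toFinsupp_toMultiset] at this
  rw [← this, MvPolynomial.coe_basisMonomials]
  rfl

lemma lo_sec {k : ℕ} {y : FA N} (hy : y ∈ Fk N (k + 1)) : y - sec N (sig N y) ∈ Lo N k := by
  induction hy using Submodule.span_induction with
  | mem y hy =>
    obtain ⟨l, hl, rfl⟩ := hy
    rw [sec_sig]
    exact lo_perm (Multiset.coe_eq_coe.1 (Multiset.coe_toList _).symm) [] (by simpa using hl.le)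
  | zero => simp
  | add a b _ _ ha hb =>
    have := Submodule.add_mem _ ha hb
    rw [map_add, map_add]
    convert this using 1
    abel
  | smul c a _ ha =>
    have := Submodule.smul_mem _ c ha
    rwa [map_smul, map_smul, ← smul_sub]

lemma lo_of_sig {k : ℕ} {y y' : FA N} (hy : y ∈ Fk N (k + 1)) (hy' : y' ∈ Fk N (k + 1))
    (h : sig N y = sig N y') : y - y' ∈ Lo N k := by
  have := lo_sec (Submodule.sub_mem _ hy hy')
  rwa [map_sub, h, sub_self, map_zero, sub_zero] at this

/-- entries of the powers of the generic matrix over the free algebra -/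
def apw (N : ℕ) : ℕ → Fin (N + 1) → Fin (N + 1) → FA N
  | 0, i, j => if i = j then 1 else 0
  | k + 1, i, j => ∑ l, FreeAlgebra.ι ℂ (i, l) * apw N k l j

lemma apw_mem (k : ℕ) : ∀ i j, apw N k i j ∈ Fk N k := by
  induction k with
  | zero =>
    intro i j
    rw [apw]
    split_ifs
    exacts [one_mem, Submodule.zero_mem _]
  | succ k ih =>
    intro i j
    rw [apw, add_comm k 1]
    exact Submodule.sum_mem _ fun l _ => mul_mem (ι_mem _) (ih l j)

lemma ev_apw {M : Type} [AddCommGroup M] [Module ℂ M]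
    (e : Fin (N + 1) → Fin (N + 1) → Module.End ℂ M) (k : ℕ) :
    ∀ i j, ev e (apw N k i j) = epw e k i j := by
  induction k with
  | zero => intro i j; rw [apw, epw]; split_ifs <;> simp
  | succ k ih => intro i j; simp only [apw, epw, map_sum, map_mul, ev_ι, ih]

lemma sig_apw (k : ℕ) : ∀ i j, sig N (apw N k i j) = (XM N ^ k) i j := by
  induction k with
  | zero => intro i j; rw [apw, pow_zero, Matrix.one_apply]; split_ifs <;> simp
  | succ k ih =>
    intro i j
    simp only [apw, map_sum, map_mul, sig_ι, ih, pow_succ', Matrix.mul_apply]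
    rfl

/-- the Gelfand invariants in the free algebra -/
def agel (N m : ℕ) : FA N := ∑ i, apw N m i i

lemma agel_prod_mem (ms : List ℕ) : (ms.map (agel N)).prod ∈ Fk N ms.sum := by
  induction ms with
  | nil => exact one_mem
  | cons m ms ih =>
    rw [List.map_cons, List.prod_cons, List.sum_cons]
    exact mul_mem (Submodule.sum_mem _ fun i _ => apw_mem m i i) ih

lemma gcomb_smul {M : Type} [AddCommGroup M] [Module ℂ M]
    (e : Fin (N + 1) → Fin (N + 1) → Module.End ℂ M) (c : ℂ) (z : List (ℂ × List ℕ × Wd N)) :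
    gcomb e (z.map fun x => (c * x.1, x.2)) = c • gcomb e z := by
  induction z with
  | nil => simp [gcomb]
  | cons x z ih =>
    simp only [gcomb, List.map_cons, List.sum_cons, smul_add] at ih ⊢
    rw [ih, smul_smul]

lemma lift_SS {k : ℕ} {q : PP N} (hq : q ∈ SS N k) : ∃ z : List (ℂ × List ℕ × Wd N),
    (∀ x ∈ z, PM N x.2.1 ∧ PW x.2.2 ∧ x.2.1.sum + x.2.2.length = k) ∧
    ∃ y ∈ Fk N k, sig N y = q ∧ ∀ (M : Type) [AddCommGroup M] [Module ℂ M]
      (e : Fin (N + 1) → Fin (N + 1) → Module.End ℂ M), ev e y = gcomb e z := by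
  induction hq using Submodule.span_induction with
  | mem q hq =>
    obtain ⟨ms, u, h1, h2, h3, rfl⟩ := hq
    refine ⟨[(1, ms, u)], ?_, (ms.map (agel N)).prod * wd u, ?_, ?_, fun M _ _ e => ?_⟩
    · intro x hx
      obtain rfl := List.mem_singleton.1 hx
      exact ⟨h1, h2, h3⟩
    · exact h3 ▸ mul_mem (agel_prod_mem ms) (wd_mem u)
    · rw [map_mul, sig_wd, map_list_prod, List.map_map]
      congr 3
      funext m
      simp only [Function.comp_apply, agel, map_sum, sig_apw, Matrix.trace, Matrix.diag_apply]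
    · have : (ev e) ∘ (agel N) = egel e := by
        funext m
        simp only [Function.comp_apply, agel, map_sum, ev_apw, egel]
      rw [map_mul, ev_wd, map_list_prod, List.map_map, this]
      simp [gcomb]
  | zero => exact ⟨[], by simp, 0, Submodule.zero_mem _, map_zero _, fun M _ _ e => by simp [gcomb]⟩
  | add a b _ _ ha hb =>
    obtain ⟨z, hz, y, hy, h1, h2⟩ := ha
    obtain ⟨z', hz', y', hy', h1', h2'⟩ := hb
    refine ⟨z ++ z', fun x hx => ?_, y + y', Submodule.add_mem _ hy hy', by rw [map_add, h1, h1'],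
      fun M _ _ e => ?_⟩
    · rcases List.mem_append.1 hx with h | h
      exacts [hz x h, hz' x h]
    · rw [map_add, h2, h2']
      simp [gcomb]
  | smul c a _ ha =>
    obtain ⟨z, hz, y, hy, h1, h2⟩ := ha
    refine ⟨z.map fun x => (c * x.1, x.2), fun x hx => ?_, c • y, Submodule.smul_mem _ _ hy,
      by rw [map_smul, h1], fun M _ _ e => by rw [map_smul, h2, gcomb_smul]⟩
    obtain ⟨w, hw, rfl⟩ := List.mem_map.1 hx
    exact hz w hw

end Alg

theorem alg (h : SymStmt) : AlgStmt := by
  intro N i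
  obtain ⟨z, hz, y, hy, h1, h2⟩ := Alg.lift_SS (h N i)
  have hk := Alg.mul_mem (Alg.kap_mem (N := N)) (Alg.ι_mem (Fin.last N, i))
  obtain ⟨low, hl, h3⟩ := Alg.lo_of_sig hk hy (by
    rw [h1, map_mul, Kappa.map_kap, Alg.sig_ι]
    simp only [Alg.sig_ι])
  refine ⟨z, low, hz, hl, fun M _ _ e he => ?_⟩
  rw [← h3 M e he, ← h2, map_sub, map_mul, Kappa.map_kap, Alg.ev_ι]
  simp only [Alg.ev_ι]
  abel

end SW

end Pool.Agent.Lib.MP_fa98d2_nt.D
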