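import Pool.Agent.Lib.MP_fa98d2_nt.W.Stmts

/-!
Short-window density theorem for cusp forms on PGL(n): the class of functionals given by bump
functions at scale `1 / T` around the base point.
-/

open MeasureTheory Filter Topology Matrix
open scoped ENNReal Real ContDiff ComplexConjugate InnerProductSpace

noncomputable section

namespace Pool.Agent.Lib.MP_fa98d2_nt.D

namespace SW

namespace ClsW

open Loc1

variable {N : ℕ}

/-! ### Bounds for left derivatives on a set -/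

lemma wm_append (l l' : List (Fin N × Fin N)) : wm (l ++ l') = wm l ++ wm l' := List.map_append

lemma DL_append (l l' : List (Mat N)) (f : G N → ℂ) : DL (l ++ l') f = DL l (DL l' f) :=
  List.foldr_append

lemma DL_add (l : List (Mat N)) {f f' : G N → ℂ} (h : Sm f) (h' : Sm f') :
    DL l (f + f') = DL l f + DL l f' := Loc0.LL_add hC l h h'

lemma DL_smul (l : List (Mat N)) (c : ℂ) (f : G N → ℂ) : DL l (c • f) = c • DL l f :=
  Loc0.LL_smul hC l c f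

lemma tsupport_DL (l : List (Mat N)) (f : G N → ℂ) : tsupport (DL l f) ⊆ tsupport f :=
  Loc0.tsupport_LL hC l f

/-- derivatives of order at most `J` are bounded on `S` at scale `T` -/
def Bdd (S : Set (G N)) (T : ℝ) (J : ℕ) (A : ℝ) (f : G N → ℂ) : Prop :=
  ∀ l : List (Fin N × Fin N), l.length ≤ J → ∀ g ∈ S, ‖DL (wm l) f g‖ ≤ A * T ^ l.length

variable {S : Set (G N)} {T A A' : ℝ} {J J' : ℕ} {f f' : G N → ℂ}

lemma Bdd.mono (h : Bdd S T J' A' f) (hT : 0 ≤ T) (hJ : J ≤ J') (hA : A' ≤ A) : Bdd S T J A f :=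
  fun l hl g hg => (h l (hl.trans hJ) g hg).trans (mul_le_mul_of_nonneg_right hA (pow_nonneg hT _))

lemma Bdd.add (h : Bdd S T J A f) (h' : Bdd S T J A' f') (hf : Sm f) (hf' : Sm f') :
    Bdd S T J (A + A') (f + f') := fun l hl g hg => by
  rw [DL_add _ hf hf', Pi.add_apply, add_mul]
  exact (norm_add_le _ _).trans (add_le_add (h l hl g hg) (h' l hl g hg))

lemma Bdd.smul (h : Bdd S T J A f) (c : ℂ) : Bdd S T J (‖c‖ * A) (c • f) := fun l hl g hg => by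
  rw [DL_smul, Pi.smul_apply, norm_smul, mul_assoc]
  exact mul_le_mul_of_nonneg_left (h l hl g hg) (norm_nonneg _)

lemma Bdd.dl {K : ℕ} (h : Bdd S T (J + K) A f) (l : List (Fin N × Fin N)) (hl : l.length ≤ K) :
    Bdd S T J (A * T ^ l.length) (DL (wm l) f) := fun l' hl' g hg => by
  have := h (l' ++ l) (by rw [List.length_append]; omega) g hg
  rw [wm_append, DL_append, List.length_append, pow_add] at this
  refine this.trans (le_of_eq ?_)
  ring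

lemma leib (l : List (Fin N × Fin N)) : ∀ (A A' : ℝ) (f f' : G N → ℂ), Sm f → Sm f' →
    Bdd S T l.length A f → Bdd S T l.length A' f' → ∀ g ∈ S,
      ‖DL (wm l) (f * f') g‖ ≤ 2 ^ l.length * (A * A') * T ^ l.length := by
  induction l using List.reverseRecOn with
  | nil =>
    intro A A' f f' _ _ h h' g hg
    have h1 : ‖f g‖ ≤ A := by simpa [DL, wm] using h [] le_rfl g hg
    have h2 : ‖f' g‖ ≤ A' := by simpa [DL, wm] using h' [] le_rfl g hg
    have h3 : ‖f g * f' g‖ ≤ A * A' := by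
      rw [norm_mul]
      exact mul_le_mul h1 h2 (norm_nonneg _) ((norm_nonneg _).trans h1)
    simpa [DL, wm] using h3
  | append_singleton l x ih =>
    intro A A' f f' hf hf' h h' g hg
    rw [List.length_append, List.length_singleton] at h h' ⊢
    have e : DL (wm (l ++ [x])) (f * f') = DL (wm l) (Ld (em x.1 x.2) f * f') +
        DL (wm l) (f * Ld (em x.1 x.2) f') := by
      rw [wm_append, DL_append, ← DL_add _ (hC.mul _ _ _ (hC.ld _ _ _ hf) hf')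
        (hC.mul _ _ _ hf (hC.ld _ _ _ hf')), ← ld_mul hC _ hf hf']
      rfl
    have d1 : Bdd S T l.length (A * T ^ 1) (Ld (em x.1 x.2) f) := h.dl [x] le_rfl
    have d2 : Bdd S T l.length (A' * T ^ 1) (Ld (em x.1 x.2) f') := h'.dl [x] le_rfl
    have m1 : Bdd S T l.length A f := fun l' hl' => h l' (by omega)
    have m2 : Bdd S T l.length A' f' := fun l' hl' => h' l' (by omega)
    rw [e, Pi.add_apply]
    refine (norm_add_le _ _).trans ((add_le_add (ih _ _ _ _ (hC.ld _ _ _ hf) hf' d1 m2 g hg)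
      (ih _ _ _ _ hf (hC.ld _ _ _ hf') m1 d2 g hg)).trans (le_of_eq ?_))
    ring

lemma Bdd.mul (h : Bdd S T J A f) (h' : Bdd S T J A' f') (hf : Sm f) (hf' : Sm f') (hT : 0 ≤ T)
    (hA : 0 ≤ A) (hA' : 0 ≤ A') : Bdd S T J (2 ^ J * (A * A')) (f * f') := fun l hl g hg => by
  refine (leib l A A' f f' hf hf' (h.mono hT hl le_rfl) (h'.mono hT hl le_rfl) g hg).trans ?_
  have : (2 : ℝ) ^ l.length ≤ 2 ^ J := pow_le_pow_right₀ one_le_two hl
  gcongr

/-- the ball that carries the bump functions -/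
abbrev Bc (N : ℕ) (T : ℝ) : Set (G N) := Bl N (c1 N / T)

lemma norm_lt {g : G N} (hT : 1 ≤ T) (hg : g ∈ Bc N T) : ‖co g - co (1 : G N)‖ < c1 N / T := by
  rw [← Loc0.nm_co]
  exact (Loc0.mem_Bl (c1_facts (N := N) hT).1).1 hg

lemma mem_ball {g : G N} (hT : 1 ≤ T) (hg : g ∈ Bc N T) :
    co g ∈ Metric.closedBall (co (1 : G N)) (c1 N) := by
  rw [Metric.mem_closedBall, dist_eq_norm]
  exact (norm_lt hT hg).le.trans (div_le_self c1_pos.le hT)

lemma unif (hf : Sm f) (J : ℕ) : ∃ B : ℝ, 0 < B ∧ ∀ T : ℝ, 1 ≤ T →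
    ∀ l : List (Fin N × Fin N), l.length ≤ J → ∀ g ∈ Bc N T, ‖DL (wm l) f g‖ ≤ B := by
  choose C hC0 using fun l : List (Fin N × Fin N) =>
    (Loc0.isCompact_cl (k := N) c1_ok).exists_bound_of_continuousOn
      (hC.cont _ _ (sm_DL hC hf (wm l))).continuousOn
  obtain ⟨B, hB⟩ := ((List.finite_length_le (Fin N × Fin N) J).image C).bddAbove
  exact ⟨max B 1, lt_max_of_lt_right one_pos, fun T hT l hl g hg =>
    ((hC0 l g (mem_ball hT hg)).trans (hB ⟨l, hl, rfl⟩)).trans (le_max_left _ _)⟩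

lemma bdd_fix (hf : Sm f) (J : ℕ) : ∃ B : ℝ, 0 < B ∧ ∀ T : ℝ, 1 ≤ T → Bdd (Bc N T) T J B f := by
  obtain ⟨B, hB, h⟩ := unif hf J
  exact ⟨B, hB, fun T hT l hl g hg =>
    (h T hT l hl g hg).trans (le_mul_of_one_le_right hB.le (one_le_pow₀ hT))⟩

lemma bdd_van (hf : Sm f) (h1 : f 1 = 0) (J : ℕ) :
    ∃ B : ℝ, 0 < B ∧ ∀ T : ℝ, 1 ≤ T → Bdd (Bc N T) T J (B * T⁻¹) f := by
  obtain ⟨B, hB, h⟩ := unif hf J
  have hs : Metric.closedBall (co (1 : G N)) (c1 N) ⊆ Calc.U N := fun x hx =>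
    Loc0.det_ne_ball (Metric.closedBall_subset_closedBall (Loc0.le_rr c1_ok) hx)
  obtain ⟨L, hL'⟩ := ((Calc.sm_iff.1 hf).mono hs).exists_lipschitzOnWith (by simp)
    (convex_closedBall _ _) (isCompact_closedBall _ _)
  have hc := c1_pos (N := N)
  refine ⟨B + L * c1 N, by positivity, fun T hT l hl g hg => ?_⟩
  have hT0 : 0 < T := by linarith
  cases l with
  | nil =>
    have h2 := hL'.dist_le_mul _ (mem_ball hT hg) _ (Metric.mem_closedBall_self hc.le)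
    rw [Calc.cE_co, Calc.cE_co, h1, dist_zero_right, dist_eq_norm] at h2
    have h3 : ‖f g‖ ≤ L * (c1 N / T) :=
      h2.trans (mul_le_mul_of_nonneg_left (norm_lt hT hg).le L.2)
    have h4 : (L : ℝ) * (c1 N / T) ≤ (B + L * c1 N) * T⁻¹ := by
      rw [div_eq_mul_inv, ← mul_assoc]
      exact mul_le_mul_of_nonneg_right (by linarith) (by positivity)
    simpa [DL, wm] using h3.trans h4
  | cons x l =>
    refine (h T hT _ hl g hg).trans ?_
    have h2 : (B + L * c1 N) * T⁻¹ * T ^ (x :: l).length = (B + L * c1 N) * T ^ l.length := by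
      rw [List.length_cons, pow_succ]
      field_simp
    rw [h2]
    have h3 : 1 ≤ T ^ l.length := one_le_pow₀ hT
    have h4 : 0 ≤ (L : ℝ) * c1 N := by positivity
    nlinarith

/-! ### Bump functions -/

/-- bump functions with controlled derivatives -/
structure Tc (T : ℝ) (J : ℕ) (A : ℝ) (τ : G N → ℂ) : Prop where
  nn : 0 ≤ A
  sm : Sm τ
  cs : HasCompactSupport τ
  supp : tsupport τ ⊆ Bc N T
  bd : Bdd (Bc N T) T J A τ

variable {τ τ' : G N → ℂ}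

lemma Tc.mono (h : Tc T J' A' τ) (hT : 0 ≤ T) (hJ : J ≤ J') (hA : A' ≤ A) : Tc T J A τ :=
  ⟨h.nn.trans hA, h.sm, h.cs, h.supp, h.bd.mono hT hJ hA⟩

lemma Tc.zero : Tc T J 0 (0 : G N → ℂ) := by
  refine ⟨le_rfl, hC.const N 0, HasCompactSupport.zero, by simp, fun l _ g _ => ?_⟩
  have := DL_smul (wm l) 0 (0 : G N → ℂ)
  rw [zero_smul, zero_smul] at this
  simp [this]

lemma Tc.add (h : Tc T J A τ) (h' : Tc T J A' τ') : Tc T J (A + A') (τ + τ') :=
  ⟨add_nonneg h.nn h'.nn, hC.add _ _ _ h.sm h'.sm, h.cs.add h'.cs,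
    (tsupport_add τ τ').trans (Set.union_subset h.supp h'.supp), h.bd.add h'.bd h.sm h'.sm⟩

lemma Tc.smul (h : Tc T J A τ) (c : ℂ) : Tc T J (‖c‖ * A) (c • τ) :=
  ⟨mul_nonneg (norm_nonneg _) h.nn, hC.smul _ _ _ h.sm,
    h.cs.smul_left (f := fun _ => c), (tsupport_smul_subset_right (fun _ => c) τ).trans h.supp,
    h.bd.smul c⟩

lemma Tc.dl {K : ℕ} (h : Tc T (J + K) A τ) (hT : 0 ≤ T) (l : List (Fin N × Fin N))
    (hl : l.length ≤ K) : Tc T J (A * T ^ l.length) (DL (wm l) τ) :=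
  ⟨mul_nonneg h.nn (pow_nonneg hT _), sm_DL hC h.sm _, cs_DL hC h.cs _,
    (tsupport_DL _ _).trans h.supp, h.bd.dl l hl⟩

lemma Tc.mul (h : Tc T J A τ) (hT : 0 ≤ T) (hf : Sm f) (hA : 0 ≤ A')
    (h' : Bdd (Bc N T) T J A' f) : Tc T J (2 ^ J * (A' * A)) (f * τ) :=
  ⟨mul_nonneg (by positivity) (mul_nonneg hA h.nn), hC.mul _ _ _ hf h.sm, h.cs.mul_left,
    tsupport_mul_subset_right.trans h.supp, h'.mul h.bd hf h.sm hT hA h.nn⟩

lemma Tc.mem (h : Tc T J A τ) {g : G N} (hg : τ g ≠ 0) : g ∈ Bc N T :=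
  h.supp (subset_tsupport _ hg)

lemma Tc.le (h : Tc T J A τ) (g : G N) : ‖τ g‖ ≤ A := by
  by_cases hg : τ g = 0
  · rw [hg, norm_zero]; exact h.nn
  · simpa [DL, wm] using h.bd [] (Nat.zero_le _) g (h.mem hg)

/-! ### Functionals -/

/-- the Kirillov function near the base point -/
def fw (d : Dat N) (T : ℝ) (w : d.V) (y : G N) : ℂ := d.W w (aT N T * up y)

variable {d : Dat N}

lemma sm_fw (w : d.V) : Sm (fw d T w) := by
  have := hC.res N _ (hC.tra _ _ (d.W_sm w) (aT N T) 1)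
  simp only [mul_one] at this
  exact this

lemma fw_eq (w : d.V) (y : G N) : fw d T w y = d.W w (up (dg (tT N T) * y)) := by
  rw [up_mul]; rfl

lemma Tc.int (h : Tc T J A τ) (hf : Sm f) : Integrable (fun x => τ x * f x) (mu N) :=
  integrable_mul (hC.cont _ _ h.sm) h.cs (hC.cont _ _ hf)

lemma ibpS {φ : G N → ℂ} (hφ : Sm φ) (h : HasCompactSupport φ) (l : List (Mat N)) :
    ∀ f : G N → ℂ, Sm f →
    ∫ x, φ x * DF l f x ∂mu N = (-1) ^ l.length * ∫ x, DL l φ x * f x ∂mu N := by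
  induction l with
  | nil => intro f _; simp [DF, DL]
  | cons A l ih =>
    intro f hf
    change ∫ x, φ x * DF l (Ld A f) x ∂mu N =
      (-1) ^ (l.length + 1) * ∫ x, Ld A (DL l φ) x * f x ∂mu N
    rw [ih _ (hC.ld N _ _ hf), ibp1 hC A (sm_DL hC hφ l) (cs_DL hC h l) hf]
    ring

/-- an integrand that can be replaced by a bump function times the Kirillov function -/
def Rep (T : ℝ) (d : Dat N) (J : ℕ) (A : ℝ) (Φ : d.V → G N → ℂ) : Prop :=
  ∃ τ, Tc T J A τ ∧ ∀ w, Integrable (Φ w) (mu N) ∧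
    ∫ x, Φ w x ∂mu N = ∫ x, τ x * fw d T w x ∂mu N

variable {Φ Φ' : d.V → G N → ℂ}

lemma Rep.mono (h : Rep T d J A' Φ) (hT : 0 ≤ T) (hA : A' ≤ A) : Rep T d J A Φ := by
  obtain ⟨τ, h1, h2⟩ := h
  exact ⟨τ, h1.mono hT le_rfl hA, h2⟩

lemma Rep.zero : Rep T d J 0 fun _ _ => 0 :=
  ⟨0, Tc.zero, fun _ => ⟨integrable_zero _ _ _, by simp⟩⟩

lemma Rep.add (h : Rep T d J A Φ) (h' : Rep T d J A' Φ') :
    Rep T d J (A + A') fun w x => Φ w x + Φ' w x := by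
  obtain ⟨τ, h1, h2⟩ := h
  obtain ⟨τ', h1', h2'⟩ := h'
  refine ⟨τ + τ', h1.add h1', fun w => ⟨(h2 w).1.add (h2' w).1, ?_⟩⟩
  rw [integral_add (h2 w).1 (h2' w).1, (h2 w).2, (h2' w).2,
    ← integral_add (h1.int (sm_fw w)) (h1'.int (sm_fw w))]
  simp only [Pi.add_apply, add_mul]

lemma Rep.cmul (h : Rep T d J A Φ) (c : ℂ) : Rep T d J (‖c‖ * A) fun w x => c * Φ w x := by
  obtain ⟨τ, h1, h2⟩ := h
  refine ⟨c • τ, h1.smul c, fun w => ⟨(h2 w).1.const_mul c, ?_⟩⟩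
  rw [integral_const_mul, (h2 w).2, ← integral_const_mul]
  simp only [Pi.smul_apply, smul_eq_mul, mul_assoc]

lemma Rep.sum {ι : Type} (s : Finset ι) {Φ : ι → d.V → G N → ℂ} {B : ι → ℝ}
    (h : ∀ i, Rep T d J (B i) (Φ i)) : Rep T d J (∑ i ∈ s, B i) fun w x => ∑ i ∈ s, Φ i w x := by
  classical
  induction s using Finset.induction_on with
  | empty => simpa using Rep.zero
  | insert i s hi ih => simpa only [Finset.sum_insert hi] using (h i).add ih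

lemma Rep.list {ι : Type} (z : List (ℂ × ι)) {Φ : ι → d.V → G N → ℂ} {B : ℝ}
    (h : ∀ x ∈ z, Rep T d J B (Φ x.2)) :
    Rep T d J ((z.map fun x => ‖x.1‖).sum * B) fun w y => (z.map fun x => x.1 * Φ x.2 w y).sum := by
  induction z with
  | nil => simpa using Rep.zero
  | cons x z ih =>
    simpa only [List.map_cons, List.sum_cons, add_mul] using
      ((h x List.mem_cons_self).cmul x.1).add (ih fun y hy => h y (List.mem_cons_of_mem _ hy))

lemma Rep.word {K : ℕ} (h : Tc T (J + K) A τ) (hT : 0 < T) (l : List (Fin N × Fin N))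
    (hl : l.length ≤ K) :
    Rep T d J A fun w y => (T : ℂ)⁻¹ ^ l.length * (τ y * DF (wm l) (fw d T w) y) := by
  have h1 : Rep T d J (‖((-1 : ℂ)) ^ l.length‖ * (A * T ^ l.length))
      fun w y => τ y * DF (wm l) (fw d T w) y := by
    refine ⟨_, (h.dl hT.le l hl).smul _, fun w => ⟨h.int (sm_DF hC _ _ (sm_fw w)), ?_⟩⟩
    rw [ibpS h.sm h.cs _ _ (sm_fw w), length_wm, ← integral_const_mul]
    simp only [Pi.smul_apply, smul_eq_mul, mul_assoc]
  refine (h1.cmul _).mono hT.le (le_of_eq ?_)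
  rw [norm_pow, norm_pow, norm_inv, Complex.norm_real, Real.norm_of_nonneg hT.le, norm_neg,
    norm_one, one_pow, inv_pow]
  field_simp

/-- the functionals of the class -/
def Fn (T : ℝ) (d : Dat N) (J : ℕ) (A : ℝ) (L : d.V →ₗ[ℂ] ℂ) : Prop :=
  ∃ τ, Tc T J A τ ∧ ∀ w, L w = ∫ x, τ x * fw d T w x ∂mu N

lemma Fn.rep {L : d.V →ₗ[ℂ] ℂ} (h : Fn T d J A L) :
    ∃ Φ, Rep T d J A Φ ∧ ∀ w, L w = ∫ x, Φ w x ∂mu N := by
  obtain ⟨τ, h1, h2⟩ := h
  exact ⟨fun w x => τ x * fw d T w x, ⟨τ, h1, fun w => ⟨h1.int (sm_fw w), rfl⟩⟩, h2⟩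

lemma Rep.fn {L : d.V →ₗ[ℂ] ℂ} (h : Rep T d J A Φ) (hL : ∀ w, L w = ∫ x, Φ w x ∂mu N) :
    Fn T d J A L := by
  obtain ⟨τ, h1, h2⟩ := h
  exact ⟨τ, h1, fun w => (hL w).trans (h2 w).2⟩

lemma Rep.int (h : Rep T d J A Φ) (w : d.V) : Integrable (Φ w) (mu N) := by
  obtain ⟨τ, -, h2⟩ := h
  exact (h2 w).1

lemma fn_add {L L' : d.V →ₗ[ℂ] ℂ} (h : Fn T d J A L) (h' : Fn T d J A' L') :
    Fn T d J (A + A') (L + L') := by
  obtain ⟨Φ, h1, h2⟩ := h.rep
  obtain ⟨Φ', h1', h2'⟩ := h'.rep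
  refine (h1.add h1').fn fun w => ?_
  rw [LinearMap.add_apply, h2, h2', integral_add (h1.int w) (h1'.int w)]

lemma fn_smul {L : d.V →ₗ[ℂ] ℂ} (h : Fn T d J A L) (c : ℂ) : Fn T d J (‖c‖ * A) (c • L) := by
  obtain ⟨Φ, h1, h2⟩ := h.rep
  refine (h1.cmul c).fn fun w => ?_
  rw [LinearMap.smul_apply, h2, integral_const_mul, smul_eq_mul]

lemma fn_init (N J : ℕ) : ∃ C : ℝ, ∀ (T : ℝ) (hT : 1 ≤ T) (d : Dat N),
    Fn T d J C (innerₛₗ ℂ (bet N hT) ∘ₗ d.K) := by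
  obtain ⟨B, hB, h⟩ := der_unif hL (c1_pos (N := N)) c1_ok (hC.const N 1) J
  refine ⟨B, fun T hT d => ?_⟩
  obtain ⟨hδ, -, -, hδ'⟩ := c1_facts (N := N) hT
  obtain ⟨b1, b2, -⟩ := hL.bump N _ hδ hδ'
  refine ⟨tf (c1 N / T), ⟨hB.le, b1, b2,
    (Loc0.tsupport_B Loc0.tsupport_b0 hδ).trans (Loc0.cl_sub_Bl hδ), fun l hl g _ => ?_⟩,
    fun w => ?_⟩
  · have h1 := (h l hl T hT g).1
    have e : (fun _ : G N => (1 : ℂ)) * tf (c1 N / T) = tf (c1 N / T) := one_mul _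
    rwa [e] at h1
  · rw [LinearMap.comp_apply, innerₛₗ_apply_apply, inner_bet, L0]
    simp only [fw_eq]

lemma fn_mul (P : Mop N) (J : ℕ) : ∃ C : ℝ, 0 < C ∧ ∀ T : ℝ, 1 ≤ T → ∀ (d : Dat N) (A : ℝ)
    (L : d.V →ₗ[ℂ] ℂ), Fn T d J A L → Fn T d J (C * T⁻¹ * A) (L ∘ₗ P.op d T) := by
  obtain ⟨B, hB, h⟩ := bdd_van P.sm (by simp [P.one]) J
  refine ⟨2 ^ J * B, by positivity, fun T hT d A L ⟨τ, h1, h2⟩ => ?_⟩
  have hT0 : 0 < T := by linarith
  refine ⟨_, (h1.mul hT0.le P.sm (by positivity) (h T hT)).mono hT0.le le_rfl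
    (le_of_eq (by ring)), fun w => ?_⟩
  rw [LinearMap.comp_apply, h2]
  congr 1
  funext x
  rw [fw_eq, fw_eq, Mop.op, P.pt d T hT0, Pi.mul_apply]
  ring

lemma fn_bd (N : ℕ) : ∃ C : ℝ, 0 < C ∧ ∀ (T : ℝ) (hT : 1 ≤ T) (d : Dat N) (A : ℝ)
    (L : d.V →ₗ[ℂ] ℂ), Fn T d 0 A L → ∀ w, ‖L w‖ ≤ C * A * ‖bet N hT‖ * ‖d.K w‖ := by
  obtain ⟨Cu, hCu, hu⟩ := upper_real hW hL N
  obtain ⟨c, hc, hb⟩ := bet_lower N
  refine ⟨Real.sqrt (Cu / c), by positivity, fun T hT d A L ⟨τ, h1, h2⟩ w => ?_⟩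
  have hT0 : 0 < T := by linarith
  obtain ⟨hδ, -, -, hδ'⟩ := c1_facts (N := N) hT
  rcases h1.nn.eq_or_lt with hA | hA
  · have h0 : ∀ x, τ x = 0 := fun x => norm_le_zero_iff.1 (hA ▸ h1.le x)
    rw [h2, ← hA]
    simp [h0]
  have hK : KK 1 (W1 (w : G (N + 1) → ℂ)) = ENNReal.ofReal (‖d.K w‖ ^ 2) := (d.K_sq w).symm
  have h3 := hu T hT0 _ hδ hδ' w (d.aut w) (by rw [hK]; exact ENNReal.ofReal_ne_top) τ A hA
    (hC.cont _ _ h1.sm).measurable h1.le fun g hg => h1.mem hg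
  rw [hK, ENNReal.toReal_ofReal (by positivity)] at h3
  rw [h2]
  refine h3.trans ?_
  have h4 : Real.sqrt (Cu * NL N T (c1 N / T) * ‖d.K w‖ ^ 2) ≤
      Real.sqrt (Cu / c) * ‖bet N hT‖ * ‖d.K w‖ := by
    refine Real.sqrt_le_iff.2 ⟨by positivity, ?_⟩
    rw [mul_pow, mul_pow, Real.sq_sqrt (by positivity)]
    refine mul_le_mul_of_nonneg_right ?_ (by positivity)
    calc Cu * NL N T (c1 N / T) = Cu / c * (c * NL N T (c1 N / T)) := by field_simp
      _ ≤ _ := mul_le_mul_of_nonneg_left (hb T hT) (by positivity)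
  calc _ ≤ A * (Real.sqrt (Cu / c) * ‖bet N hT‖ * ‖d.K w‖) := mul_le_mul_of_nonneg_left h4 hA.le
    _ = _ := by ring

lemma fn_der (N : ℕ) (C0 : ℝ) : ∃ K1 : ℕ, ∀ J : ℕ, ∃ C : ℝ, 0 < C ∧ ∀ T : ℝ, 1 ≤ T →
    ∀ d : Dat N, Gam (N + 1) C0 T d.γ → ∀ (A : ℝ) (L : d.V →ₗ[ℂ] ℂ) (a b : Fin (N + 1)),
      Fn T d (J + K1) A L → Fn T d J (C * T * A) (L ∘ₗ d.e a b) := by
  choose K C H using fun p : Fin (N + 1) × Fin (N + 1) => kaz_apply kaz hC hW hV C0 p.1 p.2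
  refine ⟨Finset.univ.sup K, fun J => ?_⟩
  set K1 := Finset.univ.sup K with hK1
  choose B hB hD using fun p : (Fin (N + 1) × Fin (N + 1)) × Fin (N + 1) × Fin (N + 1) =>
    bdd_fix (sm_qq hC p.1.1 p.1.2 p.2.1 p.2.2) (J + K1)
  obtain ⟨B0, hB0⟩ := (Set.finite_range B).bddAbove
  obtain ⟨C1, hC1⟩ := (Set.finite_range C).bddAbove
  have hB1 : 0 < B0 := (hB ((0, 0), 0, 0)).trans_le (hB0 ⟨_, rfl⟩)
  have hM : 0 < max C1 1 := lt_max_of_lt_right one_pos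
  refine ⟨(N + 1) * ((N + 1) * (max C1 1 * (2 ^ (J + K1) * B0))), by positivity,
    fun T hT d hγ A L a b ⟨τ, h1, h2⟩ => ?_⟩
  have hT0 : 0 < T := by linarith
  have hA := h1.nn
  have key : ∀ c e : Fin (N + 1), Rep T d J (max C1 1 * (2 ^ (J + K1) * B0) * T * A)
      fun w x => τ x * (qq a b c e x *
        W1 (Rd (em c e) (rt (up x) (w : G (N + 1) → ℂ))) (aT N T)) := by
    intro c e
    obtain ⟨z, hz1, hz2, hz3⟩ := H (c, e) T hT d.α d.γ hγ
    have h3 : Tc T (J + K1) (2 ^ (J + K1) * (B0 * A)) (qq a b c e * τ) :=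
      h1.mul hT0.le (sm_qq hC a b c e) hB1.le
        ((hD ((a, b), c, e) T hT).mono hT0.le le_rfl (hB0 ⟨_, rfl⟩))
    have h4 := (Rep.list (d := d) z (Φ := fun l w y => (T : ℂ)⁻¹ ^ l.length *
      ((qq a b c e * τ) y * DF (wm l) (fw d T w) y)) fun x hx =>
        Rep.word h3 hT0 x.2 ((hz1 x hx).trans (Finset.le_sup (Finset.mem_univ _)))).cmul T
    have h5 : (fun (w : d.V) x => τ x * (qq a b c e x *
        W1 (Rd (em c e) (rt (up x) (w : G (N + 1) → ℂ))) (aT N T))) =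
        fun w y => (T : ℂ) * (z.map fun x => x.1 * ((T : ℂ)⁻¹ ^ x.2.length *
          ((qq a b c e * τ) y * DF (wm x.2) (fw d T w) y))).sum := by
      funext w y
      rw [hz3 _ (hV.rtV _ _ _ (d.inV w) _) (hV.rtC _ _ _ (d.sm w) (d.cen w) _)]
      simp only [word_eq hC hW (d.sm w)]
      have : (z.map fun x => x.1 * ((T : ℂ)⁻¹ ^ x.2.length *
          ((qq a b c e * τ) y * DF (wm x.2) (fw d T w) y))).sum = (qq a b c e * τ) y *
          (z.map fun x => x.1 * ((T : ℂ)⁻¹ ^ x.2.length * DF (wm x.2) (fw d T w) y)).sum := by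
        rw [← List.sum_map_mul_left]
        congr 2
        funext x
        ring
      rw [this, Pi.mul_apply]
      change _ * (_ * (_ * (z.map fun x => x.1 *
        ((T : ℂ)⁻¹ ^ x.2.length * DF (wm x.2) (fw d T w) y)).sum)) = _
      ring
    rw [h5]
    refine h4.mono hT0.le ?_
    rw [Complex.norm_real, Real.norm_of_nonneg hT0.le]
    have h6 : (z.map fun x => ‖x.1‖).sum ≤ max C1 1 :=
      (hz2.trans (hC1 ⟨_, rfl⟩)).trans (le_max_left _ _)
    calc T * ((z.map fun x => ‖x.1‖).sum * (2 ^ (J + K1) * (B0 * A)))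
        ≤ T * (max C1 1 * (2 ^ (J + K1) * (B0 * A))) := by gcongr
      _ = _ := by ring
  refine ((Rep.sum Finset.univ fun c => Rep.sum Finset.univ fun e => key c e).mono hT0.le
    (le_of_eq ?_)).fn fun w => ?_
  · simp only [Finset.sum_const, Finset.card_univ, Fintype.card_fin, nsmul_eq_mul]
    push_cast
    ring
  · rw [LinearMap.comp_apply, h2]
    congr 1
    funext x
    rw [fw, Dat.W, d.e_val, expand hC hW (d.sm w)]
    simp only [Finset.mul_sum]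

end ClsW

open ClsW in
theorem clsW : ClsStmt := by
  intro N C0
  obtain ⟨K1, hK⟩ := fn_der N C0
  exact ⟨K1, Fn,
    { nonneg := fun _ _ _ _ _ ⟨_, h, _⟩ => h.nn
      mono := fun _ hT _ _ _ _ _ _ hJ hA ⟨τ, h, h'⟩ => ⟨τ, h.mono (by linarith) hJ hA, h'⟩
      zero := fun _ _ _ => ⟨0, Tc.zero, fun _ => by simp⟩
      add := fun _ _ _ _ _ _ _ h h' => fn_add h h'
      smul := fun _ _ _ _ _ c h => fn_smul h c
      init := fn_init N
      der := hK
      mul := fn_mul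
      bd := fn_bd N }⟩

end SW

end Pool.Agent.Lib.MP_fa98d2_nt.D
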