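import Pool.Agent.Lib.MP_fa98d2_nt.W.Stmts

/-!
Short-window density theorem for cusp forms on PGL(n): averages over small balls.
-/

open MeasureTheory Filter Topology Matrix
open scoped ENNReal Real ContDiff ComplexConjugate InnerProductSpace

noncomputable section

namespace Pool.Agent.Lib.MP_fa98d2_nt.D

namespace SW

variable {N : ℕ}

namespace Cv

/-! ### The normalised bump -/

section bump
variable {δ : ℝ} (h : Loc3.Ok (N + 1) δ)
include h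

lemma it_pos : 0 < Loc3.It (N + 1) δ := by
  obtain ⟨K, hK, HK⟩ := Loc3.vol_it hC hL (N + 1)
  exact (mul_pos_iff_of_pos_left hK).1 ((pow_pos h.1 _).trans_le (HK _ h).1)

omit h in
lemma nf_apply (g : G (N + 1)) :
    nf N δ g = (((Loc3.It (N + 1) δ)⁻¹ : ℝ) : ℂ) * tf δ g := rfl

lemma nf_cont : Continuous (nf N δ) := hC.cont _ _ (nf_sm h)

lemma nf_bl {g : G (N + 1)} (hg : nf N δ g ≠ 0) : g ∈ Bl (N + 1) δ :=
  Loc3.tf_bl hL h (right_ne_zero_of_mul hg)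

lemma nf_int {F : G (N + 1) → ℂ} (hF : Continuous F) :
    Integrable (fun y => nf N δ y * F y) (mu (N + 1)) :=
  ((nf_cont h).mul hF).integrable_of_hasCompactSupport (nf_cs h).mul_right

lemma nf_int0 : Integrable (nf N δ) (mu (N + 1)) :=
  (nf_cont h).integrable_of_hasCompactSupport (nf_cs h)

lemma int_nf : ∫ y, nf N δ y ∂mu (N + 1) = 1 := by
  simp only [nf_apply]
  rw [integral_const_mul, Loc3.int_tf hL h, ← Complex.ofReal_mul,
    inv_mul_cancel₀ (it_pos h).ne', Complex.ofReal_one]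

lemma int_norm_nf : ∫ y, ‖nf N δ y‖ ∂mu (N + 1) = 1 := by
  simp only [nf_apply, norm_mul]
  rw [integral_const_mul, Complex.norm_real, Real.norm_of_nonneg (inv_pos.2 (it_pos h)).le]
  exact inv_mul_cancel₀ (it_pos h).ne'

lemma lint_nf : ∫⁻ y, ‖nf N δ y‖ₑ ∂mu (N + 1) = 1 := by
  rw [← ofReal_integral_norm_eq_lintegral_enorm (nf_int0 h), int_norm_nf h, ENNReal.ofReal_one]

lemma av_eq (d : Dat N) (w : d.V) : d.av δ w = (((Loc3.It (N + 1) δ)⁻¹ : ℝ) : ℂ) •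
    d.cv (tf δ) (Loc3.tf_sm hL h) (Loc3.tf_cs hL h) w := by
  apply Subtype.ext
  rw [d.av_val h, Submodule.coe_smul, d.cv_val]
  ext g
  simp only [conv, nf_apply, Pi.smul_apply, smul_eq_mul, mul_assoc]
  exact integral_const_mul _ _

end bump

lemma sub (d : Dat N) (δ : ℝ) (w y : d.V) : d.av δ (w - y) = d.av δ w - d.av δ y := by
  by_cases h : Loc3.Ok (N + 1) δ
  · apply Subtype.ext
    rw [Submodule.coe_sub, d.av_val h, d.av_val h, d.av_val h, Submodule.coe_sub]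
    ext g
    simp only [conv, Pi.sub_apply, mul_sub]
    exact integral_sub (nf_int h ((d.cont w).comp (continuous_const.mul continuous_id)))
      (nf_int h ((d.cont y).comp (continuous_const.mul continuous_id)))
  · simp only [Dat.av, dif_neg h, sub_self]

lemma le (d : Dat N) (δ : ℝ) (w : d.V) : ‖d.K (d.av δ w)‖ ≤ ‖d.K w‖ := by
  by_cases h : Loc3.Ok (N + 1) δ
  · have a := hV.young _ _ w (nf_cont h) (nf_cs h) (d.aut w)
    rw [lint_nf h, ← d.av_val h, ← ENNReal.ofReal_one] at a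
    simpa using d.K_le zero_le_one a
  · simp only [Dat.av, dif_neg h, map_zero, norm_zero, norm_nonneg]

lemma sob (N J : ℕ) (c2 : ℝ) (h2 : Loc3.Ok (N + 1) c2) : ∃ C : ℝ, 0 < C ∧ ∀ T : ℝ, 1 ≤ T →
    ∀ (d : Dat N) (w : d.V), d.Sb T (C * ‖d.K w‖) J (d.av (c2 / T) w) := by
  obtain ⟨K, hK, HK⟩ := Loc3.vol_it hC hL (N + 1)
  choose Cl hCl0 hCl using fun l : Wd N =>
    hL.der (N + 1) c2 h2.1 h2.2 (fun _ => 1) (hC.const _ 1) (l.map fun x => -em x.1 x.2)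
  have S0 : ∀ l ∈ (List.finite_length_le (Fin (N + 1) × Fin (N + 1)) J).toFinset,
      0 ≤ Cl l * K := fun l _ => mul_nonneg (hCl0 l) hK.le
  refine ⟨1 + ∑ l ∈ (List.finite_length_le (Fin (N + 1) × Fin (N + 1)) J).toFinset, Cl l * K,
    by linarith [Finset.sum_nonneg S0], fun T hT d w l hl => ?_⟩
  have hT0 : 0 < T := by linarith
  have o2 : Loc3.Ok (N + 1) (c2 / T) := h2.div hT
  have i0 := it_pos o2
  obtain ⟨d1, d2, d3⟩ := Loc3.rw_conv hC (Loc3.tf_sm hL o2) (Loc3.tf_cs hL o2) (d.cont w) l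
  have e : ((fun _ => 1) * tf (c2 / T) : G (N + 1) → ℂ) = tf (c2 / T) := by ext g; simp
  have b0 := hCl l T hT
  rw [e, List.length_map] at b0
  have c0 := hCl0 l
  have b1 : ∫⁻ g, ‖Loc3.Dl l (tf (c2 / T)) g‖ₑ ∂mu (N + 1) ≤
      ENNReal.ofReal (Cl l * T ^ l.length * (K * Loc3.It (N + 1) (c2 / T))) := by
    rw [ENNReal.ofReal_mul (by positivity)]
    exact (Loc3.lint_le hL (fun g _ => by
      rw [← ofReal_norm]
      exact ENNReal.ofReal_le_ofReal (b0 g).1) fun g => (b0 g).2).trans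
      (mul_le_mul_right (HK _ o2).2.1 _)
  have b2 : ‖d.K (ew d.e l (d.cv (tf (c2 / T)) (Loc3.tf_sm hL o2) (Loc3.tf_cs hL o2) w))‖ ≤
      Cl l * T ^ l.length * (K * Loc3.It (N + 1) (c2 / T)) * ‖d.K w‖ := by
    refine d.K_le (by positivity) ?_
    rw [d.ew_val, d.cv_val, d3]
    exact (hV.young _ _ w (hC.cont _ _ d1) d2 (d.aut w)).trans
      (mul_le_mul_left (pow_le_pow_left' b1 2) _)
  have b3 : Cl l * K ≤
      ∑ l ∈ (List.finite_length_le (Fin (N + 1) × Fin (N + 1)) J).toFinset, Cl l * K :=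
    Finset.single_le_sum S0 (by simpa using hl)
  rw [av_eq o2, map_smul, map_smul, norm_smul, Complex.norm_real,
    Real.norm_of_nonneg (inv_pos.2 i0).le]
  refine (mul_le_mul_of_nonneg_left b2 (inv_pos.2 i0).le).trans ?_
  have e1 : (Loc3.It (N + 1) (c2 / T))⁻¹ *
      (Cl l * T ^ l.length * (K * Loc3.It (N + 1) (c2 / T)) * ‖d.K w‖) =
      Cl l * K * ‖d.K w‖ * T ^ l.length := by field_simp
  rw [e1]
  gcongr
  linarith

/-! ### The average as a weak integral -/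

lemma mul_le_sq (a b : ℝ≥0∞) : a * b ≤ a ^ 2 + b ^ 2 := by
  rcases le_total a b with h | h
  · exact (mul_le_mul_left h b).trans (by rw [← sq]; exact le_add_self)
  · exact (mul_le_mul_right h a).trans (by rw [← sq]; exact le_self_add)

lemma inner_av (d : Dat N) {δ : ℝ} (h : Loc3.Ok (N + 1) δ) (w : d.V) (b : HK N) :
    Integrable (fun x => nf N δ x * ⟪b, d.K (d.rho x w)⟫_ℂ) (mu (N + 1)) ∧
      ⟪b, d.K (d.av δ w)⟫_ℂ = ∫ x, nf N δ x * ⟪b, d.K (d.rho x w)⟫_ℂ ∂mu (N + 1) := by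
  have hsm := Lp.aestronglyMeasurable b
  have hm : Measurable (hsm.mk b) := hsm.measurable_mk
  have hae : b =ᵐ[mX N] hsm.mk b := hsm.ae_eq_mk
  generalize hsm.mk b = η at hm hae
  have hmW : Measurable fun p : G (N + 1) × X N => d.W w (up (sg N p.2) * p.1) :=
    (d.W_cont w).measurable.comp
      (((continuous_up.measurable.comp (measurable_sg N)).comp measurable_snd).mul measurable_fst)
  have hmF : Measurable fun p : G (N + 1) × X N =>
      nf N δ p.1 * (d.W w (up (sg N p.2) * p.1) * conj (η p.2)) :=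
    ((nf_cont h).measurable.comp measurable_fst).mul (hmW.mul
      (Complex.continuous_conj.measurable.comp (hm.comp measurable_snd)))
  have h1 : ∀ x : G (N + 1), ∫⁻ y, ‖d.W w (up (sg N y) * x)‖ₑ ^ 2 ∂mX N =
      ENNReal.ofReal (‖d.K w‖ ^ 2) := fun x => by
    rw [← d.K_rho x, d.K_sq, Loc2.KK_one, d.W_rho]
    rfl
  have hint : Integrable (fun p : G (N + 1) × X N =>
      nf N δ p.1 * (d.W w (up (sg N p.2) * p.1) * conj (η p.2))) ((mu (N + 1)).prod (mX N)) := by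
    refine ⟨hmF.aestronglyMeasurable, ?_⟩
    rw [hasFiniteIntegral_iff_enorm, lintegral_prod _ hmF.enorm.aemeasurable]
    have h2 : ∀ x : G (N + 1),
        ∫⁻ y, ‖nf N δ x * (d.W w (up (sg N y) * x) * conj (η y))‖ₑ ∂mX N ≤
          ‖nf N δ x‖ₑ * (ENNReal.ofReal (‖d.K w‖ ^ 2) + ENNReal.ofReal (‖b‖ ^ 2)) := fun x => by
      rw [← h1 x, Loc2.ofReal_norm_sq b hae, ← lintegral_add_right _ (hm.enorm.pow_const 2),
        ← lintegral_const_mul' _ _ enorm_ne_top]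
      refine lintegral_mono fun y => ?_
      rw [enorm_mul, enorm_mul, ← ofReal_norm (conj _), Complex.norm_conj, ofReal_norm]
      exact mul_le_mul_right (mul_le_sq _ _) _
    refine lt_of_le_of_lt (lintegral_mono h2) ?_
    rw [lintegral_mul_const _ (nf_cont h).measurable.enorm, lint_nf h, one_mul]
    exact ENNReal.add_lt_top.2 ⟨ENNReal.ofReal_lt_top, ENNReal.ofReal_lt_top⟩
  have h3 : ∀ x : G (N + 1), ∫ y, nf N δ x * (d.W w (up (sg N y) * x) * conj (η y)) ∂mX N =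
      nf N δ x * ⟪b, d.K (d.rho x w)⟫_ℂ := fun x => by
    rw [integral_const_mul, Loc2.inner_eq _ _ hae (d.K_ae _), d.W_rho]
    rfl
  refine ⟨hint.integral_prod_left.congr (ae_of_all _ h3), ?_⟩
  have h4 : d.W (d.av δ w) = conv (nf N δ) (d.W w) := by
    rw [Dat.W, d.av_val h]
    exact hW.conv N _ _ w (nf_cont h) (nf_cs h) (d.cont w)
  rw [Loc2.inner_eq _ _ hae (d.K_ae _), h4, ← integral_congr_ae (ae_of_all _ h3),
    integral_integral_swap hint]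
  refine integral_congr_ae (ae_of_all _ fun y => ?_)
  simp only [conv, ← mul_assoc]
  exact (integral_mul_const _ _).symm

lemma weak (d : Dat N) (δ : ℝ) (h : Loc3.Ok (N + 1) δ) (w : d.V) (b : HK N) (z : ℂ) (B : ℝ)
    (H : ∀ x ∈ Bl (N + 1) δ, ‖⟪b, d.K (d.rho x w)⟫_ℂ - z‖ ≤ B) :
    ‖⟪b, d.K (d.av δ w)⟫_ℂ - z‖ ≤ B := by
  obtain ⟨h1, h2⟩ := inner_av d h w b
  have e : ⟪b, d.K (d.av δ w)⟫_ℂ - z =
      ∫ x, nf N δ x * (⟪b, d.K (d.rho x w)⟫_ℂ - z) ∂mu (N + 1) := by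
    simp only [mul_sub]
    rw [integral_sub h1 (nf_int h continuous_const), integral_mul_const, int_nf h, one_mul, h2]
  rw [e, ← one_mul B, ← int_norm_nf h, ← integral_mul_const]
  refine norm_integral_le_of_norm_le ((nf_int0 h).norm.mul_const _) (ae_of_all _ fun y => ?_)
  rw [norm_mul]
  by_cases a : nf N δ y = 0
  · simp [a]
  · exact mul_le_mul_of_nonneg_left (H y (nf_bl h a)) (norm_nonneg _)

/-! ### The average stays close to the bump -/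

lemma move (N : ℕ) (C0 : ℝ) : ∃ q : ℝ, 0 < q ∧ ∀ (T : ℝ) (hT : 1 ≤ T) (d : Dat N),
    Gam (N + 1) C0 T d.γ → ∀ (w : d.V) (δ : ℝ), Loc3.Ok (N + 1) δ → ∀ x ∈ Bl (N + 1) δ,
      ‖⟪bet N hT, d.K (d.rho x w)⟫_ℂ - ⟪bet N hT, d.K w⟫_ℂ‖ ≤
        q * (δ * T) * ‖bet N hT‖ * ‖d.K w‖ := by
  obtain ⟨C1, hC1, H1⟩ := hL1 N C0 (c1 N) c1_pos c1_ok
  obtain ⟨c, hc, Hc⟩ := bet_lower N
  have q0 : 0 < Real.sqrt (C1 / c) := Real.sqrt_pos.2 (by positivity)
  have q2 : Real.sqrt (C1 / c) ^ 2 = C1 / c := Real.sq_sqrt (by positivity)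
  generalize Real.sqrt (C1 / c) = q at q0 q2
  refine ⟨2 * (N + 1) ^ 3 * q, by positivity, fun T hT d hγ w δ hδ x hx => ?_⟩
  have hT0 : 0 < T := by linarith
  have o1 : Loc3.Ok N (c1 N / T) := ⟨(c1_facts hT).1, (c1_facts hT).2.2.2⟩
  have hn := Loc3.nl_pos (N := N) hT o1.1
  have hB : ∀ g a b, ‖L0 T (c1 N / T) (Rd (em a b) (rt g (d.W w)))‖ ≤
      q * T * ‖bet N hT‖ * ‖d.K w‖ := fun g a b => by
    have a1 := H1 T hT d.α d.γ hγ _ (d.inV (d.rho g w)) (d.cen (d.rho g w)) a b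
    have e1 : W1 (Rd (em a b) (d.rho g w : G (N + 1) → ℂ)) = Rd (em a b) (rt g (d.W w)) := by
      rw [← d.W_rho, ← d.W_e, Dat.W, d.e_val]
    have e2 : KK 1 (W1 (d.rho g w : G (N + 1) → ℂ)) = ENNReal.ofReal (‖d.K w‖ ^ 2) := by
      rw [← d.K_rho g, d.K_sq, Dat.W]
    rw [e1, e2, ← ENNReal.ofReal_mul (by positivity), ← ofReal_norm,
      ← ENNReal.ofReal_pow (norm_nonneg _), ENNReal.ofReal_le_ofReal_iff (by positivity)] at a1
    refine (pow_le_pow_iff_left₀ (norm_nonneg _) (by positivity) two_ne_zero).1 (a1.trans ?_)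
    have a2 : C1 * NL N T (c1 N / T) ≤ q ^ 2 * ‖bet N hT‖ ^ 2 := by
      rw [q2]
      calc C1 * NL N T (c1 N / T) = C1 / c * (c * NL N T (c1 N / T)) := by field_simp
        _ ≤ _ := mul_le_mul_of_nonneg_left (Hc T hT) (by positivity)
    calc C1 * T ^ 2 * NL N T (c1 N / T) * ‖d.K w‖ ^ 2
        = C1 * NL N T (c1 N / T) * (T ^ 2 * ‖d.K w‖ ^ 2) := by ring
      _ ≤ q ^ 2 * ‖bet N hT‖ ^ 2 * (T ^ 2 * ‖d.K w‖ ^ 2) :=
        mul_le_mul_of_nonneg_right a2 (by positivity)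
      _ = _ := by ring
  rw [inner_bet, inner_bet, d.W_rho]
  refine (Loc3.stab hC hL T o1 hδ (d.W_sm w) hB hx).trans (le_of_eq ?_)
  ring

lemma near (N : ℕ) (C0 e3 : ℝ) (h3 : 0 < e3) : ∃ c2 e2 : ℝ, Loc3.Ok (N + 1) (8 * c2) ∧ 0 < e2 ∧
    ∀ (T : ℝ) (hT : 1 ≤ T) (d : Dat N), Gam (N + 1) C0 T d.γ → ∀ w : d.V,
      ‖d.K w - bet N hT‖ ≤ e2 * ‖bet N hT‖ →
      ‖d.K (d.av (c2 / T) w) - bet N hT‖ ≤ e3 * ‖bet N hT‖ := by
  obtain ⟨q, hq, H⟩ := move N C0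
  obtain ⟨c2, hc2, h8, hcq⟩ : ∃ c2 : ℝ, 0 < c2 ∧ 8 * c2 * (2 * ((N + 1 : ℕ) : ℝ) + 2) ≤ 1 ∧
      q * c2 ≤ e3 ^ 2 / 8 := by
    have p : (0 : ℝ) < 8 * (2 * ((N + 1 : ℕ) : ℝ) + 2) := by positivity
    refine ⟨min (8 * (2 * ((N + 1 : ℕ) : ℝ) + 2))⁻¹ (e3 ^ 2 / 8 / q), by positivity, ?_, ?_⟩
    · have a := min_le_left (8 * (2 * ((N + 1 : ℕ) : ℝ) + 2))⁻¹ (e3 ^ 2 / 8 / q)
      have b := mul_le_mul_of_nonneg_left a p.le
      rw [mul_inv_cancel₀ p.ne'] at b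
      linarith
    · have a := min_le_right (8 * (2 * ((N + 1 : ℕ) : ℝ) + 2))⁻¹ (e3 ^ 2 / 8 / q)
      rw [le_div_iff₀ hq] at a
      linarith
  have o8 : Loc3.Ok (N + 1) (8 * c2) := ⟨by positivity, h8⟩
  refine ⟨c2, min 1 (e3 / 2), o8, by positivity, fun T hT d hγ w hw => ?_⟩
  have hT0 : 0 < T := by linarith
  have o2 : Loc3.Ok (N + 1) (c2 / T) := (o8.mono hc2 (by linarith)).div hT
  have a1 := weak d _ o2 w (bet N hT) _ _ (H T hT d hγ w _ o2)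
  rw [div_mul_cancel₀ _ hT0.ne'] at a1
  have a2 := le d (c2 / T) w
  generalize d.K (d.av (c2 / T) w) = u at a1 a2 ⊢
  generalize d.K w = v at a1 a2 hw
  generalize bet N hT = b at a1 hw ⊢
  have b0 := norm_nonneg b
  have a3 : ‖v‖ ≤ 2 * ‖b‖ := by
    have x1 := norm_add_le (v - b) b
    rw [sub_add_cancel] at x1
    have x2 := mul_le_mul_of_nonneg_right (min_le_left 1 (e3 / 2)) b0
    linarith
  have a4 : ‖v - b‖ ^ 2 ≤ (e3 / 2 * ‖b‖) ^ 2 :=
    pow_le_pow_left₀ (norm_nonneg _)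
      (hw.trans (mul_le_mul_of_nonneg_right (min_le_right 1 (e3 / 2)) b0)) 2
  have a5 : ‖⟪b, u⟫_ℂ - ⟪b, v⟫_ℂ‖ ≤ e3 ^ 2 / 8 * ‖b‖ * (2 * ‖b‖) := by
    refine a1.trans ?_
    gcongr
  have a6 := (abs_le.1 ((Complex.abs_re_le_norm _).trans a5)).1
  rw [Complex.sub_re] at a6
  have a7 : ‖u‖ ^ 2 ≤ ‖v‖ ^ 2 := pow_le_pow_left₀ (norm_nonneg _) a2 2
  have a8 := norm_sub_sq (𝕜 := ℂ) b u
  have a9 := norm_sub_sq (𝕜 := ℂ) b v
  rw [norm_sub_rev] at a8 a9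
  simp only [RCLike.re_to_complex] at a8 a9
  refine (pow_le_pow_iff_left₀ (norm_nonneg _) (by positivity) two_ne_zero).1 ?_
  nlinarith [sq_nonneg (e3 * ‖b‖)]

end Cv

theorem cvs : CvStmt :=
  ⟨fun _ d δ w y => Cv.sub d δ w y, fun _ d δ w => Cv.le d δ w, Cv.sob,
    fun _ d δ h w b z B H => Cv.weak d δ h w b z B H, Cv.near⟩

end SW

end Pool.Agent.Lib.MP_fa98d2_nt.D
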