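import Pool.Agent.Lib.MP_fa98d2_nt.W.Low

/-! Short-window density theorem: the defect of skew symmetry between two models. -/

open MeasureTheory Filter Topology Matrix
open scoped ENNReal Real ContDiff ComplexConjugate InnerProductSpace

noncomputable section

namespace Pool.Agent.Lib.MP_fa98d2_nt.D

namespace SW

namespace DefA

variable {N : ℕ}

lemma lsum {A : Type} (l : List A) (t : A → ℂ) (B : ℝ) (h : ∀ x ∈ l, ‖t x‖ ≤ B) :
    ‖(l.map t).sum‖ ≤ l.length * B := by
  induction l with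
  | nil => simp
  | cons a l ih =>
    rw [List.map_cons, List.sum_cons, List.length_cons]
    have h1 := h a List.mem_cons_self
    have h2 := ih fun x hx => h x (List.mem_cons_of_mem _ hx)
    have := norm_add_le (t a) (l.map t).sum
    push_cast
    linarith

lemma lsub {A : Type} (l : List A) (t s : A → ℂ) :
    (l.map fun x => t x - s x).sum = (l.map t).sum - (l.map s).sum := by
  induction l with
  | nil => simp
  | cons a l ih => simp only [List.map_cons, List.sum_cons, ih]; ring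

lemma word (d d0 : Dat N) (l : Wd N) (h : ∀ y ∈ l, ∀ f g, dd d d0 y.1 y.2 f g = 0) (f : d.V)
    (g : d0.V) : ⟪d0.K g, d.K (ew d.e l f)⟫_ℂ =
      (-1) ^ l.length * ⟪d0.K (ew d0.e l.reverse g), d.K f⟫_ℂ := by
  induction l generalizing g with
  | nil => simp
  | cons y l ih =>
    have h1 := h y List.mem_cons_self (ew d.e l f) g
    rw [dd, add_eq_zero_iff_eq_neg, ih fun y hy => h y (List.mem_cons_of_mem _ hy)] at h1
    rw [Kappa.ew_cons, Module.End.mul_apply, h1, List.reverse_cons, Kappa.ew_append,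
      List.length_cons, pow_succ]
    simp

/-- the pairing with the formal adjoint of a combination of words -/
def st (d0 : Dat N) (z : List (ℂ × Wd N)) (v : d0.V) (h : HK N) : ℂ :=
  (z.map fun x => x.1 * ((-1) ^ x.2.length * ⟪d0.K (ew d0.e x.2.reverse v), h⟫_ℂ)).sum

lemma inner_ecomb (d : Dat N) (z : List (ℂ × Wd N)) (h : HK N) (f : d.V) :
    ⟪h, d.K (ecomb d.e z f)⟫_ℂ = (z.map fun x => x.1 * ⟪h, d.K (ew d.e x.2 f)⟫_ℂ).sum := by
  induction z with
  | nil => simp [ecomb]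
  | cons x z ih =>
    rw [List.map_cons, List.sum_cons, ← ih]
    simp [ecomb, inner_add_right, inner_smul_right]

lemma comb (d d0 : Dat N) (z : List (ℂ × Wd N))
    (h : ∀ x ∈ z, ∀ y ∈ x.2, ∀ f g, dd d d0 y.1 y.2 f g = 0) (f : d.V) (g : d0.V) :
    ⟪d0.K g, d.K (ecomb d.e z f)⟫_ℂ = st d0 z g (d.K f) := by
  rw [inner_ecomb, st]
  congr 1
  exact List.map_congr_left fun x hx => by rw [word d d0 _ (h x hx)]

lemma st_rep (d0 : Dat N) (z : List (ℂ × Wd N)) (v : d0.V) :
    ∃ y : d0.V, ∀ h, st d0 z v h = ⟪d0.K y, h⟫_ℂ := by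
  induction z with
  | nil => exact ⟨0, fun h => by simp [st]⟩
  | cons x z ih =>
    obtain ⟨y, hy⟩ := ih
    refine ⟨conj (x.1 * (-1) ^ x.2.length) • ew d0.e x.2.reverse v + y, fun h => ?_⟩
    rw [map_add, map_smul, inner_add_left, inner_smul_left, ← hy, Complex.conj_conj, mul_assoc]
    simp only [st, List.map_cons, List.sum_cons]

/-- the coefficients after evaluation of the invariants -/
def zz (γ : ℕ → ℂ) (z : List (ℂ × List ℕ × Wd N)) : List (ℂ × Wd N) :=
  z.map fun x => (x.1 * (x.2.1.map γ).prod, x.2.2)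

lemma gcomb_eq (d : Dat N) (z : List (ℂ × List ℕ × Wd N)) :
    gcomb d.e z = ecomb d.e (zz d.γ z) := by
  have h : ∀ ms : List ℕ, (ms.map (egel d.e)).prod =
      (ms.map d.γ).prod • (1 : Module.End ℂ d.V) := by
    intro ms
    induction ms with
    | nil => simp
    | cons m ms ih =>
      rw [List.map_cons, List.prod_cons, ih, d.egel_eq, List.map_cons, List.prod_cons,
        smul_mul_smul_comm, one_mul]
  simp only [gcomb, ecomb, zz, List.map_map, h, Function.comp_def, smul_mul_assoc, one_mul,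
    smul_smul]

lemma gam (C0 : ℝ) (ms : List ℕ) (hm : PM N ms) : ∃ C : ℝ, 0 < C ∧ ∀ T U : ℝ, 1 ≤ U → U ≤ T →
    ∀ γ γ0 : ℕ → ℂ, Gam (N + 1) C0 T γ → Gam (N + 1) C0 T γ0 → Near (N + 1) C0 T U γ γ0 →
      ‖(ms.map γ).prod‖ ≤ C * T ^ ms.sum ∧
      T * ‖(ms.map γ).prod - (ms.map γ0).prod‖ ≤ C * U * T ^ ms.sum := by
  induction ms with
  | nil => exact ⟨1, one_pos, fun T U hU _ _ _ _ _ _ => by simp; linarith⟩
  | cons m ms ih =>
    obtain ⟨C, hC, h⟩ := ih fun x hx => hm x (List.mem_cons_of_mem _ hx)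
    obtain ⟨m1, m2⟩ := hm m List.mem_cons_self
    refine ⟨2 * (|C0| + 1) * C, by positivity, fun T U hU hUT γ γ0 h1 h2 h3 => ?_⟩
    obtain ⟨a1, a2⟩ := h T U hU hUT γ γ0 h1 h2 h3
    have hT : 0 < T := by linarith
    have hC0 : C0 ≤ |C0| + 1 := (le_abs_self _).trans (by linarith)
    have b1 : ‖γ m‖ ≤ (|C0| + 1) * T ^ m := (h1 m m2).trans (by gcongr)
    have b2 : ‖γ0 m‖ ≤ (|C0| + 1) * T ^ m := (h2 m m2).trans (by gcongr)
    have b3 : T * ‖γ m - γ0 m‖ ≤ (|C0| + 1) * U * T ^ m := by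
      obtain ⟨k, rfl⟩ : ∃ k, m = k + 1 := ⟨m - 1, by omega⟩
      calc T * ‖γ (k + 1) - γ0 (k + 1)‖ ≤ T * ((|C0| + 1) * U * T ^ k) := by
            gcongr
            exact (h3 _ m2).trans (by rw [Nat.add_sub_cancel]; gcongr)
        _ = _ := by ring
    simp only [List.map_cons, List.prod_cons, List.sum_cons, pow_add]
    have p1 : 0 ≤ (|C0| + 1) * T ^ m * (C * T ^ ms.sum) := by positivity
    constructor
    · rw [norm_mul]
      calc ‖γ m‖ * ‖(ms.map γ).prod‖ ≤ (|C0| + 1) * T ^ m * (C * T ^ ms.sum) := by gcongr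
        _ ≤ _ := by linarith
    · have e : γ m * (ms.map γ).prod - γ0 m * (ms.map γ0).prod =
          (γ m - γ0 m) * (ms.map γ).prod + γ0 m * ((ms.map γ).prod - (ms.map γ0).prod) := by ring
      rw [e]
      calc T * ‖(γ m - γ0 m) * (ms.map γ).prod + γ0 m * ((ms.map γ).prod - (ms.map γ0).prod)‖
          ≤ T * (‖γ m - γ0 m‖ * ‖(ms.map γ).prod‖ +
            ‖γ0 m‖ * ‖(ms.map γ).prod - (ms.map γ0).prod‖) := by
            gcongr
            exact (norm_add_le _ _).trans (by rw [norm_mul, norm_mul])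
        _ = T * ‖γ m - γ0 m‖ * ‖(ms.map γ).prod‖ +
            ‖γ0 m‖ * (T * ‖(ms.map γ).prod - (ms.map γ0).prod‖) := by ring
        _ ≤ (|C0| + 1) * U * T ^ m * (C * T ^ ms.sum) +
            (|C0| + 1) * T ^ m * (C * U * T ^ ms.sum) := by gcongr
        _ = _ := by ring

lemma geo (hM : MulStmt) (P : Mop N) (M : ℕ) : ∀ J : ℕ, ∃ C : ℝ, 0 < C ∧
    ∀ (d : Dat N) (T a : ℝ) (w : d.V), 1 ≤ T → d.Sb T a (J + M * P.deg) w →
      d.Sb T (C * a) J ((∑ k ∈ Finset.range M, P.op d T ^ k) w) := by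
  induction M with
  | zero =>
    refine fun J => ⟨1, one_pos, fun d T a w hT h l hl => ?_⟩
    have := (norm_nonneg _).trans (h l (by omega))
    simpa using this
  | succ M ih =>
    intro J
    obtain ⟨C, hC, h1⟩ := ih (J + P.deg)
    obtain ⟨C', hC', h2⟩ := hM.sb N P J
    refine ⟨C' * C + 1, by positivity, fun d T a w hT h l hl => ?_⟩
    have a1 := h2 d T _ _ hT (h1 d T a w hT (by rwa [add_mul, one_mul, add_comm (M * P.deg),
      ← add_assoc] at h)) l hl
    have a2 := h l (by omega)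
    rw [geom_sum_succ, LinearMap.add_apply, map_add, map_add, Module.End.mul_apply,
      Module.End.one_apply]
    refine (norm_add_le _ _).trans ?_
    linarith

end DefA

open DefA in
theorem dfs (hA : AlgStmt) (hK : KirStmt) (hE : ExStmt) (hM : MulStmt) : DefStmt := by
  intro N M C0
  obtain ⟨P, hdeg, hP⟩ := hE.exB N
  obtain ⟨C2, hC2, hgeo⟩ := geo hM P M (DD N + 1)
  have main : ∀ i : Fin (N + 1), ∃ C : ℝ, 0 < C ∧ ∀ T U : ℝ, 1 ≤ U → U ≤ T → ∀ d d0 : Dat N,
      Gam (N + 1) C0 T d.γ → Gam (N + 1) C0 T d0.γ → Near (N + 1) C0 T U d.γ d0.γ →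
      ∀ (f : d.V) (g : d0.V) (a : ℝ), d.Sb T a (DD N + 1) f → d0.Sb T (C2 * a) (DD N + 1) g →
        ‖dd d d0 (Fin.last N) i f ((1 - d0.B T) g)‖ ≤ C * U * a ^ 2 := by
    intro i
    obtain ⟨z, low, hz, hlow, halg⟩ := hA N i
    obtain ⟨Cz, hCz, h1⟩ := LowA.unif z (fun x C => PM N x.2.1 → ∀ T U : ℝ, 1 ≤ U → U ≤ T →
        ∀ γ γ0 : ℕ → ℂ, Gam (N + 1) C0 T γ → Gam (N + 1) C0 T γ0 → Near (N + 1) C0 T U γ γ0 →
        T * ‖x.1 * (x.2.1.map γ).prod - x.1 * (x.2.1.map γ0).prod‖ ≤ C * U * T ^ x.2.1.sum)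
      (fun x => by
        by_cases hx : PM N x.2.1
        · obtain ⟨C, hC, h⟩ := gam C0 _ hx
          refine ⟨(‖x.1‖ + 1) * C, by positivity, fun _ T U hU hUT γ γ0 a1 a2 a3 => ?_⟩
          have := (h T U hU hUT γ γ0 a1 a2 a3).2
          have hT : 0 < T := by linarith
          rw [← mul_sub, norm_mul, mul_left_comm, mul_assoc, mul_assoc, ← mul_assoc C]
          gcongr
          linarith
        · exact ⟨1, one_pos, fun h => (hx h).elim⟩)
      (fun x C C' hC h hx T U hU hUT γ γ0 a1 a2 a3 => (h hx T U hU hUT γ γ0 a1 a2 a3).trans (by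
        have hT : 0 < T := by linarith
        gcongr))
    obtain ⟨Cl, hCl, h2⟩ := LowA.unif low (fun x C => ‖x.1‖ ≤ C)
      (fun x => ⟨‖x.1‖ + 1, by positivity, by linarith⟩) fun x C C' hC h => h.trans hC
    refine ⟨z.length * (Cz * C2) + 2 * (low.length * (Cl * C2)) + 1, by positivity,
      fun T U hU hUT d d0 hd hd0 hnr f g a hf hg => ?_⟩
    have hT : 1 ≤ T := hU.trans hUT
    have hTp : 0 < T := by linarith
    have hf0 : ‖d.K f‖ ≤ a := by simpa using hf [] (by simp)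
    have ha : 0 ≤ a := (norm_nonneg _).trans hf0
    have hg0 : ‖d0.K g‖ ≤ C2 * a := by simpa using hg [] (by simp)
    have e1 : ∀ (d : Dat N) (f : d.V), ⟪d0.K ((1 - d0.B T) g), d.K (d.e (Fin.last N) i f)⟫_ℂ =
        (D0 N T)⁻¹ * (st d0 (zz d.γ z) g (d.K f) + ⟪d0.K g, d.K (ecomb d.e low f)⟫_ℂ) := by
      intro d f
      have b1 : ⟪d0.K ((1 - d0.B T) g), d.K (d.e (Fin.last N) i f)⟫_ℂ =
          ⟪d0.K g, d.K ((1 - d.B T) (d.e (Fin.last N) i f))⟫_ℂ := by
        simp only [LinearMap.sub_apply, Module.End.one_apply, map_sub, inner_sub_left,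
          inner_sub_right]
        rw [← hP d T hTp, ← hP d0 T hTp, hM.adj N P d d0 T hTp]
      have b2 : 1 - d.B T = (D0 N T)⁻¹ • Kappa.kap d.e :=
        LinearMap.ext fun w => by simp [Dat.B]
      rw [b1, b2, LinearMap.smul_apply, map_smul, inner_smul_right,
        ← Module.End.mul_apply, halg _ _ d.e_comm, LinearMap.add_apply, map_add, inner_add_right,
        gcomb_eq, comb d d0 _ fun x hx y hy => ?_]
      obtain ⟨x', hx', rfl⟩ := List.mem_map.1 hx
      exact hK.cross N d d0 _ _ ((hz x' hx').2.1 y hy)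
    have e2 : ∀ h : HK N, ⟪d0.K (d0.e (Fin.last N) i ((1 - d0.B T) g)), h⟫_ℂ =
        -((D0 N T)⁻¹ * (st d0 (zz d0.γ z) g h + st d0 low g h)) := by
      obtain ⟨y1, hy1⟩ := st_rep d0 (zz d0.γ z) g
      obtain ⟨y2, hy2⟩ := st_rep d0 low g
      set y := d0.e (Fin.last N) i ((1 - d0.B T) g) + conj (D0 N T)⁻¹ • (y1 + y2) with hy
      have b1 : ∀ h : HK N, ⟪d0.K y, h⟫_ℂ = ⟪d0.K (d0.e (Fin.last N) i ((1 - d0.B T) g)), h⟫_ℂ +
          (D0 N T)⁻¹ * (st d0 (zz d0.γ z) g h + st d0 low g h) := fun h => by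
        rw [hy, map_add, map_smul, map_add, inner_add_left, inner_smul_left, inner_add_left, hy1,
          hy2, Complex.conj_conj]
      have b2 : d0.K y = 0 := by
        rw [← inner_self_eq_zero (𝕜 := ℂ), b1, ← comb d0 d0 low (fun x _ y _ => hK.skew N d0 _ _),
          ← e1, add_comm]
        exact hK.skew N d0 _ _ _ _
      intro h
      rw [← add_eq_zero_iff_eq_neg, ← b1, b2, inner_zero_left]
    have e3 : st d0 (zz d.γ z) g (d.K f) - st d0 (zz d0.γ z) g (d.K f) =
        (z.map fun x => (x.1 * (x.2.1.map d.γ).prod - x.1 * (x.2.1.map d0.γ).prod) *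
          ((-1) ^ x.2.2.length * ⟪d0.K (ew d0.e x.2.2.reverse g), d.K f⟫_ℂ)).sum := by
      simp only [st, zz, List.map_map, Function.comp_def, sub_mul, lsub]
    have f1 : ‖st d0 (zz d.γ z) g (d.K f) - st d0 (zz d0.γ z) g (d.K f)‖ ≤
        z.length * (Cz * C2 * U * a ^ 2 * T ^ DD N) := by
      rw [e3]
      refine lsum _ _ _ fun x hx => ?_
      obtain ⟨c1, -, c3⟩ := hz x hx
      have c4 := h1 x hx c1 T U hU hUT _ _ hd hd0 hnr
      have c5 := hg x.2.2.reverse (by rw [List.length_reverse]; omega)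
      rw [List.length_reverse] at c5
      refine le_of_mul_le_mul_left ?_ hTp
      rw [norm_mul, norm_mul, norm_pow, norm_neg, norm_one, one_pow, one_mul, ← mul_assoc]
      calc _ ≤ Cz * U * T ^ x.2.1.sum * (C2 * a * T ^ x.2.2.length * a) := by
            gcongr
            exact (norm_inner_le_norm _ _).trans (by gcongr)
        _ = Cz * C2 * U * a ^ 2 * T ^ (x.2.1.sum + x.2.2.length) := by ring
        _ = _ := by rw [c3]; ring
    have f2 : ‖⟪d0.K g, d.K (ecomb d.e low f)⟫_ℂ‖ ≤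
        low.length * (Cl * C2 * a ^ 2 * T ^ DD N) := by
      rw [inner_ecomb]
      refine lsum _ _ _ fun x hx => ?_
      have c1 := hf x.2 ((hlow x hx).trans (Nat.le_succ _))
      have c2 : T ^ x.2.length ≤ T ^ DD N := pow_le_pow_right₀ hT (hlow x hx)
      have c3 := h2 x hx
      rw [norm_mul]
      calc _ ≤ Cl * (C2 * a * (a * T ^ DD N)) := by
            gcongr
            exact (norm_inner_le_norm _ _).trans (by gcongr; exact c1.trans (by gcongr))
        _ = _ := by ring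
    have f3 : ‖st d0 low g (d.K f)‖ ≤ low.length * (Cl * C2 * a ^ 2 * T ^ DD N) := by
      refine lsum _ _ _ fun x hx => ?_
      have c1 := hg x.2.reverse (by
        rw [List.length_reverse]; exact (hlow x hx).trans (Nat.le_succ _))
      rw [List.length_reverse] at c1
      have c2 : T ^ x.2.length ≤ T ^ DD N := pow_le_pow_right₀ hT (hlow x hx)
      have c3 := h2 x hx
      rw [norm_mul, norm_mul, norm_pow, norm_neg, norm_one, one_pow, one_mul]
      calc _ ≤ Cl * (C2 * a * T ^ DD N * a) := by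
            gcongr
            exact (norm_inner_le_norm _ _).trans (by gcongr; exact c1.trans (by gcongr))
        _ = _ := by ring
    have f4 : ‖(D0 N T)⁻¹‖ ≤ (T ^ DD N)⁻¹ := by
      rw [norm_inv, norm_D0 hTp.le]
      gcongr
      exact le_mul_of_one_le_left (by positivity) (one_le_pow₀ (by linarith [Real.pi_gt_three]))
    have e4 : dd d d0 (Fin.last N) i f ((1 - d0.B T) g) = (D0 N T)⁻¹ *
        ((st d0 (zz d.γ z) g (d.K f) - st d0 (zz d0.γ z) g (d.K f)) +
          (⟪d0.K g, d.K (ecomb d.e low f)⟫_ℂ - st d0 low g (d.K f))) := by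
      rw [dd, e1, e2]; ring
    rw [e4, norm_mul]
    have f5 : low.length * (Cl * C2 * a ^ 2 * T ^ DD N) ≤
        low.length * (Cl * C2 * a ^ 2 * T ^ DD N) * U :=
      le_mul_of_one_le_right (by positivity) hU
    calc _ ≤ (T ^ DD N)⁻¹ * (z.length * (Cz * C2 * U * a ^ 2 * T ^ DD N) +
          2 * (low.length * (Cl * C2 * a ^ 2 * T ^ DD N) * U)) := by
          gcongr
          refine (norm_add_le _ _).trans (add_le_add f1 ((norm_sub_le _ _).trans ?_))
          linarith
      _ = (z.length * (Cz * C2) + 2 * (low.length * (Cl * C2))) * U * a ^ 2 := by field_simp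
      _ ≤ _ := mul_le_mul_of_nonneg_right
        (mul_le_mul_of_nonneg_right (by linarith) (by linarith)) (by positivity)
  choose Cf hCf hmain using main
  refine ⟨∑ i, Cf i, Finset.sum_nonneg fun i _ => (hCf i).le,
    fun T U hU hUT d d0 hd hd0 hnr f g a a2 hf hg hB i => ?_⟩
  have hT : 1 ≤ T := hU.trans hUT
  have hTp : 0 < T := by linarith
  have h1 := hgeo d0 T a g hT (by
    rwa [hdeg, show DD N + 1 + M * DD N = DD N * (M + 1) + 1 by ring])
  rw [hP d0 T hTp] at h1
  have h2 := hmain i T U hU hUT d d0 hd hd0 hnr f _ a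
    (fun l hl => hf l (hl.trans (by nlinarith [Nat.zero_le (DD N * M)]))) h1
  have e : g = (1 - d0.B T) ((∑ k ∈ Finset.range M, d0.B T ^ k) g) + (d0.B T ^ M) g := by
    have := congrArg (fun A : Module.End ℂ d0.V => A g) (mul_neg_geom_sum (d0.B T) M)
    simp only [Module.End.mul_apply, LinearMap.sub_apply, Module.End.one_apply] at this ⊢
    rw [this, sub_add_cancel]
  have e2 : dd d d0 (Fin.last N) i f g =
      dd d d0 (Fin.last N) i f ((1 - d0.B T) ((∑ k ∈ Finset.range M, d0.B T ^ k) g)) +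
        dd d d0 (Fin.last N) i f ((d0.B T ^ M) g) := by
    conv_lhs => rw [e]
    simp only [dd, map_add, inner_add_left]; ring
  have b1 : ‖d.K f‖ ≤ a := by simpa using hf [] (by simp)
  have b2 : ‖d.K (d.e (Fin.last N) i f)‖ ≤ a * T := by
    simpa using hf [(Fin.last N, i)] (by simp)
  have b3 : ‖d0.K ((d0.B T ^ M) g)‖ ≤ a2 := by simpa using hB [] (by simp)
  have b4 : ‖d0.K (d0.e (Fin.last N) i ((d0.B T ^ M) g))‖ ≤ a2 * T := by
    simpa using hB [(Fin.last N, i)] (by simp)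
  have ha2 : 0 ≤ a2 := (norm_nonneg _).trans b3
  rw [e2]
  refine (norm_add_le _ _).trans (add_le_add (h2.trans ?_) ?_)
  · gcongr
    exact Finset.single_le_sum (fun i _ => (hCf i).le) (Finset.mem_univ i)
  · refine (norm_add_le _ _).trans ?_
    have c1 := (norm_inner_le_norm (𝕜 := ℂ) (d0.K ((d0.B T ^ M) g))
      (d.K (d.e (Fin.last N) i f))).trans (mul_le_mul b3 b2 (norm_nonneg _) ha2)
    have c2 := (norm_inner_le_norm (𝕜 := ℂ) (d0.K (d0.e (Fin.last N) i ((d0.B T ^ M) g)))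
      (d.K f)).trans (mul_le_mul b4 b1 (norm_nonneg _) (by positivity))
    linarith

end SW

end Pool.Agent.Lib.MP_fa98d2_nt.D
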