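import Pool.Agent.Lib.MP_fa98d2_nt.W.Stmts

/-! Operators that act on Kirillov functions as multiplication by minors. -/

open MeasureTheory Filter Topology Matrix
open scoped ENNReal Real ContDiff ComplexConjugate InnerProductSpace

noncomputable section

namespace Pool.Agent.Lib.MP_fa98d2_nt.D

namespace SW

namespace Ex

open Kappa

variable {N : ℕ}

/-- the free algebra on the letters -/
abbrev FA (N : ℕ) : Type := FreeAlgebra ℂ (Fin (N + 1) × Fin (N + 1))

/-- the letters -/
def io (N : ℕ) (a b : Fin (N + 1)) : FA N := FreeAlgebra.ι ℂ (a, b)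

/-- the action of the free algebra -/
def lf {M : Type} [AddCommGroup M] [Module ℂ M]
    (e : Fin (N + 1) → Fin (N + 1) → Module.End ℂ M) : FA N →ₐ[ℂ] Module.End ℂ M :=
  FreeAlgebra.lift ℂ fun p : Fin (N + 1) × Fin (N + 1) => e p.1 p.2

theorem lf_io {M : Type} [AddCommGroup M] [Module ℂ M]
    (e : Fin (N + 1) → Fin (N + 1) → Module.End ℂ M) : (fun a b => lf e (io N a b)) = e := by
  funext a b
  simp [lf, io]

/-- homogeneous elements of degree `k` -/
def Hom (N k : ℕ) : Submodule ℂ (FA N) where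
  carrier := {x | ∃ z : List (ℂ × Wd N), (∀ y ∈ z, y.2.length = k) ∧
    ∀ (M : Type) [AddCommGroup M] [Module ℂ M] (e : Fin (N + 1) → Fin (N + 1) → Module.End ℂ M),
      lf e x = ecomb e z}
  zero_mem' := ⟨[], by simp, fun M _ _ e => by simp [ecomb]⟩
  add_mem' := by
    rintro a b ⟨z, h1, h2⟩ ⟨z', h3, h4⟩
    exact ⟨z ++ z', fun y hy => (List.mem_append.1 hy).elim (h1 y) (h3 y),
      fun M _ _ e => by rw [map_add, h2, h4, ecomb_append]⟩
  smul_mem' := by
    rintro c a ⟨z, h1, h2⟩
    refine ⟨z.map fun b => (c * b.1, [] ++ b.2), fun y hy => ?_, fun M _ _ e => ?_⟩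
    · obtain ⟨b, hb, rfl⟩ := List.mem_map.1 hy
      exact h1 b hb
    · rw [map_smul, h2]
      exact ((ecomb_left e (c, []) z).trans (by simp)).symm

theorem hom_one : (1 : FA N) ∈ Hom N 0 :=
  ⟨[(1, [])], by simp, fun M _ _ e => by simp [ecomb]⟩

theorem hom_io (a b : Fin (N + 1)) : io N a b ∈ Hom N 1 :=
  ⟨[(1, [(a, b)])], by simp, fun M _ _ e => by simp [ecomb, lf, io]⟩

theorem hom_mul {x y : FA N} {k l : ℕ} (hx : x ∈ Hom N k) (hy : y ∈ Hom N l) :
    x * y ∈ Hom N (k + l) := by
  obtain ⟨z, h1, h2⟩ := hx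
  obtain ⟨z', h3, h4⟩ := hy
  refine ⟨_, fun y hy => ?_, fun M _ _ e => by rw [map_mul, h2, h4, ← ecomb_mul]⟩
  obtain ⟨a, ha, hy⟩ := List.mem_flatMap.1 hy
  obtain ⟨b, hb, rfl⟩ := List.mem_map.1 hy
  rw [List.length_append, h1 a ha, h3 b hb]

theorem hom_prod : ∀ {m : ℕ} (x : Fin m → FA N) (k : Fin m → ℕ), (∀ i, x i ∈ Hom N (k i)) →
    (List.ofFn x).prod ∈ Hom N (∑ i, k i)
  | 0, _, _, _ => by simpa using hom_one
  | m + 1, x, k, h => by
    rw [List.ofFn_succ, List.prod_cons, Fin.sum_univ_succ]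
    exact hom_mul (h 0) (hom_prod _ _ fun i => h i.succ)

theorem hom_vv (k : ℕ) : ∀ i, vv (io N) k i ∈ Hom N (k + 1) := by
  induction k with
  | zero => exact fun i => hom_io _ _
  | succ k ih => exact fun i => Submodule.sum_mem _ fun j _ => hom_mul (ih j) (hom_io _ _)

theorem hom_alt (x : Fin N → Fin N → FA N) (k : Fin N → ℕ) (h : ∀ i m, x i m ∈ Hom N (k i)) :
    ∑ σ : Equiv.Perm (Fin N), Equiv.Perm.sign σ • (List.ofFn fun i => x i (σ i)).prod ∈
      Hom N (∑ i, k i) :=
  Submodule.sum_mem _ fun σ _ => by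
    rw [Units.smul_def]
    exact zsmul_mem (hom_prod _ _ fun i => h i (σ i)) _

theorem sum_succ (N : ℕ) : ∑ i : Fin N, (i.val + 1) = DD N := by
  rw [DD, ← Loc3.sum_tT, ← Equiv.sum_comp Fin.revPerm]
  exact Finset.sum_congr rfl fun i _ => by
    have := i.2
    rw [Fin.revPerm_apply, Fin.val_rev]
    omega

theorem hom_kap : kap (io N) ∈ Hom N (DD N) :=
  sum_succ N ▸ hom_alt (fun k => vv (io N) k) (fun k => k.val + 1) fun k => hom_vv k

section alt
variable {M : Type} [AddCommGroup M] [Module ℂ M] {ι : Type} [Fintype ι] [DecidableEq ι]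

theorem chain (L : M →ₗ[ℂ] ℂ) : ∀ {m : ℕ} (x : Fin m → Module.End ℂ M) (P : Fin m → Prop)
    [DecidablePred P] (a : Fin m → ℂ),
    (∀ k, (∀ k' < k, P k') → L ∘ₗ x k = (if P k then a k else 0) • L) →
    L ∘ₗ (List.ofFn x).prod = (∏ k, if P k then a k else 0) • L
  | 0, _, _, _, _, _ => by
    ext w
    simp
  | m + 1, x, P, _, a, h => by
    rw [List.ofFn_succ, List.prod_cons, comp_mul, h 0 (fun _ g => absurd g (Fin.not_lt_zero _)),
      Fin.prod_univ_succ, LinearMap.smul_comp]
    by_cases h0 : P 0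
    · rw [chain L (fun k => x k.succ) (fun k => P k.succ) (fun k => a k.succ) fun k hk =>
        h k.succ fun k' => Fin.cases (fun _ => h0) (fun k' g => hk k' (Fin.succ_lt_succ_iff.1 g)) k',
        smul_smul]
    · rw [if_neg h0, zero_smul, zero_mul, zero_smul]

theorem alt_eq (u : Fin N → ι → Module.End ℂ M) (L : M →ₗ[ℂ] ℂ) (r : Fin N → ι) (a : Fin N → ℂ)
    (h : ∀ v : Fin N → ι, Function.Injective v → ∀ k, (∀ k' < k, v k' = r k') →
      L ∘ₗ u k (v k) = (if v k = r k then a k else 0) • L) (y : Fin N → ι → ℂ) :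
    L ∘ₗ ∑ σ : Equiv.Perm (Fin N), Equiv.Perm.sign σ •
        (List.ofFn fun k => ∑ l, y (σ k) l • u k l).prod =
      (Matrix.of fun m k => a k * y m (r k)).det • L := by
  let m : MultilinearMap ℂ (fun _ : Fin N => ι → ℂ) (Module.End ℂ M) :=
    (MultilinearMap.mkPiAlgebraFin ℂ N _).compLinearMap fun k => Fintype.linearCombination ℂ (u k)
  have hm : ∀ y : Fin N → ι → ℂ, MultilinearMap.alternatization m y =
      ∑ σ : Equiv.Perm (Fin N), Equiv.Perm.sign σ •
        (List.ofFn fun k : Fin N => ∑ l, y (σ k) l • u k l).prod := fun y => by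
    rw [MultilinearMap.alternatization_apply]
    rfl
  have key : (LinearMap.llcomp ℂ M M ℂ L).compAlternatingMap (MultilinearMap.alternatization m) =
      (Matrix.detRowAlternating.compLinearMap
        (LinearMap.pi fun k => a k • LinearMap.proj (r k) : (ι → ℂ) →ₗ[ℂ] Fin N → ℂ)).smulRight L := by
    refine (Pi.basisFun ℂ ι).ext_alternating fun v hv => ?_
    change L ∘ₗ MultilinearMap.alternatization m _ =
      (Matrix.of fun m k => a k * Pi.basisFun ℂ ι (v m) (r k)).det • L
    rw [hm, comp_sum, Matrix.det_apply', Finset.sum_smul]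
    refine Finset.sum_congr rfl fun σ _ => ?_
    have e1 : ∀ k, ∑ l, Pi.basisFun ℂ ι (v (σ k)) l • u k l = u k (v (σ k)) := fun k => by
      simp [Pi.single_apply, ite_smul]
    have e2 := chain L (fun k => u k (v (σ k))) (fun k => v (σ k) = r k) a
      (h (v ∘ σ) (hv.comp σ.injective))
    simp only [e1]
    rw [Units.smul_def, ← Int.cast_smul_eq_zsmul ℂ, LinearMap.comp_smul, e2, smul_smul]
    congr 2
    refine Finset.prod_congr rfl fun k _ => ?_
    simp [Pi.single_apply, eq_comm]
  rw [← hm]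
  exact DFunLike.congr_fun key y

end alt

section fac
variable {A : Type} [Ring A] [Algebra ℂ A] (j i : Fin N)

/-- the factors of the antisymmetrised product -/
def fac (e : Fin (N + 1) → Fin (N + 1) → A) (g : Matrix (Fin N) (Fin N) ℂ) (k m : Fin N) : A :=
  if k.rev < j then (if k.rev = m then 1 else 0) else
    ∑ l, g l (if m = j then i else m) • vv e k l

/-- the antisymmetrised product -/
def kq (e : Fin (N + 1) → Fin (N + 1) → A) (g : Matrix (Fin N) (Fin N) ℂ) : A :=
  ∑ σ : Equiv.Perm (Fin N), Equiv.Perm.sign σ • (List.ofFn fun k => fac j i e g k (σ k)).prod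

theorem map_kq {B : Type} [Ring B] [Algebra ℂ B] (φ : A →ₐ[ℂ] B)
    (e : Fin (N + 1) → Fin (N + 1) → A) (g : Matrix (Fin N) (Fin N) ℂ) :
    φ (kq j i e g) = kq j i (fun a b => φ (e a b)) g := by
  simp only [kq, fac, map_sum, Units.smul_def, map_zsmul, map_list_prod, List.map_ofFn,
    Function.comp_def, map_vv, apply_ite φ, map_one, map_zero, map_smul]

theorem hom_kq (g : Matrix (Fin N) (Fin N) ℂ) :
    kq j i (io N) g ∈ Hom N (∑ k : Fin N, if k.rev < j then 0 else k.val + 1) :=
  hom_alt _ _ fun k m => by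
    unfold fac
    split_ifs
    exacts [hom_one, zero_mem _, Submodule.sum_mem _ fun l _ => Submodule.smul_mem _ _ (hom_vv k l),
      Submodule.sum_mem _ fun l _ => Submodule.smul_mem _ _ (hom_vv k l)]

theorem rho_kq (e : Fin (N + 1) → Fin (N + 1) → A) (ρ : A) (g : Matrix (Fin N) (Fin N) ℂ)
    (h : ∀ k m, ρ * vv e k m = (∑ l, g l m • vv e k l) * ρ) :
    ρ * kq j i e 1 = kq j i e g * ρ := by
  rw [kq, kq, Finset.mul_sum, Finset.sum_mul]
  refine Finset.sum_congr rfl fun σ _ => ?_
  rw [mul_smul_comm, smul_mul_assoc, mul_list_prod ρ _ _ fun k => ?_]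
  unfold fac
  by_cases c : k.rev < j
  · simp only [if_pos c, mul_ite, ite_mul, mul_one, one_mul, mul_zero, zero_mul]
  · rw [if_neg c, if_neg c, ← h]
    simp [Matrix.one_apply, ite_smul]

theorem whit_kq {M : Type} [AddCommGroup M] [Module ℂ M]
    {e : Fin (N + 1) → Fin (N + 1) → Module.End ℂ M} (he : Comm 1 e) {c : ℂ} {L : M →ₗ[ℂ] ℂ}
    (hL : WhF c e L) (g : Matrix (Fin N) (Fin N) ℂ) :
    L ∘ₗ kq j i e g = (Matrix.of fun m k : Fin N => if k.rev < j then (if k.rev = m then 1 else 0)
      else c ^ (k.val + 1) * g k.rev (if m = j then i else m)).det • L := by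
  have := alt_eq (ι := Fin N ⊕ Fin N) (fun k => Sum.elim
      (fun l => if k.rev < j then 0 else vv e k l) fun l => if k.rev < j ∧ l = k then 1 else 0) L
    (fun k => if k.rev < j then .inr k else .inl k.rev)
    (fun k => if k.rev < j then 1 else c ^ (k.val + 1)) (fun v hv k hk => ?_)
    fun m => Sum.elim (fun l => g l (if m = j then i else m)) fun l => if l.rev = m then 1 else 0
  · refine Eq.trans (congrArg (L ∘ₗ ·) (Finset.sum_congr rfl fun σ _ => ?_)) (this.trans ?_)
    · refine congrArg (fun x => _ • (List.ofFn x).prod) (funext fun k => ?_)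
      unfold fac
      rw [Fintype.sum_sum_type]
      by_cases c : k.rev < j <;> simp [c, ite_smul]
    · refine congrArg (fun x : Matrix _ _ ℂ => x.det • L) ?_
      ext m k
      by_cases c : k.rev < j <;> simp [c]
  · by_cases c : k.rev < j
    · simp only [if_pos c]
      rcases v k with l | l
      · simp [c]
      · by_cases g : l = k
        · subst g
          ext w
          simp [c]
        · simp [g]
    · simp only [if_neg c]
      have hk' : ∀ k' < k, v k' = .inl k'.rev := fun k' g => by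
        rw [hk k' g, if_neg fun g' => c ((Fin.rev_lt_rev.2 g).trans g')]
      rcases hx : v k with l | l
      · have hle : l.val + k.val + 1 ≤ N := by
          by_contra hc
          have h1 : l.rev < k := by rw [Fin.lt_def, Fin.val_rev]; omega
          have h2 := hk' _ h1
          rw [Fin.rev_rev, ← hx] at h2
          exact h1.ne (hv h2)
        rw [Sum.elim_inl, whit_vv he hL k l hle]
        congr 1
        refine if_congr ?_ rfl rfl
        rw [Sum.inl.injEq, Fin.ext_iff, Fin.val_rev]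
        omega
      · simp [c]

end fac

theorem sm_det (F : Fin N → Fin N → E N → ℝ) (hF : ∀ a b, ContDiff ℝ ∞ (F a b)) :
    Sm fun h : G N => (((Matrix.of fun a b => F a b (co h)).det : ℝ) : ℂ) := by
  have : ContDiff ℝ ∞ fun x : E N => (Matrix.of fun a b => F a b x).det := by
    simp only [Matrix.det_apply', Matrix.of_apply]
    exact ContDiff.sum fun σ _ => contDiff_const.mul (contDiff_prod fun k _ => hF _ _)
  exact (hC.ofE N (fun x => (((Matrix.of fun a b => F a b x).det : ℝ) : ℂ))
    (Complex.ofRealCLM.contDiff.comp this)).1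

/-- the Whittaker functional -/
def L1 (d : Dat N) : d.V →ₗ[ℂ] ℂ where
  toFun w := d.W w 1
  map_add' v w := congrFun (d.W_add v w) 1
  map_smul' c w := congrFun (d.W_smul c w) 1

theorem L1_rho (d : Dat N) (x : G (N + 1)) (w : d.V) : L1 d (d.rho x w) = d.W w x := by
  change d.W (d.rho x w) 1 = _
  rw [d.W_rho, rt, one_mul]

theorem L1_wh (d : Dat N) : WhF (2 * π * Complex.I) d.e (L1 d) := fun a b h =>
  LinearMap.ext fun w => by
    have := Iso.whF hC hW (d.inV w) h
    rw [← d.e_val] at this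
    exact this

theorem up_facts (g : G N) :
    (up g).val.map Complex.ofRealHom * (up g)⁻¹.val.map Complex.ofRealHom = 1 ∧
    (∀ j, (up g).val.map Complex.ofRealHom (Fin.last N) j = if j = Fin.last N then 1 else 0) ∧
    ∀ j, (up g).val.map Complex.ofRealHom j (Fin.last N) = if j = Fin.last N then 1 else 0 :=
  ⟨by rw [← Matrix.map_mul, ← Units.val_mul, mul_inv_cancel]; simp,
    fun j => by refine Fin.lastCases ?_ (fun j => ?_) j <;> simp [up, Fin.castSucc_ne_last],
    fun j => by refine Fin.lastCases ?_ (fun j => ?_) j <;> simp [up, Fin.castSucc_ne_last]⟩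

theorem mk {deg : ℕ} {x : FA N} (hx : x ∈ Hom N deg) (c : ℝ) (f : Mat N → ℝ)
    (hs : Sm fun h : G N => (f h.val : ℂ)) (h1 : f 1 = c)
    (hT : ∀ T : ℝ, 0 < T → ∀ h : G N, f (dg (tT N T) * h).val = T ^ deg * f h.val)
    (hw : ∀ (d : Dat N) (g : G N) (w : d.V),
      L1 d (d.rho (up g) (lf d.e x w)) = f g.val * L1 d (d.rho (up g) w)) :
    ∃ P : Mop N, P.deg = deg ∧ (∀ h, P.q h = c - f h.val) ∧ ∀ (d : Dat N) (T : ℝ),
      P.op d T = (c : ℂ) • 1 - (T : ℂ)⁻¹ ^ deg • lf d.e x := by
  obtain ⟨z, z1, z2⟩ := neg_mem hx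
  refine ⟨⟨deg, z, c, fun h => c - f h.val, z1, ?_, by simp [h1], fun d T h0 w h => ?_⟩, rfl,
    fun _ => rfl, fun d T => ?_⟩
  · convert hC.add N _ _ (hC.const N c) (hC.smul N (-1) _ hs) using 2 with h
    simp [sub_eq_add_neg]
  · have hT0 : (T : ℂ) ≠ 0 := Complex.ofReal_ne_zero.2 h0.ne'
    rw [← L1_rho, ← L1_rho, ← z2, map_neg]
    simp only [LinearMap.add_apply, LinearMap.smul_apply, LinearMap.neg_apply, map_add, map_smul,
      map_neg, Module.End.one_apply, hw, hT T h0, smul_eq_mul]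
    push_cast
    rw [inv_pow]
    field_simp
    ring
  · change (c : ℂ) • 1 + (T : ℂ)⁻¹ ^ deg • ecomb d.e z = _
    rw [← z2, map_neg, smul_neg, ← sub_eq_add_neg]

theorem lf_kap (d : Dat N) : lf d.e (kap (io N)) = kap d.e :=
  (map_kap (lf d.e) (io N)).trans (by rw [lf_io])

theorem lf_kq (d : Dat N) (j i : Fin N) : lf d.e (kq j i (io N) 1) = kq j i d.e 1 :=
  (map_kq j i (lf d.e) (io N) 1).trans (by rw [lf_io])

theorem sign_ne : (((Equiv.Perm.sign (Fin.revPerm : Equiv.Perm (Fin N)) : ℤˣ) : ℤ) : ℂ) ≠ 0 :=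
  Int.cast_ne_zero.2 (Units.ne_zero _)

theorem exB (N : ℕ) :
    ∃ P : Mop N, P.deg = DD N ∧ ∀ (d : Dat N) (T : ℝ), 0 < T → P.op d T = d.B T := by
  have z0 := mul_ne_zero (sign_ne (N := N)) (pow_ne_zero (DD N) Complex.two_pi_I_ne_zero)
  obtain ⟨P, h1, -, h2⟩ := mk (N := N) (Submodule.smul_mem _
    ((((Equiv.Perm.sign (Fin.revPerm : Equiv.Perm (Fin N)) : ℤˣ) : ℤ) : ℂ) *
      (2 * π * Complex.I) ^ DD N)⁻¹ hom_kap) 1 Matrix.det
    (sm_det (fun a b x => x a b) fun a b => contDiff_apply_apply ℝ ℝ a b) Matrix.det_one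
    (fun T hT h => by
      rw [Units.val_mul, Matrix.det_mul, val_dg fun i => (Loc1.tT_pos hT i).ne',
        Matrix.det_diagonal, Loc3.prod_tT])
    fun d g w => by
      have h3 := rho_kap d.e (d.rho (up g)) _ _ (up_facts g).1 (up_facts g).2.1 (up_facts g).2.2
        (d.rho_e (up g))
      have h4 := LinearMap.congr_fun (whit_kap d.e_comm (L1_wh d)) (d.rho (up g) w)
      have h5 : ((up g).val.map Complex.ofRealHom).det = (g.val.det : ℝ) := by
        rw [← RingHom.mapMatrix_apply, ← RingHom.map_det]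
        simp [up, det_blk]
      rw [map_smul, lf_kap, LinearMap.smul_apply, map_smul, map_smul,
        ← Module.End.mul_apply, h3, LinearMap.smul_apply, map_smul, Module.End.mul_apply, h5]
      rw [LinearMap.comp_apply] at h4
      rw [h4, LinearMap.smul_apply]
      simp only [smul_eq_mul]
      field_simp
  refine ⟨P, h1, fun d T hT => ?_⟩
  rw [h2, map_smul, lf_kap, Dat.B, D0, smul_smul, Complex.ofReal_one, one_smul,
    mul_inv _ ((T : ℂ) ^ _), inv_pow, mul_comm]

theorem mn_eq (j i : Fin N) (a : Fin N → ℂ) (g : Mat N) :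
    (Matrix.of fun m k : Fin N => if k.rev < j then (if k.rev = m then 1 else 0)
      else a k * (g k.rev (if m = j then i else m) : ℝ)).det =
      ((∏ k : Fin N, if k.rev < j then 1 else a k) *
        (((Equiv.Perm.sign (Fin.revPerm : Equiv.Perm (Fin N)) : ℤˣ) : ℤ) : ℂ)) * (mn j i g : ℝ) := by
  have e : ((mn j i g : ℝ) : ℂ) = (Matrix.of fun k l : Fin N => if k < j then
      (if k = l then 1 else 0) else ((g k (if l = j then i else l) : ℝ) : ℂ)).det := by
    rw [mn]
    refine (Complex.ofRealHom.map_det _).trans (congrArg _ ?_)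
    ext k l
    simp [apply_ite Complex.ofReal]
  rw [e, mul_assoc, ← Matrix.det_permute, ← Matrix.det_mul_column, ← Matrix.det_transpose]
  congr 1
  ext k m
  by_cases c : k.rev < j <;> simp [c]

theorem exQ (N : ℕ) (j i : Fin N) (_ : i ≤ j) : ∃ P : Mop N,
    ∀ h : G N, P.q h = (if i = j then 1 else 0) - mn j i h.val := by
  have z0 : (∏ k : Fin N, if k.rev < j then 1 else (2 * π * Complex.I) ^ (k.val + 1)) *
      (((Equiv.Perm.sign (Fin.revPerm : Equiv.Perm (Fin N)) : ℤˣ) : ℤ) : ℂ) ≠ 0 :=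
    mul_ne_zero (Finset.prod_ne_zero_iff.2 fun k _ => by
      split_ifs
      exacts [one_ne_zero, pow_ne_zero _ Complex.two_pi_I_ne_zero]) sign_ne
  refine (mk (N := N) (Submodule.smul_mem _
    ((∏ k : Fin N, if k.rev < j then 1 else (2 * π * Complex.I) ^ (k.val + 1)) *
      (((Equiv.Perm.sign (Fin.revPerm : Equiv.Perm (Fin N)) : ℤˣ) : ℤ) : ℂ))⁻¹ (hom_kq j i 1))
    (if i = j then 1 else 0) (mn j i)
    (sm_det (fun k l x => if k < j then (if k = l then 1 else 0) else x k (if l = j then i else l))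
      fun k l => by
        split_ifs
        exacts [contDiff_const, contDiff_const, contDiff_apply_apply ℝ ℝ _ _,
          contDiff_apply_apply ℝ ℝ _ _])
    ?_ (fun T hT h => ?_) fun d g w => ?_).imp fun P h => h.2.1
  · rw [mn]
    split_ifs with c
    · rw [← Matrix.det_one (n := Fin N)]
      congr 1
      ext k l
      have : (if l = j then i else l) = l := by split_ifs with g; exacts [c.trans g.symm, rfl]
      simp [this, Matrix.one_apply]
    · refine Matrix.det_eq_zero_of_row_eq_zero j fun l => ?_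
      have : j ≠ if l = j then i else l := by
        split_ifs with g
        exacts [Ne.symm c, Ne.symm g]
      simp [Matrix.one_apply, this]
  · have e : T ^ (∑ k : Fin N, if k.rev < j then 0 else k.val + 1) =
        ∏ k : Fin N, if k < j then 1 else tT N T k := by
      rw [← Finset.prod_pow_eq_pow_sum, ← Equiv.prod_comp Fin.revPerm]
      refine Finset.prod_congr rfl fun k _ => ?_
      have := k.2
      rw [Fin.revPerm_apply, Fin.rev_rev, Fin.val_rev, tT]
      split_ifs
      · exact pow_zero T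
      · congr 1
        omega
    rw [e, mn, mn, ← Matrix.det_mul_column, Units.val_mul, val_dg fun i => (Loc1.tT_pos hT i).ne']
    congr 1
    ext k l
    by_cases c : k < j <;> simp [c]
  · have h3 := rho_kq j i d.e (d.rho (up g)) (g.val.map Complex.ofReal) fun k m => by
      simpa [up] using rho_vv d.e (d.rho (up g)) _ _ (up_facts g).1 (up_facts g).2.1
        (up_facts g).2.2 (d.rho_e (up g)) k m
    have h4 := LinearMap.congr_fun (whit_kq j i d.e_comm (L1_wh d) (g.val.map Complex.ofReal))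
      (d.rho (up g) w)
    simp only [Matrix.map_apply] at h4
    rw [mn_eq, LinearMap.comp_apply] at h4
    rw [map_smul, lf_kq, LinearMap.smul_apply, map_smul, map_smul,
      ← Module.End.mul_apply, h3, Module.End.mul_apply, h4, LinearMap.smul_apply, smul_smul,
      ← mul_assoc, inv_mul_cancel₀ z0, one_mul, smul_eq_mul]

end Ex

theorem ex : ExStmt := ⟨Ex.exB, Ex.exQ⟩

end SW

end Pool.Agent.Lib.MP_fa98d2_nt.D
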