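import Pool.Agent.Lib.MP_fa98d2_nt.W.Defs

/- The Hecke eigenvalues: Dirichlet coefficients of the standard L-function. -/

noncomputable section

namespace Pool.Agent.Lib.MP_fa98d2_nt.D

/-- `λ(m)`, the coefficient of `m^(-s)` in `Π_p Π_i (1 - α_{i,p} p^(-s))⁻¹` -/
def heckeL {n : ℕ} (α : ℕ → Fin n → ℂ) (m : ℕ) : ℂ :=
  ∏ p ∈ m.primeFactors, ∑ l ∈ Finset.piAntidiag Finset.univ (m.factorization p), ∏ i, α p i ^ l i

end Pool.Agent.Lib.MP_fa98d2_nt.D
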