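import Pool.Agent.Lib.MP_fa98d2_nt.W.FinB
import Pool.Agent.Lib.MP_fa98d2_nt.W.Defs2

/-! Short-window density theorem: mean square of the Hecke eigenvalues and the density bound. -/

open MeasureTheory Filter Topology Matrix
open scoped ENNReal Real ContDiff ComplexConjugate InnerProductSpace

noncomputable section

namespace Pool.Agent.Lib.MP_fa98d2_nt.D

namespace SW

/-- short windows, beyond the diagonal range, uniformly in the prime -/
def FinalCStmt : Prop :=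
  ∀ n : ℕ, 2 ≤ n → ∀ ε : ℝ, 0 < ε → ∃ C : ℝ, 0 < C ∧ ∀ T U : ℝ, 1 ≤ U → U ≤ T →
    ∀ (ν : Fin n → ℂ) (ι : Type) [Fintype ι] (φ : ι → Mat n → ℂ) (μ : ι → Fin n → ℂ)
      (α : ι → ℕ → Fin n → ℂ), (∀ j, SphCusp (φ j) (μ j) (α j)) →
      (∀ i j, i ≠ j → ¬ ∃ c : ℂ, ∀ g : Mat n, g.det ≠ 0 → φ j g = c * φ i g) →
      (∀ j l, ‖μ j l‖ ≤ T) → (∀ j l, ‖μ j l - ν l‖ ≤ U) →
      (∀ m : ℕ, 0 < m → (m : ℝ) ≤ (T * U) ^ (n - 1) → ∑ j, ‖heckeL (α j) m‖ ^ 2 ≤
        C * U ^ (n - 1) * T ^ ((n : ℝ) * (n - 1) / 2 + ε)) ∧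
      ∀ p : ℕ, p.Prime → ∑ j, ((T * U) ^ (n - 1) / (p : ℝ) ^ n) ^ (2 * thetaP (α j) p) ≤
        C * U ^ (n - 1) * T ^ ((n : ℝ) * (n - 1) / 2 + ε)

namespace FinH

variable {N : ℕ}

/-- the complete symmetric function -/
def hs (α : Fin (N + 1) → ℂ) (k : ℕ) : ℂ :=
  ∑ l ∈ Finset.piAntidiag Finset.univ k, ∏ i, α i ^ l i

lemma gen_hs (α : Fin (N + 1) → ℂ) :
    (∏ i, (1 - PowerSeries.C (α i) * PowerSeries.X)) * PowerSeries.mk (hs α) = 1 := by
  have h : PowerSeries.mk (hs α) = ∏ i, PowerSeries.mk fun k => α i ^ k := by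
    ext k
    rw [PowerSeries.coeff_prod, PowerSeries.coeff_mk, hs]
    symm
    refine Finset.sum_bij (fun l _ => (l : Fin (N + 1) → ℕ)) (fun l hl => ?_)
      (fun l _ l' _ h => DFunLike.coe_injective h) (fun l hl => ?_) fun l _ => by simp
    · simpa using hl
    · refine ⟨Finsupp.equivFunOnFinite.symm l, ?_, by simp⟩
      simpa using hl
  rw [h, ← Finset.prod_mul_distrib]
  exact Finset.prod_eq_one fun i _ => Schur.geo (α i)

open Finset in
lemma schH (α : Fin (N + 1) → ℂ) : ∃ S, IsSch α S ∧ ∀ k, S (Pi.single 0 k) = hs α k := by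
  let a : ℕ → ℂ := fun m => if h : m < N + 1 then α (Fin.rev ⟨m, h⟩) else 0
  have ha : ∀ j : Fin (N + 1), a j.rev = α j := fun j => by
    simp only [a, dif_pos j.rev.2, Fin.eta, Fin.rev_rev]
  have S0 : Schur.S a (0 : Fin (N + 1) → ℕ) = 1 := by
    have := Schur.S_single (N := N) a 0
    rwa [Pi.single_zero, zero_add, Schur.u_self] at this
  refine ⟨Schur.S a, ⟨S0, fun A h1 h2 l hl => ?_, fun B hB hα => ?_⟩, fun k => ?_⟩
  · have c : ∀ (l : Fin (N + 1) → ℕ) I, (fun i => ((l + Schur.ia I) i : ℤ)) =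
        (fun i => (l i : ℤ)) + ind I := fun l I => by
      funext i
      simp [Schur.ia, ind]
    refine sub_eq_zero.1 (Schur.uniq (fun l => A (fun i => l i) - Schur.S a l * A 0) ?_ ?_ ?_ l hl)
    · rw [S0, one_mul]
      exact sub_self _
    · intro l hl I hI
      rw [Schur.vanish a hl hI, h1 _ fun h => hI fun i j hij => Int.ofNat_le.1 (h hij)]
      simp
    · intro l hl hD r hr
      have e1 := Schur.up (esy α) (by simp [esy]) A h1 h2 (fun i => (l i : ℤ))
        (fun i j hij => Int.ofNat_le.2 (hl hij)) r hr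
      have e2 := Schur.coef _ _ (Schur.pieri_t a l) r
      simp only [ha, ← sum_mul] at e2
      rw [sum_sub_distrib, ← sum_mul, e2]
      simp only [c]
      rw [← e1, sub_eq_zero.1 hD, esy]
      ring
  · have hb : ∀ m, ‖a m‖ ≤ B := fun m => by
      simp only [a]
      split_ifs
      · exact hα _
      · simp; linarith
    refine ⟨fun l _ => Schur.S_bd a hB hb l, fun i l => ?_⟩
    simp only [Schur.S_single]
    rw [← ha]
    exact Schur.low a (by linarith) hb i.rev.2 l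
  · have h1 := Schur.gen a N
    have h2 : ∏ m ∈ range (N + 1), (1 - PowerSeries.C (a m) * PowerSeries.X) =
        ∏ i, (1 - PowerSeries.C (α i) * PowerSeries.X) := by
      rw [← Fin.prod_univ_eq_prod_range (fun m => 1 - PowerSeries.C (a m) * PowerSeries.X),
        ← Equiv.prod_comp Fin.revPerm]
      simp only [Fin.revPerm_apply, ha]
    rw [h2] at h1
    have h3 := left_inv_eq_right_inv ((mul_comm _ _).trans h1) (gen_hs α)
    have h4 := congrArg (PowerSeries.coeff k) h3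
    rwa [PowerSeries.coeff_mk, PowerSeries.coeff_mk, ← Schur.S_single] at h4

lemma mulf_m1 (m : ℕ+) (a : ℕ → (Fin (N + 1) → ℕ) → ℂ) :
    mulf a (m1 N m) = ∏ q ∈ (m : ℕ).primeFactors, a q (Pi.single 0 ((m : ℕ).factorization q)) := by
  have h1 : ∏ i, ((m1 N m i : ℕ+) : ℕ) = m := by
    rw [Finset.prod_eq_single 0]
    · simp [m1]
    · intro j _ hj; simp [m1, hj]
    · intro h; exact (h (Finset.mem_univ _)).elim
  unfold mulf
  rw [h1]
  refine Finset.prod_congr rfl fun q _ => ?_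
  congr 1
  ext i
  by_cases h : i = 0
  · subst h; simp [m1]
  · simp [m1, h]

lemma heckeL_pow (α : ℕ → Fin (N + 1) → ℂ) {p : ℕ} (hp : p.Prime) (l : ℕ) :
    heckeL α (p ^ l) = hs (α p) l := by
  rcases Nat.eq_zero_or_pos l with rfl | hl
  · simp [heckeL, hs]
  · rw [heckeL, Nat.primeFactors_prime_pow hl.ne' hp, Finset.prod_singleton, hp.factorization_pow]
    simp [hs]

lemma le_theta (α : ℕ → Fin (N + 1) → ℂ) {p : ℕ} (hp : p.Prime) (i : Fin (N + 1)) :
    ‖α p i‖ ≤ (p : ℝ) ^ thetaP α p := by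
  have hp1 : (1 : ℝ) < p := by exact_mod_cast hp.one_lt
  rcases (norm_nonneg (α p i)).eq_or_lt with h | h
  · rw [← h]; positivity
  · rw [← Real.logb_le_iff_le_rpow hp1 h]
    exact (le_abs_self _).trans
      (le_ciSup (f := fun i => |Real.logb p ‖α p i‖|) (Finite.bddAbove_range _) i)

end FinH

open FinA FinH in
theorem finC (hN : NearStmt) (hJ : InjBStmt) (hc : CoreStmt) : FinalCStmt := by
  intro n hn ε hε
  obtain ⟨N, rfl⟩ : ∃ N, n = N + 2 := ⟨n - 2, by omega⟩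
  obtain ⟨C0, hred⟩ := red hN N
  set e : ℝ := min 1 (ε / (N + 3)) with he
  have he0 : 0 < e := by positivity
  have he1 : e ≤ 1 := min_le_left _ _
  have he2 : (((N + 1 : ℕ) : ℝ) + 2) * e ≤ ε := by
    have : e ≤ ε / (N + 3) := min_le_right _ _
    rw [le_div_iff₀ (by positivity)] at this
    push_cast; linarith
  obtain ⟨E, C, T0, hE, hC0, hT0, hcore⟩ := hc (N + 1) (by omega) C0 e he0
  obtain ⟨d0, c3, CI, hd0, hc3, hCI, hJ⟩ := hJ N e he0
  set T1 : ℝ := max (max T0 ((E / d0) ^ e⁻¹)) (E * max 1 c3⁻¹) with hT1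
  have hT11 : 1 ≤ T1 := hT0.trans ((le_max_left _ _).trans (le_max_left _ _))
  set D : ℝ := (DD (N + 1) : ℝ) with hD
  set Q : ℝ := 4 ^ (N + 1) * (N + 2) ^ 2 with hQ
  have hQ1 : 1 ≤ Q := one_le_mul_of_one_le_of_one_le (one_le_pow₀ (by norm_num))
    (one_le_pow₀ (by linarith [Nat.cast_nonneg (α := ℝ) N]))
  refine ⟨Q * (C * CI * E * T1 ^ (D + ε)), by positivity, ?_⟩
  intro T U hU hUT ν ι _ φ μ α hφ hnp hμ hν
  have hT : 1 ≤ T := hU.trans hUT
  obtain ⟨a1, a2, a3, a4, -⟩ := prm hU hUT hT11 he0 he1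
  have hfin := fin_pow D (N + 1) 2 hU hUT hT11 he0 he1 he2
  have a6 : U ≤ max U ((T1 * T) ^ e) := le_max_left _ _
  have a7 : (T1 * T) ^ e ≤ max U ((T1 * T) ^ e) := le_max_right _ _
  have a8 : E * max 1 c3⁻¹ * T ≤ T1 * T := by gcongr; exact le_max_right _ _
  generalize max U ((T1 * T) ^ e) = U' at *
  generalize T1 * T = T' at *
  have hT'1 : 1 ≤ T' := hT.trans a2
  have hU'1 : 1 ≤ U' := hU.trans a6
  obtain ⟨γ, hP, hG, hNr, hw, hne, hun⟩ := hred T' U' hT'1 (by linarith) ν ι φ μ α hφ hnp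
    (fun j l => (hμ j l).trans a2) fun j l => (hν j l).trans a6
  obtain ⟨-, hsum⟩ := hcore T' U' (((le_max_left _ _).trans (le_max_left _ _)).trans a1) a7 a3
    ι α γ hP hG hNr hw hne
  choose S hSs hSh using fun j q => schH (α j q)
  have hδ1 : T'⁻¹ ≤ E / U' := by
    rw [← one_div]; gcongr
  have hδ2 : E / U' ≤ d0 := by
    have := (le_of_root (by positivity) he0 ((le_max_right _ _).trans (le_max_left _ _))).trans a4
    rw [div_le_iff₀ hd0] at this
    rw [div_le_iff₀ (by linarith)]; linarith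
  have hX : (T * U) ^ (N + 1) ≤ c3 * (T' / (E / U')) ^ (N + 1) := by
    have h1 : max 1 c3⁻¹ * (T * U) ≤ T' / (E / U') := by
      rw [le_div_iff₀ (by positivity), ← mul_div_assoc, div_le_iff₀ (by linarith)]
      calc _ = E * max 1 c3⁻¹ * T * U := by ring
        _ ≤ _ := by gcongr
    calc (T * U) ^ (N + 1) = c3 * (c3⁻¹ * (T * U) ^ (N + 1)) := by field_simp
      _ ≤ c3 * ((max 1 c3⁻¹) ^ (N + 1) * (T * U) ^ (N + 1)) := by
        gcongr
        exact (le_max_right _ _).trans (le_self_pow₀ (le_max_left _ _) (by omega))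
      _ ≤ _ := by rw [← mul_pow]; gcongr
  set R : ℝ := C * CI * E * T1 ^ (D + ε) * U ^ (N + 1) * T ^ (D + ε) with hR
  have hR0 : 0 ≤ R := by positivity
  have hm : ∀ m : ℕ, 0 < m → (m : ℝ) ≤ (T * U) ^ (N + 1) → ∑ j, ‖heckeL (α j) m‖ ^ 2 ≤ R := by
    intro m hm0 hm
    have h1 := hsum S (fun j q _ => hSs j q) _ _ (by positivity)
      (hJ T' _ hT'1 hδ1 hδ2 ⟨m, hm0⟩ (hm.trans hX))
    refine le_of_eq_of_le (Finset.sum_congr rfl fun j _ => ?_) (h1.trans ?_)
    · rw [FinH.mulf_m1]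
      simp only [Main.lam_single, hSh]
      rfl
    · calc _ = C * CI * E * (U' ^ (N + 1) * T' ^ (D + 2 * e)) := by
            rw [show D + 2 * e = e + (D + e) by ring, Real.rpow_add (by linarith) e,
              pow_succ U' (N + 1)]
            field_simp
        _ ≤ C * CI * E * (T1 ^ (D + ε) * (U ^ (N + 1) * T ^ (D + ε))) := by gcongr
        _ = _ := by rw [hR]; ring
  rw [← cast_D, ← hD, show N + 2 - 1 = N + 1 from rfl,
    show Q * (C * CI * E * T1 ^ (D + ε)) * U ^ (N + 1) * T ^ (D + ε) = Q * R by rw [hR]; ring]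
  refine ⟨fun m hm0 h => (hm m hm0 h).trans (le_mul_of_one_le_left hR0 hQ1), fun p hp => ?_⟩
  have hp1 : (1 : ℝ) < p := by exact_mod_cast hp.one_lt
  have hp0 : (0 : ℝ) < p := by linarith
  obtain ⟨l, hl1, hl2⟩ := exists_nat_pow_near (one_le_pow₀ (n := N + 1)
    (one_le_mul_of_one_le_of_one_le hT hU)) hp1
  have hone : ∀ j, ((T * U) ^ (N + 1) / (p : ℝ) ^ (N + 2)) ^ (2 * thetaP (α j) p) ≤
      4 ^ (N + 1) * (N + 2) *
        ∑ t ∈ Finset.range (min l (N + 1) + 1), ‖heckeL (α j) (p ^ (l - t))‖ ^ 2 := by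
    intro j
    obtain ⟨i, hi⟩ := Main.exists_big (α j) hp (hP j p hp) (hun j p hp) le_rfl
    have h0 : 0 ≤ thetaP (α j) p := Real.iSup_nonneg fun _ => abs_nonneg _
    have h1 := ((hSs j p).2.2 _ (Real.one_le_rpow hp1.le h0) (le_theta (α j) hp)).2 i l
    simp only [hSh, ← heckeL_pow _ hp] at h1
    generalize thetaP (α j) p = σ at *
    have hB : 1 ≤ (p : ℝ) ^ σ := Real.one_le_rpow hp1.le h0
    set x := ∑ t ∈ Finset.range (min l (N + 1) + 1), ‖heckeL (α j) (p ^ (l - t))‖ with hx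
    have h2 : ((p : ℝ) ^ l / (p : ℝ) ^ (N + 1)) ^ σ ≤ 2 ^ (N + 1) * x := by
      rw [Real.div_rpow (by positivity) (by positivity), ← Real.rpow_pow_comm hp0.le,
        ← Real.rpow_pow_comm hp0.le, div_le_iff₀ (by positivity)]
      calc ((p : ℝ) ^ σ) ^ l ≤ ‖α j p i‖ ^ l := by gcongr
        _ ≤ (1 + (p : ℝ) ^ σ) ^ (N + 1) * x := h1
        _ ≤ (2 * (p : ℝ) ^ σ) ^ (N + 1) * x := by gcongr; linarith
        _ = _ := by rw [mul_pow]; ring
    have h3 : x ^ 2 ≤ (N + 2) *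
        ∑ t ∈ Finset.range (min l (N + 1) + 1), ‖heckeL (α j) (p ^ (l - t))‖ ^ 2 := by
      refine sq_sum_le_card_mul_sum_sq.trans ?_
      gcongr
      rw [Finset.card_range]
      have : min l (N + 1) + 1 ≤ N + 2 := by omega
      exact_mod_cast this
    calc _ ≤ ((p : ℝ) ^ l / (p : ℝ) ^ (N + 1)) ^ (2 * σ) := by
          refine Real.rpow_le_rpow (by positivity) ?_ (by positivity)
          rw [div_le_div_iff₀ (by positivity) (by positivity)]
          calc _ ≤ (p : ℝ) ^ (l + 1) * (p : ℝ) ^ (N + 1) := by gcongr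
            _ = _ := by ring
      _ = (((p : ℝ) ^ l / (p : ℝ) ^ (N + 1)) ^ σ) ^ 2 := by
          rw [mul_comm, Real.rpow_mul (by positivity), Real.rpow_two]
      _ ≤ (2 ^ (N + 1) * x) ^ 2 := by gcongr
      _ = 4 ^ (N + 1) * x ^ 2 := by
          rw [mul_pow, ← pow_mul, mul_comm (N + 1), pow_mul]; norm_num
      _ ≤ _ := by rw [mul_assoc]; gcongr
  refine (Finset.sum_le_sum fun j _ => hone j).trans ?_
  rw [← Finset.mul_sum, Finset.sum_comm]
  have h5 : ∑ t ∈ Finset.range (min l (N + 1) + 1), ∑ j, ‖heckeL (α j) (p ^ (l - t))‖ ^ 2 ≤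
      (N + 2) * R := by
    refine (Finset.sum_le_sum fun t _ => hm _ (pow_pos hp.pos _) (le_trans ?_ hl1)).trans ?_
    · rw [Nat.cast_pow]
      exact pow_le_pow_right₀ hp1.le (by omega)
    · rw [Finset.sum_const, Finset.card_range, nsmul_eq_mul]
      gcongr
      have : min l (N + 1) + 1 ≤ N + 2 := by omega
      exact_mod_cast this
  refine (mul_le_mul_of_nonneg_left h5 (by positivity)).trans (le_of_eq ?_)
  rw [hQ]; ring

end SW

end Pool.Agent.Lib.MP_fa98d2_nt.D
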