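import Pool.Agent.Lib.MP_fa98d2_nt.W.FinB

/-! Short-window density theorem: the final deduction for all Satake parameters. -/

open MeasureTheory Filter Topology Matrix
open scoped ENNReal Real ContDiff ComplexConjugate InnerProductSpace

noncomputable section

namespace Pool.Agent.Lib.MP_fa98d2_nt.D

namespace SW

namespace FinV

variable {N : ℕ}

/-- the tuple of prime powers -/
def pw (p : ℕ) (hp : p.Prime) (e : Fin N → ℕ) : Fin N → ℕ+ := fun j => ⟨p ^ e j, pow_pos hp.pos _⟩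

lemma mulf_pw {p : ℕ} (hp : p.Prime) (e : Fin N → ℕ) (a : ℕ → (Fin N → ℕ) → ℂ) (h0 : a p 0 = 1) :
    mulf a (pw p hp e) = a p e := by
  have h1 : ∏ i, ((pw p hp e i : ℕ+) : ℕ) = p ^ ∑ i, e i := by
    simp only [pw, PNat.mk_coe, Finset.prod_pow_eq_pow_sum]
  have h2 : (fun i => ((pw p hp e i : ℕ+) : ℕ).factorization p) = e := by
    ext i; simp [pw, hp.factorization_pow]
  unfold mulf
  rw [h1]
  rcases Nat.eq_zero_or_pos (∑ i, e i) with h | hl
  · have : e = 0 := by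
      ext i; exact Finset.sum_eq_zero_iff.1 h i (Finset.mem_univ i)
    subst this
    simp [h0]
  · rw [Nat.primeFactors_prime_pow hl.ne' hp, Finset.prod_singleton, h2]

lemma tm_pw {p : ℕ} (hp : p.Prime) (e : Fin N → ℕ) (i : Fin (N + 1)) :
    tm (pw p hp e) i = (p : ℝ) ^ lam e i := by
  rw [tm, lam, ← Finset.prod_pow_eq_pow_sum]
  refine Finset.prod_congr rfl fun j _ => ?_
  split_ifs <;> simp [pw]

lemma ex_lam (l : Fin (N + 1) → ℕ) (h : ∀ j : Fin N, l j.succ ≤ l j.castSucc)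
    (h0 : l (Fin.last N) = 0) : ∃ e : Fin N → ℕ, lam e = l := by
  refine ⟨fun j => l j.castSucc - l j.succ, funext fun i => ?_⟩
  induction i using Fin.reverseInduction with
  | last =>
    rw [h0, lam]
    exact Finset.sum_eq_zero fun j _ => if_neg (by have := j.2; simp only [Fin.val_last]; omega)
  | cast i ih =>
    have h1 : lam (fun j => l j.castSucc - l j.succ) i.castSucc =
        (l i.castSucc - l i.succ) + lam (fun j => l j.castSucc - l j.succ) i.succ := by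
      simp only [lam]
      rw [← Finset.add_sum_erase _ _ (Finset.mem_univ i),
        ← Finset.add_sum_erase _ _ (Finset.mem_univ i), if_pos (by simp), if_neg (by simp),
        zero_add]
      congr 1
      refine Finset.sum_congr rfl fun j hj => ?_
      have : j.val ≠ i.val := fun h => (Finset.mem_erase.1 hj).1 (Fin.ext h)
      simp only [Fin.val_castSucc, Fin.val_succ]
      exact if_congr (by omega) rfl rfl
    rw [h1, ih]
    have := h i
    omega

lemma lw_cast (L L0 : ℕ) (i : Fin N) : lw N L L0 i.castSucc = (N - 1 - i.val) * L + L0 := by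
  rw [lw, if_neg (Fin.castSucc_lt_last i).ne]; rfl

lemma lw_last (L L0 : ℕ) : lw N L L0 (Fin.last N) = 0 := if_pos rfl

lemma lw_gap {L L0 : ℕ} (h : L ≤ L0) (j : Fin N) :
    lw N L L0 j.succ + L ≤ lw N L L0 j.castSucc := by
  rw [lw_cast, lw]
  split_ifs with h1
  · omega
  · have h2 : j.val + 1 ≠ N := fun h2 => h1 (Fin.ext (by simpa using h2))
    have h3 := j.2
    have : N - 1 - j.val = N - 1 - (j.val + 1) + 1 := by omega
    rw [this, Fin.val_succ, add_mul]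
    omega

lemma lw_rev {L L0 : ℕ} (h : L ≤ L0) (h1 : 1 ≤ L) (i : Fin (N + 1)) :
    i.rev.val ≤ lw N L L0 i := by
  induction i using Fin.reverseInduction with
  | last => simp
  | cast i ih =>
    have := lw_gap h i
    have h3 := i.2
    simp only [Fin.val_rev, Fin.val_succ, Fin.val_castSucc] at ih ⊢
    omega

lemma card_le (N : ℕ) : ((Fintype.piFinset fun i : Fin (N + 1) =>
    Finset.range (i.rev.val + 1)).card : ℝ) ≤ (N + 1) ^ (N + 1) := by
  have : (Fintype.piFinset fun i : Fin (N + 1) => Finset.range (i.rev.val + 1)).card ≤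
      (N + 1) ^ (N + 1) := by
    rw [Fintype.card_piFinset]
    refine (Finset.prod_le_pow_card _ _ (N + 1) fun i _ => ?_).trans (by simp)
    rw [Finset.card_range]
    exact i.rev.2
  exact_mod_cast this

lemma exps (N : ℕ) : 2 * DD (N + 1) + 1 ≤ (N + 2) ^ 3 ∧ (N + 1) * (DD (N + 1) + 1) ≤ (N + 2) ^ 3 := by
  have h : 2 * DD (N + 1) ≤ (N + 2) * (N + 1) := by
    rw [DD, Nat.choose_two_right]
    exact Nat.mul_div_le _ _
  constructor <;> nlinarith [Nat.zero_le N, Nat.zero_le (N ^ 2), Nat.zero_le (N ^ 3)]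

end FinV

open FinA FinV in
theorem finW (hN : NearStmt) (hJ : InjWStmt) (hS : SchWStmt) (hc : CoreStmt) : FinalWStmt := by
  intro n hn ε hε
  obtain ⟨N, rfl⟩ : ∃ N, n = N + 2 := ⟨n - 2, by omega⟩
  obtain ⟨C0, hred⟩ := red hN N
  set e : ℝ := min 1 (ε / (N + 2)) with he
  have he0 : 0 < e := by positivity
  have he1 : e ≤ 1 := min_le_left _ _
  have he2 : (((N + 1 : ℕ) : ℝ) + 1) * e ≤ ε := by
    have : e ≤ ε / (N + 2) := min_le_right _ _
    rw [le_div_iff₀ (by positivity)] at this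
    push_cast; linarith
  obtain ⟨E, C, T0, hE, hC0, hT0, hcore⟩ := hc (N + 1) (by omega) C0 e he0
  obtain ⟨d0, CI, hd0, hCI, hJ⟩ := hJ (N + 1)
  set T1 : ℝ := max T0 ((max (E / d0) (6 * E)) ^ e⁻¹) with hT1
  have hT11 : 1 ≤ T1 := hT0.trans (le_max_left _ _)
  set D : ℝ := (DD (N + 1) : ℝ) with hD
  set Q : ℝ := (((N + 1 : ℕ) : ℝ) + 1) ^ (N + 1 + 1) with hQ
  have hQ1 : 1 ≤ Q := one_le_pow₀ (by linarith [Nat.cast_nonneg (α := ℝ) (N + 1)])
  refine ⟨6 * E * 4 ^ DD (N + 1) * Q ^ 2 * (C * CI * E) * T1 ^ (D + ε), ?_⟩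
  intro p hp T U hU hUT ν ι _ φ μ α hφ hnp hμ hν
  have hp1 : (1 : ℝ) < p := by exact_mod_cast hp.one_lt
  have hp0 : (0 : ℝ) < p := by linarith
  have hT : 1 ≤ T := hU.trans hUT
  obtain ⟨a1, a2, a3, a4, -⟩ := prm hU hUT hT11 he0 he1
  have hfin := fin_pow D (N + 1) 1 hU hUT hT11 he0 he1 he2
  have a6 : U ≤ max U ((T1 * T) ^ e) := le_max_left _ _
  have a7 : (T1 * T) ^ e ≤ max U ((T1 * T) ^ e) := le_max_right _ _
  generalize max U ((T1 * T) ^ e) = U' at *
  generalize T1 * T = T' at *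
  have hT'1 : 1 ≤ T' := hT.trans a2
  have hU'1 : 1 ≤ U' := hU.trans a6
  obtain ⟨γ, hP, hG, hNr, hw, hne, hun⟩ := hred T' U' hT'1 (by linarith) ν ι φ μ α hφ hnp
    (fun j l => (hμ j l).trans a2) fun j l => (hν j l).trans a6
  obtain ⟨hb, hsum⟩ := hcore T' U' ((le_max_left _ _).trans a1) a7 a3 ι α γ hP hG hNr hw hne
  have hwt := fun j => hS.wt (N + 1) (α j) p hp (hP j p hp) (hun j p hp) (hb j p hp)
  choose σ hσ using fun j => (hwt j).2.2.2.2
  have hSe : ∀ j q, ∃ S, q.Prime → IsSch (α j q) S ∧ ∀ B : ℝ, 0 ≤ B → (∀ i, ‖α j q i‖ ≤ B) →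
      ∀ l : Fin (N + 1 + 1) → ℕ, (∀ i, i.rev.val ≤ l i) → ∏ i, ‖α j q (σ j i)‖ ^ l i ≤
        (1 + B) ^ DD (N + 1) * ∑ t ∈ Fintype.piFinset fun i : Fin (N + 1 + 1) =>
          Finset.range (i.rev.val + 1), ‖S (l - t)‖ := by
    intro j q
    by_cases hq : q.Prime
    · obtain ⟨S, h⟩ := hS.sch (N + 1) (α j q) (hP j q hq) (σ j)
      exact ⟨S, fun _ => h⟩
    · exact ⟨0, fun h => (hq h).elim⟩
  choose S hSs using hSe
  have hU2 : max (E / d0) (6 * E) ≤ U' :=
    (le_of_root (by positivity) he0 (le_max_right _ _)).trans a4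
  have hU3 : 6 * E ≤ U' := (le_max_right _ _).trans hU2
  have hδ2 : E / U' ≤ d0 := by
    have := (le_max_left _ _).trans hU2
    rw [div_le_iff₀ hd0] at this
    rw [div_le_iff₀ (by linarith)]; linarith
  set R : ℝ := C * CI * E * (T1 ^ (D + ε) * (U ^ (N + 1) * T ^ (D + ε))) with hR
  have hR0 : 0 ≤ R := by positivity
  have hterm : ∀ x : Fin (N + 1) → ℕ, (∀ i : Fin (N + 1), 6 * (E / U') * (p : ℝ) ^ lam x i.castSucc ≤
      T' ^ (N + 1 - i.val)) → ∑ j, ‖S j p (lam x)‖ ^ 2 ≤ R := by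
    intro x hx
    have h1 := hsum S (fun j q hq => (hSs j q hq).1) _ _ (by positivity)
      (hJ T' _ hT'1 (by positivity) hδ2 (pw p hp x) fun i => by rw [tm_pw]; exact hx i)
    refine le_of_eq_of_le (Finset.sum_congr rfl fun j _ => ?_) (h1.trans
      (le_of_eq_of_le ?_ (mul_le_mul_of_nonneg_left hfin (by positivity))))
    · rw [mulf_pw hp _ _ (by
        have : lam (0 : Fin (N + 1) → ℕ) = 0 := by ext i; simp [lam]
        simp only [this]; exact (hSs j p hp).1.1)]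
    · rw [one_mul, pow_succ U' (N + 1)]
      field_simp
  have hgoal : 6 * E * 4 ^ DD (N + 1) * Q ^ 2 * (C * CI * E) * T1 ^ (D + ε) *
      (p : ℝ) ^ (N + 2) ^ 3 * U ^ (N + 2 - 1) *
      T ^ (((N + 2 : ℕ) : ℝ) * (((N + 2 : ℕ) : ℝ) - 1) / 2 + ε) =
      6 * E * 4 ^ DD (N + 1) * Q ^ 2 * (p : ℝ) ^ (N + 2) ^ 3 * R := by
    rw [← cast_D, ← hD, hR, show N + 2 - 1 = N + 1 from rfl]; ring
  rw [hgoal]
  obtain ⟨L, hL1, hL2⟩ := exists_nat_pow_near hT'1 hp1
  have h6 : 6 * (E / U') ≤ 1 := by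
    rw [← mul_div_assoc, div_le_one (by linarith)]; exact hU3
  by_cases hLN : L < N + 1
  · have h1 := hterm 0 fun i => by
      have : lam (0 : Fin (N + 1) → ℕ) i.castSucc = 0 := by simp [lam]
      rw [this, pow_zero, mul_one]
      exact h6.trans (one_le_pow₀ hT'1)
    have h2 : ∀ j, U ^ (2 * thetaP (α j) p) * T ^ etaP (α j) p ≤
        (p : ℝ) ^ (N + 2) ^ 3 * ‖S j p (lam (0 : Fin (N + 1) → ℕ))‖ ^ 2 := by
      intro j
      have : lam (0 : Fin (N + 1) → ℕ) = 0 := by ext i; simp [lam]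
      rw [this, (hSs j p hp).1.1, norm_one, one_pow, mul_one]
      obtain ⟨b1, b2, b3, b4, -⟩ := hwt j
      have h3 : T ≤ (p : ℝ) ^ (N + 1) :=
        a2.trans (hL2.le.trans (pow_le_pow_right₀ hp1.le (by omega)))
      calc _ ≤ T ^ (1 : ℝ) * T ^ D := by
            gcongr
            exact (Real.rpow_le_rpow (by linarith) hUT (by linarith)).trans
              (Real.rpow_le_rpow_of_exponent_le hT b2)
        _ = T ^ (DD (N + 1) + 1) := by rw [Real.rpow_one, hD, Real.rpow_natCast]; ring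
        _ ≤ ((p : ℝ) ^ (N + 1)) ^ (DD (N + 1) + 1) := by gcongr
        _ ≤ _ := by
          rw [← pow_mul]
          exact pow_le_pow_right₀ hp1.le (exps N).2
    refine (Finset.sum_le_sum fun j _ => h2 j).trans ?_
    rw [← Finset.mul_sum]
    have h4 : (1 : ℝ) ≤ 6 * E * 4 ^ DD (N + 1) * Q ^ 2 :=
      one_le_mul_of_one_le_of_one_le (one_le_mul_of_one_le_of_one_le (by linarith)
        (one_le_pow₀ (by norm_num))) (one_le_pow₀ hQ1)
    rw [mul_assoc _ _ R]
    exact (mul_le_mul_of_nonneg_left h1 (by positivity)).trans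
      (le_mul_of_one_le_left (by positivity) h4)
  push Not at hLN
  have hX1 : T' ≤ T' * (U' / (6 * E)) :=
    le_mul_of_one_le_right (by linarith) ((one_le_div (by linarith)).2 hU3)
  obtain ⟨L0, hM1, hM2⟩ := exists_nat_pow_near (hT'1.trans hX1) hp1
  have hLL : L ≤ L0 := by
    have := (pow_lt_pow_iff_right₀ hp1).1 ((hL1.trans hX1).trans_lt hM2)
    omega
  set l := lw (N + 1) L L0 with hl
  set I := Fintype.piFinset fun i : Fin (N + 1 + 1) => Finset.range (i.rev.val + 1) with hI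
  have hIQ : (I.card : ℝ) ≤ Q := card_le (N + 1)
  have h1 : ∀ t ∈ I, ∑ j, ‖S j p (l - t)‖ ^ 2 ≤ R := by
    intro t ht
    have ht' : ∀ i : Fin (N + 1 + 1), t i ≤ i.rev.val := fun i =>
      Nat.lt_succ_iff.1 (Finset.mem_range.1 (Fintype.mem_piFinset.1 ht i))
    obtain ⟨x, hx⟩ := ex_lam (l - t) (fun j => by
      have b1 := lw_gap hLL j
      have b2 := ht' j.castSucc
      have b3 := j.castSucc.rev.2
      simp only [Pi.sub_apply, hl]
      omega) (by simp [hl, lw_last])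
    rw [← hx]
    refine hterm x fun i => ?_
    have b1 : lam x i.castSucc ≤ (N + 1 - 1 - i.val) * L + L0 := by
      rw [hx, Pi.sub_apply, hl, lw_cast]; omega
    have b2 := i.2
    calc 6 * (E / U') * (p : ℝ) ^ lam x i.castSucc
        ≤ 6 * (E / U') * (p : ℝ) ^ ((N + 1 - 1 - i.val) * L + L0) := by gcongr; exact hp1.le
      _ = 6 * (E / U') * (((p : ℝ) ^ L) ^ (N + 1 - 1 - i.val) * (p : ℝ) ^ L0) := by
        rw [pow_add, mul_comm _ L, pow_mul]
      _ ≤ 6 * (E / U') * (T' ^ (N + 1 - 1 - i.val) * (T' * (U' / (6 * E)))) := by gcongr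
      _ = _ := by
        rw [show N + 1 - i.val = N + 1 - 1 - i.val + 1 by omega, pow_succ]; field_simp
  have h2 : ∀ j, U ^ (2 * thetaP (α j) p) * T ^ etaP (α j) p ≤
      6 * E * 4 ^ DD (N + 1) * Q * (p : ℝ) ^ (N + 2) ^ 3 * ∑ t ∈ I, ‖S j p (l - t)‖ ^ 2 := by
    intro j
    obtain ⟨b1, b2, b3, b4, -⟩ := hwt j
    have c1 := hσ j L L0 hLL
    have c2 := (hSs j p hp).2 _ (Real.sqrt_nonneg _) (hb j p hp) l (lw_rev hLL (by omega))
    generalize thetaP (α j) p = θ at *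
    generalize etaP (α j) p = η at *
    have c3 : (∑ t ∈ I, ‖S j p (l - t)‖) ^ 2 ≤ Q * ∑ t ∈ I, ‖S j p (l - t)‖ ^ 2 :=
      sq_sum_le_card_mul_sum_sq.trans (by gcongr)
    have c4 : ((1 + Real.sqrt p) ^ DD (N + 1)) ^ 2 ≤ 4 ^ DD (N + 1) * (p : ℝ) ^ DD (N + 1) := by
      rw [← pow_mul, mul_comm _ 2, pow_mul, ← mul_pow]
      refine pow_le_pow_left₀ (by positivity) ?_ _
      have := Real.sq_sqrt hp0.le
      have := Real.one_le_sqrt.2 hp1.le
      nlinarith
    have c5 : T ^ η ≤ (p : ℝ) ^ DD (N + 1) * (p : ℝ) ^ (L * η) := by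
      calc T ^ η ≤ ((p : ℝ) ^ (L + 1)) ^ η := by gcongr; exact a2.trans hL2.le
        _ = (p : ℝ) ^ η * (p : ℝ) ^ (L * η) := by
          rw [← Real.rpow_natCast, ← Real.rpow_mul hp0.le, ← Real.rpow_add hp0]
          congr 1; push_cast; ring
        _ ≤ _ := by
          rw [← Real.rpow_natCast (p : ℝ) (DD (N + 1))]
          gcongr; exact hp1.le
    have c6 : U ≤ 6 * E * p * (p : ℝ) ^ ((L0 : ℝ) - L) := by
      rw [Real.rpow_sub hp0, Real.rpow_natCast, Real.rpow_natCast, ← mul_div_assoc,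
        le_div_iff₀ (by positivity)]
      calc U * (p : ℝ) ^ L ≤ U' * T' := by gcongr
        _ = 6 * E * (T' * (U' / (6 * E))) := by field_simp
        _ ≤ 6 * E * (p : ℝ) ^ (L0 + 1) := by gcongr
        _ = _ := by ring
    have c7 : U ^ (2 * θ) ≤ 6 * E * p * (p : ℝ) ^ (2 * ((L0 : ℝ) - L) * θ) := by
      have d1 : 1 ≤ 6 * E * p := one_le_mul_of_one_le_of_one_le (by linarith) hp1.le
      calc U ^ (2 * θ) ≤ (6 * E * p * (p : ℝ) ^ ((L0 : ℝ) - L)) ^ (2 * θ) := by gcongr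
        _ = (6 * E * p) ^ (2 * θ) * (p : ℝ) ^ (2 * ((L0 : ℝ) - L) * θ) := by
          rw [Real.mul_rpow (by positivity) (by positivity), ← Real.rpow_mul hp0.le]
          congr 2; ring
        _ ≤ (6 * E * p) ^ (1 : ℝ) * (p : ℝ) ^ (2 * ((L0 : ℝ) - L) * θ) := by gcongr
        _ = _ := by rw [Real.rpow_one]
    calc U ^ (2 * θ) * T ^ η ≤ 6 * E * p * (p : ℝ) ^ (2 * ((L0 : ℝ) - L) * θ) *
          ((p : ℝ) ^ DD (N + 1) * (p : ℝ) ^ (L * η)) := by gcongr
      _ = 6 * E * (p : ℝ) ^ (DD (N + 1) + 1) * (p : ℝ) ^ (L * η + 2 * ((L0 : ℝ) - L) * θ) := by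
        rw [Real.rpow_add hp0]; ring
      _ ≤ 6 * E * (p : ℝ) ^ (DD (N + 1) + 1) * (((1 + Real.sqrt p) ^ DD (N + 1)) ^ 2 *
          (∑ t ∈ I, ‖S j p (l - t)‖) ^ 2) := by
        rw [← mul_pow]
        gcongr
        exact c1.trans (pow_le_pow_left₀ (by positivity) c2 2)
      _ ≤ 6 * E * (p : ℝ) ^ (DD (N + 1) + 1) * ((4 ^ DD (N + 1) * (p : ℝ) ^ DD (N + 1)) *
          (Q * ∑ t ∈ I, ‖S j p (l - t)‖ ^ 2)) := by gcongr
      _ = 6 * E * 4 ^ DD (N + 1) * Q * (p : ℝ) ^ (2 * DD (N + 1) + 1) *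
          ∑ t ∈ I, ‖S j p (l - t)‖ ^ 2 := by ring
      _ ≤ _ := by
        gcongr
        · exact hp1.le
        · exact (exps N).1
  refine (Finset.sum_le_sum fun j _ => h2 j).trans ?_
  rw [← Finset.mul_sum, Finset.sum_comm]
  have h5 : ∑ t ∈ I, ∑ j, ‖S j p (l - t)‖ ^ 2 ≤ Q * R := by
    refine (Finset.sum_le_sum h1).trans ?_
    rw [Finset.sum_const, nsmul_eq_mul]
    gcongr
  refine (mul_le_mul_of_nonneg_left h5 (by positivity)).trans (le_of_eq ?_)
  ring

end SW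

end Pool.Agent.Lib.MP_fa98d2_nt.D
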