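import Pool.Agent.Lib.MP_fa98d2_nt.W.Stmts

/-! Short-window density theorem: injectivity of the localised region for all tuples. -/

open MeasureTheory Filter Topology Matrix
open scoped ENNReal Real ContDiff ComplexConjugate InnerProductSpace

noncomputable section

namespace Pool.Agent.Lib.MP_fa98d2_nt.D

namespace SW

open Inj in
theorem injW : InjWStmt := by
  intro N
  obtain ⟨C, hC0, hC⟩ := hL.det (N + 1)
  have hl2 : 0 < Real.log 2 := Real.log_pos one_lt_two
  refine ⟨1 / (10 * (N + 2)), 2 * C / Real.log 2 + 1, by positivity, by positivity,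
    fun T δ hT hδ0 hδc m hm F hF => ?_⟩
  have hT0 : 0 < T := by linarith
  have hN0 : (0 : ℝ) ≤ N := Nat.cast_nonneg N
  rw [le_div_iff₀ (by positivity)] at hδc
  have hδ2 : 2 * δ * (2 * ((N + 1 : ℕ) : ℝ) + 2) ≤ 1 := by push_cast; nlinarith
  have hδ1 : δ * (2 * ((N + 1 : ℕ) : ℝ) + 2) ≤ 1 := by push_cast; nlinarith
  set a := tm m with ha
  have hap : ∀ i, 0 < a i := Main.tm_pos m
  have han : ∀ i, a i ≠ 0 := fun i => (hap i).ne'
  set y : Fin (N + 1) → ℝ := Fin.snoc (tT N T) 1 with hy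
  have htp : ∀ i, 0 < tT N T i := fun i => pow_pos hT0 _
  have hup : up (dg (tT N T)) = dg y := up_dg fun i => (htp i).ne'
  have hyp : ∀ i, 0 < y i := fun i => by
    refine Fin.lastCases ?_ (fun i => ?_) i <;> simp [hy, htp]
  have hy1 : y (Fin.last N) = 1 := by simp [hy]
  have ha1 : a (Fin.last N) = 1 := by
    rw [ha, tm]
    exact Finset.prod_eq_one fun j _ => if_neg (by have := j.2; simp only [Fin.val_last]; omega)
  rw [hup]
  set om : G (N + 1) → ℝ≥0∞ := fun g => (Om (dg y) δ).indicator 1 (dg a * g) with hom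
  have homm : Measurable om :=
    (measurable_one.indicator (hL.opn _ _ _).2.measurableSet).comp (measurable_const_mul _)
  have homU : UInv om := by
    intro u hu g
    have : dg a * (u * g) = dg a * u * (dg a)⁻¹ * (dg a * g) := by group
    have h2 : dg a * (u * g) ∈ Om (dg y) δ ↔ dg a * g ∈ Om (dg y) δ := by
      rw [this]; exact om_iff (isU_conj han hu)
    simp only [hom]
    by_cases h3 : dg a * g ∈ Om (dg y) δ
    · rw [Set.indicator_of_mem h3, Set.indicator_of_mem (h2.2 h3)]; rfl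
    · rw [Set.indicator_of_notMem h3, Set.indicator_of_notMem fun h => h3 (h2.1 h)]
  have hz : ∀ i, zm m i ≠ 0 := fun i => by
    simp only [zm]; exact_mod_cast (m i).pos.ne'
  set H : G (N + 1) → ℝ≥0∞ := fun g => om g * ‖Wf (zm m) F g‖ₑ ^ 2 with hHd
  have hHm : Measurable H :=
    homm.mul ((hW.cont _ _ _ hF.cont).measurable.enorm.pow_const 2)
  have hHU : UInv H := by
    intro u hu g
    have h1 := hW.eqv _ (zm m) F hF.cont (fun γ _ g => hF.zinv γ g) u hu g
    have h2 : ‖psi (zv (zm m)) u‖ₑ = 1 := by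
      rw [← ofReal_norm, psi, norm_ee, ENNReal.ofReal_one]
    simp only [hHd, homU u hu g, h1, enorm_mul, h2, one_mul]
  have e1 : (fun g => (Om (dg y) δ).indicator 1 g * ‖Wf (zm m) F ((dg a)⁻¹ * g)‖ₑ ^ 2) =
      fun g => H (dg (fun i => (a i)⁻¹) * g) := by
    ext g
    simp only [hHd, hom, ← dg_inv han, mul_inv_cancel_left]
  rw [e1, hH.iil _ H hHm hHU _ fun i => inv_pos.2 (hap i), ← mul_assoc,
    ← ENNReal.ofReal_mul (dl_pos hap).le, dl_inv hap, ENNReal.ofReal_one, one_mul]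
  have hFm : Measurable fun g => ‖F g‖ₑ ^ 2 := hF.cont.measurable.enorm.pow_const 2
  refine (hPar.bes _ _ hz F hF.cont (fun h z g => hF.zinv _ g) om homm homU).trans ?_
  rw [← hQ.unf _ (fun g => sat om g * ‖F g‖ₑ ^ 2) ((sat_meas homm).mul hFm) (fun h z g => by
    simp only [sat_pinv om h z g, hF.zinv _ g])]
  set D := dt (dg y) / dt (dg a) with hD
  have hD0 : 0 < D := div_pos (dt_pos _) (dt_pos _)
  have hex : ∀ (ξ : Prim N) g, sat om (iz (pz ξ) * g) ≠ 0 → ∃ γ : GZ (N + 1),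
      γ.val (Fin.last _) = ξ.1 ∧ ∃ u, IsU u ∧ ∃ x ∈ Bl (N + 1) δ,
        iz γ * g = (dg a)⁻¹ * u * dg y * x := by
    intro ξ g h
    simp only [sat, ne_eq, ENNReal.iSup_eq_zero, not_forall] at h
    obtain ⟨h', z, h⟩ := h
    obtain ⟨u, hu, x, hx, e⟩ := Set.mem_of_indicator_ne_zero h
    refine ⟨pb h' z * pz ξ, ?_, u, hu, x, hx, ?_⟩
    · rw [← pz_row ξ, Units.val_mul, val_pb]
      ext j
      rw [Matrix.mul_apply, blk_last, Finset.sum_eq_single (Fin.last _)] <;> simp +contextual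
    · rw [map_mul, mul_assoc, mul_assoc, mul_assoc, eq_inv_mul_iff_mul_eq, e, mul_assoc]
  have huniq : ∀ g (ξ ξ' : Prim N), sat om (iz (pz ξ) * g) ≠ 0 →
      sat om (iz (pz ξ') * g) ≠ 0 → ξ = ξ' := by
    intro g ξ ξ' h h'
    obtain ⟨γ, hγ, u, hu, x, hx, e⟩ := hex ξ g h
    obtain ⟨γ', hγ', u', hu', x', hx', e'⟩ := hex ξ' g h'
    have hxi := (hL.mul _ δ δ hδ1 hδ1 x hx x hx).2
    have hxx := (hL.mul _ δ (2 * δ) hδ1 hδ2 x' hx' _ hxi).1
    have e2 : iz (γ' * γ⁻¹) * ((dg a)⁻¹ * u * dg y) = (dg a)⁻¹ * (u' * (dg y * (x' * x⁻¹))) := by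
      have h1 : (dg a)⁻¹ * u * dg y = iz γ * g * x⁻¹ := by rw [e]; group
      rw [h1, map_mul, map_inv]
      calc _ = iz γ' * g * x⁻¹ := by group
        _ = _ := by rw [e']; group
    have e3 : zv ((γ' * γ⁻¹).val (Fin.last _)) ᵥ* ((dg a)⁻¹ * u * dg y).val = lr (x' * x⁻¹) := by
      have := congrArg lr e2
      rw [lr_mul, dg_inv han, lr_dg_mul (fun i => inv_ne_zero (han i)) (by simp [ha1]), hu'.lr_mul,
        lr_dg_mul (fun i => (hyp i).ne') hy1, ← dg_inv han] at this
      exact this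
    have e4 := row (η := (γ' * γ⁻¹).val (Fin.last _)) (a := a) (y := y) hu
      (e := 2 * (δ + 2 * δ)) (by nlinarith) hap hyp ha1 hy1 (fun i hi => by
        obtain ⟨i, rfl⟩ := Fin.exists_castSucc_eq.2 hi
        simp only [hy, Fin.snoc_castSucc]
        rw [inv_mul_eq_div, le_div_iff₀ (hap _)]
        linarith [hm i])
      (fun i => by rw [e3]; exact hxx _ i)
    apply Subtype.ext
    rw [← hγ, ← hγ']
    have : γ' = (γ' * γ⁻¹) * γ := by group
    rw [this, Units.val_mul]
    ext j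
    rw [Matrix.mul_apply, e4, Finset.sum_eq_single (Fin.last _)] <;> simp +contextual
  have hshl : ∀ g (ξ : Prim N), sat om (iz (pz ξ) * g) ≤
      Shl (D * Real.exp (-(C * δ))) (D * Real.exp (C * δ)) g := by
    intro g ξ
    by_cases h : sat om (iz (pz ξ) * g) = 0
    · rw [h]; exact zero_le
    obtain ⟨γ, -, u, hu, x, hx, e⟩ := hex ξ g h
    have h1 : dt g = D * dt x := by
      have := congrArg dt e
      rw [dt_mul, dt_iz, one_mul, dt_mul, dt_mul, dt_mul, hu.dt, dt_inv] at this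
      rw [this, hD]; ring
    have h2 := abs_le.1 (hC δ hδ1 x hx)
    have h3 : Real.exp (-(C * δ)) ≤ dt x := (Real.le_log_iff_exp_le (dt_pos x)).1 h2.1
    have h4 : dt x ≤ Real.exp (C * δ) := (Real.log_le_iff_le_exp (dt_pos x)).1 h2.2
    rw [Shl, if_pos ⟨by rw [h1]; gcongr, by rw [h1]; gcongr⟩]
    exact iSup_le fun _ => iSup_le fun _ => Set.indicator_le_self' (fun _ _ => zero_le) _
  calc _ ≤ QI (N + 1) fun g => Shl (D * Real.exp (-(C * δ))) (D * Real.exp (C * δ)) g *
        ‖F g‖ₑ ^ 2 := by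
        refine lintegral_mono fun g => mul_le_mul_right ?_ _
        simp only [hF.zinv _ g]
        rw [ENNReal.tsum_mul_right]
        exact mul_le_mul_left (tsum_le_one _ _ (hshl g) (huniq g)) _
    _ = _ * N2 F := hQ.shell _ _ hFm (fun γ g => by simp only [hF.zinv γ g])
        (fun t ht g => by simp only [hF.sinv t ht g]) _ _ (by positivity) (by
          have : 0 ≤ C * δ := by positivity
          gcongr; linarith)
    _ ≤ _ := by
      refine mul_le_mul_left (ENNReal.ofReal_le_ofReal ?_) _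
      rw [mul_div_mul_left _ _ hD0.ne', ← Real.exp_sub, Real.log_exp, add_mul]
      have : (C * δ - -(C * δ)) / Real.log 2 = 2 * C / Real.log 2 * δ := by
        field_simp; ring
      rw [this]
      exact le_add_of_nonneg_right (by positivity)

end SW

end Pool.Agent.Lib.MP_fa98d2_nt.D
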