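import Pool.Agent.Lib.MP_fa98d2_nt.W.Stmts

/-!
Short-window density theorem: skew symmetry of the Lie algebra action in the Kirillov models and
the Duhamel estimate along the last row.
-/

open MeasureTheory Filter Topology Matrix
open scoped ENNReal Real ContDiff ComplexConjugate InnerProductSpace

noncomputable section

namespace Pool.Agent.Lib.MP_fa98d2_nt.D

namespace SW

namespace Kir

variable {N : ℕ}

/-- the derivative along a matrix -/
def rdv (d : Dat N) (A : Mat (N + 1)) (w : d.V) : d.V := ⟨Rd A (w : G (N + 1) → ℂ), d.rd_mem A w⟩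

lemma W_rdv (d : Dat N) (A : Mat (N + 1)) (w : d.V) : d.W (rdv d A w) = Rd A (d.W w) :=
  Loc1.w1_rd hW (d.sm w) _

lemma rdv_eq (d : Dat N) (A : Mat (N + 1)) (w : d.V) :
    rdv d A w = ∑ a, ∑ b, ((A a b : ℝ) : ℂ) • d.e a b w := by
  apply Subtype.ext
  simp only [Submodule.coe_sum, Submodule.coe_smul, Dat.e_val]
  exact hC.rd_lin _ _ _ (d.sm w)

lemma rdv_em (d : Dat N) (a b : Fin (N + 1)) (w : d.V) : rdv d (em a b) w = d.e a b w :=
  Subtype.ext (d.e_val a b w).symm

lemma rho_rdv (d : Dat N) (A : Mat (N + 1)) (x : G (N + 1)) (h : A * x.val = x.val * A)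
    (w : d.V) : d.rho x (rdv d A w) = rdv d A (d.rho x w) := by
  apply Subtype.ext
  have e : (x⁻¹).val * A * x.val = A := by
    rw [Matrix.mul_assoc, h, ← Matrix.mul_assoc, ← Units.val_mul, inv_mul_cancel, Units.val_one,
      Matrix.one_mul]
  have := hC.rd_rt _ A x (w : G (N + 1) → ℂ)
  rw [e] at this
  exact this.symm

lemma rd_smul (z : ℝ) (A : Mat (N + 1)) {F : G (N + 1) → ℂ} (hF : Sm F) (g : G (N + 1)) :
    Rd (z • A) F g = z * Rd A F g := by
  rw [hC.rd_lin _ _ _ hF, hC.rd_lin _ A _ hF]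
  simp only [Finset.sum_apply, Pi.smul_apply, smul_eq_mul, Matrix.smul_apply, Finset.mul_sum]
  refine Finset.sum_congr rfl fun a _ => Finset.sum_congr rfl fun b _ => ?_
  push_cast
  ring

/-- the segment from the identity in the direction `V` -/
def cu (V : Mat (N + 1)) (t : ℝ) : G (N + 1) := mkG (1 + t • V)

lemma measurable_cu (V : Mat (N + 1)) : Measurable (cu V) :=
  measurable_mkG' fun i j => by
    simp only [Matrix.add_apply, Matrix.smul_apply, smul_eq_mul]
    fun_prop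

lemma cu_zero (V : Mat (N + 1)) : cu V 0 = 1 := by simp [cu]

section curve

variable {V : Mat (N + 1)} {l : ℝ}

lemma den_ge (hl : -(1 / 2) ≤ l) {t : ℝ} (ht : t ∈ Set.Icc (0 : ℝ) 1) : 1 / 2 ≤ 1 + t * l := by
  nlinarith [ht.1, ht.2]

lemma det_cu (hV : V * V = l • V) (hl : -(1 / 2) ≤ l) {t : ℝ} (ht : t ∈ Set.Icc (0 : ℝ) 1) :
    (1 + t • V).det ≠ 0 := by
  have h0 : 1 + t * l ≠ 0 := by have := den_ge hl ht; linarith
  refine Matrix.det_ne_zero_of_right_inverse (B := 1 - (t / (1 + t * l)) • V) ?_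
  rw [Matrix.add_mul, Matrix.mul_sub, Matrix.mul_sub, Matrix.one_mul, Matrix.one_mul,
    Matrix.mul_one, Matrix.smul_mul, Matrix.mul_smul, hV, smul_smul, smul_smul, sub_add_sub_comm,
    ← add_smul]
  have : t / (1 + t * l) + t * (t / (1 + t * l)) * l = t := by field_simp
  rw [this, add_sub_cancel_right]

lemma val_cu (hV : V * V = l • V) (hl : -(1 / 2) ≤ l) {t : ℝ} (ht : t ∈ Set.Icc (0 : ℝ) 1) :
    (cu V t).val = 1 + t • V := val_mkG (det_cu hV hl ht)

lemma comm_cu (hV : V * V = l • V) (hl : -(1 / 2) ≤ l) {t : ℝ} (ht : t ∈ Set.Icc (0 : ℝ) 1) :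
    V * (cu V t).val = (cu V t).val * V := by
  rw [val_cu hV hl ht, Matrix.mul_add, Matrix.add_mul, Matrix.mul_one, Matrix.one_mul,
    Matrix.mul_smul, Matrix.smul_mul]

lemma inv_cu (hV : V * V = l • V) (hl : -(1 / 2) ≤ l) {t : ℝ} (ht : t ∈ Set.Icc (0 : ℝ) 1) :
    ((cu V t)⁻¹).val * V = (1 + t * l)⁻¹ • V := by
  have h0 : 1 + t * l ≠ 0 := by have := den_ge hl ht; linarith
  have e : (cu V t).val * ((1 + t * l)⁻¹ • V) = V := by
    rw [val_cu hV hl ht, Matrix.mul_smul, Matrix.add_mul, Matrix.one_mul, Matrix.smul_mul, hV,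
      smul_smul]
    nth_rewrite 1 [← one_smul ℝ V]
    rw [← add_smul, smul_smul, inv_mul_cancel₀ h0, one_smul]
  nth_rewrite 2 [← e]
  rw [← Matrix.mul_assoc, ← Units.val_mul, inv_mul_cancel, Units.val_one, Matrix.one_mul]

lemma co_cu (hV : V * V = l • V) (hl : -(1 / 2) ≤ l) {t : ℝ} (ht : t ∈ Set.Icc (0 : ℝ) 1) :
    HasDerivAt (fun t => co (cu V t)) (fun i j => V i j) t := by
  have h1 : Continuous fun s : ℝ => (1 + s • V).det :=
    Continuous.matrix_det (continuous_const.add (continuous_id.smul continuous_const))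
  have h2 : ∀ᶠ s in 𝓝 t, (1 + s • V).det ≠ 0 := h1.continuousAt.eventually_ne (det_cu hV hl ht)
  have h3 : HasDerivAt (fun s : ℝ => (co (1 : G (N + 1)) + s • (fun i j => V i j) : E (N + 1)))
      (fun i j => V i j) t := by
    simpa using ((hasDerivAt_id t).smul_const (fun i j => V i j : E (N + 1))).const_add
      (co (1 : G (N + 1)))
  refine h3.congr_of_eventuallyEq (h2.mono fun s hs => ?_)
  ext i j
  simp only [co, cu, val_mkG hs]
  rfl

lemma der (hV : V * V = l • V) (hl : -(1 / 2) ≤ l) (d : Dat N) (w : d.V) (y : G (N + 1)) {t : ℝ}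
    (ht : t ∈ Set.Icc (0 : ℝ) 1) : HasDerivAt (fun t => d.W w (y * cu V t))
      (((1 + t * l)⁻¹ : ℝ) * d.W (rdv d V w) (y * cu V t)) t := by
  have hs : Sm fun g => d.W w (y * g) := by simpa using hC.tra _ _ (d.W_sm w) y 1
  have h := hC.curve _ _ hs (cu V) _ t (co_cu hV hl ht)
  have e : ((cu V t)⁻¹).val * Matrix.of (fun i j => V i j) = (1 + t * l)⁻¹ • V := inv_cu hV hl ht
  rw [e, rd_smul _ _ hs] at h
  rw [W_rdv]
  simpa only [Rd, mul_assoc] using h

end curve

/-- Lebesgue measure on the unit interval -/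
abbrev m01 : Measure ℝ := volume.restrict (Set.Ioc (0 : ℝ) 1)

lemma l2 (d : Dat N) (w : d.V) {c : ℝ → G (N + 1)} (hc : Measurable c) :
    MemLp (fun p : ℝ × X N => d.W w (up (sg N p.2) * c p.1)) 2 (m01.prod (mX N)) := by
  have hm : Measurable fun p : ℝ × X N => d.W w (up (sg N p.2) * c p.1) :=
    (d.W_cont w).measurable.comp
      ((continuous_up.measurable.comp ((measurable_sg N).comp measurable_snd)).mul
        (hc.comp measurable_fst))
  refine Loc2.memLp_of hm ?_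
  rw [lintegral_prod _ (hm.enorm.pow_const 2).aemeasurable]
  have e : ∀ t, ∫⁻ x, ‖d.W w (up (sg N x) * c t)‖ₑ ^ 2 ∂mX N = ENNReal.ofReal (‖d.K w‖ ^ 2) := by
    intro t
    rw [← d.K_rho (c t), d.K_sq, Loc2.KK_one, d.W_rho]
    rfl
  simp only [e]
  simp

lemma intg (d d0 : Dat N) (f : d.V) (g : d0.V) {c : ℝ → G (N + 1)} (hc : Measurable c) :
    Integrable (fun p : ℝ × X N => d.W f (up (sg N p.2) * c p.1) *
      conj (d0.W g (up (sg N p.2) * c p.1))) (m01.prod (mX N)) :=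
  MemLp.integrable_mul (l2 d f hc) (l2 d0 g hc).star

lemma intg1 (d d0 : Dat N) (f : d.V) (g : d0.V) (x : G (N + 1)) :
    Integrable (fun y : X N => d.W f (up (sg N y) * x) * conj (d0.W g (up (sg N y) * x))) (mX N) := by
  have := MemLp.integrable_mul (d.memLp (d.rho x f)) (d0.memLp (d0.rho x g)).star
  rw [d.W_rho, d0.W_rho] at this
  exact this

/-- the pairing of translates -/
def pr (d d0 : Dat N) (f : d.V) (g : d0.V) (x : G (N + 1)) : ℂ :=
  ⟪d0.K (d0.rho x g), d.K (d.rho x f)⟫_ℂ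

lemma pr_eq (d d0 : Dat N) (f : d.V) (g : d0.V) (x : G (N + 1)) : pr d d0 f g x =
    ∫ y, d.W f (up (sg N y) * x) * conj (d0.W g (up (sg N y) * x)) ∂mX N := by
  rw [pr, d.inner_K, d.W_rho, d0.W_rho]
  rfl

lemma pr_one (d d0 : Dat N) (f : d.V) (g : d0.V) : pr d d0 f g 1 = ⟪d0.K g, d.K f⟫_ℂ := by
  rw [pr, d.rho_one, d0.rho_one]
  rfl

/-- the Duhamel formula -/
lemma duhamel {V : Mat (N + 1)} {l : ℝ} (hV : V * V = l • V) (hl : -(1 / 2) ≤ l) (d d0 : Dat N)
    (f : d.V) (g : d0.V) : pr d d0 f g (cu V 1) - ⟪d0.K g, d.K f⟫_ℂ =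
      ∫ t in (0 : ℝ)..1, (((1 + t * l)⁻¹ : ℝ) : ℂ) *
        (pr d d0 (rdv d V f) g (cu V t) + pr d d0 f (rdv d0 V g) (cu V t)) := by
  have hI : Set.uIcc (0 : ℝ) 1 = Set.Icc 0 1 := Set.uIcc_of_le zero_le_one
  set D : ℝ → X N → ℂ := fun t y => (((1 + t * l)⁻¹ : ℝ) : ℂ) *
    (d.W (rdv d V f) (up (sg N y) * cu V t) * conj (d0.W g (up (sg N y) * cu V t)) +
      d.W f (up (sg N y) * cu V t) * conj (d0.W (rdv d0 V g) (up (sg N y) * cu V t))) with hD
  have hz : ContinuousOn (fun t : ℝ => (((1 + t * l)⁻¹ : ℝ) : ℂ)) (Set.Icc 0 1) :=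
    Complex.continuous_ofReal.comp_continuousOn (ContinuousOn.inv₀ (by fun_prop) fun t ht => by
      have := den_ge hl ht; linarith)
  have h1 : ∀ y : X N, ∫ t in (0 : ℝ)..1, D t y =
      d.W f (up (sg N y) * cu V 1) * conj (d0.W g (up (sg N y) * cu V 1)) -
        d.W f (up (sg N y) * cu V 0) * conj (d0.W g (up (sg N y) * cu V 0)) := by
    intro y
    have hc : ∀ (d : Dat N) (w : d.V), ContinuousOn (fun t => d.W w (up (sg N y) * cu V t))
        (Set.Icc 0 1) := fun d w t ht => (der hV hl d w _ ht).continuousAt.continuousWithinAt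
    refine intervalIntegral.integral_eq_sub_of_hasDerivAt
      (f := fun t => d.W f (up (sg N y) * cu V t) * conj (d0.W g (up (sg N y) * cu V t)))
      (fun t ht => ?_) (ContinuousOn.intervalIntegrable ?_)
    · rw [hI] at ht
      have := (der hV hl d f (up (sg N y)) ht).mul (der hV hl d0 g (up (sg N y)) ht).star
      refine this.congr_deriv ?_
      simp only [hD, star_mul', RCLike.star_def, Complex.conj_ofReal]
      ring
    · rw [hI]
      exact hz.mul (((hc _ _).mul (hc _ _).star).add ((hc _ _).mul (hc _ _).star))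
  have h2 : Integrable (Function.uncurry D) (m01.prod (mX N)) := by
    refine Integrable.bdd_mul (c := 2) ((intg d d0 _ _ (measurable_cu V)).add
      (intg d d0 _ _ (measurable_cu V))) ?_ ?_
    · exact (Complex.measurable_ofReal.comp
        (by fun_prop : Measurable fun p : ℝ × X N => (1 + p.1 * l)⁻¹)).aestronglyMeasurable
    · have : ∀ᵐ t ∂m01, ‖(((1 + t * l)⁻¹ : ℝ) : ℂ)‖ ≤ 2 := by
        filter_upwards [ae_restrict_mem measurableSet_Ioc] with t ht
        have := den_ge hl (Set.Ioc_subset_Icc_self ht)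
        rw [Complex.norm_real, Real.norm_of_nonneg (by positivity)]
        exact inv_le_of_inv_le₀ (by norm_num) (by linarith)
      exact (Measure.quasiMeasurePreserving_fst).ae this
  rw [← pr_one, ← cu_zero V, pr_eq, pr_eq, ← integral_sub (intg1 _ _ _ _ _) (intg1 _ _ _ _ _)]
  simp only [← h1, intervalIntegral.integral_of_le zero_le_one]
  rw [← integral_integral_swap h2]
  refine integral_congr_ae (Eventually.of_forall fun t => ?_)
  simp only [hD]
  rw [integral_const_mul, integral_add (intg1 _ _ _ _ _) (intg1 _ _ _ _ _), pr_eq, pr_eq]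

/-- invariance of the pairing along the segment gives skew symmetry -/
lemma skew_of (d d0 : Dat N) (a b : Fin (N + 1))
    (h : ∀ t ∈ Set.Icc (0 : ℝ) 1, ∀ f g, pr d d0 f g (cu (em a b) t) = ⟪d0.K g, d.K f⟫_ℂ)
    (f : d.V) (g : d0.V) : dd d d0 a b f g = 0 := by
  obtain ⟨l, hl, hV⟩ : ∃ l : ℝ, 0 ≤ l ∧ em a b * em a b = l • em a b := by
    by_cases hab : b = a
    · subst hab
      exact ⟨1, zero_le_one, by simp [em, Matrix.single_mul_single_same]⟩
    · exact ⟨0, le_rfl, by simp [em, Matrix.single_mul_single_of_ne _ _ _ _ hab]⟩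
  have hl' : -(1 / 2) ≤ l := by linarith
  have key := duhamel hV hl' d d0 f g
  rw [h 1 ⟨zero_le_one, le_rfl⟩, sub_self,
    intervalIntegral.integral_congr (g := fun t => (((1 + t * l)⁻¹ : ℝ) : ℂ) * dd d d0 a b f g)
      (fun t ht => by
        rw [Set.uIcc_of_le zero_le_one] at ht
        simp only [h t ht, rdv_em, dd]),
    intervalIntegral.integral_mul_const, intervalIntegral.integral_ofReal] at key
  have hp : 0 < ∫ t in (0 : ℝ)..1, (1 + t * l)⁻¹ := by
    refine intervalIntegral.intervalIntegral_pos_of_pos_on (ContinuousOn.intervalIntegrable ?_)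
      (fun t ht => ?_) zero_lt_one
    · rw [Set.uIcc_of_le zero_le_one]
      exact ContinuousOn.inv₀ (by fun_prop) fun t ht => by have := den_ge hl' ht; linarith
    · have := den_ge hl' (Set.Ioo_subset_Icc_self ht)
      positivity
  exact (mul_eq_zero.1 key.symm).resolve_left (Complex.ofReal_ne_zero.2 hp.ne')

lemma norm_up (d d0 : Dat N) (h : G N) (f : d.V) (g : d0.V) :
    ‖d0.K (d0.rho (up h) g) + d.K (d.rho (up h) f)‖ = ‖d0.K g + d.K f‖ := by
  have hs : ∀ (f : d.V) (g : d0.V), ENNReal.ofReal (‖d0.K g + d.K f‖ ^ 2) =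
      II N fun y => ‖d0.W g (up y) + d.W f (up y)‖ₑ ^ 2 := fun f g =>
    Loc2.ofReal_norm_sq _ (f := fun x => d0.W g (up (sg N x)) + d.W f (up (sg N x))) (by
      filter_upwards [Lp.coeFn_add (d0.K g) (d.K f), d0.K_ae g, d.K_ae f] with x h1 h2 h3
      rw [h1, Pi.add_apply, h2, h3])
  have hi := hH.iir N (fun y => ‖d0.W g (up y) + d.W f (up y)‖ₑ ^ 2)
    ((((d0.W_cont g).comp continuous_up).add
      ((d.W_cont f).comp continuous_up)).measurable.enorm.pow_const 2)
    (fun u hu y => by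
      simp only [up_mul]
      rw [d0.W_eqv g _ hu.up, d.W_eqv f _ hu.up, ← mul_add, enorm_mul, psi, ← ofReal_norm, norm_ee,
        ENNReal.ofReal_one, one_mul]) h
  have e : ENNReal.ofReal (‖d0.K (d0.rho (up h) g) + d.K (d.rho (up h) f)‖ ^ 2) =
      ENNReal.ofReal (‖d0.K g + d.K f‖ ^ 2) := by
    rw [hs, hs, ← hi, d.W_rho, d0.W_rho]
    congr 1
    ext y
    simp only [rt, up_mul]
  rw [ENNReal.ofReal_eq_ofReal_iff (by positivity) (by positivity)] at e
  exact (pow_left_inj₀ (norm_nonneg _) (norm_nonneg _) two_ne_zero).1 e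

lemma pr_up (d d0 : Dat N) (h : G N) (f : d.V) (g : d0.V) :
    pr d d0 f g (up h) = ⟪d0.K g, d.K f⟫_ℂ := by
  rw [pr, inner_eq_sum_norm_sq_div_four, inner_eq_sum_norm_sq_div_four]
  simp only [sub_eq_add_neg, ← map_smul, ← map_neg, norm_up]

lemma pr_nb (d d0 : Dat N) (b : Fin N → ℝ) (f : d.V) (g : d0.V) :
    pr d d0 f g (nb b) = ⟪d0.K g, d.K f⟫_ℂ := by
  rw [pr_eq, d.inner_K]
  refine integral_congr_ae (Eventually.of_forall fun y => ?_)
  simp only [up_mul_nb]
  rw [d0.W_eqv g _ (isU_nb _), d.W_eqv f _ (isU_nb _), map_mul, mul_mul_mul_comm,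
    Complex.mul_conj, Complex.normSq_eq_norm_sq, psi, norm_ee]
  simp

lemma pr_pb (d d0 : Dat N) (h : G N) (b : Fin N → ℝ) (f : d.V) (g : d0.V) :
    pr d d0 f g (pb h b) = ⟪d0.K g, d.K f⟫_ℂ := by
  rw [← pr_up d d0 h, ← nb_mul_up, pr, d.rho_mul, d0.rho_mul]
  exact pr_nb d d0 b _ _

lemma cross (d d0 : Dat N) (a b : Fin (N + 1)) (ha : a ≠ Fin.last N) (f : d.V) (g : d0.V) :
    dd d d0 a b f g = 0 := by
  refine skew_of d d0 a b (fun t _ f g => ?_) f g
  obtain ⟨h, v, e⟩ := exists_pb (g := cu (em a b) t) (by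
    by_cases hd : (1 + t • em a b).det ≠ 0
    · rw [cu, val_mkG hd]
      ext j
      simp [em, Matrix.one_apply, Pi.single_apply, ha, eq_comm]
    · rw [cu, mkG, dif_neg hd]
      ext j
      simp [Matrix.one_apply, Pi.single_apply, eq_comm])
  rw [e, pr_pb]

/-- the matrix with last row `v` -/
def lrow (v : Fin (N + 1) → ℝ) : Mat (N + 1) := Matrix.of fun i j => if i = Fin.last N then v j else 0

lemma lrow_sq (v : Fin (N + 1) → ℝ) : lrow v * lrow v = v (Fin.last N) • lrow v := by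
  ext i j
  by_cases h : i = Fin.last N <;> simp [lrow, Matrix.mul_apply, h]

lemma cu_lrow (v : Fin (N + 1) → ℝ) (t : ℝ) : cu (lrow v) t = sr (el N + t • v) := by
  rw [cu, sr]
  congr 1
  ext i j
  by_cases h : i = Fin.last N
  · subst h
    simp [lrow, el, Matrix.one_apply, Pi.single_apply, eq_comm]
  · simp [lrow, h]

lemma rdv_lrow (d : Dat N) (v : Fin (N + 1) → ℝ) (w : d.V) :
    rdv d (lrow v) w = ∑ i, ((v i : ℝ) : ℂ) • d.e (Fin.last N) i w := by
  rw [rdv_eq, Finset.sum_eq_single (Fin.last N)]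
  · simp [lrow]
  · intro a _ ha
    simp [lrow, ha]
  · simp

lemma duh (d d0 : Dat N) (f : d.V) (g : d0.V) (r Bd : ℝ) (hr : r ≤ 1 / 2)
    (h : ∀ ρ ∈ Metric.ball (el N) r, ∀ i,
      ‖dd d d0 (Fin.last N) i (d.rho (sr ρ) f) (d0.rho (sr ρ) g)‖ ≤ Bd)
    (ρ : Fin (N + 1) → ℝ) (hρ : ρ ∈ Metric.ball (el N) r) :
    ‖⟪d0.K (d0.rho (sr ρ) g), d.K (d.rho (sr ρ) f)⟫_ℂ - ⟪d0.K g, d.K f⟫_ℂ‖ ≤
      2 * (N + 1) * r * Bd := by
  set v := ρ - el N with hv
  have hn : ‖v‖ < r := by rwa [hv, ← dist_eq_norm]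
  have hi : ∀ i, |v i| ≤ r := fun i => (norm_le_pi_norm v i).trans hn.le
  have hl : -(1 / 2) ≤ v (Fin.last N) := by have := abs_le.1 (hi (Fin.last N)); linarith [this.1]
  have key := duhamel (lrow_sq v) hl d d0 f g
  have e1 : cu (lrow v) 1 = sr ρ := by rw [cu_lrow, hv]; simp
  rw [e1, pr] at key
  rw [key]
  refine (intervalIntegral.norm_integral_le_of_norm_le_const (C := 2 * (N + 1) * r * Bd)
    fun t ht => ?_).trans (by simp)
  rw [Set.uIoc_of_le zero_le_one] at ht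
  have ht' := Set.Ioc_subset_Icc_self ht
  have hb : el N + t • v ∈ Metric.ball (el N) r := by
    rw [mem_ball_iff_norm, add_sub_cancel_left, norm_smul, Real.norm_of_nonneg ht'.1]
    exact (mul_le_of_le_one_left (norm_nonneg _) ht.2).trans_lt hn
  have hc := comm_cu (lrow_sq v) hl ht'
  have e2 : pr d d0 (rdv d (lrow v) f) g (cu (lrow v) t) + pr d d0 f (rdv d0 (lrow v) g)
      (cu (lrow v) t) = ∑ i, ((v i : ℝ) : ℂ) * dd d d0 (Fin.last N) i
        (d.rho (sr (el N + t • v)) f) (d0.rho (sr (el N + t • v)) g) := by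
    rw [pr, pr, rho_rdv _ _ _ hc, rho_rdv _ _ _ hc, rdv_lrow, rdv_lrow, cu_lrow]
    simp only [map_sum, map_smul, inner_sum, sum_inner, inner_smul_left, inner_smul_right,
      Complex.conj_ofReal, dd, mul_add, Finset.sum_add_distrib]
  have hB : 0 ≤ Bd := (norm_nonneg _).trans (h _ hb 0)
  have hr0 : 0 ≤ r := (norm_nonneg _).trans hn.le
  have h1 : ‖(((1 + t * v (Fin.last N))⁻¹ : ℝ) : ℂ)‖ ≤ 2 := by
    have := den_ge hl ht'
    rw [Complex.norm_real, Real.norm_of_nonneg (by positivity)]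
    exact inv_le_of_inv_le₀ (by norm_num) (by linarith)
  have h2 : ‖∑ i, ((v i : ℝ) : ℂ) * dd d d0 (Fin.last N) i
      (d.rho (sr (el N + t • v)) f) (d0.rho (sr (el N + t • v)) g)‖ ≤ (N + 1) * (r * Bd) := by
    refine (norm_sum_le _ _).trans ((Finset.sum_le_card_nsmul _ _ (r * Bd) fun i _ => ?_).trans
      (by simp))
    rw [norm_mul, Complex.norm_real, Real.norm_eq_abs]
    exact mul_le_mul (hi i) (h _ hb i) (norm_nonneg _) hr0
  rw [e2, norm_mul]
  calc _ ≤ 2 * ((N + 1) * (r * Bd)) := mul_le_mul h1 h2 (norm_nonneg _) zero_le_two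
    _ = _ := by ring

end Kir

theorem kir : KirStmt where
  skew _ d a b f g := Kir.skew_of d d a b (fun _ _ f g => d.inner_rho _ f g) f g
  cross _ d d0 a b ha f g := Kir.cross d d0 a b ha f g
  duh _ d d0 f g r Bd hr h ρ hρ := Kir.duh d d0 f g r Bd hr h ρ hρ

end SW

end Pool.Agent.Lib.MP_fa98d2_nt.D
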