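import Pool.Agent.Lib.MP_fa98d2_nt.W.Core

/-! Short-window density theorem: the lower bound for the localised pairing. -/

open MeasureTheory Filter Topology Matrix
open scoped ENNReal Real ContDiff ComplexConjugate InnerProductSpace

noncomputable section

namespace Pool.Agent.Lib.MP_fa98d2_nt.D

namespace SW

namespace LowA

variable {N : ℕ}

lemma unif {A : Type} (l : List A) (Q : A → ℝ → Prop) (h : ∀ a, ∃ C, 0 < C ∧ Q a C)
    (hm : ∀ a C C', C ≤ C' → Q a C → Q a C') : ∃ C, 0 < C ∧ ∀ a ∈ l, Q a C := by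
  induction l with
  | nil => exact ⟨1, one_pos, by simp⟩
  | cons a l ih =>
    obtain ⟨C, hC, h1⟩ := ih
    obtain ⟨C', -, h2⟩ := h a
    refine ⟨max C C', lt_max_of_lt_left hC, fun b hb => ?_⟩
    rcases List.mem_cons.1 hb with rfl | hb
    · exact hm _ _ _ (le_max_right _ _) h2
    · exact hm _ _ _ (le_max_left _ _) (h1 b hb)

lemma sb_mono {d : Dat N} {T a a' : ℝ} {J : ℕ} {w : d.V} (hT : 0 ≤ T) (h : d.Sb T a J w)
    (ha : a ≤ a') : d.Sb T a' J w := fun l hl => (h l hl).trans (by gcongr)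

lemma re_ge {H : Type} [NormedAddCommGroup H] [InnerProductSpace ℂ H] {b x y : H}
    (hx : ‖x - b‖ ≤ 1 / 20 * ‖b‖) (hy : ‖y - b‖ ≤ 1 / 20 * ‖b‖) :
    89 / 100 * ‖b‖ ^ 2 ≤ (⟪x, y⟫_ℂ).re := by
  have e : ⟪x, y⟫_ℂ = ⟪b, b⟫_ℂ + (⟪x - b, b⟫_ℂ + (⟪b, y - b⟫_ℂ + ⟪x - b, y - b⟫_ℂ)) := by
    simp only [inner_sub_left, inner_sub_right]; ring
  have h0 : (⟪b, b⟫_ℂ).re = ‖b‖ ^ 2 := inner_self_eq_norm_sq (𝕜 := ℂ) b
  have f : ∀ u v : H, -(‖u‖ * ‖v‖) ≤ (⟪u, v⟫_ℂ).re := fun u v =>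
    (abs_le.1 ((Complex.abs_re_le_norm _).trans (norm_inner_le_norm u v))).1
  have h1 := f (x - b) b
  have h2 := f b (y - b)
  have h3 := f (x - b) (y - b)
  have h4 : ‖x - b‖ * ‖y - b‖ ≤ 1 / 20 * ‖b‖ * (1 / 20 * ‖b‖) := by gcongr
  have h5 := norm_nonneg b
  rw [e]
  simp only [Complex.add_re]
  nlinarith

lemma nrm_le {H : Type} [NormedAddCommGroup H] {b x : H} {e : ℝ} (hx : ‖x - b‖ ≤ e * ‖b‖) :
    ‖x‖ ≤ (1 + e) * ‖b‖ := by
  have := norm_sub_norm_le x b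
  linarith

lemma setint (d d0 : Dat N) (f : d.V) (g : d0.V) {s : Set (X N)} (hs : MeasurableSet s) {b : ℝ}
    (hb : 0 ≤ b) (hg : ‖d0.K g‖ ≤ 2 * b)
    (hf : ∫⁻ x in sᶜ, ‖d.W f (up (sg N x))‖ₑ ^ 2 ∂mX N ≤ ENNReal.ofReal (b ^ 2 / 100)) :
    (⟪d0.K g, d.K f⟫_ℂ).re - b ^ 2 / 5 ≤
      (∫ x in s, d.W f (up (sg N x)) * conj (d0.W g (up (sg N x))) ∂mX N).re := by
  have hi : Integrable (fun x => d.W f (up (sg N x)) * conj (d0.W g (up (sg N x)))) (mX N) :=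
    (d.memLp f).integrable_mul (d0.memLp g).star
  have h1 := CoreA.cs sᶜ (d.memLp f) (d0.memLp g)
  rw [← Loc2.KK_one, ← Dat.K_sq] at h1
  have h2 := h1.trans (mul_le_mul_left hf _)
  rw [← ENNReal.ofReal_mul (by positivity), ← ofReal_norm, ← ENNReal.ofReal_pow (norm_nonneg _),
    ENNReal.ofReal_le_ofReal_iff (by positivity)] at h2
  have h3 : ‖∫ x in sᶜ, d.W f (up (sg N x)) * conj (d0.W g (up (sg N x))) ∂mX N‖ ≤ b ^ 2 / 5 := by
    refine (pow_le_pow_iff_left₀ (norm_nonneg _) (by positivity) two_ne_zero).1 (h2.trans ?_)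
    calc b ^ 2 / 100 * ‖d0.K g‖ ^ 2 ≤ b ^ 2 / 100 * (2 * b) ^ 2 := by gcongr
      _ = _ := by ring
  rw [Dat.inner_K, ← integral_add_compl hs hi, Complex.add_re]
  have := (abs_le.1 ((Complex.abs_re_le_norm _).trans h3)).2
  linarith

end LowA

open LowA in
theorem low (hK : KirStmt) (hE : ExStmt) (hM : MulStmt) (hD : DefStmt) (hv : CvStmt)
    (hV : VecStmt) (hm : MassStmt) : LowStmt := by
  intro N C0 e1 he1
  obtain ⟨M, hMe⟩ := exists_nat_ge e1⁻¹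
  have hM1 : 1 ≤ M := by
    have : (0 : ℝ) < M := (inv_pos.2 he1).trans_le hMe
    exact_mod_cast this
  obtain ⟨c2, e2, hc2, he2, hnear⟩ := hv.near N C0 (1 / 20) (by norm_num)
  have hc2' : Loc3.Ok (N + 1) c2 := hc2.mono (by linarith [hc2.1]) (by linarith [hc2.1])
  obtain ⟨PB, -, hPB⟩ := hE.exB N
  obtain ⟨CV, hCV, hVB⟩ := hV N M PB C0 c2 hc2
  obtain ⟨Ps, CM, η0, hCM, hη0, hmass⟩ := hm N
  obtain ⟨C1, hC1, hVP⟩ := unif Ps (fun P C => ∀ (T : ℝ) (hT : 1 ≤ T) (d : Dat N),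
      Gam (N + 1) C0 T d.γ → (∃ w : d.V, w ≠ 0) →
      ∀ w : d.V, ‖d.K w - bet N hT‖ ≤ T⁻¹ ^ M * ‖bet N hT‖ →
      ∀ r : ℝ, Loc3.Ok (N + 1) (8 * r) → ∀ u ∈ Bl (N + 1) r,
        ‖d.K (P.op d T (d.rho u (d.av (c2 / T) w)))‖ ≤ C * (r + T⁻¹) * ‖bet N hT‖)
    (fun P => by
      obtain ⟨C, hC, h⟩ := hV N M P C0 c2 hc2
      refine ⟨C, hC, fun T hT d hd hn w hw r hr u hu => ?_⟩
      simpa [ew] using h T hT d hd hn w hw r hr u hu 1 hM1 [] (by simp))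
    (fun P C C' hC h T hT d hd hn w hw r hr u hu => (h T hT d hd hn w hw r hr u hu).trans (by
      have := hr.1
      gcongr
      linarith [inv_pos.2 (show 0 < T by linarith)]))
  obtain ⟨CD, hCD, hdef⟩ := hD N M C0
  obtain ⟨Cs, hCs, hsob⟩ := hv.sob N (DD N * (M + 1) + 1) c2 hc2'
  obtain ⟨Ct, hCt, htr⟩ := hM.tr N (DD N * (M + 1) + 1)
  set A : ℝ := Ct * (Cs * 2) with hA
  set Z : ℝ := CD * A ^ 2 + 2 * A * CV * 2 ^ M with hZ
  have hZ0 : 0 < Z := by positivity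
  have hN0 : (0 : ℝ) ≤ N := Nat.cast_nonneg N
  set c : ℝ := min c2 (1 / (20 * (N + 1) * Z)) with hc
  have hc0 : 0 < c := lt_min hc2'.1 (by positivity)
  have hcZ : 2 * (N + 1) * c * Z ≤ 1 / 10 := by
    have : c ≤ 1 / (20 * (N + 1) * Z) := min_le_right _ _
    rw [le_div_iff₀ (by positivity)] at this
    linarith
  have hc1 : c ≤ 1 := (min_le_left _ _).trans (by linarith [hc2'.half])
  refine ⟨c, CM * (2 * C1), max 1 ((2 * C1 / η0) ^ e1⁻¹), hc0, by positivity, le_max_left _ _,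
    fun T U hT0 hU hUT => ?_⟩
  have hT : 1 ≤ T := (le_max_left _ _).trans hT0
  have hTp : 0 < T := by linarith
  have hU1 : 1 ≤ U := (Real.one_le_rpow hT he1.le).trans hU
  have hUp : 0 < U := by linarith
  have hη : 2 * C1 / U ≤ η0 := by
    have h1 : 2 * C1 / η0 ≤ T ^ e1 := by
      rw [← Real.rpow_inv_rpow (show 0 ≤ 2 * C1 / η0 by positivity) he1.ne']
      exact Real.rpow_le_rpow (by positivity) ((le_max_right _ _).trans hT0) he1.le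
    have h2 := h1.trans hU
    rw [div_le_iff₀ hη0] at h2
    rw [div_le_iff₀ hUp]; linarith
  have hr : Loc3.Ok (N + 1) (8 * (c / U)) := hc2.mono (by positivity) (by
    have : c / U ≤ c2 := (div_le_self hc0.le hU1).trans (min_le_left _ _)
    linarith)
  have hr0 : 0 < c / U := by positivity
  have hr2 : Loc3.Ok (N + 1) (2 * (c / U)) := hr.mono (by positivity) (by linarith)
  have hr1 : c / U ≤ 1 / 2 := by linarith [hr.half]
  have hrT : c / U + T⁻¹ ≤ 2 / U := by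
    have h1 : T⁻¹ ≤ 1 / U := by rw [← one_div]; gcongr
    have h2 : c / U ≤ 1 / U := by gcongr
    have : 2 / U = 1 / U + 1 / U := by ring
    linarith
  have hUM : T ≤ U ^ M := by
    calc T = T ^ (1 : ℝ) := (Real.rpow_one T).symm
      _ ≤ T ^ (e1 * M) := Real.rpow_le_rpow_of_exponent_le hT (by
          rwa [inv_le_iff_one_le_mul₀' he1] at hMe)
      _ = (T ^ e1) ^ M := Real.rpow_mul_natCast hTp.le _ _
      _ ≤ _ := by gcongr
  set β := ‖bet N hT‖ with hβ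
  have hβ0 : 0 < β := bet_pos hT
  have hbl : ∀ ρ ∈ Metric.ball (el N) (c / U), sr ρ ∈ Bl (N + 1) (c / U) := by
    intro ρ hρ
    obtain ⟨a1, a2, -⟩ := CoreA.ball_facts hr1 hρ
    exact Loc3.sr_bl hr0 (by linarith) a1
  have key : ∀ d : Dat N, Gam (N + 1) C0 T d.γ → (∃ w : d.V, w ≠ 0) → ∃ w : d.V,
      ‖d.K w - bet N hT‖ ≤ 1 / 20 * β ∧ ∀ ρ ∈ Metric.ball (el N) (c / U),
        d.Sb T (A * β) (DD N * (M + 1) + 1) (d.rho (sr ρ) w) ∧
        d.Sb T (CV * (2 / U) ^ M * β) 1 ((d.B T ^ M) (d.rho (sr ρ) w)) ∧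
        ∫⁻ x in (Nb N T (CM * (2 * C1) / U))ᶜ, ‖d.W (d.rho (sr ρ) w) (up (sg N x))‖ₑ ^ 2 ∂mX N ≤
          ENNReal.ofReal (β ^ 2 / 100) := by
    intro d hd hn
    obtain ⟨w0, hw0⟩ := d.dense hn (bet N hT) (η := min e2 (T⁻¹ ^ M) * β) (by positivity)
    have h1 : ‖d.K w0 - bet N hT‖ ≤ T⁻¹ ^ M * β := hw0.trans (by gcongr; exact min_le_right _ _)
    have h2 : ‖d.K w0‖ ≤ 2 * β := (nrm_le h1).trans (by
      have : T⁻¹ ^ M ≤ 1 := pow_le_one₀ (by positivity) (inv_le_one_of_one_le₀ hT)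
      gcongr; linarith)
    refine ⟨d.av (c2 / T) w0, hnear T hT d hd w0 (hw0.trans (by gcongr; exact min_le_left _ _)),
      fun ρ hρ => ⟨?_, ?_, ?_⟩⟩
    · refine sb_mono hTp.le (htr _ hr2 _ (hbl ρ hρ) d T _ _ hTp.le (hsob T hT d w0)) ?_
      calc Ct * (Cs * ‖d.K w0‖) ≤ Ct * (Cs * (2 * β)) := by gcongr
        _ = _ := by rw [hA]; ring
    · rw [← hPB d T hTp]
      refine sb_mono hTp.le (hVB T hT d hd hn w0 h1 _ hr _ (hbl ρ hρ) M le_rfl) ?_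
      gcongr
    · rw [mul_div_assoc]
      refine hmass T hT d _ _ β (by positivity) hη fun P hP => ?_
      refine (hVP P hP T hT d hd hn w0 h1 _ hr _ (hbl ρ hρ)).trans ?_
      calc C1 * (c / U + T⁻¹) * β ≤ C1 * (2 / U) * β := by gcongr
        _ = _ := by ring
  have hsq : ∀ x : HK N, ‖x - bet N hT‖ ≤ 1 / 20 * β → ‖x‖ ^ 2 ≤ 2 * β ^ 2 := by
    intro x hx
    calc ‖x‖ ^ 2 ≤ ((1 + 1 / 20) * β) ^ 2 := by gcongr; exact nrm_le hx
      _ ≤ _ := by nlinarith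
  refine ⟨β ^ 2, by positivity, fun d0 hd0 hn0 => ?_⟩
  obtain ⟨g, hg1, hg2⟩ := key d0 hd0 hn0
  refine ⟨g, hsq _ hg1, fun d hd hnr hn => ?_⟩
  obtain ⟨w, hw1, hw2⟩ := key d hd hn
  refine ⟨w, hsq _ hw1, fun ρ hρ => ?_⟩
  have h1 := hK.duh N d d0 w g (c / U) (U * Z * β ^ 2) hr1 (fun ρ hρ i => by
    refine (hdef T U hU1 hUT d d0 hd hd0 hnr _ _ _ _ (hw2 ρ hρ).1 (hg2 ρ hρ).1
      (hg2 ρ hρ).2.1 i).trans ?_
    have : T * (2 / U) ^ M ≤ U * 2 ^ M := by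
      rw [div_pow, ← mul_div_assoc, div_le_iff₀ (by positivity)]
      calc T * 2 ^ M ≤ U ^ M * 2 ^ M := by gcongr
        _ ≤ U * (U ^ M * 2 ^ M) := le_mul_of_one_le_left (by positivity) hU1
        _ = _ := by ring
    calc _ = CD * U * (A * β) ^ 2 + 2 * A * CV * (T * (2 / U) ^ M) * β ^ 2 := by ring
      _ ≤ CD * U * (A * β) ^ 2 + 2 * A * CV * (U * 2 ^ M) * β ^ 2 := by gcongr
      _ = _ := by rw [hZ]; ring) ρ hρ
  have h2 : 2 * ((N : ℝ) + 1) * (c / U) * (U * Z * β ^ 2) ≤ β ^ 2 / 10 := by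
    calc _ = 2 * (N + 1) * c * Z * β ^ 2 := by field_simp
      _ ≤ 1 / 10 * β ^ 2 := by gcongr
      _ = _ := by ring
  have h3 := (abs_le.1 ((Complex.abs_re_le_norm _).trans (h1.trans h2))).1
  have h4 := re_ge hg1 hw1
  have h5 := setint d d0 (d.rho (sr ρ) w) (d0.rho (sr ρ) g) (measurableSet_Nb T _) hβ0.le
    (by rw [Dat.K_rho]; exact (nrm_le hg1).trans (by linarith)) (hw2 ρ hρ).2.2
  rw [Complex.sub_re] at h3
  simp only [Dat.W_rho, rt] at h5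
  rw [← hβ] at h4
  nlinarith

end SW

end Pool.Agent.Lib.MP_fa98d2_nt.D
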