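import Pool.Agent.Lib.MP_fa98d2_nt.W.Stmts

/-!
Short-window density theorem for cusp forms on PGL(n): a vector on which all multipliers are small
has most of its mass near the base point.
-/

open MeasureTheory Filter Topology Matrix
open scoped ENNReal Real ContDiff ComplexConjugate InnerProductSpace

noncomputable section

namespace Pool.Agent.Lib.MP_fa98d2_nt.D

namespace SW

namespace Mass

variable {N : ℕ}

/-- the matrix whose determinant is the principal minor with rows and columns `> j` -/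
def pm (j : Fin N) (h : Mat N) : Mat N :=
  Matrix.of fun k l : Fin N => if k ≤ j then (if k = l then 1 else 0) else h k l

lemma pm_det (p : ℝ → Prop) (h : Mat N) (h1 : p 1) (h2 : ∀ j, p (mn j j h)) (j : Fin N) :
    p (pm j h).det := by
  by_cases e : j.val + 1 < N
  · have : (pm j h).det = mn ⟨j.val + 1, e⟩ ⟨j.val + 1, e⟩ h := by
      unfold mn pm
      congr 1
      ext k l
      have a1 : k ≤ j ↔ k < ⟨j.val + 1, e⟩ := by
        rw [Fin.le_def, Fin.lt_def]
        exact Nat.lt_succ_iff.symm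
      have a2 : (if l = ⟨j.val + 1, e⟩ then (⟨j.val + 1, e⟩ : Fin N) else l) = l := by
        split_ifs with a
        exacts [a.symm, rfl]
      simp only [Matrix.of_apply, a1, a2]
    exact this ▸ h2 _
  · have : pm j h = 1 := by
      ext k l
      have a1 : k ≤ j := by
        rw [Fin.le_def]
        omega
      simp only [pm, Matrix.of_apply, a1, if_true, Matrix.one_apply]
    rw [this, Matrix.det_one]
    exact h1

lemma det_uni {v : Mat N} (hv : ∀ i j, j ≤ i → v i j = if i = j then 1 else 0) : v.det = 1 := by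
  rw [Matrix.det_of_upperTriangular fun i j hij => by
    have hij : j < i := hij
    rw [hv i j hij.le, if_neg hij.ne']]
  exact Finset.prod_eq_one fun i _ => by rw [hv i i le_rfl, if_pos rfl]

/-- elimination from the last row up -/
lemma exists_low {x : Mat N} (hx : ∀ j, mn j j x ≠ 0) :
    ∃ v : Mat N, (∀ i j, j ≤ i → v i j = if i = j then 1 else 0) ∧
      ∀ j l, j < l → (v * x) j l = 0 := by
  have hd : ∀ j, IsUnit (pm j x).det := fun j =>
    (pm_det (fun t => t ≠ 0) x one_ne_zero hx j).isUnit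
  obtain ⟨c, hc⟩ : ∃ c : Fin N → Fin N → ℝ, ∀ j, c j ᵥ* pm j x = x j :=
    ⟨fun j => x j ᵥ* (pm j x)⁻¹, fun j => by
      rw [Matrix.vecMul_vecMul, Matrix.nonsing_inv_mul _ (hd j), Matrix.vecMul_one]⟩
  refine ⟨Matrix.of fun j k => (if j = k then 1 else 0) - if k ≤ j then 0 else c j k,
    fun i j hij => by simp [hij], fun j l hl => ?_⟩
  have h1 := congrFun (hc j) l
  simp only [Matrix.mul_apply, Matrix.of_apply, sub_mul, Finset.sum_sub_distrib, ite_mul, one_mul,
    zero_mul, Finset.sum_ite_eq, Finset.mem_univ, if_true]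
  rw [← h1, sub_eq_zero, Matrix.vecMul, dotProduct]
  refine Finset.sum_congr rfl fun k _ => ?_
  simp only [pm, Matrix.of_apply]
  split_ifs with a b
  · exact absurd (b ▸ a) (not_le.2 hl)
  · rw [mul_zero]
  · rfl

lemma mn_mul {v : Mat N} (hv : ∀ i j, j ≤ i → v i j = if i = j then 1 else 0) (x : Mat N)
    (j i : Fin N) : mn j i (v * x) = mn j i x := by
  have h1 := det_uni (v := Matrix.of fun k l : Fin N =>
    if k < j then (if k = l then (1 : ℝ) else 0) else v k l) fun k l hl => by
      simp only [Matrix.of_apply]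
      split_ifs with a b c
      · rfl
      · rfl
      · rw [hv k l hl, if_pos c]
      · rw [hv k l hl, if_neg c]
  rw [mn, mn, ← one_mul (Matrix.det (Matrix.of fun k l : Fin N => if k < j then _ else x k _)), ← h1,
    ← Matrix.det_mul]
  congr 1
  ext k l
  simp only [Matrix.mul_apply, Matrix.of_apply]
  by_cases a : k < j
  · simp only [a, if_true, ite_mul, one_mul, zero_mul, Finset.sum_ite_eq, Finset.mem_univ]
  · simp only [a, if_false]
    refine Finset.sum_congr rfl fun m _ => ?_
    by_cases b : m < j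
    · have c : m < k := b.trans_le (not_lt.1 a)
      rw [hv k m c.le, if_neg c.ne', zero_mul, zero_mul]
    · rw [if_neg b]

lemma mn_low {y : Mat N} (hy : ∀ j l, j < l → y j l = 0) (j i : Fin N) :
    mn j i y = y j i * (pm j y).det := by
  rw [mn, Matrix.det_of_lowerTriangular _ fun k l hkl => ?_,
    Matrix.det_of_lowerTriangular (pm j y) fun k l hkl => ?_]
  · rw [← Finset.mul_prod_erase Finset.univ _ (Finset.mem_univ j),
      ← Finset.mul_prod_erase Finset.univ (fun k => pm j y k k) (Finset.mem_univ j)]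
    simp only [pm, Matrix.of_apply, lt_irrefl, if_false, if_true, le_refl, one_mul]
    congr 1
    refine Finset.prod_congr rfl fun k hk => ?_
    have a := Finset.ne_of_mem_erase hk
    simp only [a, if_false, a.le_iff_lt]
  · have hkl : k < l := hkl
    simp only [pm, Matrix.of_apply, hkl.ne, if_false, hy k l hkl, ite_self]
  · have hkl : k < l := hkl
    simp only [Matrix.of_apply, hkl.ne, if_false]
    split_ifs with a b
    · rfl
    · exact absurd (b ▸ hkl) a
    · exact hy k l hkl

/-- minors close to those of the identity force the matrix to be close to the unipotent group -/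
lemma near {x : G N} {η : ℝ} (h0 : 0 < η) (h1 : η ≤ 1 / 2)
    (h : ∀ j i, i ≤ j → |(if i = j then 1 else 0) - mn j i x.val| ≤ η) :
    ∃ u, IsU u ∧ ∃ y ∈ Bl N (5 * η), x = u * y := by
  have hd : ∀ j, |1 - mn j j x.val| ≤ η := fun j => by simpa using h j j le_rfl
  obtain ⟨v, hv, hl⟩ := exists_low (x := x.val) fun j e => by
    have := hd j
    rw [e, sub_zero, abs_one] at this
    linarith
  have e1 : (mkG v).val = v := val_mkG (by rw [det_uni hv]; exact one_ne_zero)
  have hu : IsU (mkG v) := fun i j hij => by rw [e1, hv i j hij]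
  refine ⟨(mkG v)⁻¹, hu.inv, mkG v * x, fun j i => ?_, by rw [inv_mul_cancel_left]⟩
  rw [Units.val_mul, e1]
  rcases lt_or_ge j i with a | a
  · rw [hl j i a, Matrix.one_apply_ne a.ne, sub_zero, abs_zero]
    linarith
  have k1 := abs_le.1 (pm_det (fun t => |1 - t| ≤ η) (v * x.val) (by simpa using h0.le)
    (fun j => by rw [mn_mul hv]; exact hd j) j)
  have k2 := h j i a
  rw [← mn_mul hv, mn_low hl] at k2
  have k2 := abs_le.1 k2
  rw [Matrix.one_apply, abs_lt]
  generalize (v * x.val) j i = t at k2 ⊢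
  generalize (pm j (v * x.val)).det = D at k1 k2
  rcases eq_or_ne i j with rfl | b
  · rw [if_pos rfl] at k2 ⊢
    constructor <;> by_contra c <;> nlinarith
  · rw [if_neg b] at k2
    rw [if_neg b.symm]
    constructor <;> by_contra c <;> nlinarith

end Mass

theorem mass (hE : ExStmt) : MassStmt := by
  intro N
  choose P hP using fun p : {p : Fin N × Fin N // p.2 ≤ p.1} => hE.exQ N p.1.1 p.1.2 p.2
  obtain ⟨m, hm⟩ : ∃ m : ℕ, m = Fintype.card {p : Fin N × Fin N // p.2 ≤ p.1} := ⟨_, rfl⟩
  have hm0 : (0 : ℝ) < 10 * (m + 1) := by positivity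
  refine ⟨Finset.univ.toList.map P, 5 * (10 * (m + 1)), 1 / 2 / (10 * (m + 1)), by positivity,
    by positivity, fun T hT d v η b h0 h1 hK => ?_⟩
  have ha : ∀ i, tT N T i ≠ 0 := fun i => (Loc2.tT_pos hT i).ne'
  have hη : 0 < 10 * (m + 1) * η := by positivity
  have key : ∀ x ∈ (Nb N T (5 * (10 * (m + 1)) * η))ᶜ, ‖d.W v (up (sg N x))‖ₑ ^ 2 ≤
      ENNReal.ofReal ((10 * (m + 1) * η)⁻¹ ^ 2) *
        ∑ p, ‖d.W ((P p).op d T v) (up (sg N x))‖ₑ ^ 2 := fun x hx => by
    obtain ⟨p, hp⟩ : ∃ p, 10 * (m + 1) * η < |(P p).q ((dg (tT N T))⁻¹ * sg N x)| := by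
      by_contra c
      push Not at c
      obtain ⟨u, hu, y, hy, e⟩ := Mass.near (x := (dg (tT N T))⁻¹ * sg N x) hη
        (by rw [le_div_iff₀ hm0] at h1; linarith) fun j i hij => hP ⟨(j, i), hij⟩ _ ▸ c _
      refine hx ⟨_, Inj.isU_conj ha hu, y, by rwa [mul_assoc], ?_⟩
      rw [inv_mul_cancel_right, mul_assoc, ← e, mul_inv_cancel_left]
    have e := (P p).pt d T (by linarith) v ((dg (tT N T))⁻¹ * sg N x)
    rw [mul_inv_cancel_left] at e
    refine le_trans ?_ (mul_le_mul_right (Finset.single_le_sum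
      (f := fun p => ‖d.W ((P p).op d T v) (up (sg N x))‖ₑ ^ 2) (fun _ _ => zero_le)
      (Finset.mem_univ p)) _)
    have e' : ‖d.W ((P p).op d T v) (up (sg N x))‖ =
        |(P p).q ((dg (tT N T))⁻¹ * sg N x)| * ‖d.W v (up (sg N x))‖ := by
      rw [Mop.op, e, norm_mul, Complex.norm_real, Real.norm_eq_abs]
    rw [← ofReal_norm, ← ofReal_norm, ← ENNReal.ofReal_pow (norm_nonneg _),
      ← ENNReal.ofReal_pow (norm_nonneg _), ← ENNReal.ofReal_mul (by positivity), ← mul_pow, e']
    refine ENNReal.ofReal_le_ofReal (pow_le_pow_left₀ (norm_nonneg _) ?_ 2)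
    rw [le_inv_mul_iff₀ hη]
    exact mul_le_mul_of_nonneg_right hp.le (norm_nonneg _)
  refine (setLIntegral_mono' (measurableSet_Nb T _).compl key).trans
    ((setLIntegral_le_lintegral _ _).trans ?_)
  rw [lintegral_const_mul' _ _ ENNReal.ofReal_ne_top, lintegral_finsetSum
    (f := fun p x => ‖d.W ((P p).op d T v) (up (sg N x))‖ₑ ^ 2) _ fun p _ =>
    (Loc2.measurable_res hW (d.cont ((P p).op d T v))).enorm.pow_const 2]
  have h2 : ∀ p, ∫⁻ x, ‖d.W ((P p).op d T v) (up (sg N x))‖ₑ ^ 2 ∂mX N ≤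
      ENNReal.ofReal ((η * b) ^ 2) := fun p => by
    rw [← Loc2.KK_one, ← d.K_sq]
    exact ENNReal.ofReal_le_ofReal (pow_le_pow_left₀ (norm_nonneg _)
      (hK _ (List.mem_map.2 ⟨p, Finset.mem_toList.2 (Finset.mem_univ p), rfl⟩)) 2)
  refine (mul_le_mul_right (Finset.sum_le_card_nsmul _ _ _ fun p _ => h2 p) _).trans ?_
  rw [Finset.card_univ, ← hm, nsmul_eq_mul, ← ENNReal.ofReal_natCast,
    ← ENNReal.ofReal_mul (Nat.cast_nonneg m), ← ENNReal.ofReal_mul (by positivity)]
  refine ENNReal.ofReal_le_ofReal ?_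
  rw [inv_pow, inv_mul_le_iff₀ (by positivity)]
  have h3 : (m : ℝ) ≤ (m + 1) ^ 2 := by nlinarith [Nat.cast_nonneg (α := ℝ) m]
  nlinarith [mul_le_mul_of_nonneg_right h3 (sq_nonneg (η * b))]

end SW

end Pool.Agent.Lib.MP_fa98d2_nt.D
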