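import Pool.Agent.Lib.MP_fa98d2_nt.W.Stmts

/-!
Short-window density theorem for cusp forms on PGL(n): multipliers and small translations.
-/

open MeasureTheory Filter Topology Matrix
open scoped ENNReal Real ContDiff ComplexConjugate InnerProductSpace

noncomputable section

namespace Pool.Agent.Lib.MP_fa98d2_nt.D

namespace SW

namespace MulA

variable {N : ℕ}

/-- the sum of the sizes of the coefficients -/
def nz (z : List (ℂ × Wd N)) : ℝ := (z.map fun y => ‖y.1‖).sum

lemma nz_nil : nz ([] : List (ℂ × Wd N)) = 0 := rfl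

lemma nz_cons (y : ℂ × Wd N) (z : List (ℂ × Wd N)) : nz (y :: z) = ‖y.1‖ + nz z := by
  simp [nz]

lemma nz_nonneg (z : List (ℂ × Wd N)) : 0 ≤ nz z := by
  induction z with
  | nil => exact le_rfl
  | cons y z ih => rw [nz_cons]; positivity

lemma nz_append (z z' : List (ℂ × Wd N)) : nz (z ++ z') = nz z + nz z' := by simp [nz]

/-- the product of two combinations -/
def pr (z z' : List (ℂ × Wd N)) : List (ℂ × Wd N) :=
  z.flatMap fun a => z'.map fun b => (a.1 * b.1, a.2 ++ b.2)

lemma nz_left (a : ℂ × Wd N) (z : List (ℂ × Wd N)) :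
    nz (z.map fun b => (a.1 * b.1, a.2 ++ b.2)) = ‖a.1‖ * nz z := by
  induction z with
  | nil => simp [nz]
  | cons b z ih => rw [List.map_cons, nz_cons, nz_cons, ih, norm_mul, mul_add]

lemma nz_pr (z z' : List (ℂ × Wd N)) : nz (pr z z') = nz z * nz z' := by
  induction z with
  | nil => simp [nz, pr]
  | cons a z ih =>
    rw [pr, List.flatMap_cons, nz_append, nz_left, nz_cons, add_mul]
    rw [pr] at ih
    rw [ih]

lemma len_pr {z z' : List (ℂ × Wd N)} {m m' : ℕ} (h : ∀ y ∈ z, y.2.length = m)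
    (h' : ∀ y ∈ z', y.2.length = m') : ∀ y ∈ pr z z', y.2.length = m + m' := by
  intro y hy
  simp only [pr, List.mem_flatMap, List.mem_map] at hy
  obtain ⟨a, ha, b, hb, rfl⟩ := hy
  simp [h a ha, h' b hb]

lemma ecomb_pr (d : Dat N) (z z' : List (ℂ × Wd N)) :
    ecomb d.e (pr z z') = ecomb d.e z * ecomb d.e z' := Kappa.ecomb_mul _ _ _

lemma ecomb_cons (d : Dat N) (y : ℂ × Wd N) (z : List (ℂ × Wd N)) :
    ecomb d.e (y :: z) = y.1 • ew d.e y.2 + ecomb d.e z := by simp [ecomb]

lemma ecomb_nil (d : Dat N) : ecomb d.e [] = 0 := rfl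

/-- one letter -/
lemma one (a b : Fin (N + 1)) {δ : ℝ} (hδ : Loc3.Ok (N + 1) δ) {x : G (N + 1)}
    (hx : x ∈ Bl (N + 1) δ) : ∃ z : List (ℂ × Wd N), (∀ y ∈ z, y.2.length = 1) ∧
      nz z ≤ (4 * ((N : ℝ) + 1) ^ 2) * δ ∧
      ∀ d : Dat N, d.rho x * d.e a b = (d.e a b + ecomb d.e z) * d.rho x := by
  classical
  have hi : x⁻¹ ∈ Bl (N + 1) (2 * δ) := (hL.mul _ δ δ hδ.2 hδ.2 x hx x hx).2
  let co : Fin (N + 1) × Fin (N + 1) → ℝ := fun p =>
    x.val p.1 a * (x⁻¹).val b p.2 - (1 : Mat (N + 1)) p.1 a * (1 : Mat (N + 1)) b p.2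
  have hco : ∀ p, |co p| ≤ 4 * δ := by
    intro p
    have h1 := hx p.1 a
    have h2 := hi b p.2
    have h3 := Loc3.entry_le hδ hi b p.2
    have h4 : |(1 : Mat (N + 1)) p.1 a| ≤ 1 := by
      rw [Matrix.one_apply]; split_ifs <;> simp
    have e : co p = (x.val p.1 a - (1 : Mat (N + 1)) p.1 a) * (x⁻¹).val b p.2 +
        (1 : Mat (N + 1)) p.1 a * ((x⁻¹).val b p.2 - (1 : Mat (N + 1)) b p.2) := by
      simp only [co]; ring
    rw [e]
    refine (abs_add_le _ _).trans ?_
    rw [abs_mul, abs_mul]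
    have h5 := mul_le_mul h1.le h3 (abs_nonneg _) hδ.1.le
    have h6 := mul_le_mul h4 h2.le (abs_nonneg _) zero_le_one
    linarith
  refine ⟨(Finset.univ : Finset (Fin (N + 1) × Fin (N + 1))).toList.map
    fun p => (((co p : ℝ) : ℂ), [p]), ?_, ?_, fun d => ?_⟩
  · intro y hy
    obtain ⟨p, _, rfl⟩ := List.mem_map.1 hy
    rfl
  · rw [nz, List.map_map, Finset.sum_map_toList]
    refine (Finset.sum_le_card_nsmul _ _ (4 * δ) fun p _ => ?_).trans (le_of_eq ?_)
    · simpa using hco p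
    · simp only [Finset.card_univ, Fintype.card_prod, Fintype.card_fin, nsmul_eq_mul]
      push_cast
      ring
  · rw [d.rho_e]
    congr 1
    rw [ecomb, List.map_map, Finset.sum_map_toList, Fintype.sum_prod_type]
    have e1 : d.e a b = ∑ c, ∑ f, ((((1 : Mat (N + 1)) c a : ℝ) : ℂ) *
        (((1 : Mat (N + 1)) b f : ℝ) : ℂ)) • d.e c f := by
      rw [Finset.sum_eq_single a, Finset.sum_eq_single b]
      · simp
      · intro f _ hf
        simp [Matrix.one_apply_ne (Ne.symm hf)]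
      · simp
      · intro c _ hc
        simp [Matrix.one_apply_ne hc]
      · simp
    conv_rhs => rw [e1]
    rw [← Finset.sum_add_distrib]
    refine Finset.sum_congr rfl fun c _ => ?_
    rw [← Finset.sum_add_distrib]
    refine Finset.sum_congr rfl fun f _ => ?_
    simp only [Function.comp, Kappa.ew_cons, Kappa.ew_nil, mul_one, co]
    rw [← add_smul]
    congr 1
    push_cast
    ring

lemma lipk (N k : ℕ) : ∃ C : ℝ, 0 ≤ C ∧ ∀ l : Wd N, l.length ≤ k → ∀ δ : ℝ, Loc3.Ok (N + 1) δ →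
    ∀ x ∈ Bl (N + 1) δ, ∃ z : List (ℂ × Wd N), (∀ y ∈ z, y.2.length = l.length) ∧
      nz z ≤ C * δ ∧ ∀ d : Dat N, d.rho x * ew d.e l = (ew d.e l + ecomb d.e z) * d.rho x := by
  have hnil : ∀ C : ℝ, 0 ≤ C → ∀ δ : ℝ, Loc3.Ok (N + 1) δ → ∀ x : G (N + 1),
      ∃ z : List (ℂ × Wd N), (∀ y ∈ z, y.2.length = ([] : Wd N).length) ∧ nz z ≤ C * δ ∧
      ∀ d : Dat N, d.rho x * ew d.e [] = (ew d.e [] + ecomb d.e z) * d.rho x :=
    fun C hC δ hδ x => ⟨[], by simp, by rw [nz_nil]; exact mul_nonneg hC hδ.1.le,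
      fun d => by simp [ecomb_nil]⟩
  induction k with
  | zero =>
    refine ⟨0, le_rfl, fun l hl δ hδ x _ => ?_⟩
    obtain rfl : l = [] := List.length_eq_zero_iff.1 (Nat.le_zero.1 hl)
    exact hnil 0 le_rfl δ hδ x
  | succ k ih =>
    obtain ⟨C, hC, ih⟩ := ih
    set C1 : ℝ := 4 * ((N : ℝ) + 1) ^ 2 with hC1
    have hC10 : 0 ≤ C1 := by positivity
    refine ⟨C + C1 * (1 + C), by positivity, fun l hl δ hδ x hx => ?_⟩
    cases l with
    | nil => exact hnil _ (by positivity) δ hδ x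
    | cons y l =>
      obtain ⟨z, hz1, hz2, hz3⟩ := ih l (by simpa using hl) δ hδ x hx
      obtain ⟨z1, h1, h2, h3⟩ := one y.1 y.2 hδ hx
      refine ⟨pr [(1, [y])] z ++ pr z1 ((1, l) :: z), ?_, ?_, fun d => ?_⟩
      · intro v hv
        rw [List.length_cons, add_comm l.length 1]
        rcases List.mem_append.1 hv with hv | hv
        · exact len_pr (m := 1) (by simp) hz1 v hv
        · refine len_pr h1 (fun u hu => ?_) v hv
          rcases List.mem_cons.1 hu with rfl | hu
          · rfl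
          · exact hz1 u hu
      · rw [nz_append, nz_pr, nz_pr, nz_cons, nz_cons, nz_nil]
        simp only [norm_one, add_zero, one_mul]
        have h4 : nz z ≤ C := by nlinarith [hδ.half, hδ.1]
        have h5 : nz z1 * (1 + nz z) ≤ C1 * δ * (1 + C) :=
          mul_le_mul h2 (by linarith) (by linarith [nz_nonneg z]) (mul_nonneg hC10 hδ.1.le)
        nlinarith
      · rw [Kappa.ew_cons, ← mul_assoc, h3, mul_assoc, hz3, ← mul_assoc, Kappa.ecomb_append,
          ecomb_pr, ecomb_pr, ecomb_cons, ecomb_cons, ecomb_nil]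
        congr 1
        simp only [one_smul, add_zero, Kappa.ew_cons, Kappa.ew_nil, mul_one]
        noncomm_ring

lemma key (d : Dat N) {T a : ℝ} {J : ℕ} {w : d.V} (h : d.Sb T a J w) (l : Wd N) {m : ℕ}
    (hl : l.length + m ≤ J) (z : List (ℂ × Wd N)) (hz : ∀ y ∈ z, y.2.length = m) :
    ‖d.K (ew d.e l (ecomb d.e z w))‖ ≤ nz z * (a * T ^ (l.length + m)) := by
  induction z with
  | nil => simp [ecomb_nil, nz_nil]
  | cons y z ih =>
    have h1 := ih fun u hu => hz u (List.mem_cons_of_mem _ hu)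
    have e : (l ++ y.2).length = l.length + m := by
      rw [List.length_append, hz y List.mem_cons_self]
    have h2 := h (l ++ y.2) (e.trans_le hl)
    rw [e, Kappa.ew_append, Module.End.mul_apply] at h2
    rw [ecomb_cons, nz_cons, LinearMap.add_apply, LinearMap.smul_apply, map_add, map_add, map_smul,
      map_smul, add_mul]
    refine (norm_add_le _ _).trans (add_le_add ?_ h1)
    rw [norm_smul]
    exact mul_le_mul_of_nonneg_left h2 (norm_nonneg _)

lemma op_val (P : Mop N) (d : Dat N) {T : ℝ} (hT : 0 < T) (w : d.V) (h : G N) :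
    d.W (P.op d T w) (up h) = P.q ((dg (tT N T))⁻¹ * h) * d.W w (up h) := by
  have := P.pt d T hT w ((dg (tT N T))⁻¹ * h)
  rwa [mul_inv_cancel_left] at this

end MulA

open MulA in
theorem mul : MulStmt where
  adj N P d d0 T hT f g := by
    rw [Dat.inner_K, Dat.inner_K]
    refine integral_congr_ae (ae_of_all _ fun x => ?_)
    beta_reduce
    rw [op_val P d hT, op_val P d0 hT, map_mul, Complex.conj_ofReal]
    ring
  lip N l := by
    obtain ⟨C, hC, h⟩ := lipk N l.length
    exact ⟨C, hC, h l le_rfl⟩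
  tr N J := by
    obtain ⟨C, hC, h⟩ := lipk N J
    refine ⟨1 + C, by positivity, fun δ hδ u hu d T a w _ hw l hl => ?_⟩
    have hδ0 : 0 < δ := by linarith [hδ.1]
    have hδ1 : Loc3.Ok (N + 1) δ := hδ.mono hδ0 (by linarith)
    have hi : u⁻¹ ∈ Bl (N + 1) (2 * δ) := (hL.mul _ δ δ hδ1.2 hδ1.2 u hu u hu).2
    obtain ⟨z, hz1, hz2, hz3⟩ := h l hl _ hδ _ hi
    have e : d.rho u⁻¹ (ew d.e l (d.rho u w)) = ew d.e l w + ecomb d.e z w := by
      rw [← Module.End.mul_apply, hz3, Module.End.mul_apply, ← Module.End.mul_apply (d.rho u⁻¹),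
        ← d.rho_mul, inv_mul_cancel, d.rho_one, Module.End.one_apply, LinearMap.add_apply]
    have h1 := hw l hl
    have h2 := key d hw [] (m := l.length) (by simpa using hl) z hz1
    simp only [Kappa.ew_nil, Module.End.one_apply, List.length_nil, zero_add] at h2
    have h0 : 0 ≤ a * T ^ l.length := (norm_nonneg _).trans h1
    have h3 : nz z ≤ C := by nlinarith [hδ.half, hδ.1]
    rw [← d.K_rho u⁻¹, e, map_add]
    refine (norm_add_le _ _).trans ?_
    have h4 := mul_le_mul_of_nonneg_right h3 h0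
    nlinarith
  sb N P J := by
    refine ⟨‖P.c‖ + nz P.z + 1, by have := nz_nonneg P.z; positivity,
      fun d T a w hT hw l hl => ?_⟩
    have hT0 : 0 < T := by linarith
    have h1 := hw l (hl.trans (Nat.le_add_right _ _))
    have h2 := key d hw l (Nat.add_le_add_right hl P.deg) P.z P.len
    have h0 : 0 ≤ a * T ^ l.length := (norm_nonneg _).trans h1
    rw [Mop.op, LinearMap.add_apply, LinearMap.smul_apply, LinearMap.smul_apply,
      Module.End.one_apply, map_add, map_add, map_smul, map_smul, map_smul, map_smul]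
    refine (norm_add_le _ _).trans ?_
    rw [norm_smul, norm_smul, norm_pow, norm_inv, Complex.norm_real, Real.norm_of_nonneg hT0.le]
    have h3 := mul_le_mul_of_nonneg_left h1 (norm_nonneg P.c)
    have h4 := mul_le_mul_of_nonneg_left h2 (by positivity : 0 ≤ T⁻¹ ^ P.deg)
    have e : T⁻¹ ^ P.deg * (nz P.z * (a * T ^ (l.length + P.deg))) =
        nz P.z * (a * T ^ l.length) := by
      rw [pow_add, inv_pow]
      field_simp
    rw [e] at h4
    nlinarith

end SW

end Pool.Agent.Lib.MP_fa98d2_nt.D
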