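import Pool.Agent.Lib.MP_fa98d2_nt.W.Stmts

/-! Monomials in the Satake parameters are bounded by Schur functions of nearby partitions. -/

open Finset Matrix

noncomputable section

namespace Pool.Agent.Lib.MP_fa98d2_nt.D

namespace SW

namespace SchW

open Schur

theorem u_shift (b : ℕ → ℂ) : ∀ l m,
    u b (l + 1) (m + 1) - b 0 * u b l (m + 1) = u (fun k => b (k + 1)) l m
  | 0, 0 => by simp [u]
  | 0, m + 1 => by simp [u]
  | l + 1, 0 => by
    rw [u, u, u, u, ← u_shift b l 0, u]
    ring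
  | l + 1, m + 1 => by
    rw [u.eq_4 (fun k => b (k + 1)), ← u_shift b l m, ← u_shift b l (m + 1), u.eq_4 b (l + 1),
      u.eq_4 b l (m + 1)]
    ring

theorem u_zero (b : ℕ → ℂ) : ∀ l, u b l 0 = b 0 ^ l
  | 0 => rfl
  | l + 1 => by rw [u, u_zero b l, pow_succ']

/-- coefficients of the product of the `X - a k`, `k < j`, read from the top -/
def cf (a : ℕ → ℂ) : ℕ → ℕ → ℂ
  | 0, 0 => 1
  | 0, _ + 1 => 0
  | j + 1, 0 => cf a j 0
  | j + 1, t + 1 => cf a j (t + 1) - a j * cf a j t

variable (a : ℕ → ℂ)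

theorem cf_lt : ∀ j t, j < t → cf a j t = 0
  | 0, 0, h => absurd h (by omega)
  | 0, _ + 1, _ => rfl
  | j + 1, 0, h => absurd h (by omega)
  | j + 1, t + 1, h => by rw [cf, cf_lt j t (by omega), cf_lt j (t + 1) (by omega)]; simp

theorem cf_bd {B : ℝ} (hB : 0 ≤ B) (h : ∀ m, ‖a m‖ ≤ B) : ∀ j t, ‖cf a j t‖ ≤ (1 + B) ^ j
  | 0, 0 => by simp [cf]
  | 0, _ + 1 => by simp [cf]
  | j + 1, 0 => by
    have := cf_bd hB h j 0
    have h1 : 0 ≤ (1 + B) ^ j := by positivity
    rw [cf, pow_succ]
    nlinarith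
  | j + 1, t + 1 => by
    have h1 := cf_bd hB h j (t + 1)
    have h2 := mul_le_mul (h j) (cf_bd hB h j t) (norm_nonneg _) hB
    rw [cf, pow_succ]
    refine (norm_sub_le _ _).trans ?_
    rw [norm_mul]
    linarith

/-- the combined row -/
def V (j l m : ℕ) : ℂ := ∑ t ∈ range (j + 1), cf a j t * u a (l + j - t) m

theorem V_succ (j l m : ℕ) : V a (j + 1) l m = V a j (l + 1) m - a j * V a j l m := by
  have h1 : V a j (l + 1) m = ∑ t ∈ range (j + 1 + 1), cf a j t * u a (l + 1 + j - t) m := by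
    rw [sum_range_succ, cf_lt a j (j + 1) (by omega), zero_mul, add_zero, V]
  rw [h1, V, V, sum_range_succ' _ (j + 1), sum_range_succ' _ (j + 1), mul_sum]
  have e : ∀ t, l + (j + 1) - (t + 1) = l + j - t := fun t => by omega
  have e' : ∀ t, l + 1 + j - (t + 1) = l + j - t := fun t => by omega
  simp only [cf, e, e', sub_mul, sum_sub_distrib, mul_assoc,
    show l + (j + 1) - 0 = l + 1 + j - 0 by omega]
  ring

theorem V_eq : ∀ j l, (∀ m, m < j → V a j l m = 0) ∧
    ∀ m, V a j l (j + m) = u (fun k => a (j + k)) l m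
  | 0, l => ⟨fun m h => absurd h (by omega), fun m => by simp [V, cf]⟩
  | j + 1, l => by
    refine ⟨fun m h => ?_, fun m => ?_⟩
    · rw [V_succ]
      rcases (Nat.lt_succ_iff.1 h).eq_or_lt with rfl | h'
      · have h1 := (V_eq m (l + 1)).2 0
        have h2 := (V_eq m l).2 0
        rw [add_zero] at h1 h2
        rw [h1, h2, u]
        simp
      · rw [(V_eq j _).1 m h', (V_eq j _).1 m h']
        simp
    · rw [V_succ, show j + 1 + m = j + (m + 1) by omega, (V_eq j _).2, (V_eq j _).2]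
      have := u_shift (fun k => a (j + k)) l m
      simp only [add_zero] at this
      rw [this]
      congr 1
      funext k
      congr 1
      omega

variable {N : ℕ}

theorem expand (l : Fin (N + 1) → ℕ) (hl : ∀ i, i.rev.val ≤ l i) :
    ∏ i : Fin (N + 1), a i.rev ^ l i =
      ∑ t ∈ Fintype.piFinset fun i : Fin (N + 1) => range (i.rev.val + 1),
        (∏ i : Fin (N + 1), cf a i.rev (t i)) * S a (l - t) := by
  have h1 := (detRowAlternating : (Fin (N + 1) → ℂ) [⋀^Fin (N + 1)]→ₗ[ℂ] ℂ).toMultilinearMap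
    |>.map_sum_finset (fun (i : Fin (N + 1)) (t : ℕ) =>
      cf a i.rev t • row a N (l i + i.rev - t)) fun i => range (i.rev.val + 1)
  have h2 : (Matrix.of fun (i : Fin (N + 1)) => ∑ t ∈ range (i.rev.val + 1),
      cf a i.rev t • row a N (l i + i.rev - t)).det = ∏ i : Fin (N + 1), a i.rev ^ l i := by
    have e : ∀ i j : Fin (N + 1), (∑ t ∈ range (i.rev.val + 1),
        cf a i.rev t • row a N (l i + i.rev - t)) j = V a i.rev (l i) j.rev := fun i j => by
      simp only [V, Finset.sum_apply, Pi.smul_apply, smul_eq_mul, Schur.row]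
    rw [det_of_isLowerTriangular]
    · refine prod_congr rfl fun i _ => ?_
      have := (V_eq a i.rev (l i)).2 0
      rw [u_zero] at this
      exact (e i i).trans this
    · intro i j h
      have h' : i < j := h
      exact (e i j).trans ((V_eq a _ _).1 _ (Fin.rev_lt_rev.2 h'))
  refine h2.symm.trans (h1.trans (sum_congr rfl fun t ht => ?_))
  rw [MultilinearMap.map_smul_univ, smul_eq_mul]
  congr 1
  refine congrArg det ?_
  funext i
  have h3 := mem_range.1 (Fintype.mem_piFinset.1 ht i)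
  have h4 := hl i
  refine congrArg (row a N) ?_
  simp only [Pi.sub_apply]
  omega

theorem sum_rev (N : ℕ) : ∑ i : Fin (N + 1), i.rev.val = DD N := by
  refine (Equiv.sum_comp Fin.revPerm fun i : Fin (N + 1) => i.val).trans ?_
  rw [DD, Nat.choose_two_right, ← sum_range_id]
  exact Fin.sum_univ_eq_sum_range id _

theorem esy_perm (α : Fin (N + 1) → ℂ) (σ : Equiv.Perm (Fin (N + 1))) (r : ℕ) :
    esy (fun i => α (σ i)) r = esy α r := by
  have h : ∀ β : Fin (N + 1) → ℂ, esy β r = (univ.val.map β).esymm r := fun β =>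
    (Finset.esymm_map_val β univ r).symm
  rw [h, h]
  congr 1
  conv_rhs => rw [← Multiset.map_univ_val_equiv σ, Multiset.map_map]
  rfl

theorem isSch {α : Fin (N + 1) → ℂ} (σ : Equiv.Perm (Fin (N + 1)))
    (ha : ∀ j : Fin (N + 1), a j.rev = α (σ j))
    (hb : ∀ B : ℝ, 0 ≤ B → (∀ i, ‖α i‖ ≤ B) → ∀ m, ‖a m‖ ≤ B) : IsSch α (S a) := by
  have S0 : S a (0 : Fin (N + 1) → ℕ) = 1 := by
    have := S_single (N := N) a 0
    rwa [Pi.single_zero, zero_add, u_self] at this
  refine ⟨S0, fun A h1 h2 l hl => ?_, fun B hB hα => ?_⟩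
  · have c : ∀ (l : Fin (N + 1) → ℕ) I, (fun i => ((l + ia I) i : ℤ)) =
        (fun i => (l i : ℤ)) + ind I := fun l I => by
      funext i
      simp [ia, ind]
    refine sub_eq_zero.1 (uniq (fun l => A (fun i => l i) - S a l * A 0) ?_ ?_ ?_ l hl)
    · rw [S0, one_mul]
      exact sub_self _
    · intro l hl I hI
      rw [vanish a hl hI, h1 _ fun h => hI fun i j hij => Int.ofNat_le.1 (h hij)]
      simp
    · intro l hl hD r hr
      have e1 := Schur.up (esy α) (by simp [esy]) A h1 h2 (fun i => (l i : ℤ))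
        (fun i j hij => Int.ofNat_le.2 (hl hij)) r hr
      have e2 := coef _ _ (pieri_t a l) r
      simp only [ha, ← sum_mul] at e2
      rw [sum_sub_distrib, ← sum_mul, e2]
      simp only [c]
      rw [← e1, sub_eq_zero.1 hD, ← esy_perm α σ, esy]
      ring
  · have hb' := hb B (by linarith) hα
    refine ⟨fun l _ => S_bd a hB hb' l, fun i l => ?_⟩
    simp only [S_single]
    rw [← σ.apply_symm_apply i, ← ha]
    exact Schur.low a (by linarith) hb' (σ.symm i).rev.2 l

theorem abs_sum {r : Fin (N + 1) → ℝ} (hr : Antitone r) :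
    ∑ i, ∑ k, |r i - r k| = 2 * (2 * ∑ i : Fin (N + 1), ((N : ℝ) - i.val) * r i - N * ∑ i, r i) := by
  have e : ∀ i k, |r i - r k| = ((if i < k then r i else 0) - if i < k then r k else 0) +
      ((if k < i then r k else 0) - if k < i then r i else 0) := fun i k => by
    rcases lt_trichotomy i k with h | rfl | h
    · simp [h, h.not_gt, abs_of_nonneg (sub_nonneg.2 (hr h.le))]
    · simp
    · simp [h, h.not_gt, abs_of_nonpos (sub_nonpos.2 (hr h.le))]
  have c1 : ∀ i : Fin (N + 1), ∑ k, (if i < k then r i else 0) = ((N : ℝ) - i.val) * r i :=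
    fun i => by
    rw [← sum_filter, sum_const, filter_lt_eq_Ioi, Fin.card_Ioi, nsmul_eq_mul,
      Nat.add_sub_cancel, Nat.cast_sub (Nat.lt_succ_iff.1 i.2)]
  have c2 : ∀ i : Fin (N + 1), ∑ k, (if k < i then r i else 0) = (i.val : ℝ) * r i :=
    fun i => by
    rw [← sum_filter, sum_const, filter_gt_eq_Iio, Fin.card_Iio, nsmul_eq_mul]
  simp only [e, sum_add_distrib, sum_sub_distrib]
  rw [sum_comm (f := fun i k => if i < k then r k else 0),
    sum_comm (f := fun i k => if k < i then r k else 0)]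
  simp only [c1, c2, sub_mul, sum_sub_distrib, ← mul_sum]
  ring

theorem lw_cast {L L0 : ℕ} (i : Fin (N + 1)) : (lw N L L0 i : ℝ) =
    ((N : ℝ) - i.val) * L + ((L0 : ℝ) - L) - if i = Fin.last N then (L0 : ℝ) - L else 0 := by
  unfold lw
  split_ifs with h
  · simp [h]
  · obtain ⟨k, hk⟩ : ∃ k, N = i.val + 1 + k :=
      Nat.exists_eq_add_of_le (Fin.val_lt_last h)
    have h1 : N - 1 - i.val = k := by omega
    have h2 : (N : ℝ) = i.val + 1 + k := by exact_mod_cast hk
    rw [h1, h2]
    push_cast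
    ring

end SchW

open SchW in
theorem schW : SchWStmt where
  sch N α _ σ := by
    let a : ℕ → ℂ := fun m => if h : m < N + 1 then α (σ (Fin.rev ⟨m, h⟩)) else 0
    have ha : ∀ j : Fin (N + 1), a j.rev = α (σ j) := fun j => by
      simp only [a, dif_pos j.rev.2, Fin.eta, Fin.rev_rev]
    have hb : ∀ B : ℝ, 0 ≤ B → (∀ i, ‖α i‖ ≤ B) → ∀ m, ‖a m‖ ≤ B := fun B hB hα m => by
      simp only [a]
      split_ifs
      · exact hα _
      · simpa using hB
    refine ⟨Schur.S a, isSch a σ ha hb, fun B hB hα l hl => ?_⟩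
    have h := congrArg norm (expand a l hl)
    simp only [norm_prod, norm_pow, ha] at h
    rw [h, mul_sum]
    refine (norm_sum_le _ _).trans (sum_le_sum fun t _ => ?_)
    rw [norm_mul, norm_prod, ← sum_rev, ← prod_pow_eq_pow_sum]
    exact mul_le_mul_of_nonneg_right (prod_le_prod (fun _ _ => norm_nonneg _)
      fun i _ => cf_bd a hB (hb B hB hα) _ _) (norm_nonneg _)
  wt N α p hp h1 hu hb := by
    have hp1 : (1 : ℝ) < p := by exact_mod_cast hp.one_lt
    have hp0 : (0 : ℝ) < p := by linarith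
    have hne : ∀ i, 0 < ‖α p i‖ := fun i => norm_pos_iff.2 fun h => by
      rw [prod_eq_zero (mem_univ i) h] at h1
      exact zero_ne_one h1
    obtain ⟨s, hs⟩ : ∃ s : Fin (N + 1) → ℝ, s = fun i => Real.logb p ‖α p i‖ := ⟨_, rfl⟩
    have hs' : ∀ i, Real.logb p ‖α p i‖ = s i := fun i => by rw [hs]
    have s0 : ∑ i, s i = 0 := by
      simp only [← hs']
      rw [← Real.logb_prod _ _ fun i _ => (hne i).ne', ← norm_prod, h1, norm_one, Real.logb_one]
    have sn : ∀ i, ∃ j, s j = -s i := fun i => (hu i).imp fun j hj => by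
      rw [← hs', ← hs', hj, Real.logb_inv]
    have s1 : ∀ i, s i ≤ 1 / 2 := fun i => by
      rw [← hs', Real.logb_le_iff_le_rpow hp1 (hne i), ← Real.sqrt_eq_rpow]
      exact hb i
    have s2 : ∀ i, -(1 / 2) ≤ s i := fun i => by
      obtain ⟨j, hj⟩ := sn i
      linarith [s1 j]
    obtain ⟨i0, hi0⟩ := exists_eq_ciSup_of_finite (f := fun i => |s i|)
    have ht : thetaP α p = |s i0| := by
      rw [hi0, thetaP]
      simp only [hs']
    have he : etaP α p = (∑ i, ∑ k, |s i - s k|) / 2 := by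
      rw [etaP]
      simp only [hs']
    refine ⟨ht ▸ abs_nonneg _, ?_, ?_, ?_, Tuple.sort fun i => -s i, fun L L0 hL => ?_⟩
    · have := abs_le.2 ⟨s2 i0, s1 i0⟩
      rw [ht]
      linarith
    · rw [he]
      positivity
    · have h2 : ∀ i, ∑ k, |s i - s k| ≤ N := fun i => by
        rw [← add_sum_erase _ _ (mem_univ i), sub_self, abs_zero, zero_add]
        refine (sum_le_card_nsmul _ _ 1 fun k _ =>
          abs_le.2 ⟨by linarith [s1 k, s2 i], by linarith [s1 i, s2 k]⟩).trans ?_
        simp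
      have h3 := sum_le_card_nsmul univ _ _ fun i _ => h2 i
      rw [he, DD, Nat.cast_choose_two]
      simp only [card_univ, Fintype.card_fin, nsmul_eq_mul] at h3
      push_cast at h3 ⊢
      linarith
    · obtain ⟨σ, hσ⟩ : ∃ σ, σ = Tuple.sort fun i => -s i := ⟨_, rfl⟩
      rw [← hσ]
      have hr : Antitone fun i => s (σ i) := fun i j h => by
        have := Tuple.monotone_sort (fun i => -s i) h
        rw [← hσ] at this
        exact neg_le_neg_iff.1 this
      have r0 : ∑ i, s (σ i) = 0 := (Equiv.sum_comp σ s).trans s0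
      have h2 := abs_sum hr
      have h3 : ∑ i, ∑ k, |s (σ i) - s (σ k)| = ∑ i, ∑ k, |s i - s k| := by
        rw [← Equiv.sum_comp σ fun i => ∑ k, |s i - s k|]
        exact sum_congr rfl fun i _ => Equiv.sum_comp σ fun k => |s (σ i) - s k|
      have h4 : ∀ i, s (σ (Fin.last N)) ≤ s i := fun i => by
        simpa using hr (Fin.le_last (σ.symm i))
      have h5 : |s i0| ≤ -s (σ (Fin.last N)) := by
        obtain ⟨j, hj⟩ := sn i0
        exact abs_le.2 ⟨by linarith [h4 i0], by linarith [h4 j]⟩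
      have h6 : (∏ i, ‖α p (σ i)‖ ^ lw N L L0 i) ^ 2 =
          (p : ℝ) ^ ((∑ i, s (σ i) * lw N L L0 i) * 2) := by
        rw [Real.rpow_mul hp0.le, Real.rpow_two, Real.rpow_sum_of_pos hp0]
        refine congrArg (· ^ 2) (prod_congr rfl fun i _ => ?_)
        rw [Real.rpow_mul hp0.le, Real.rpow_natCast, ← hs', Real.rpow_logb hp0 hp1.ne' (hne _)]
      have h7 : ∑ i, s (σ i) * lw N L L0 i =
          L * ∑ i : Fin (N + 1), ((N : ℝ) - i.val) * s (σ i) -
            ((L0 : ℝ) - L) * s (σ (Fin.last N)) := by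
        simp only [lw_cast, mul_sub (s _), mul_add (s _), sum_sub_distrib, sum_add_distrib,
          mul_ite, mul_zero, sum_ite_eq', mem_univ, if_true, ← sum_mul, r0]
        rw [mul_sum, sum_congr rfl fun i _ => show s (σ i) * (((N : ℝ) - i.val) * L) =
          L * (((N : ℝ) - i.val) * s (σ i)) by ring]
        ring
      have h8 : (0 : ℝ) ≤ (L0 : ℝ) - L := sub_nonneg.2 (by exact_mod_cast hL)
      rw [h6, h7, he, ht, ← h3, h2, r0]
      refine Real.rpow_le_rpow_of_exponent_le hp1.le ?_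
      nlinarith [mul_le_mul_of_nonneg_left h5 h8]

end SW

end Pool.Agent.Lib.MP_fa98d2_nt.D
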