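import Pool.Agent.Lib.MP_fa98d2_nt.W.Stmts

/-!
Short-window density theorem for cusp forms on PGL(n): the identity between commutative symbols.
-/

open Matrix

noncomputable section

namespace Pool.Agent.Lib.MP_fa98d2_nt.D

namespace SW

namespace SymA

variable {N : ℕ}

instance : SetLike.GradedMonoid (SS N) where
  one_mem := Submodule.subset_span ⟨[], [], by simp [PM], by simp [PW], rfl, by simp⟩
  mul_mem k l x y hx hy := by
    have h := Submodule.mul_mem_mul hx hy
    rw [SS, SS, Submodule.span_mul_span] at h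
    refine Submodule.span_mono ?_ h
    rintro _ ⟨_, ⟨ms, u, a1, a2, rfl, rfl⟩, _, ⟨ms', u', b1, b2, rfl, rfl⟩, rfl⟩
    refine ⟨ms ++ ms', u ++ u', fun m hm => (List.mem_append.1 hm).elim (a1 m) (b1 m),
      fun m hm => (List.mem_append.1 hm).elim (a2 m) (b2 m), ?_, ?_⟩
    · rw [List.sum_append, List.length_append]
      omega
    · simp only [List.map_append, List.prod_append]
      ring

theorem mul_mem {k l m : ℕ} {x y : PP N} (hx : x ∈ SS N k) (hy : y ∈ SS N l) (h : k + l = m) :
    x * y ∈ SS N m := h ▸ SetLike.mul_mem_graded hx hy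

theorem tr_mem {m : ℕ} (h : m ≤ N) : (XM N ^ (m + 1)).trace ∈ SS N (m + 1) :=
  Submodule.subset_span ⟨[m + 1], [], by simpa [PM] using h, by simp [PW], by simp, by simp⟩

/-- the generic matrix without its last row -/
def PX (N : ℕ) : Matrix (Fin (N + 1)) (Fin (N + 1)) (PP N) := (XM N).updateRow (Fin.last N) 0

theorem px_mem (a b : Fin (N + 1)) : PX N a b ∈ SS N 1 := by
  rw [PX, updateRow_apply]
  split_ifs with h
  · exact zero_mem _
  · exact Submodule.subset_span ⟨[], [(a, b)], by simp [PM], by simpa [PW] using h, rfl,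
      by simp [XM]⟩

theorem pow_mem (m : ℕ) : ∀ a b, (PX N ^ m) a b ∈ SS N m := by
  induction m with
  | zero =>
    intro a b
    rw [pow_zero, one_apply]
    split_ifs
    · exact SetLike.one_mem_graded _
    · exact zero_mem _
  | succ m ih =>
    intro a b
    rw [pow_succ, mul_apply]
    exact sum_mem fun c _ => mul_mem (ih a c) (px_mem c b) rfl

theorem split (Y Z : Matrix (Fin (N + 1)) (Fin (N + 1)) (PP N)) (a b : Fin (N + 1)) :
    (Y * (XM N * Z)) a b =
      (Y * (PX N * Z)) a b + Y a (Fin.last N) * (XM N * Z) (Fin.last N) b := by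
  have h : ∀ c, (XM N * Z) c b =
      (PX N * Z) c b + if c = Fin.last N then (XM N * Z) (Fin.last N) b else 0 := fun c => by
    by_cases h : c = Fin.last N <;> simp [mul_apply, PX, updateRow_apply, h]
  rw [mul_apply, mul_apply, Finset.sum_congr rfl fun c _ => congrArg (Y a c * ·) (h c)]
  simp [mul_add, Finset.sum_add_distrib]

/-- the corner entries -/
def cc (N e f : ℕ) : PP N := (XM N ^ (e + 1) * PX N ^ f) (Fin.last N) (Fin.last N)

theorem cc_succ (e f : ℕ) : cc N (e + 1) f = cc N e (f + 1) + cc N e 0 * cc N 0 f := by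
  rw [cc, pow_succ, mul_assoc, split, ← pow_succ']
  simp [cc]

theorem tr_succ (e f : ℕ) : (PX N ^ f * XM N ^ (e + 1)).trace =
    (PX N ^ (f + 1) * XM N ^ e).trace + cc N e f := by
  rw [cc, pow_succ' (XM N), pow_succ (PX N), mul_assoc, mul_apply (M := XM N * XM N ^ e)]
  simp only [trace, diag_apply, split, Finset.sum_add_distrib, mul_comm]

theorem cc_mem (k : ℕ) : k ≤ N → cc N 0 k ∈ SS N (k + 1) := by
  induction k using Nat.strong_induction_on with
  | _ k ih =>
  intro hk
  have h1 : ∀ e f, e + f ≤ k → cc N e f - cc N 0 (e + f) ∈ SS N (e + f + 1) := fun e => by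
    induction e with
    | zero => simp
    | succ e ie =>
      intro f hf
      have a1 := add_mem (ie 0 (by omega)) (ih e (by omega) (by omega))
      rw [add_zero, sub_add_cancel] at a1
      rw [cc_succ, add_sub_right_comm, add_right_comm e 1 f]
      exact add_mem (ie (f + 1) (by omega))
        (mul_mem a1 (ih f (by omega) (by omega)) (by omega))
  have h2 : ∀ e f, e + f = k + 1 →
      (PX N ^ f * XM N ^ e).trace - (e : ℂ) • cc N 0 k ∈ SS N (k + 1) := fun e => by
    induction e with
    | zero =>
      intro f hf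
      rw [zero_add] at hf
      simpa [hf, trace] using sum_mem fun a _ => pow_mem (k + 1) a a
    | succ e ie =>
      intro f hf
      have a1 := h1 e f (by omega)
      rw [show e + f = k by omega] at a1
      rw [tr_succ, Nat.cast_succ, add_smul, one_smul, ← sub_add_sub_comm]
      exact add_mem (ie (f + 1) (by omega)) a1
  have h3 := sub_mem (tr_mem hk) (h2 (k + 1) 0 rfl)
  rw [pow_zero, one_mul, sub_sub_cancel] at h3
  exact (Submodule.smul_mem_iff _ (Nat.cast_ne_zero.2 k.succ_ne_zero)).1 h3

theorem pow_last (k : ℕ) (b : Fin (N + 1)) : (PX N ^ (k + 1)) (Fin.last N) b = 0 := by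
  simp [pow_succ', mul_apply, PX]

theorem vv_eq (k : ℕ) : ∀ i : Fin N,
    Kappa.vv (fun a b : Fin (N + 1) => (MvPolynomial.X (a, b) : PP N)) k i =
      (PX N ^ (k + 1)) i.castSucc (Fin.last N) := by
  induction k with
  | zero => simp [Kappa.vv, PX, XM, Fin.castSucc_ne_last]
  | succ k ih =>
    intro i
    rw [pow_succ', mul_apply, Fin.sum_univ_castSucc, pow_last, mul_zero, add_zero, Kappa.vv]
    simp [ih, PX, XM, Fin.castSucc_ne_last, mul_comm]

theorem det_mem {M : Matrix (Fin N) (Fin N) (PP N)} {d : Fin N → ℕ}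
    (h : ∀ k i, M k i ∈ SS N (k.val + 1 + d i)) : M.det ∈ SS N (DD N + ∑ i, d i) := by
  rw [det_apply]
  refine sum_mem fun σ _ => ?_
  have h1 := SetLike.prod_mem_graded (SS N) (F := Finset.univ) (fun i => (σ i).val + 1 + d i)
    (fun i => M (σ i) i) fun i _ => h _ _
  have h2 : ∑ i : Fin N, ((σ i).val + 1) = DD N := by
    rw [Equiv.sum_comp σ fun i => i.val + 1, DD, ← Loc3.sum_tT, ← Equiv.sum_comp Fin.revPerm]
    refine Finset.sum_congr rfl fun i _ => ?_
    have := i.2
    simp only [Fin.revPerm_apply, Fin.val_rev]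
    omega
  rw [Finset.sum_add_distrib, h2] at h1
  exact zsmul_mem h1 _

end SymA

open SymA in
theorem sym : SymStmt := by
  intro N i
  obtain ⟨M, hM⟩ : ∃ M : Matrix (Fin N) (Fin N) (PP N),
      ∀ k j, M k j = (PX N ^ (k.val + 1)) j.castSucc (Fin.last N) := ⟨of _, fun _ _ => rfl⟩
  have h1 : Kappa.kap (fun a b : Fin (N + 1) => (MvPolynomial.X (a, b) : PP N)) = M.det := by
    rw [← det_transpose, det_apply, Kappa.kap]
    simp only [List.prod_ofFn, vv_eq, transpose_apply, hM]
  rw [h1]
  induction i using Fin.lastCases with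
  | last =>
    refine mul_mem (det_mem (d := 0) fun k j => hM k j ▸ pow_mem _ _ _) ?_ (by simp; rfl)
    simpa [cc, XM] using cc_mem (N := N) 0 N.zero_le
  | cast i =>
    have h2 := det_updateCol_sum M i fun j => (MvPolynomial.X (Fin.last N, j.castSucc) : PP N)
    rw [mul_comm, ← smul_eq_mul, ← h2]
    have h3 := det_mem (M := M.updateCol i fun k =>
      ∑ j, (MvPolynomial.X (Fin.last N, j.castSucc) : PP N) • M k j)
      (d := fun j => if j = i then 1 else 0) fun k j => by
        rw [updateCol_apply]
        split_ifs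
        · have := cc_mem (N := N) (k + 1) k.2
          rw [cc, zero_add, pow_one, mul_apply, Fin.sum_univ_castSucc, pow_last, mul_zero,
            add_zero] at this
          simpa [hM, XM] using this
        · exact hM k j ▸ pow_mem _ _ _
    simpa using h3

end SW

end Pool.Agent.Lib.MP_fa98d2_nt.D
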