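import Pool.Agent.Lib.MP_fa98d2_nt.B.Final
import Pool.Agent.Lib.MP_fa98d2_nt.W.Sym
import Pool.Agent.Lib.MP_fa98d2_nt.W.Alg
import Pool.Agent.Lib.MP_fa98d2_nt.W.Near
import Pool.Agent.Lib.MP_fa98d2_nt.W.Kir
import Pool.Agent.Lib.MP_fa98d2_nt.W.Ex
import Pool.Agent.Lib.MP_fa98d2_nt.W.Mul
import Pool.Agent.Lib.MP_fa98d2_nt.W.Def
import Pool.Agent.Lib.MP_fa98d2_nt.W.Cv
import Pool.Agent.Lib.MP_fa98d2_nt.W.Cls
import Pool.Agent.Lib.MP_fa98d2_nt.W.Vec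
import Pool.Agent.Lib.MP_fa98d2_nt.W.Mass
import Pool.Agent.Lib.MP_fa98d2_nt.W.SchW
import Pool.Agent.Lib.MP_fa98d2_nt.W.Low
import Pool.Agent.Lib.MP_fa98d2_nt.W.InjW
import Pool.Agent.Lib.MP_fa98d2_nt.W.FinC
import Pool.Agent.Lib.MP_fa98d2_nt.W.FinW

/-! Short-window density theorem: assembly. -/

namespace Pool.Agent.Lib.MP_fa98d2_nt.D

namespace SW

theorem injB : InjBStmt := by
  intro N ε hε
  obtain ⟨d0, c3, C, h0, h3, hC, h⟩ := B.injBS N ε hε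
  exact ⟨d0, c3, C, h0, h3, hC, fun T δ hT h1 h2 m hm => h T hT δ (by rwa [one_div]) h2 m hm⟩

theorem coreS : CoreStmt :=
  core (low kir ex mul (dfs (alg sym) kir ex mul) cvs (vec kir mul cvs clsW) (mass ex))

theorem finalC : FinalCStmt := finC near injB coreS

theorem finalW : FinalWStmt := finW near injW schW coreS

end SW

end Pool.Agent.Lib.MP_fa98d2_nt.D
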