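import Pool.Agent.Lib.MP_fa98d2_nt.D.Defs

/- The total spread of the Satake parameters at a prime. -/

noncomputable section

namespace Pool.Agent.Lib.MP_fa98d2_nt.D

/-- `η_p = Σ_{i<k} |log_p |α_{i,p}| - log_p |α_{k,p}||`, written as half the sum over all pairs -/
def etaP {n : ℕ} (α : ℕ → Fin n → ℂ) (p : ℕ) : ℝ :=
  (∑ i, ∑ k, |Real.logb p ‖α p i‖ - Real.logb p ‖α p k‖|) / 2

end Pool.Agent.Lib.MP_fa98d2_nt.D
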