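import Pool.Agent.Lib.MP_fa98d2_nt.D.Final
import Pool.Agent.Lib.MP_fa98d2_nt.W.Defs

/-!
Short-window density theorem for cusp forms on PGL(n): the Kirillov model as a linear map into a
Hilbert space, with its basic properties. Paper proof: `dw_PROOF.md` in the team store.
-/

open MeasureTheory Filter Topology Matrix
open scoped ENNReal Real ContDiff ComplexConjugate InnerProductSpace

noncomputable section

namespace Pool.Agent.Lib.MP_fa98d2_nt.D

namespace SW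

/-! ### The proved statements of the library -/

theorem hH : HaarStmt := haar
theorem hC : CalcStmt := calcS
theorem hQ : QuotStmt := quot haar torus
theorem hW : WhStmt := wh torus calcS
theorem hPar : ParStmt := par torus prim hQ hW
theorem hSh : ShinStmt := shin hW (hw torus hW)
theorem hO : OrthStmt := orth hnf hQ
theorem hR : RSStmt := rs prim hH hQ hW hPar
theorem hL : Loc0Stmt := loc0 hH hC
theorem hV : ClassStmt := cls hC hQ hW hL
theorem hD : CDStmt := cd lat hC hQ hW hPar hR hV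
theorem hIso : IsoStmt := iso kappa schur lat hC hH hQ hW hR hSh hV hD
theorem hI : IrrStmt := irr torus hH hW
theorem hL1 : Loc1Stmt := loc1 kaz hC hW hV hL
theorem hLoc : LocStmt := loc3 hC hQ hW hR hV hL hL1 (loc2 hH hQ hW hV hI hL)
theorem hRB : RBStmt := rb schur euler lat hQ hW hR hSh hV hD
theorem hMu : MultStmt := mult hQ hW hV hL hIso hI gelf
theorem hBr : BridgeStmt := bridge hc hC hQ

variable {N : ℕ}

/-- words in the elementary matrices of `gl_(N+1)` -/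
abbrev Wd (N : ℕ) : Type := List (Fin (N + 1) × Fin (N + 1))

/-- the degree of the semi-invariant -/
abbrev DD (N : ℕ) : ℕ := (N + 1).choose 2

/-- the Hilbert space of the Kirillov models -/
abbrev HK (N : ℕ) : Type := Lp ℂ 2 (mX N)

/-- a Hecke system, a central character and the isometry constant -/
structure Dat (N : ℕ) where
  α : ℕ → Fin (N + 1) → ℂ
  γ : ℕ → ℂ
  R : ℝ
  iso : Iso α R

namespace Dat

variable (d : Dat N)

/-- the space of smooth vectors -/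
def V : Submodule ℂ (G (N + 1) → ℂ) := (hV.subC (N + 1) d.α d.γ).choose

lemma mem {w : G (N + 1) → ℂ} : w ∈ d.V ↔ InV d.α w ∧ Cen d.γ w :=
  (hV.subC (N + 1) d.α d.γ).choose_spec w

lemma inV (w : d.V) : InV d.α (w : G (N + 1) → ℂ) := (d.mem.1 w.2).1
lemma cen (w : d.V) : Cen d.γ (w : G (N + 1) → ℂ) := (d.mem.1 w.2).2
lemma sm (w : d.V) : Sm (w : G (N + 1) → ℂ) := (d.inV w).sm
lemma aut (w : d.V) : Aut (w : G (N + 1) → ℂ) := (d.inV w).aut
lemma cont (w : d.V) : Continuous (w : G (N + 1) → ℂ) := (d.aut w).cont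

lemma rd_mem (A : Mat (N + 1)) (w : d.V) : Rd A (w : G (N + 1) → ℂ) ∈ d.V :=
  d.mem.2 ⟨hV.rdV _ _ _ (d.inV w) A, hV.rdC _ _ _ (d.sm w) (d.cen w) A⟩

lemma ex_e : ∃ e : Fin (N + 1) → Fin (N + 1) → Module.End ℂ d.V, Comm 1 e ∧
    (∀ a b w, (e a b w : G (N + 1) → ℂ) = Rd (em a b) w) ∧
    (∀ l w, (ew e l w : G (N + 1) → ℂ) = Rw l w) ∧
    ∀ m w, (egel e m w : G (N + 1) → ℂ) = Gel m w :=
  hC.mod (N + 1) d.V (fun w hw => d.sm ⟨w, hw⟩) fun _ _ w hw => d.rd_mem _ ⟨w, hw⟩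

/-- the Lie algebra action -/
def e : Fin (N + 1) → Fin (N + 1) → Module.End ℂ d.V := d.ex_e.choose

lemma e_comm : Comm 1 d.e := d.ex_e.choose_spec.1

lemma e_val (a b : Fin (N + 1)) (w : d.V) : (d.e a b w : G (N + 1) → ℂ) = Rd (em a b) w :=
  d.ex_e.choose_spec.2.1 a b w

lemma ew_val (l : Wd N) (w : d.V) : (ew d.e l w : G (N + 1) → ℂ) = Rw l w :=
  d.ex_e.choose_spec.2.2.1 l w

lemma egel_eq (m : ℕ) : egel d.e m = d.γ m • (1 : Module.End ℂ d.V) := by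
  ext1 w
  apply Subtype.ext
  rw [show (egel d.e m w : G (N + 1) → ℂ) = Gel m w from d.ex_e.choose_spec.2.2.2 m w, d.cen w m]
  rfl

/-- the group action -/
def rho (x : G (N + 1)) : Module.End ℂ d.V where
  toFun w := ⟨rt x w, d.mem.2 ⟨hV.rtV _ _ _ (d.inV w) x, hV.rtC _ _ _ (d.sm w) (d.cen w) x⟩⟩
  map_add' _ _ := rfl
  map_smul' _ _ := rfl

lemma rho_val (x : G (N + 1)) (w : d.V) : (d.rho x w : G (N + 1) → ℂ) = rt x w := rfl

lemma rho_mul (x y : G (N + 1)) : d.rho (x * y) = d.rho x * d.rho y := by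
  ext w g
  simp only [Module.End.mul_apply, rho_val, rt, mul_assoc]

lemma rho_one : d.rho 1 = 1 := by
  ext w g
  simp only [rho_val, rt, mul_one, Module.End.one_apply]

lemma rho_e (x : G (N + 1)) (a b : Fin (N + 1)) : d.rho x * d.e a b =
    (∑ c, ∑ f, ((x.val c a : ℂ) * ((x⁻¹).val b f : ℂ)) • d.e c f) * d.rho x := by
  ext1 w
  apply Subtype.ext
  have := Iso.rt_rd hC (w := w) x (d.sm (d.rho x w)) a b
  simp only [Module.End.mul_apply, rho_val, e_val, LinearMap.sum_apply, LinearMap.smul_apply,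
    Submodule.coe_sum, Submodule.coe_smul]
  exact this

/-- the Whittaker function -/
def W (w : d.V) : G (N + 1) → ℂ := W1 (w : G (N + 1) → ℂ)

lemma W_sm (w : d.V) : Sm (d.W w) := Loc1.sm_w1 hW (d.sm w)
lemma W_cont (w : d.V) : Continuous (d.W w) := hC.cont _ _ (d.W_sm w)
lemma W_eqv (w : d.V) : Eqv (fun _ => 1) (d.W w) := Loc2.eqv_W1 hW (d.aut w)
lemma W_add (w w' : d.V) : d.W (w + w') = d.W w + d.W w' :=
  hW.add N _ _ _ (d.cont w) (d.cont w')
lemma W_smul (c : ℂ) (w : d.V) : d.W (c • w) = c • d.W w := hW.smul N _ c _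
lemma W_rho (x : G (N + 1)) (w : d.V) : d.W (d.rho x w) = rt x (d.W w) := Wf_rt _ _ _
lemma W_e (a b : Fin (N + 1)) (w : d.V) : d.W (d.e a b w) = Rd (em a b) (d.W w) := by
  rw [W, e_val]; exact Loc1.w1_rd hW (d.sm w) _
lemma W_ew (l : Wd N) (w : d.V) : d.W (ew d.e l w) = Rw l (d.W w) := by
  rw [W, ew_val]; exact Loc1.w1_Rw hC hW (d.sm w) _

lemma memLp (w : d.V) : MemLp (fun x => d.W w (up (sg N x))) 2 (mX N) :=
  Loc2.memLp_of (Loc2.measurable_res hW (d.cont w))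
    (by rw [← Loc2.KK_one]; exact Loc2.KK_lt d.iso (d.inV w))

/-- the Kirillov model -/
def K : d.V →ₗ[ℂ] HK N where
  toFun w := (d.memLp w).toLp
  map_add' w w' := by
    rw [← MemLp.toLp_add]
    exact MemLp.toLp_congr _ _ (Eventually.of_forall fun x => by rw [W_add]; rfl)
  map_smul' c w := by
    rw [RingHom.id_apply, ← MemLp.toLp_const_smul]
    exact MemLp.toLp_congr _ _ (Eventually.of_forall fun x => by rw [W_smul]; rfl)

lemma K_ae (w : d.V) : d.K w =ᵐ[mX N] fun x => d.W w (up (sg N x)) := (d.memLp w).coeFn_toLp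

lemma K_sq (w : d.V) : ENNReal.ofReal (‖d.K w‖ ^ 2) = KK 1 (d.W w) := by
  rw [Loc2.KK_one]; exact Loc2.ofReal_norm_sq _ (d.K_ae w)

lemma n2_eq (w : d.V) : N2 (w : G (N + 1) → ℂ) = ENNReal.ofReal (d.R * ‖d.K w‖ ^ 2) := by
  rw [ENNReal.ofReal_mul d.iso.1.le, K_sq]; exact d.iso.2 _ (d.inV w)

lemma inner_K (d0 : Dat N) (g : d0.V) (f : d.V) : ⟪d0.K g, d.K f⟫_ℂ =
    ∫ x, d.W f (up (sg N x)) * conj (d0.W g (up (sg N x))) ∂mX N :=
  Loc2.inner_eq _ _ (d0.K_ae g) (d.K_ae f)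

lemma K_le {w w' : d.V} {a : ℝ} (ha : 0 ≤ a)
    (h : N2 (w' : G (N + 1) → ℂ) ≤ ENNReal.ofReal a ^ 2 * N2 (w : G (N + 1) → ℂ)) :
    ‖d.K w'‖ ≤ a * ‖d.K w‖ := by
  have hR := d.iso.1
  rw [n2_eq, n2_eq, ← ENNReal.ofReal_pow ha, ← ENNReal.ofReal_mul (by positivity),
    ENNReal.ofReal_le_ofReal_iff (by positivity)] at h
  refine (pow_le_pow_iff_left₀ (norm_nonneg _) (by positivity) two_ne_zero).1 ?_
  have : d.R * ‖d.K w'‖ ^ 2 ≤ d.R * (a * ‖d.K w‖) ^ 2 := by nlinarith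
  exact le_of_mul_le_mul_left this hR

lemma K_rho (x : G (N + 1)) (w : d.V) : ‖d.K (d.rho x w)‖ = ‖d.K w‖ := by
  have h := hV.n2rt _ _ (d.aut w) x
  rw [← rho_val, n2_eq, n2_eq, ENNReal.ofReal_eq_ofReal_iff (mul_nonneg d.iso.1.le (by positivity))
    (mul_nonneg d.iso.1.le (by positivity))] at h
  exact (pow_left_inj₀ (norm_nonneg _) (norm_nonneg _) two_ne_zero).1
    (mul_left_cancel₀ d.iso.1.ne' h)

lemma inner_rho (x : G (N + 1)) (f g : d.V) :
    ⟪d.K (d.rho x g), d.K (d.rho x f)⟫_ℂ = ⟪d.K g, d.K f⟫_ℂ := by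
  rw [inner_eq_sum_norm_sq_div_four, inner_eq_sum_norm_sq_div_four]
  simp only [← map_smul, ← map_add, ← map_sub, K_rho]

lemma K_inj {w : d.V} (h : d.K w = 0) : w = 0 := by
  apply Subtype.ext
  apply hQ.pos _ _ (d.aut w)
  rw [n2_eq, h]; simp

/-- convolution with a test function -/
def cv (f : G (N + 1) → ℂ) (h1 : Sm f) (h2 : HasCompactSupport f) (w : d.V) : d.V :=
  ⟨conv f w, d.mem.2 ⟨hV.convV _ _ _ (d.aut w) (d.inV w).cusp (d.inV w).hk ((d.inV w).l2 []) f h1 h2,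
    hV.convC _ _ _ (d.sm w) (d.cen w) f h1 h2⟩⟩

lemma cv_val (f : G (N + 1) → ℂ) (h1 : Sm f) (h2 : HasCompactSupport f) (w : d.V) :
    (d.cv f h1 h2 w : G (N + 1) → ℂ) = conv f w := rfl

end Dat

/-- the eigenvalue of the semi-invariant at the base point -/
def D0 (N : ℕ) (T : ℝ) : ℂ :=
  (((Equiv.Perm.sign (Fin.revPerm : Equiv.Perm (Fin N)) : ℤˣ) : ℤ) : ℂ) *
    (2 * π * Complex.I) ^ DD N * (T : ℂ) ^ DD N

lemma norm_D0 {T : ℝ} (hT : 0 ≤ T) : ‖D0 N T‖ = (2 * π) ^ DD N * T ^ DD N := by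
  have h : ‖(((Equiv.Perm.sign (Fin.revPerm : Equiv.Perm (Fin N)) : ℤˣ) : ℤ) : ℂ)‖ = 1 := by
    rcases Int.units_eq_one_or (Equiv.Perm.sign (Fin.revPerm : Equiv.Perm (Fin N))) with h | h <;>
      simp [h]
  rw [D0, norm_mul, norm_mul, h, one_mul, norm_pow, norm_pow, Complex.norm_real,
    Real.norm_of_nonneg hT]
  simp [abs_of_pos Real.pi_pos]

/-- the operator that acts on Kirillov functions as multiplication by `1 - det h / T ^ D` -/
def Dat.B (d : Dat N) (T : ℝ) : Module.End ℂ d.V := 1 - (D0 N T)⁻¹ • Kappa.kap d.e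

/-- the radius of the bump on `GL_N` is `c1 N / T` -/
def c1 (N : ℕ) : ℝ := 1 / (60 * (N + 2))

lemma c1_pos : 0 < c1 N := by unfold c1; positivity

lemma c1_facts {T : ℝ} (hT : 1 ≤ T) : 0 < c1 N / T ∧ 2 * (c1 N / T) * (2 * N + 2) ≤ 1 ∧
    N * (T * (6 * (c1 N / T))) ≤ 1 / 10 ∧ c1 N / T * (2 * N + 2) ≤ 1 := by
  have hN : (0 : ℝ) ≤ N := Nat.cast_nonneg N
  have hT0 : 0 < T := by linarith
  have hδ : 0 < c1 N / T := div_pos c1_pos hT0
  have hTδ : T * (c1 N / T) * (60 * (N + 2)) = 1 := by unfold c1; field_simp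
  have hδT : c1 N / T ≤ T * (c1 N / T) := by nlinarith
  refine ⟨hδ, by nlinarith, by nlinarith, by nlinarith⟩

lemma c1_ok : c1 N * (2 * N + 2) ≤ 1 := by
  simpa using (c1_facts (N := N) (le_refl 1)).2.2.2

lemma memLp_beta {T : ℝ} (hT : 1 ≤ T) :
    MemLp (fun x => Loc2.beta (dg (tT N T)) (c1 N / T) (sg N x)) 2 (mX N) :=
  Loc2.memLp_of ((Loc2.measurable_beta _ _).comp (measurable_sg N))
    (Loc2.sq_beta_lt hH hW hL (fun i => Loc2.tT_pos hT i) (c1_facts hT).1 (c1_facts hT).2.1)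

/-- the averaged bump at `diag(T^N, ..., T)` as a vector of the Hilbert space -/
def bet (N : ℕ) {T : ℝ} (hT : 1 ≤ T) : HK N := (memLp_beta (N := N) hT).toLp

lemma bet_lower (N : ℕ) : ∃ c : ℝ, 0 < c ∧ ∀ (T : ℝ) (hT : 1 ≤ T),
    c * NL N T (c1 N / T) ≤ ‖bet N hT‖ ^ 2 := by
  obtain ⟨c, hc, h⟩ := Loc2.le_sq_beta hH hW hL N
  refine ⟨c, hc, fun T hT => ?_⟩
  have := h T _ hT (c1_facts hT).1 (c1_facts hT).2.1 (c1_facts hT).2.2.1
  rw [← Loc2.ofReal_norm_sq _ (memLp_beta (N := N) hT).coeFn_toLp] at this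
  exact (ENNReal.ofReal_le_ofReal_iff (by positivity)).1 this

lemma bet_pos {T : ℝ} (hT : 1 ≤ T) : 0 < ‖bet N hT‖ := by
  obtain ⟨c, hc, h⟩ := bet_lower N
  have h1 := (mul_pos hc (Loc3.nl_pos (N := N) hT (c1_facts (N := N) hT).1)).trans_le (h T hT)
  exact (norm_nonneg _).lt_of_ne fun h0 => by rw [← h0] at h1; simp at h1

lemma inner_bet {T : ℝ} (hT : 1 ≤ T) (d : Dat N) (w : d.V) :
    ⟪bet N hT, d.K w⟫_ℂ = L0 T (c1 N / T) (d.W w) := by
  rw [bet, Loc2.inner_eq _ _ (memLp_beta (N := N) hT).coeFn_toLp (d.K_ae w)]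
  refine (Loc2.pairing hH hL _ (c1_facts hT).1 (c1_facts hT).2.2.2 (f := fun h => d.W w (up h))
    ((d.W_cont w).comp continuous_up) fun u hu h => ?_).symm
  rw [up_mul]
  exact d.W_eqv w _ hu.up _

/-- the Kirillov functions are dense -/
lemma Dat.dense (d : Dat N) (h : ∃ w : d.V, w ≠ 0) (b : HK N) {η : ℝ} (hη : 0 < η) :
    ∃ w : d.V, ‖d.K w - b‖ ≤ η := by
  obtain ⟨w0, hw0⟩ := h
  have h1 := Loc2.SK_orth hQ hW hV hI d.iso (w := w0) (fun h => hw0 (Subtype.ext h)) (d.inV w0)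
    (d.cen w0)
  have hcl := Submodule.topologicalClosure_eq_top_iff.2 h1
  have hmem : b ∈ closure (Loc2.SK hW hV d.α d.γ : Set (HK N)) := by
    rw [← Submodule.topologicalClosure_coe, hcl]; trivial
  obtain ⟨φ, ⟨w, hw1, hw2, hφ⟩, hd⟩ := Metric.mem_closure_iff.1 hmem η hη
  refine ⟨⟨w, d.mem.2 ⟨hw1, hw2⟩⟩, ?_⟩
  have e : d.K ⟨w, d.mem.2 ⟨hw1, hw2⟩⟩ = φ := Lp.ext ((d.K_ae _).trans hφ.symm)
  rw [e, ← dist_eq_norm, dist_comm]
  exact hd.le

end SW

end Pool.Agent.Lib.MP_fa98d2_nt.D
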