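import Pool.Agent.Lib.MP_fa98d2_nt.W.Stmts

/-! Short-window density theorem: the duality argument. -/

open MeasureTheory Filter Topology Matrix
open scoped ENNReal Real ContDiff ComplexConjugate InnerProductSpace

noncomputable section

namespace Pool.Agent.Lib.MP_fa98d2_nt.D

namespace SW

namespace CoreA

variable {N : ℕ}

lemma ball_facts {r : ℝ} (hr : r ≤ 1 / 2) {ρ : Fin (N + 1) → ℝ} (h : ρ ∈ Metric.ball (el N) r) :
    (∀ j, |ρ j - (Pi.single (Fin.last N) 1 : Fin (N + 1) → ℝ) j| < r) ∧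
      1 / 2 ≤ ρ (Fin.last N) ∧ ρ (Fin.last N) ≤ 2 := by
  have h0 : 0 < r := Metric.pos_of_mem_ball h
  have a1 : ∀ j, |ρ j - (Pi.single (Fin.last N) 1 : Fin (N + 1) → ℝ) j| < r := fun j =>
    (dist_pi_lt_iff h0).1 h j
  have := abs_lt.1 (a1 (Fin.last N))
  rw [Pi.single_eq_same] at this
  exact ⟨a1, by linarith, by linarith⟩

/-- the test region lies in the standard neighbourhood one level up -/
lemma region (N : ℕ) : ∃ C : ℝ, 0 < C ∧ ∀ T δ r δ' : ℝ, 1 ≤ T → Loc3.Ok (N + 1) δ →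
    Loc3.Ok (N + 1) r → 2 * (δ + r) ≤ δ' → ∀ W : G (N + 1) → ℂ, Continuous W →
    ∫⁻ ρ in Metric.ball (el N) r, ∫⁻ x in Nb N T δ, ‖W (up (sg N x) * sr ρ)‖ₑ ^ 2 ∂mX N ≤
      ENNReal.ofReal (C * T ^ DD N) * II (N + 1) fun g =>
        (Om (up (dg (tT N T))) δ').indicator 1 g * ‖W g‖ₑ ^ 2 := by
  obtain ⟨C, hC0, hC1⟩ := hL.det N
  refine ⟨2 * Real.exp C, by positivity, fun T δ r δ' hT hδ hr hδ' W hW => ?_⟩
  have hm : Measurable fun g => (Om (up (dg (tT N T))) δ').indicator (1 : G (N + 1) → ℝ≥0∞) g *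
      ‖W g‖ₑ ^ 2 := (measurable_one.indicator (hL.opn _ _ _).2.measurableSet).mul
    (hW.measurable.enorm.pow_const 2)
  have hm2 : Measurable fun ρ : Fin (N + 1) → ℝ => II N fun h => ENNReal.ofReal (dt h)⁻¹ *
      ((Om (up (dg (tT N T))) δ').indicator (1 : G (N + 1) → ℝ≥0∞) (up h * sr ρ) *
        ‖W (up h * sr ρ)‖ₑ ^ 2) := by
    refine Measurable.lintegral_prod_right' (f := fun p : (Fin (N + 1) → ℝ) × X N =>
      ENNReal.ofReal (dt (sg N p.2))⁻¹ *
      ((Om (up (dg (tT N T))) δ').indicator (1 : G (N + 1) → ℝ≥0∞) (up (sg N p.2) * sr p.1) *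
        ‖W (up (sg N p.2) * sr p.1)‖ₑ ^ 2)) ?_
    exact ((measurable_dt.comp ((measurable_sg N).comp measurable_snd)).inv.ennreal_ofReal).mul
      (hm.comp ((continuous_up.measurable.comp ((measurable_sg N).comp measurable_snd)).mul
        (measurable_sr.comp measurable_fst)))
  rw [II_succ hm, mR, lintegral_withDensity_eq_lintegral_mul _ Irr.meas_wr hm2,
    ← lintegral_const_mul' _ _ ENNReal.ofReal_ne_top]
  refine le_trans (setLIntegral_mono' measurableSet_ball fun ρ hρ => ?_)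
    (setLIntegral_le_lintegral _ _)
  obtain ⟨a1, a2, a3⟩ := ball_facts hr.half hρ
  have hρ0 : ρ (Fin.last N) ≠ 0 := by linarith
  simp only [Pi.mul_apply, II]
  rw [← lintegral_const_mul' _ _ ENNReal.ofReal_ne_top,
    ← lintegral_const_mul' _ _ ENNReal.ofReal_ne_top]
  refine le_trans (setLIntegral_mono' (measurableSet_Nb T δ) fun x hx => ?_)
    (setLIntegral_le_lintegral _ _)
  obtain ⟨u, hu, y, hy, e⟩ := hx
  have hmem : up (sg N x) * sr ρ ∈ Om (up (dg (tT N T))) δ' := by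
    refine ⟨up u, hu.up, up y * sr ρ, Loc3.bl_mono hδ' (hL.mul _ _ _ hδ.2 hr.2 _
      (Loc3.up_bl hδ.1 hy) _ (Loc3.sr_bl hr.1 hρ0 a1)).1, ?_⟩
    rw [e, up_mul, up_mul, mul_assoc]
  have hdt : dt (sg N x) ≤ Real.exp C * T ^ DD N := by
    have h1 := (abs_le.1 (hC1 δ hδ.pred.2 y hy)).2
    have h2 : dt y ≤ Real.exp C := by
      refine ((Real.log_le_iff_le_exp (dt_pos y)).1 h1).trans (Real.exp_le_exp.2 ?_)
      nlinarith [hδ.half]
    rw [e, dt_mul, dt_mul, hu.dt, one_mul, dt_dg fun i => (Loc3.tT_pos hT i).ne', Loc3.prod_tT,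
      abs_of_nonneg (by positivity), mul_comm]
    gcongr
  rw [Set.indicator_of_mem hmem, Pi.one_apply, one_mul, ← mul_assoc, ← mul_assoc,
    ← ENNReal.ofReal_mul (by positivity), ← ENNReal.ofReal_mul (by positivity)]
  refine le_mul_of_one_le_left' (ENNReal.one_le_ofReal.2 ?_)
  have h3 := dt_pos (sg N x)
  rw [abs_of_pos (by linarith), ← div_eq_mul_inv, ← div_eq_mul_inv, div_div, one_le_div (by positivity)]
  nlinarith

/-- Cauchy-Schwarz on a set -/
lemma cs {Z : Type} [MeasurableSpace Z] {μ : Measure Z} (s : Set Z) {f g : Z → ℂ}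
    (hf : MemLp f 2 μ) (hg : MemLp g 2 μ) :
    ‖∫ x in s, f x * conj (g x) ∂μ‖ₑ ^ 2 ≤ (∫⁻ x in s, ‖f x‖ₑ ^ 2 ∂μ) * ∫⁻ x, ‖g x‖ₑ ^ 2 ∂μ := by
  have hf' := hf.restrict s
  have hg' := hg.restrict s
  rw [← Loc2.inner_eq _ _ hg'.coeFn_toLp hf'.coeFn_toLp,
    ← Loc2.ofReal_norm_sq _ hf'.coeFn_toLp]
  refine le_trans ?_ (mul_le_mul_right (setLIntegral_le_lintegral s _) _)
  rw [← Loc2.ofReal_norm_sq _ hg'.coeFn_toLp, ← ENNReal.ofReal_mul (by positivity),
    ← ofReal_norm, ← ENNReal.ofReal_pow (norm_nonneg _), ← mul_pow, mul_comm]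
  exact ENNReal.ofReal_le_ofReal (pow_le_pow_left₀ (norm_nonneg _) (norm_inner_le_norm _ _) 2)

lemma shin_norm {m : Fin N → ℕ+} (s : Set (G (N + 1))) (W : G (N + 1) → ℂ) :
    ENNReal.ofReal (dl (tm m)) * II (N + 1) (fun g => s.indicator 1 g *
      ‖((dl (tm m) ^ (-(1 / 2) : ℝ) : ℝ) : ℂ) * W g‖ₑ ^ 2) =
      II (N + 1) fun g => s.indicator 1 g * ‖W g‖ₑ ^ 2 := by
  have hdl : 0 < dl (tm m) := Main.dl_pos (Main.tm_pos _)
  unfold II
  rw [← lintegral_const_mul' _ _ ENNReal.ofReal_ne_top]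
  congr 1; ext x
  have : ENNReal.ofReal (dl (tm m)) * ‖((dl (tm m) ^ (-(1 / 2) : ℝ) : ℝ) : ℂ)‖ₑ ^ 2 = 1 := by
    rw [← ofReal_norm, Complex.norm_real, Real.norm_of_nonneg (Real.rpow_nonneg hdl.le _),
      ← ENNReal.ofReal_pow (Real.rpow_nonneg hdl.le _), ← ENNReal.ofReal_mul hdl.le,
      ← Real.rpow_natCast, ← Real.rpow_mul hdl.le]
    norm_num
    rw [Real.rpow_neg_one, mul_inv_cancel₀ hdl.ne']
  simp only []
  rw [enorm_mul, mul_pow]
  calc _ = (ENNReal.ofReal (dl (tm m)) * ‖((dl (tm m) ^ (-(1 / 2) : ℝ) : ℝ) : ℂ)‖ₑ ^ 2) *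
      (s.indicator 1 (sg (N + 1) x) * ‖W (sg (N + 1) x)‖ₑ ^ 2) := by ring
    _ = _ := by rw [this, one_mul]

end CoreA

open CoreA in
theorem core (h : LowStmt) : CoreStmt := by
  intro N hN C0 ε hε
  obtain ⟨c, E, T0, hc, hE, hT0, hlow⟩ := h N C0 ε hε
  obtain ⟨cL, CL, CM, -, -, -, hloc⟩ := hLoc N C0
  obtain ⟨CR, hCR, hrb⟩ := hRB N hN CM ε hε
  obtain ⟨Cg, hCg, hreg⟩ := region N
  set Z : ℝ := (E + c) * (2 * ((N + 1 : ℕ) : ℝ) + 2) with hZ
  have hZ0 : 0 < Z := by positivity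
  refine ⟨max 1 (2 * (E + c)), 16 * Cg * CR / (2 * c) ^ (N + 1), max T0 (Z ^ ε⁻¹), le_max_left _ _,
    by positivity, le_max_of_le_left hT0, ?_⟩
  intro T U hT hTU hUT ι _ α γ hP hG hNr hw hne
  have hT1 : 1 ≤ T := hT0.trans ((le_max_left _ _).trans hT)
  have hTp : 0 < T := by linarith
  have hZU : Z ≤ U := by
    refine le_trans ?_ hTU
    rw [← Real.rpow_inv_rpow hZ0.le hε.ne']
    exact Real.rpow_le_rpow (by positivity) ((le_max_right _ _).trans hT) hε.le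
  have hU : 0 < U := hZ0.trans_le hZU
  have ok1 : Loc3.Ok (N + 1) ((E + c) / U) := ⟨by positivity, by
    rw [div_mul_eq_mul_div, div_le_one hU]; exact hZU⟩
  have okE : Loc3.Ok (N + 1) (E / U) := ok1.mono (by positivity) (by gcongr; linarith)
  have okc : Loc3.Ok (N + 1) (c / U) := ok1.mono (by positivity) (by gcongr; linarith)
  choose R hRi using fun j => hIso N hN (α j) (hP j)
    (by obtain ⟨w, h1, h2, -⟩ := hw j; exact ⟨w, h1, h2⟩)
  obtain ⟨_, _, -, -, -, hnice⟩ := hloc T hT1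
  have hRb := fun j => hrb T hT1 (α j) (R j) (hP j) (hRi j)
    (hnice (α j) (γ j) (R j) (hG j) (hRi j) (hw j)).2
  refine ⟨fun j => (hRb j).2, fun S hS m K hK hB => ?_⟩
  have hTe : 0 < T ^ ε := Real.rpow_pos_of_pos hTp _
  rcases isEmpty_or_nonempty ι with hι | ⟨⟨j0⟩⟩
  · rw [Finset.univ_eq_empty, Finset.sum_empty]; positivity
  let d : ι → Dat N := fun j => ⟨α j, γ j, R j, hRi j⟩
  have hne0 : ∀ j, ∃ w : (d j).V, w ≠ 0 := fun j => by
    obtain ⟨w, h1, h2, h3⟩ := hw j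
    exact ⟨⟨w, (d j).mem.2 ⟨h2, h3⟩⟩, fun h0 => h1 (congrArg Subtype.val h0)⟩
  obtain ⟨b, hb, hlow⟩ := hlow T U ((le_max_left _ _).trans hT) hTU hUT
  obtain ⟨g, hg, hlow⟩ := hlow (d j0) (hG j0) (hne0 j0)
  choose w hwb hwl using fun j => hlow (d j) (hG j) (hNr j j0) (hne0 j)
  set cc : ι → ℂ := fun j => mulf (fun q e => S j q (lam e)) m with hcc
  have hRp : ∀ j, 0 < R j := fun j => (hRi j).1
  set z : ι → ℂ := fun j => conj (cc j) / ((2 * b * R j : ℝ) : ℂ) with hz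
  set a : ι → ℝ := fun j => ‖cc j‖ ^ 2 / (2 * b * R j) with ha
  have ha0 : ∀ j, 0 ≤ a j := fun j => by have := hRp j; positivity
  have hza : ∀ j, z j * cc j = a j := fun j => by
    simp only [hz, ha]
    rw [div_mul_eq_mul_div, mul_comm, Complex.mul_conj, Complex.normSq_eq_norm_sq]
    push_cast; rfl
  set A := ∑ j, a j with hA
  have hA0 : 0 ≤ A := Finset.sum_nonneg fun j _ => ha0 j
  have hfin : ∀ j, N2 (w j : G (N + 1) → ℂ) < ⊤ := fun j => ((d j).inV (w j)).l2 []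
  have hL2 : ∀ j, MemLp (w j : G (N + 1) → ℂ) 2 (nu (N + 1)) := fun j =>
    Main.memLp ((d j).cont _) (hfin j)
  have hor : ∀ i j, i ≠ j → ip (w i : G (N + 1) → ℂ) (w j) = 0 := fun i j hij =>
    hO.orth _ (α i) (α j) _ _ ((d i).aut _) ((d j).aut _) (hfin i) (hfin j) ((d i).inV _).hk
      ((d j).inV _).hk (hne i j hij)
  set W : G (N + 1) → ℂ := fun x => ∑ j, (a j : ℂ) * (d j).W (w j) x with hWdef
  have hWc : Continuous W :=
    continuous_finsetSum _ fun j _ => continuous_const.mul ((d j).W_cont _)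
  have h2 := hB _ (Main.aut_sum (fun j => (w j : G (N + 1) → ℂ)) (fun j => (d j).aut _) z)
  rw [Main.n2_sum _ hL2 hor z, Main.wf_sum hW _ _ _ (fun j => (d j).cont _) z] at h2
  have e2 : ∀ x, ∑ j, z j * Wf (zm m) (w j : G (N + 1) → ℂ) ((dg (tm m))⁻¹ * x) =
      ((dl (tm m) ^ (-(1 / 2) : ℝ) : ℝ) : ℂ) * W x := by
    intro x
    simp only [hWdef, Finset.mul_sum]
    refine Finset.sum_congr rfl fun j _ => ?_
    rw [hSh N (α j) (S j) (hS j) _ ((d j).aut _) ((d j).inV _).hk m, mul_inv_cancel_left, ← hza]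
    simp only [hcc, Dat.W]; ring
  simp only [e2] at h2
  rw [shin_norm] at h2
  have h3 : ∑ j, ‖z j‖ ^ 2 * (N2 (w j : G (N + 1) → ℂ)).toReal ≤ A := by
    refine Finset.sum_le_sum fun j _ => ?_
    have := hRp j
    rw [(d j).n2_eq, ENNReal.toReal_ofReal (by positivity)]
    simp only [hz, ha]
    rw [norm_div, Complex.norm_conj, Complex.norm_real, Real.norm_of_nonneg (by positivity)]
    calc (‖cc j‖ / (2 * b * R j)) ^ 2 * (R j * ‖(d j).K (w j)‖ ^ 2)
        ≤ (‖cc j‖ / (2 * b * R j)) ^ 2 * (R j * (2 * b)) := by gcongr; exact hwb j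
      _ = _ := by field_simp
  have h4 := (hreg T _ _ (max 1 (2 * (E + c)) / U) hT1 okE okc (by
    rw [← add_div, ← mul_div_assoc]; gcongr; exact le_max_right _ _) W hWc).trans
    (mul_le_mul_right (h2.trans (mul_le_mul_right (ENNReal.ofReal_le_ofReal h3) _)) _)
  have h5 : ∀ ρ ∈ Metric.ball (el N) (c / U), ENNReal.ofReal (b / 8 * A ^ 2) ≤
      ∫⁻ x in Nb N T (E / U), ‖W (up (sg N x) * sr ρ)‖ₑ ^ 2 ∂mX N := by
    intro ρ hρ
    have m1 : ∀ j, MemLp (fun x => (d j).W (w j) (up (sg N x) * sr ρ)) 2 (mX N) := fun j => by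
      have := (d j).memLp ((d j).rho (sr ρ) (w j))
      rwa [Dat.W_rho] at this
    have m0 : MemLp (fun x => (d j0).W g (up (sg N x) * sr ρ)) 2 (mX N) := by
      have := (d j0).memLp ((d j0).rho (sr ρ) g)
      rwa [Dat.W_rho] at this
    have mW : MemLp (fun x => W (up (sg N x) * sr ρ)) 2 (mX N) :=
      memLp_finsetSum _ fun j _ => (m1 j).const_mul _
    have k1 := cs (Nb N T (E / U)) mW m0
    have k2 : ∫⁻ x, ‖(d j0).W g (up (sg N x) * sr ρ)‖ₑ ^ 2 ∂mX N ≤ ENNReal.ofReal (2 * b) := by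
      have := (d j0).K_sq ((d j0).rho (sr ρ) g)
      rw [Loc2.KK_one, Dat.W_rho, Dat.K_rho] at this
      exact this.symm.trans_le (ENNReal.ofReal_le_ofReal hg)
    have k3 : b / 2 * A ≤ ‖∫ x in Nb N T (E / U), W (up (sg N x) * sr ρ) *
        conj ((d j0).W g (up (sg N x) * sr ρ)) ∂mX N‖ := by
      refine le_trans ?_ (Complex.re_le_norm _)
      simp only [hWdef, Finset.sum_mul, mul_assoc]
      have hi : ∀ j, Integrable (fun x => (a j : ℂ) * ((d j).W (w j) (up (sg N x) * sr ρ) *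
          conj ((d j0).W g (up (sg N x) * sr ρ)))) (mX N) := fun j =>
        ((m1 j).integrable_mul m0.star).const_mul _
      rw [integral_finsetSum _ fun j _ => (hi j).integrableOn, Complex.re_sum, hA, Finset.mul_sum]
      refine Finset.sum_le_sum fun j _ => ?_
      rw [integral_const_mul, Complex.re_ofReal_mul, mul_comm]
      exact mul_le_mul_of_nonneg_left (hwl j ρ hρ) (ha0 j)
    have k4 : ENNReal.ofReal (b / 8 * A ^ 2) * ENNReal.ofReal (2 * b) ≤
        (∫⁻ x in Nb N T (E / U), ‖W (up (sg N x) * sr ρ)‖ₑ ^ 2 ∂mX N) * ENNReal.ofReal (2 * b) := by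
      refine le_trans ?_ (k1.trans (mul_le_mul_right k2 _))
      rw [← ENNReal.ofReal_mul (by positivity), ← ofReal_norm, ← ENNReal.ofReal_pow (norm_nonneg _)]
      refine ENNReal.ofReal_le_ofReal (le_trans (le_of_eq (by ring))
        (pow_le_pow_left₀ (by positivity) k3 2))
    exact (ENNReal.mul_le_mul_iff_left (by simpa using hb) ENNReal.ofReal_ne_top).1 k4
  have hv := Real.volume_pi_ball (el N) okc.1
  rw [Fintype.card_fin] at hv
  have h6 : ENNReal.ofReal (b / 8 * A ^ 2) * ENNReal.ofReal ((2 * (c / U)) ^ (N + 1)) ≤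
      ENNReal.ofReal (Cg * T ^ DD N) * (ENNReal.ofReal K * ENNReal.ofReal A) := by
    rw [← hv, ← setLIntegral_const]
    exact (setLIntegral_mono' measurableSet_ball h5).trans h4
  rw [← ENNReal.ofReal_mul (by positivity), ← ENNReal.ofReal_mul hK,
    ← ENNReal.ofReal_mul (by positivity), ENNReal.ofReal_le_ofReal_iff (by positivity)] at h6
  have h7 : b / 8 * A * (2 * (c / U)) ^ (N + 1) ≤ Cg * T ^ DD N * K := by
    rcases hA0.eq_or_lt with h0 | h0
    · rw [← h0, mul_zero, zero_mul]; positivity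
    · exact le_of_mul_le_mul_right (by nlinarith) h0
  have h8 : ∑ j, ‖cc j‖ ^ 2 ≤ 2 * b * (CR * T ^ ε) * A := by
    rw [hA, Finset.mul_sum]
    refine Finset.sum_le_sum fun j _ => ?_
    have := hRp j
    calc ‖cc j‖ ^ 2 = 2 * b * R j * a j := by simp only [ha]; field_simp
      _ ≤ _ := by have := ha0 j; gcongr; exact (hRb j).1
  refine h8.trans ?_
  rw [Real.rpow_add hTp, Real.rpow_natCast]
  have h9 : b * A ≤ 8 * (Cg * T ^ DD N * K) * U ^ (N + 1) / (2 * c) ^ (N + 1) := by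
    rw [← mul_div_assoc, div_pow, ← mul_div_assoc, div_le_iff₀ (by positivity)] at h7
    rw [le_div_iff₀ (by positivity)]
    linarith
  calc 2 * b * (CR * T ^ ε) * A = 2 * (CR * T ^ ε) * (b * A) := by ring
    _ ≤ 2 * (CR * T ^ ε) * (8 * (Cg * T ^ DD N * K) * U ^ (N + 1) / (2 * c) ^ (N + 1)) := by gcongr
    _ = _ := by ring

end SW

end Pool.Agent.Lib.MP_fa98d2_nt.D
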