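import Pool.Agent.Lib.MP_fa98d2_nt.W.Stmts

/-! Short-window density theorem: the final deduction for the tuple `(m, 1, ..., 1)`. -/

open MeasureTheory Filter Topology Matrix
open scoped ENNReal Real ContDiff ComplexConjugate InnerProductSpace

noncomputable section

namespace Pool.Agent.Lib.MP_fa98d2_nt.D

namespace SW

namespace FinA

/-- passage from the classical family to the internal data -/
lemma red (hN : NearStmt) (N : ℕ) : ∃ C0 : ℝ, ∀ T U : ℝ, 1 ≤ T → 0 ≤ U →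
    ∀ (ν : Fin (N + 2) → ℂ) (ι : Type) (φ : ι → Mat (N + 2) → ℂ) (μ : ι → Fin (N + 2) → ℂ)
      (α : ι → ℕ → Fin (N + 2) → ℂ), (∀ j, SphCusp (φ j) (μ j) (α j)) →
      (∀ i j, i ≠ j → ¬ ∃ c : ℂ, ∀ g : Mat (N + 2), g.det ≠ 0 → φ j g = c * φ i g) →
      (∀ j l, ‖μ j l‖ ≤ T) → (∀ j l, ‖μ j l - ν l‖ ≤ U) → ∃ γ : ι → ℕ → ℂ,
      (∀ j, Pr1 (α j)) ∧ (∀ j, Gam (N + 2) C0 T (γ j)) ∧
      (∀ i j, Near (N + 2) C0 T U (γ i) (γ j)) ∧
      (∀ j, ∃ w, w ≠ 0 ∧ InV (α j) w ∧ Cen (γ j) w) ∧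
      (∀ i j, i ≠ j → ∃ q : ℕ, q.Prime ∧ ∃ r, r ≤ N + 2 ∧ esy (α i q) r ≠ esy (α j q) r) ∧
      ∀ j (p : ℕ), p.Prime → ∀ i, ∃ k, ‖α j p k‖ = ‖α j p i‖⁻¹ := by
  obtain ⟨C1, hB⟩ := hBr (N + 2)
  obtain ⟨C2, hN⟩ := hN (N + 2)
  refine ⟨max C1 (2 * C2), fun T U hT hU ν ι φ μ α hφ hnp hμ hν => ?_⟩
  have h := fun j => hB (φ j) (μ j) (α j) (hφ j) T hT (hμ j)
  choose γ hγ using fun j => (h j).2.2.2
  refine ⟨γ, fun j => (h j).2.2.1, fun j m hm => ((hγ j).1 m hm).trans ?_, fun i j m hm => ?_,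
    fun j => ?_, fun i j hij => ?_, fun j p hp => ?_⟩
  · gcongr; exact le_max_left _ _
  · refine (hN _ _ _ _ _ _ (hφ i) (hφ j) T (2 * U) hT (by positivity) (hμ i) (hμ j) (fun l => ?_)
      _ _ (hγ i).2 (hγ j).2 m hm).trans ?_
    · have := norm_sub_le (μ i l - ν l) (μ j l - ν l)
      rw [sub_sub_sub_cancel_right] at this
      linarith [hν i l, hν j l]
    · rw [← mul_assoc, mul_comm C2]
      gcongr; exact le_max_right _ _
  · obtain ⟨f, hf, hf', h0⟩ := hV.init _ _ (h j).1.aut.cont (h j).1.ne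
    exact ⟨_, h0, hV.convV _ _ _ (h j).1.aut (h j).1.cusp (h j).1.hk (h j).1.l2 f hf hf',
      hV.convC _ _ _ (h j).2.1 (hγ j).2 f hf hf'⟩
  · by_contra hcon
    push Not at hcon
    have hF : Form (α i) fun g : G (N + 2) => φ j g.val :=
      ⟨(h j).1.aut, (h j).1.cusp, fun q hq r hr g => by
        rw [hcon q hq _ (Nat.sub_le _ _)]; exact (h j).1.hk q hq r hr g,
        (h j).1.l2, (h j).1.ne, (h j).1.sph⟩
    obtain ⟨c, hc⟩ := hMu (N + 1) (by omega) (α i) _ _ (h i).2.2.1 (h i).1 hF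
    refine hnp i j hij ⟨c, fun g hg => ?_⟩
    have := congrFun hc (mkG g)
    simpa [val_mkG hg] using this
  · exact hO.unit _ (α j) _ (h j).1.aut (h j).1.l2 (h j).1.ne (h j).1.hk (h j).2.2.1 p hp

/-- enlarging the parameters -/
lemma prm {T U T1 e : ℝ} (hU : 1 ≤ U) (hUT : U ≤ T) (h1 : 1 ≤ T1) (he : 0 < e) (he1 : e ≤ 1) :
    T1 ≤ T1 * T ∧ T ≤ T1 * T ∧ max U ((T1 * T) ^ e) ≤ T1 * T ∧ T1 ^ e ≤ max U ((T1 * T) ^ e) ∧
      max U ((T1 * T) ^ e) ≤ U * (T1 * T) ^ e := by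
  have hT : 1 ≤ T := hU.trans hUT
  have a1 : T1 ≤ T1 * T := le_mul_of_one_le_right (by linarith) hT
  have a2 : T ≤ T1 * T := le_mul_of_one_le_left (by linarith) h1
  have a3 : 1 ≤ (T1 * T) ^ e := Real.one_le_rpow (hT.trans a2) he.le
  refine ⟨a1, a2, max_le (hUT.trans a2) ?_, le_max_of_le_right (by gcongr), max_le ?_ ?_⟩
  · exact Real.rpow_le_self_of_one_le (hT.trans a2) he1
  · exact le_mul_of_one_le_right (by linarith) a3
  · exact le_mul_of_one_le_left (by linarith) hU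

lemma fin_pow {T U T1 e ε : ℝ} (D : ℝ) (k : ℕ) (a : ℝ) (hU : 1 ≤ U) (hUT : U ≤ T)
    (h1 : 1 ≤ T1) (he : 0 < e) (he1 : e ≤ 1) (hε : (k + a) * e ≤ ε) :
    max U ((T1 * T) ^ e) ^ k * (T1 * T) ^ (D + a * e) ≤ T1 ^ (D + ε) * (U ^ k * T ^ (D + ε)) := by
  obtain ⟨-, a2, -, -, a5⟩ := prm hU hUT h1 he he1
  have hT : 1 ≤ T := hU.trans hUT
  have h0 : 0 < T1 * T := by linarith
  calc _ ≤ (U * (T1 * T) ^ e) ^ k * (T1 * T) ^ (D + a * e) := by gcongr
    _ = U ^ k * (T1 * T) ^ (D + (k + a) * e) := by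
      rw [mul_pow, ← Real.rpow_natCast ((T1 * T) ^ e), ← Real.rpow_mul h0.le, mul_assoc,
        ← Real.rpow_add h0]
      congr 2; ring
    _ ≤ U ^ k * (T1 * T) ^ (D + ε) := by
      gcongr
      exact hT.trans a2
    _ = _ := by rw [Real.mul_rpow (by linarith) (by linarith)]; ring

lemma cast_D (N : ℕ) : ((DD (N + 1) : ℕ) : ℝ) = ((N + 2 : ℕ) : ℝ) * (((N + 2 : ℕ) : ℝ) - 1) / 2 := by
  rw [DD, Nat.cast_choose_two]

lemma le_of_root {Z T e : ℝ} (hZ : 0 ≤ Z) (he : 0 < e) (h : Z ^ e⁻¹ ≤ T) : Z ≤ T ^ e := by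
  rw [← Real.rpow_inv_rpow hZ he.ne']
  exact Real.rpow_le_rpow (by positivity) h he.le

end FinA

open FinA in
theorem finB (hN : NearStmt) (hJ : InjBStmt) (hc : CoreStmt) : FinalBStmt := by
  intro n hn ε hε
  obtain ⟨N, rfl⟩ : ∃ N, n = N + 2 := ⟨n - 2, by omega⟩
  obtain ⟨C0, hred⟩ := red hN N
  set e : ℝ := min 1 (ε / (N + 3)) with he
  have he0 : 0 < e := by positivity
  have he1 : e ≤ 1 := min_le_left _ _
  have he2 : (((N + 1 : ℕ) : ℝ) + 2) * e ≤ ε := by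
    have : e ≤ ε / (N + 3) := min_le_right _ _
    rw [le_div_iff₀ (by positivity)] at this
    push_cast; linarith
  obtain ⟨E, C, T0, hE, hC0, hT0, hcore⟩ := hc (N + 1) (by omega) C0 e he0
  obtain ⟨d0, c3, CI, hd0, hc3, hCI, hJ⟩ := hJ N e he0
  set T1 : ℝ := max (max T0 ((E / d0) ^ e⁻¹)) (E * max 1 c3⁻¹) with hT1
  have hT11 : 1 ≤ T1 := hT0.trans ((le_max_left _ _).trans (le_max_left _ _))
  set Cx : ℝ := max 1 (E ^ (N + 1) / c3) with hCx
  have hCx1 : 1 ≤ Cx := le_max_left _ _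
  set D : ℝ := (DD (N + 1) : ℝ) with hD
  refine ⟨Cx * (4 ^ (N + 1) * (N + 2) ^ 2 * (C * CI * E)) * T1 ^ (D + ε), ?_⟩
  intro p hp T U hU hUT ν ι _ φ μ α hφ hnp hμ hν
  have hp1 : (1 : ℝ) < p := by exact_mod_cast hp.one_lt
  have hp0 : (0 : ℝ) < p := by linarith
  have hT : 1 ≤ T := hU.trans hUT
  obtain ⟨a1, a2, a3, a4, -⟩ := prm hU hUT hT11 he0 he1
  have hfin := fin_pow D (N + 1) 2 hU hUT hT11 he0 he1 he2
  have a6 : U ≤ max U ((T1 * T) ^ e) := le_max_left _ _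
  have a7 : (T1 * T) ^ e ≤ max U ((T1 * T) ^ e) := le_max_right _ _
  generalize max U ((T1 * T) ^ e) = U' at *
  generalize T1 * T = T' at *
  have hT'1 : 1 ≤ T' := hT.trans a2
  have hU'1 : 1 ≤ U' := hU.trans a6
  obtain ⟨γ, hP, hG, hNr, hw, hne, hun⟩ := hred T' U' hT'1 (by linarith) ν ι φ μ α hφ hnp
    (fun j l => (hμ j l).trans a2) fun j l => (hν j l).trans a6
  obtain ⟨hb, hsum⟩ := hcore T' U' (((le_max_left _ _).trans (le_max_left _ _)).trans a1) a7 a3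
    ι α γ hP hG hNr hw hne
  have hSe : ∀ j q, ∃ S, q.Prime → IsSch (α j q) S := by
    intro j q
    by_cases hq : q.Prime
    · obtain ⟨S, h⟩ := schur.isSch (α j q) (hP j q hq)
      exact ⟨S, fun _ => h⟩
    · exact ⟨0, fun h => (hq h).elim⟩
  choose S hSs using hSe
  have hδ1 : T'⁻¹ ≤ E / U' := by
    rw [← one_div]; gcongr
  have hδ2 : E / U' ≤ d0 := by
    have := (le_of_root (by positivity) he0 ((le_max_right _ _).trans (le_max_left _ _))).trans a4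
    rw [div_le_iff₀ hd0] at this
    rw [div_le_iff₀ (by linarith)]; linarith
  set Xr := c3 * (T' / (E / U')) ^ (N + 1) with hX
  have hq : T' / (E / U') = T' * U' / E := by field_simp
  have hX1 : 1 ≤ Xr := by
    have h1 : max 1 c3⁻¹ ≤ T' / (E / U') := by
      rw [hq, le_div_iff₀ (by linarith), mul_comm]
      exact ((le_max_right _ _).trans a1).trans (le_mul_of_one_le_right (by linarith) hU'1)
    have h2 : T' / (E / U') ≤ (T' / (E / U')) ^ (N + 1) :=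
      le_self_pow₀ ((le_max_left _ _).trans h1) (by omega)
    calc (1 : ℝ) = c3 * c3⁻¹ := (mul_inv_cancel₀ hc3.ne').symm
      _ ≤ _ := mul_le_mul_of_nonneg_left (((le_max_right _ _).trans h1).trans h2) hc3.le
  obtain ⟨l, hl1, hl2⟩ := exists_nat_pow_near hX1 hp1
  have hterm : ∀ t, ∑ j, ‖S j p (Pi.single 0 (l - t))‖ ^ 2 ≤
      C * CI * E * (U' ^ (N + 1) * T' ^ (D + 2 * e)) := by
    intro t
    have h1 := hsum S hSs _ _ (by positivity) (hJ T' _ hT'1 hδ1 hδ2 ⟨p ^ (l - t), pow_pos hp.pos _⟩ (by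
      refine le_trans ?_ hl1
      simp only [PNat.mk_coe, Nat.cast_pow]
      exact pow_le_pow_right₀ hp1.le (by omega)))
    refine le_of_eq_of_le (Finset.sum_congr rfl fun j _ => ?_) (h1.trans (le_of_eq ?_))
    · rw [Main.mulf_m1 hp _ _ (by
        have : lam (0 : Fin (N + 1) → ℕ) = 0 := by ext i; simp [lam]
        simp only [this]; exact (hSs j p hp).1), Main.lam_single]
    · rw [show D + 2 * e = e + (D + e) by ring, Real.rpow_add (by linarith) e, pow_succ U' (N + 1)]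
      field_simp
  have hone : ∀ j, (T * U) ^ (2 * (((N + 2 : ℕ) : ℝ) - 1) * thetaP (α j) p) ≤
      Cx * p * (4 ^ (N + 1) * (p : ℝ) ^ (N + 1) * (((N + 1 : ℕ) : ℝ) + 1) *
        ∑ t ∈ Finset.range (min l (N + 1) + 1), ‖S j p (Pi.single 0 (l - t))‖ ^ 2) := by
    intro j
    obtain ⟨i, hi⟩ := Main.exists_big (α j) hp (hP j p hp) (hun j p hp) le_rfl
    have h0 : 0 ≤ thetaP (α j) p := Real.iSup_nonneg fun _ => abs_nonneg _
    generalize thetaP (α j) p = σ at *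
    have hσ2 : 2 * σ ≤ 1 := by
      have := hi.trans (hb j p hp i)
      rw [Real.sqrt_eq_rpow, Real.rpow_le_rpow_left_iff hp1] at this
      linarith
    refine le_trans ?_ (mul_le_mul_of_nonneg_left
      (Main.blomer (hSs j p hp) hp1.le (hb j p hp) hi l) (by positivity))
    have h1 : (T * U) ^ (N + 1) ≤ Cx * p * (p : ℝ) ^ l := by
      calc (T * U) ^ (N + 1) ≤ (T' * U') ^ (N + 1) := by gcongr
        _ = E ^ (N + 1) / c3 * Xr := by rw [hX, hq, div_pow]; field_simp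
        _ ≤ Cx * (p : ℝ) ^ (l + 1) := by gcongr; exact le_max_right _ _
        _ = _ := by ring
    have h2 : (T * U) ^ (2 * (((N + 2 : ℕ) : ℝ) - 1) * σ) = ((T * U) ^ (N + 1)) ^ (2 * σ) := by
      rw [← Real.rpow_natCast, ← Real.rpow_mul (by positivity)]; congr 1; push_cast; ring
    have h3 : (p : ℝ) ^ (2 * σ * l) = ((p : ℝ) ^ l) ^ (2 * σ) := by
      rw [← Real.rpow_natCast, ← Real.rpow_mul hp0.le]; congr 1; ring
    have h4 : 1 ≤ Cx * p := one_le_mul_of_one_le_of_one_le hCx1 hp1.le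
    rw [h2, h3]
    calc ((T * U) ^ (N + 1)) ^ (2 * σ) ≤ (Cx * p * (p : ℝ) ^ l) ^ (2 * σ) := by gcongr
      _ = (Cx * p) ^ (2 * σ) * ((p : ℝ) ^ l) ^ (2 * σ) :=
        Real.mul_rpow (by positivity) (by positivity)
      _ ≤ (Cx * p) ^ (1 : ℝ) * ((p : ℝ) ^ l) ^ (2 * σ) := by gcongr
      _ = _ := by rw [Real.rpow_one]
  refine (Finset.sum_le_sum fun j _ => hone j).trans ?_
  rw [← Finset.mul_sum, ← Finset.mul_sum, Finset.sum_comm, ← cast_D, ← hD]
  have h5 : ∑ t ∈ Finset.range (min l (N + 1) + 1), ∑ j, ‖S j p (Pi.single 0 (l - t))‖ ^ 2 ≤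
      (N + 2) * (C * CI * E * (T1 ^ (D + ε) * (U ^ (N + 1) * T ^ (D + ε)))) := by
    refine (Finset.sum_le_sum fun t _ => (hterm t).trans
      (mul_le_mul_of_nonneg_left hfin (by positivity))).trans ?_
    rw [Finset.sum_const, Finset.card_range, nsmul_eq_mul]
    gcongr
    have : min l (N + 1) + 1 ≤ N + 2 := by omega
    exact_mod_cast this
  refine (mul_le_mul_of_nonneg_left (mul_le_mul_of_nonneg_left h5 (by positivity))
    (by positivity)).trans (le_of_eq ?_)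
  rw [show N + 2 - 1 = N + 1 from rfl]
  push_cast; ring

end SW

end Pool.Agent.Lib.MP_fa98d2_nt.D
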