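import Pool.Agent.Lib.MP_fa98d2_nt.W.Base

/-!
Short-window density theorem for cusp forms on PGL(n): statements of the modules.
Paper proof `dw_PROOF.md`, hints `dw_PLAN.md` in the team store.
-/

open MeasureTheory Filter Topology Matrix
open scoped ENNReal Real ContDiff ComplexConjugate InnerProductSpace

noncomputable section

namespace Pool.Agent.Lib.MP_fa98d2_nt.D

namespace SW

variable {N : ℕ}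

/-! ### Algebra -/

/-- a word in the mirabolic subalgebra -/
def PW (l : Wd N) : Prop := ∀ y ∈ l, y.1 ≠ Fin.last N

/-- admissible indices of Gelfand invariants -/
def PM (N : ℕ) (ms : List ℕ) : Prop := ∀ m ∈ ms, 1 ≤ m ∧ m ≤ N + 1

/-- polynomial functions on the dual of `gl_(N+1)` -/
abbrev PP (N : ℕ) : Type := MvPolynomial (Fin (N + 1) × Fin (N + 1)) ℂ

/-- the generic matrix -/
def XM (N : ℕ) : Matrix (Fin (N + 1)) (Fin (N + 1)) (PP N) :=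
  Matrix.of fun a b => MvPolynomial.X (a, b)

/-- the part of degree `k` of the algebra generated by the invariants and the mirabolic letters -/
def SS (N k : ℕ) : Submodule ℂ (PP N) :=
  Submodule.span ℂ {q | ∃ (ms : List ℕ) (u : Wd N), PM N ms ∧ PW u ∧ ms.sum + u.length = k ∧
    q = (ms.map fun m => (XM N ^ m).trace).prod * (u.map MvPolynomial.X).prod}

def SymStmt : Prop :=
  ∀ (N : ℕ) (i : Fin (N + 1)),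
    Kappa.kap (fun a b : Fin (N + 1) => (MvPolynomial.X (a, b) : PP N)) *
      MvPolynomial.X (Fin.last N, i) ∈ SS N (DD N + 1)

/-- a combination of products of Gelfand invariants and words -/
def gcomb {M : Type} [AddCommGroup M] [Module ℂ M]
    (e : Fin (N + 1) → Fin (N + 1) → Module.End ℂ M) (z : List (ℂ × List ℕ × Wd N)) :
    Module.End ℂ M := (z.map fun x => x.1 • ((x.2.1.map (egel e)).prod * ew e x.2.2)).sum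

def AlgStmt : Prop :=
  ∀ (N : ℕ) (i : Fin (N + 1)), ∃ (z : List (ℂ × List ℕ × Wd N)) (low : List (ℂ × Wd N)),
    (∀ x ∈ z, PM N x.2.1 ∧ PW x.2.2 ∧ x.2.1.sum + x.2.2.length = DD N + 1) ∧
    (∀ x ∈ low, x.2.length ≤ DD N) ∧
    ∀ (M : Type) [AddCommGroup M] [Module ℂ M] (e : Fin (N + 1) → Fin (N + 1) → Module.End ℂ M),
      Comm 1 e → Kappa.kap e * e (Fin.last N) i = gcomb e z + ecomb e low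

/-- two central characters at distance `U` -/
def Near (n : ℕ) (C0 T U : ℝ) (γ γ' : ℕ → ℂ) : Prop :=
  ∀ m, m ≤ n → ‖γ m - γ' m‖ ≤ C0 * U * T ^ (m - 1)

def NearStmt : Prop :=
  ∀ n : ℕ, ∃ C0 : ℝ, ∀ (φ φ' : Mat n → ℂ) (μ μ' : Fin n → ℂ) (α α' : ℕ → Fin n → ℂ),
    SphCusp φ μ α → SphCusp φ' μ' α' → ∀ T U : ℝ, 1 ≤ T → 0 ≤ U → (∀ i, ‖μ i‖ ≤ T) →
    (∀ i, ‖μ' i‖ ≤ T) → (∀ i, ‖μ i - μ' i‖ ≤ U) → ∀ γ γ' : ℕ → ℂ,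
    Cen γ (fun g : G n => φ g.val) → Cen γ' (fun g : G n => φ' g.val) → Near n C0 T U γ γ'

/-! ### Calculus in the Kirillov models -/

/-- the defect of skew symmetry of a letter between two models -/
def dd (d d0 : Dat N) (a b : Fin (N + 1)) (f : d.V) (g : d0.V) : ℂ :=
  ⟪d0.K g, d.K (d.e a b f)⟫_ℂ + ⟪d0.K (d0.e a b g), d.K f⟫_ℂ

/-- the last basis vector -/
def el (N : ℕ) : Fin (N + 1) → ℝ := Pi.single (Fin.last N) 1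

structure KirStmt : Prop where
  skew : ∀ (N : ℕ) (d : Dat N) (a b : Fin (N + 1)) (f g : d.V), dd d d a b f g = 0
  cross : ∀ (N : ℕ) (d d0 : Dat N) (a b : Fin (N + 1)), a ≠ Fin.last N →
    ∀ (f : d.V) (g : d0.V), dd d d0 a b f g = 0
  duh : ∀ (N : ℕ) (d d0 : Dat N) (f : d.V) (g : d0.V) (r Bd : ℝ), r ≤ 1 / 2 →
    (∀ ρ ∈ Metric.ball (el N) r, ∀ i,
      ‖dd d d0 (Fin.last N) i (d.rho (sr ρ) f) (d0.rho (sr ρ) g)‖ ≤ Bd) →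
    ∀ ρ ∈ Metric.ball (el N) r,
      ‖⟪d0.K (d0.rho (sr ρ) g), d.K (d.rho (sr ρ) f)⟫_ℂ - ⟪d0.K g, d.K f⟫_ℂ‖ ≤
        2 * (N + 1) * r * Bd

/-- Sobolev bounds at scale `T` -/
def Dat.Sb (d : Dat N) (T a : ℝ) (J : ℕ) (w : d.V) : Prop :=
  ∀ l : Wd N, l.length ≤ J → ‖d.K (ew d.e l w)‖ ≤ a * T ^ l.length

/-- an operator that acts on Kirillov functions as multiplication by `q (a_T⁻¹ h)` -/
structure Mop (N : ℕ) where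
  deg : ℕ
  z : List (ℂ × Wd N)
  c : ℂ
  q : G N → ℝ
  len : ∀ x ∈ z, x.2.length = deg
  sm : Sm fun h => (q h : ℂ)
  one : q 1 = 0
  pt : ∀ (d : Dat N) (T : ℝ), 0 < T → ∀ (w : d.V) (h : G N),
    d.W ((c • (1 : Module.End ℂ d.V) + (T : ℂ)⁻¹ ^ deg • ecomb d.e z) w) (up (dg (tT N T) * h)) =
      q h * d.W w (up (dg (tT N T) * h))

/-- the operator -/
def Mop.op (P : Mop N) (d : Dat N) (T : ℝ) : Module.End ℂ d.V :=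
  P.c • (1 : Module.End ℂ d.V) + (T : ℂ)⁻¹ ^ P.deg • ecomb d.e P.z

/-- the minor with rows `≥ j` and columns `i` and `> j` -/
def mn (j i : Fin N) (h : Mat N) : ℝ :=
  (Matrix.of fun k l : Fin N =>
    if k < j then (if k = l then 1 else 0) else h k (if l = j then i else l)).det

structure ExStmt : Prop where
  exB : ∀ N : ℕ, ∃ P : Mop N, P.deg = DD N ∧ ∀ (d : Dat N) (T : ℝ), 0 < T → P.op d T = d.B T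
  exQ : ∀ (N : ℕ) (j i : Fin N), i ≤ j → ∃ P : Mop N,
    ∀ h : G N, P.q h = (if i = j then 1 else 0) - mn j i h.val

structure MulStmt : Prop where
  adj : ∀ (N : ℕ) (P : Mop N) (d d0 : Dat N) (T : ℝ), 0 < T → ∀ (f : d.V) (g : d0.V),
    ⟪d0.K (P.op d0 T g), d.K f⟫_ℂ = ⟪d0.K g, d.K (P.op d T f)⟫_ℂ
  lip : ∀ (N : ℕ) (l : Wd N), ∃ C : ℝ, 0 ≤ C ∧ ∀ δ : ℝ, Loc3.Ok (N + 1) δ →
    ∀ x ∈ Bl (N + 1) δ, ∃ z : List (ℂ × Wd N), (∀ y ∈ z, y.2.length = l.length) ∧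
      (z.map fun y => ‖y.1‖).sum ≤ C * δ ∧
      ∀ d : Dat N, d.rho x * ew d.e l = (ew d.e l + ecomb d.e z) * d.rho x
  tr : ∀ N J : ℕ, ∃ C : ℝ, 0 < C ∧ ∀ δ : ℝ, Loc3.Ok (N + 1) (2 * δ) → ∀ u ∈ Bl (N + 1) δ,
    ∀ (d : Dat N) (T a : ℝ) (w : d.V), 0 ≤ T → d.Sb T a J w → d.Sb T (C * a) J (d.rho u w)
  /-- a multiplier costs no power of `T` -/
  sb : ∀ (N : ℕ) (P : Mop N) (J : ℕ), ∃ C : ℝ, 0 < C ∧ ∀ (d : Dat N) (T a : ℝ) (w : d.V), 1 ≤ T →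
    d.Sb T a (J + P.deg) w → d.Sb T (C * a) J (P.op d T w)

def DefStmt : Prop :=
  ∀ (N M : ℕ) (C0 : ℝ), ∃ C : ℝ, 0 ≤ C ∧ ∀ T U : ℝ, 1 ≤ U → U ≤ T → ∀ d d0 : Dat N,
    Gam (N + 1) C0 T d.γ → Gam (N + 1) C0 T d0.γ → Near (N + 1) C0 T U d.γ d0.γ →
    ∀ (f : d.V) (g : d0.V) (a a2 : ℝ), d.Sb T a (DD N * (M + 1) + 1) f →
      d0.Sb T a (DD N * (M + 1) + 1) g → d0.Sb T a2 1 ((d0.B T ^ M) g) →
      ∀ i, ‖dd d d0 (Fin.last N) i f g‖ ≤ C * U * a ^ 2 + 2 * T * a * a2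

/-! ### Test vectors -/

/-- the bump of total mass one -/
def nf (N : ℕ) (δ : ℝ) : G (N + 1) → ℂ := (((Loc3.It (N + 1) δ)⁻¹ : ℝ) : ℂ) • tf δ

lemma nf_sm {δ : ℝ} (h : Loc3.Ok (N + 1) δ) : Sm (nf N δ) := hC.smul _ _ _ (Loc3.tf_sm hL h)

lemma nf_cs {δ : ℝ} (h : Loc3.Ok (N + 1) δ) : HasCompactSupport (nf N δ) :=
  (Loc3.tf_cs hL h).smul_left (f := fun _ => (((Loc3.It (N + 1) δ)⁻¹ : ℝ) : ℂ))

open Classical in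
/-- the average over a ball of radius `δ` -/
def Dat.av (d : Dat N) (δ : ℝ) (w : d.V) : d.V :=
  if h : Loc3.Ok (N + 1) δ then d.cv (nf N δ) (nf_sm h) (nf_cs h) w else 0

lemma Dat.av_val (d : Dat N) {δ : ℝ} (h : Loc3.Ok (N + 1) δ) (w : d.V) :
    (d.av δ w : G (N + 1) → ℂ) = conv (nf N δ) w := by
  rw [Dat.av, dif_pos h]; rfl

structure CvStmt : Prop where
  sub : ∀ (N : ℕ) (d : Dat N) (δ : ℝ) (w y : d.V), d.av δ (w - y) = d.av δ w - d.av δ y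
  le : ∀ (N : ℕ) (d : Dat N) (δ : ℝ) (w : d.V), ‖d.K (d.av δ w)‖ ≤ ‖d.K w‖
  sob : ∀ (N J : ℕ) (c2 : ℝ), Loc3.Ok (N + 1) c2 → ∃ C : ℝ, 0 < C ∧ ∀ T : ℝ, 1 ≤ T →
    ∀ (d : Dat N) (w : d.V), d.Sb T (C * ‖d.K w‖) J (d.av (c2 / T) w)
  weak : ∀ (N : ℕ) (d : Dat N) (δ : ℝ), Loc3.Ok (N + 1) δ → ∀ (w : d.V) (h : HK N) (z : ℂ) (B : ℝ),
    (∀ x ∈ Bl (N + 1) δ, ‖⟪h, d.K (d.rho x w)⟫_ℂ - z‖ ≤ B) → ‖⟪h, d.K (d.av δ w)⟫_ℂ - z‖ ≤ B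
  near : ∀ (N : ℕ) (C0 e3 : ℝ), 0 < e3 → ∃ c2 e2 : ℝ, Loc3.Ok (N + 1) (8 * c2) ∧ 0 < e2 ∧
    ∀ (T : ℝ) (hT : 1 ≤ T) (d : Dat N), Gam (N + 1) C0 T d.γ → ∀ w : d.V,
      ‖d.K w - bet N hT‖ ≤ e2 * ‖bet N hT‖ →
      ‖d.K (d.av (c2 / T) w) - bet N hT‖ ≤ e3 * ‖bet N hT‖

/-- a class of functionals, graded by a number of derivatives and a size -/
structure Cls (N : ℕ) (C0 : ℝ) (K1 : ℕ)
    (Fn : ℝ → ∀ d : Dat N, ℕ → ℝ → (d.V →ₗ[ℂ] ℂ) → Prop) : Prop where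
  nonneg : ∀ T d J A L, Fn T d J A L → 0 ≤ A
  mono : ∀ T, 1 ≤ T → ∀ d J J' A A' L, J ≤ J' → A' ≤ A → Fn T d J' A' L → Fn T d J A L
  zero : ∀ T d J, Fn T d J 0 0
  add : ∀ T d J A A' L L', Fn T d J A L → Fn T d J A' L' → Fn T d J (A + A') (L + L')
  smul : ∀ T d J A L (c : ℂ), Fn T d J A L → Fn T d J (‖c‖ * A) (c • L)
  init : ∀ J, ∃ C : ℝ, ∀ (T : ℝ) (hT : 1 ≤ T) d, Fn T d J C (innerₛₗ ℂ (bet N hT) ∘ₗ d.K)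
  der : ∀ J, ∃ C : ℝ, 0 < C ∧ ∀ T : ℝ, 1 ≤ T → ∀ d : Dat N, Gam (N + 1) C0 T d.γ →
    ∀ A L a b, Fn T d (J + K1) A L → Fn T d J (C * T * A) (L ∘ₗ d.e a b)
  mul : ∀ (P : Mop N) J, ∃ C : ℝ, 0 < C ∧ ∀ T : ℝ, 1 ≤ T → ∀ d A L, Fn T d J A L →
    Fn T d J (C * T⁻¹ * A) (L ∘ₗ P.op d T)
  bd : ∃ C : ℝ, 0 < C ∧ ∀ (T : ℝ) (hT : 1 ≤ T) d A L, Fn T d 0 A L →
    ∀ w, ‖L w‖ ≤ C * A * ‖bet N hT‖ * ‖d.K w‖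

def ClsStmt : Prop := ∀ (N : ℕ) (C0 : ℝ), ∃ K1 Fn, Cls N C0 K1 Fn

def VecStmt : Prop :=
  ∀ (N M : ℕ) (P : Mop N) (C0 c2 : ℝ), Loc3.Ok (N + 1) (8 * c2) → ∃ C : ℝ, 0 < C ∧
    ∀ (T : ℝ) (hT : 1 ≤ T) (d : Dat N), Gam (N + 1) C0 T d.γ → (∃ w : d.V, w ≠ 0) →
    ∀ w : d.V, ‖d.K w - bet N hT‖ ≤ T⁻¹ ^ M * ‖bet N hT‖ →
    ∀ r : ℝ, Loc3.Ok (N + 1) (8 * r) → ∀ u ∈ Bl (N + 1) r, ∀ k, k ≤ M →
      d.Sb T (C * (r + T⁻¹) ^ k * ‖bet N hT‖) 1 ((P.op d T ^ k) (d.rho u (d.av (c2 / T) w)))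

/-! ### Localisation -/

/-- the points of the quotient within `δ` of the base point -/
def Nb (N : ℕ) (T δ : ℝ) : Set (X N) := {x | sg N x ∈ Om (dg (tT N T)) δ}

lemma measurableSet_Nb (T δ : ℝ) : MeasurableSet (Nb N T δ) :=
  measurable_sg N (hL.opn N _ δ).2.measurableSet

def MassStmt : Prop :=
  ∀ N : ℕ, ∃ (Ps : List (Mop N)) (C η0 : ℝ), 0 < C ∧ 0 < η0 ∧ ∀ T : ℝ, 1 ≤ T →
    ∀ (d : Dat N) (v : d.V) (η b : ℝ), 0 < η → η ≤ η0 →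
    (∀ P ∈ Ps, ‖d.K (P.op d T v)‖ ≤ η * b) →
    ∫⁻ x in (Nb N T (C * η))ᶜ, ‖d.W v (up (sg N x))‖ₑ ^ 2 ∂mX N ≤ ENNReal.ofReal (b ^ 2 / 100)

def LowStmt : Prop :=
  ∀ (N : ℕ) (C0 e1 : ℝ), 0 < e1 → ∃ c E T0 : ℝ, 0 < c ∧ 0 < E ∧ 1 ≤ T0 ∧ ∀ T U : ℝ, T0 ≤ T →
    T ^ e1 ≤ U → U ≤ T → ∃ b : ℝ, 0 < b ∧ ∀ d0 : Dat N, Gam (N + 1) C0 T d0.γ →
    (∃ w : d0.V, w ≠ 0) → ∃ g : d0.V, ‖d0.K g‖ ^ 2 ≤ 2 * b ∧ ∀ d : Dat N,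
      Gam (N + 1) C0 T d.γ → Near (N + 1) C0 T U d.γ d0.γ → (∃ w : d.V, w ≠ 0) →
      ∃ w : d.V, ‖d.K w‖ ^ 2 ≤ 2 * b ∧ ∀ ρ ∈ Metric.ball (el N) (c / U),
        b / 2 ≤ (∫ x in Nb N T (E / U),
          d.W w (up (sg N x) * sr ρ) * conj (d0.W g (up (sg N x) * sr ρ)) ∂mX N).re

/-- the localised Bessel inequality for the tuple `m` with constant `K` -/
def Bes (N : ℕ) (T δ K : ℝ) (m : Fin N → ℕ+) : Prop :=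
  ∀ F : G (N + 1) → ℂ, Aut F →
    ENNReal.ofReal (dl (tm m)) * II (N + 1) (fun g =>
      (Om (up (dg (tT N T))) δ).indicator 1 g * ‖Wf (zm m) F ((dg (tm m))⁻¹ * g)‖ₑ ^ 2) ≤
      ENNReal.ofReal K * N2 F

/-- all tuples, diagonal range -/
def InjWStmt : Prop :=
  ∀ N : ℕ, ∃ d0 C : ℝ, 0 < d0 ∧ 0 < C ∧ ∀ T δ : ℝ, 1 ≤ T → 0 < δ → δ ≤ d0 →
    ∀ m : Fin N → ℕ+, (∀ i : Fin N, 6 * δ * tm m i.castSucc ≤ tT N T i) → Bes N T δ (C * δ) m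

/-- the tuple `(m, 1, ..., 1)`, beyond the diagonal range -/
def InjBStmt : Prop :=
  ∀ (N : ℕ) (ε : ℝ), 0 < ε → ∃ d0 c3 C : ℝ, 0 < d0 ∧ 0 < c3 ∧ 0 < C ∧ ∀ T δ : ℝ, 1 ≤ T →
    T⁻¹ ≤ δ → δ ≤ d0 → ∀ m : ℕ+, ((m : ℕ) : ℝ) ≤ c3 * (T / δ) ^ (N + 1) →
      Bes (N + 1) T δ (C * δ * T ^ ε) (m1 N m)

/-! ### Schur functions -/

/-- the partition used in the amplifier -/
def lw (N L L0 : ℕ) (i : Fin (N + 1)) : ℕ :=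
  if i = Fin.last N then 0 else (N - 1 - i.val) * L + L0

structure SchWStmt : Prop where
  sch : ∀ (N : ℕ) (α : Fin (N + 1) → ℂ), ∏ i, α i = 1 → ∀ σ : Equiv.Perm (Fin (N + 1)),
    ∃ S, IsSch α S ∧ ∀ B : ℝ, 0 ≤ B → (∀ i, ‖α i‖ ≤ B) → ∀ l : Fin (N + 1) → ℕ,
      (∀ i, i.rev.val ≤ l i) → ∏ i, ‖α (σ i)‖ ^ l i ≤ (1 + B) ^ DD N *
        ∑ t ∈ Fintype.piFinset fun i : Fin (N + 1) => Finset.range (i.rev.val + 1), ‖S (l - t)‖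
  wt : ∀ (N : ℕ) (α : ℕ → Fin (N + 1) → ℂ) (p : ℕ), p.Prime → ∏ i, α p i = 1 →
    (∀ i, ∃ j, ‖α p j‖ = ‖α p i‖⁻¹) → (∀ i, ‖α p i‖ ≤ Real.sqrt p) →
    0 ≤ thetaP α p ∧ 2 * thetaP α p ≤ 1 ∧ 0 ≤ etaP α p ∧ etaP α p ≤ DD N ∧
    ∃ σ : Equiv.Perm (Fin (N + 1)), ∀ L L0 : ℕ, L ≤ L0 →
      (p : ℝ) ^ (L * etaP α p + 2 * ((L0 : ℝ) - L) * thetaP α p) ≤
        (∏ i, ‖α p (σ i)‖ ^ lw N L L0 i) ^ 2

/-! ### The main statements -/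

/-- mean square bound for the coefficients in a short window -/
def CoreStmt : Prop :=
  ∀ N : ℕ, 1 ≤ N → ∀ C0 ε : ℝ, 0 < ε → ∃ E C T0 : ℝ, 1 ≤ E ∧ 0 < C ∧ 1 ≤ T0 ∧
    ∀ T U : ℝ, T0 ≤ T → T ^ ε ≤ U → U ≤ T →
    ∀ (ι : Type) [Fintype ι] (α : ι → ℕ → Fin (N + 1) → ℂ) (γ : ι → ℕ → ℂ),
      (∀ j, Pr1 (α j)) → (∀ j, Gam (N + 1) C0 T (γ j)) →
      (∀ i j, Near (N + 1) C0 T U (γ i) (γ j)) →
      (∀ j, ∃ w, w ≠ 0 ∧ InV (α j) w ∧ Cen (γ j) w) →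
      (∀ i j, i ≠ j → ∃ q : ℕ, q.Prime ∧ ∃ r, r ≤ N + 1 ∧ esy (α i q) r ≠ esy (α j q) r) →
      (∀ j q, q.Prime → ∀ i, ‖α j q i‖ ≤ Real.sqrt q) ∧
      ∀ S : ι → ℕ → (Fin (N + 1) → ℕ) → ℂ, (∀ j q, q.Prime → IsSch (α j q) (S j q)) →
      ∀ (m : Fin N → ℕ+) (K : ℝ), 0 ≤ K → Bes N T (E / U) K m →
        ∑ j, ‖mulf (fun q e => S j q (lam e)) m‖ ^ 2 ≤
          C * K * U ^ (N + 1) * T ^ ((DD N : ℝ) + ε)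

/-- short windows, beyond the diagonal range -/
def FinalBStmt : Prop :=
  ∀ n : ℕ, 2 ≤ n → ∀ ε : ℝ, 0 < ε → ∃ C : ℝ, ∀ p : ℕ, p.Prime → ∀ T U : ℝ, 1 ≤ U → U ≤ T →
    ∀ (ν : Fin n → ℂ) (ι : Type) [Fintype ι] (φ : ι → Mat n → ℂ) (μ : ι → Fin n → ℂ)
      (α : ι → ℕ → Fin n → ℂ), (∀ j, SphCusp (φ j) (μ j) (α j)) →
      (∀ i j, i ≠ j → ¬ ∃ c : ℂ, ∀ g : Mat n, g.det ≠ 0 → φ j g = c * φ i g) →
      (∀ j l, ‖μ j l‖ ≤ T) → (∀ j l, ‖μ j l - ν l‖ ≤ U) →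
      ∑ j, (T * U) ^ (2 * ((n : ℝ) - 1) * thetaP (α j) p) ≤
        C * (p : ℝ) ^ n * U ^ (n - 1) * T ^ ((n : ℝ) * (n - 1) / 2 + ε)

/-- short windows, all Satake parameters -/
def FinalWStmt : Prop :=
  ∀ n : ℕ, 2 ≤ n → ∀ ε : ℝ, 0 < ε → ∃ C : ℝ, ∀ p : ℕ, p.Prime → ∀ T U : ℝ, 1 ≤ U → U ≤ T →
    ∀ (ν : Fin n → ℂ) (ι : Type) [Fintype ι] (φ : ι → Mat n → ℂ) (μ : ι → Fin n → ℂ)
      (α : ι → ℕ → Fin n → ℂ), (∀ j, SphCusp (φ j) (μ j) (α j)) →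
      (∀ i j, i ≠ j → ¬ ∃ c : ℂ, ∀ g : Mat n, g.det ≠ 0 → φ j g = c * φ i g) →
      (∀ j l, ‖μ j l‖ ≤ T) → (∀ j l, ‖μ j l - ν l‖ ≤ U) →
      ∑ j, U ^ (2 * thetaP (α j) p) * T ^ etaP (α j) p ≤
        C * (p : ℝ) ^ (n ^ 3) * U ^ (n - 1) * T ^ ((n : ℝ) * (n - 1) / 2 + ε)

end SW

end Pool.Agent.Lib.MP_fa98d2_nt.D
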