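import Pool.Agent.Lib.MP_fa98d2_nt.W.Def

/-! Short-window density theorem: the test vectors are localised. -/

open MeasureTheory Filter Topology Matrix
open scoped ENNReal Real ContDiff ComplexConjugate InnerProductSpace

noncomputable section

namespace Pool.Agent.Lib.MP_fa98d2_nt.D

namespace SW

namespace VecA

variable {N : ℕ} {C0 : ℝ} {K1 : ℕ} {Fn : ℝ → ∀ d : Dat N, ℕ → ℝ → (d.V →ₗ[ℂ] ℂ) → Prop}

lemma word (h : Cls N C0 K1 Fn) (n J : ℕ) : ∃ C : ℝ, 0 < C ∧ ∀ T : ℝ, 1 ≤ T → ∀ d : Dat N,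
    Gam (N + 1) C0 T d.γ → ∀ A L (l : Wd N), l.length = n → Fn T d (J + K1 * n) A L →
      Fn T d J (C * T ^ n * A) (L ∘ₗ ew d.e l) := by
  induction n with
  | zero =>
    refine ⟨1, one_pos, fun T _ d _ A L l hl hF => ?_⟩
    rw [List.length_eq_zero_iff.1 hl]
    simpa [Module.End.one_eq_id] using hF
  | succ n ih =>
    obtain ⟨C, hC, h1⟩ := ih
    obtain ⟨C', hC', h2⟩ := h.der (J + K1 * n)
    refine ⟨C * C', by positivity, fun T hT d hd A L l hl hF => ?_⟩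
    obtain _ | ⟨y, l⟩ := l
    · simp at hl
    · have := h1 T hT d hd _ _ l (by simpa using hl)
        (h2 T hT d hd A L y.1 y.2 (by rwa [add_assoc, ← Nat.mul_succ]))
      rw [Kappa.ew_cons, Module.End.mul_eq_comp, ← LinearMap.comp_assoc]
      convert this using 1
      ring

lemma comb (h : Cls N C0 K1 Fn) {T : ℝ} {d : Dat N} {J n : ℕ} {B : ℝ} {L : d.V →ₗ[ℂ] ℂ}
    (hw : ∀ l : Wd N, l.length = n → Fn T d J B (L ∘ₗ ew d.e l)) (z : List (ℂ × Wd N))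
    (hz : ∀ y ∈ z, y.2.length = n) :
    Fn T d J ((z.map fun y => ‖y.1‖).sum * B) (L ∘ₗ ecomb d.e z) := by
  induction z with
  | nil => simpa [ecomb] using h.zero T d J
  | cons y z ih =>
    have := h.add _ _ _ _ _ _ _ (h.smul _ _ _ _ _ y.1 (hw y.2 (hz y List.mem_cons_self)))
      (ih fun y hy => hz y (List.mem_cons_of_mem _ hy))
    convert this using 1
    · simp [add_mul]
    · simp [ecomb, LinearMap.comp_add, LinearMap.comp_smul]

/-- conjugation of a combination of words -/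
lemma lipz (hM : MulStmt) (n : ℕ) (z : List (ℂ × Wd N)) (hz : ∀ y ∈ z, y.2.length = n) :
    ∃ C : ℝ, 0 ≤ C ∧ ∀ δ : ℝ, Loc3.Ok (N + 1) δ → ∀ x ∈ Bl (N + 1) δ,
      ∃ z' : List (ℂ × Wd N), (∀ y ∈ z', y.2.length = n) ∧ (z'.map fun y => ‖y.1‖).sum ≤ C * δ ∧
        ∀ d : Dat N, d.rho x * ecomb d.e z = (ecomb d.e z + ecomb d.e z') * d.rho x := by
  induction z with
  | nil => exact ⟨0, le_rfl, fun δ _ x _ => ⟨[], by simp, by simp, fun d => by simp [ecomb]⟩⟩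
  | cons y z ih =>
    obtain ⟨C, hC, h1⟩ := ih fun y hy => hz y (List.mem_cons_of_mem _ hy)
    obtain ⟨C', hC', h2⟩ := hM.lip N y.2
    refine ⟨‖y.1‖ * C' + C, by positivity, fun δ hδ x hx => ?_⟩
    obtain ⟨z1, a1, a2, a3⟩ := h1 δ hδ x hx
    obtain ⟨z2, b1, b2, b3⟩ := h2 δ hδ x hx
    refine ⟨(z2.map fun t => (y.1 * t.1, t.2)) ++ z1, fun t ht => ?_, ?_, fun d => ?_⟩
    · rcases List.mem_append.1 ht with ht | ht
      · obtain ⟨t, ht', rfl⟩ := List.mem_map.1 ht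
        exact (b1 t ht').trans (hz y List.mem_cons_self)
      · exact a1 t ht
    · rw [List.map_append, List.sum_append, List.map_map]
      simp only [Function.comp_def, norm_mul, List.sum_map_mul_left]
      calc _ ≤ ‖y.1‖ * (C' * δ) + C * δ := by gcongr
        _ = _ := by ring
    · have e1 : ecomb d.e (z2.map fun t => (y.1 * t.1, t.2)) = y.1 • ecomb d.e z2 := by
        simp only [ecomb, List.map_map, Function.comp_def, List.smul_sum, mul_smul]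
      have e2 : ecomb d.e (y :: z) = y.1 • ew d.e y.2 + ecomb d.e z := by simp [ecomb]
      rw [Kappa.ecomb_append, e1, e2, mul_add, a3, mul_smul_comm, b3]
      simp only [add_mul, smul_add, smul_mul_assoc]
      abel

/-- one factor costs `δ + 1 / T` -/
lemma step (h : Cls N C0 K1 Fn) (hM : MulStmt) (P : Mop N) (J : ℕ) : ∃ C : ℝ, 0 < C ∧
    ∀ T : ℝ, 1 ≤ T → ∀ d : Dat N, Gam (N + 1) C0 T d.γ → ∀ δ : ℝ, Loc3.Ok (N + 1) δ →
    ∀ x ∈ Bl (N + 1) δ, ∀ A L, Fn T d (J + K1 * P.deg) A L → ∃ L', Fn T d J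
      (C * (δ + T⁻¹) * A) L' ∧ ∀ v, L (d.rho x (P.op d T v)) = L' (d.rho x v) := by
  obtain ⟨C1, hC1, h1⟩ := h.mul P J
  obtain ⟨C2, hC2, h2⟩ := word h P.deg J
  obtain ⟨C3, hC3, h3⟩ := lipz hM P.deg P.z P.len
  refine ⟨C1 + C3 * C2, by positivity, fun T hT d hd δ hδ x hx A L hF => ?_⟩
  obtain ⟨z, a1, a2, a3⟩ := h3 δ hδ x hx
  have hA := h.nonneg _ _ _ _ _ hF
  have hT0 : 0 < T := by linarith
  have hδ0 := hδ.1
  refine ⟨_, h.mono T hT d J J _ _ _ le_rfl ?_ (h.add _ _ _ _ _ _ _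
    (h1 T hT d A L (h.mono T hT d _ _ _ _ _ (Nat.le_add_right _ _) le_rfl hF))
    (h.smul _ _ _ _ _ ((T : ℂ)⁻¹ ^ P.deg)
      (comb h (fun l hl => h2 T hT d hd A L l hl hF) z a1))), fun v => ?_⟩
  · rw [norm_pow, norm_inv, Complex.norm_real, Real.norm_of_nonneg hT0.le]
    calc _ ≤ C1 * T⁻¹ * A + T⁻¹ ^ P.deg * (C3 * δ * (C2 * T ^ P.deg * A)) := by gcongr
      _ = C1 * T⁻¹ * A + C3 * C2 * δ * A := by rw [inv_pow]; field_simp
      _ ≤ C1 * (δ + T⁻¹) * A + C3 * C2 * (δ + T⁻¹) * A := by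
        gcongr
        · linarith
        · linarith [inv_pos.2 hT0]
      _ = _ := by ring
  · have := congrArg (fun E : Module.End ℂ d.V => E v) (a3 d)
    simp only [Module.End.mul_apply, LinearMap.add_apply] at this
    simp only [Mop.op, LinearMap.add_apply, LinearMap.smul_apply, Module.End.one_apply, map_add,
      map_smul, this, LinearMap.comp_apply, smul_add, add_assoc]

lemma steps (h : Cls N C0 K1 Fn) (hM : MulStmt) (P : Mop N) (k J : ℕ) : ∃ C : ℝ, 0 < C ∧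
    ∀ T : ℝ, 1 ≤ T → ∀ d : Dat N, Gam (N + 1) C0 T d.γ → ∀ δ : ℝ, Loc3.Ok (N + 1) δ →
    ∀ x ∈ Bl (N + 1) δ, ∀ A L, Fn T d (J + K1 * P.deg * k) A L → ∃ L', Fn T d J
      (C * (δ + T⁻¹) ^ k * A) L' ∧ ∀ v, L (d.rho x ((P.op d T ^ k) v)) = L' (d.rho x v) := by
  induction k with
  | zero => exact ⟨1, one_pos, fun T _ d _ δ _ x _ A L hF => ⟨L, by simpa using hF, by simp⟩⟩
  | succ k ih =>
    obtain ⟨C, hC, h1⟩ := ih
    obtain ⟨C', hC', h2⟩ := step h hM P (J + K1 * P.deg * k)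
    refine ⟨C * C', by positivity, fun T hT d hd δ hδ x hx A L hF => ?_⟩
    obtain ⟨L1, a1, a2⟩ := h2 T hT d hd δ hδ x hx A L (by rwa [add_assoc, ← Nat.mul_succ])
    obtain ⟨L2, b1, b2⟩ := h1 T hT d hd δ hδ x hx _ L1 a1
    refine ⟨L2, by convert b1 using 1; ring, fun v => ?_⟩
    rw [pow_succ', Module.End.mul_apply, a2, b2]

/-- the bound for the functionals -/
lemma fnl (h : Cls N C0 K1 Fn) (hM : MulStmt) (P : Mop N) (k : ℕ) (l : Wd N) : ∃ C : ℝ, 0 < C ∧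
    ∀ (T : ℝ) (hT : 1 ≤ T) (d : Dat N), Gam (N + 1) C0 T d.γ → ∀ δ : ℝ, Loc3.Ok (N + 1) δ →
    ∀ x ∈ Bl (N + 1) δ, ∀ v, ‖⟪bet N hT, d.K (d.rho x ((P.op d T ^ k) (ew d.e l v)))⟫_ℂ‖ ≤
      C * (δ + T⁻¹) ^ k * T ^ l.length * ‖bet N hT‖ * ‖d.K v‖ := by
  obtain ⟨C1, hC1, h1⟩ := h.bd
  obtain ⟨C2, hC2, h2⟩ := word h l.length 0
  obtain ⟨C3, hC3, h3⟩ := hM.lip N l
  obtain ⟨C4, hC4, h4⟩ := steps h hM P k (0 + K1 * l.length)
  obtain ⟨C5, h5⟩ := h.init (0 + K1 * l.length + K1 * P.deg * k)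
  refine ⟨C1 * ((1 + C3) * C2 * C4 * (|C5| + 1)), by positivity, fun T hT d hd δ hδ x hx v => ?_⟩
  obtain ⟨L, a1, a2⟩ := h4 T hT d hd δ hδ x hx _ _ (h5 T hT d)
  obtain ⟨z, b1, b2, b3⟩ := h3 δ hδ x hx
  have hw := fun l' hl => h2 T hT d hd _ L l' hl a1
  have h6 := h1 T hT d _ _ (h.add _ _ _ _ _ _ _ (hw l rfl) (comb h hw z b1)) (d.rho x v)
  have e := congrArg (fun E : Module.End ℂ d.V => E v) (b3 d)
  simp only [Module.End.mul_apply] at e
  have e2 : ⟪bet N hT, d.K (d.rho x ((P.op d T ^ k) (ew d.e l v)))⟫_ℂ =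
      (L ∘ₗ ew d.e l + L ∘ₗ ecomb d.e z) (d.rho x v) := by
    refine (a2 _).trans ?_
    rw [e, ← LinearMap.comp_add]
    rfl
  rw [e2]
  refine h6.trans ?_
  rw [Dat.K_rho]
  have hT0 : 0 < T := by linarith
  have hδ0 := hδ.1
  have hA := h.nonneg _ _ _ _ _ (h5 T hT d)
  have hz : (z.map fun y => ‖y.1‖).sum ≤ C3 := b2.trans
    (mul_le_of_le_one_right hC3 (by linarith [hδ.half]))
  have h7 : C5 ≤ |C5| + 1 := (le_abs_self _).trans (by linarith)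
  calc _ ≤ C1 * (C2 * T ^ l.length * (C4 * (δ + T⁻¹) ^ k * (|C5| + 1)) +
        C3 * (C2 * T ^ l.length * (C4 * (δ + T⁻¹) ^ k * (|C5| + 1)))) * ‖bet N hT‖ * ‖d.K v‖ := by
        gcongr
    _ = _ := by ring

lemma adj_pow (hM : MulStmt) (P : Mop N) (d : Dat N) {T : ℝ} (hT : 0 < T) (k : ℕ) (f g : d.V) :
    ⟪d.K ((P.op d T ^ k) g), d.K f⟫_ℂ = ⟪d.K g, d.K ((P.op d T ^ k) f)⟫_ℂ := by
  induction k generalizing f with
  | zero => simp
  | succ k ih =>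
    rw [pow_succ', Module.End.mul_apply, hM.adj N P d d T hT, ih, ← Module.End.mul_apply,
      ← pow_succ, ← pow_succ']

lemma sb_pow (hM : MulStmt) (P : Mop N) (k J : ℕ) : ∃ C : ℝ, 0 < C ∧
    ∀ (d : Dat N) (T a : ℝ) (w : d.V), 1 ≤ T → d.Sb T a (J + P.deg * k) w →
      d.Sb T (C * a) J ((P.op d T ^ k) w) := by
  induction k generalizing J with
  | zero => exact ⟨1, one_pos, fun d T a w _ h => by simpa using h⟩
  | succ k ih =>
    obtain ⟨C, hC, h1⟩ := ih (J + P.deg)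
    obtain ⟨C', hC', h2⟩ := hM.sb N P J
    refine ⟨C' * C, by positivity, fun d T a w hT h => ?_⟩
    rw [pow_succ', Module.End.mul_apply, mul_assoc]
    exact h2 d T _ _ hT (h1 d T a w hT (by rwa [add_assoc, add_comm P.deg, ← Nat.mul_succ]))

lemma inner_inv (d : Dat N) (x : G (N + 1)) (f g : d.V) :
    ⟪d.K g, d.K (d.rho x f)⟫_ℂ = ⟪d.K (d.rho x⁻¹ g), d.K f⟫_ℂ := by
  rw [← d.inner_rho x f, ← Module.End.mul_apply, ← d.rho_mul, mul_inv_cancel, d.rho_one]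
  rfl

lemma one (hK : KirStmt) (hM : MulStmt) (hv : CvStmt) (h : Cls N C0 K1 Fn) (M : ℕ) (P : Mop N)
    {c2 : ℝ} (hc : Loc3.Ok (N + 1) (8 * c2)) (k : ℕ) (l : Wd N) : ∃ C : ℝ, 0 < C ∧ (k ≤ M →
    ∀ (T : ℝ) (hT : 1 ≤ T) (d : Dat N), Gam (N + 1) C0 T d.γ → (∃ w : d.V, w ≠ 0) →
    ∀ w : d.V, ‖d.K w - bet N hT‖ ≤ T⁻¹ ^ M * ‖bet N hT‖ →
    ∀ r : ℝ, Loc3.Ok (N + 1) (8 * r) → ∀ u ∈ Bl (N + 1) r,
      ‖d.K (ew d.e l ((P.op d T ^ k) (d.rho u (d.av (c2 / T) w))))‖ ≤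
        C * (r + T⁻¹) ^ k * ‖bet N hT‖ * T ^ l.length) := by
  have hc0 : 0 < c2 := by linarith [hc.1]
  have hc' : Loc3.Ok (N + 1) c2 := hc.mono hc0 (by linarith)
  obtain ⟨C1, hC1, h1⟩ := fnl h hM P k l.reverse
  obtain ⟨C2, hC2, h2⟩ := sb_pow hM P k l.length
  obtain ⟨C3, hC3, h3⟩ := hM.tr N (l.length + P.deg * k)
  obtain ⟨C4, hC4, h4⟩ := hv.sob N (l.length + P.deg * k) c2 hc'
  refine ⟨C2 * C3 * C4 + C1 * 4 ^ k, by positivity, fun hk T hT d hd hn w hw r hr u hu => ?_⟩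
  have hT0 : 0 < T := by linarith
  have hr0 : 0 < r := by linarith [hr.1]
  have hcT := hc'.div hT
  have hcT' : c2 / T ≤ c2 := div_le_self hc0.le hT
  have hcT0 := hcT.1
  set β := ‖bet N hT‖ with hβ
  have hβ0 : 0 ≤ β := norm_nonneg _
  set Z : Module.End ℂ d.V := ew d.e l * P.op d T ^ k * d.rho u with hZ
  change ‖d.K (Z (d.av (c2 / T) w))‖ ≤ _
  have s1 : ∀ y, ‖d.K (Z (d.av (c2 / T) y))‖ ≤ C2 * (C3 * (C4 * ‖d.K y‖)) * T ^ l.length :=
    fun y => h2 d T _ _ hT (h3 r (hr.mono (by positivity) (by linarith)) u hu d T _ _ hT0.le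
      (h4 T hT d y)) l le_rfl
  have hδ : Loc3.Ok (N + 1) (4 * (r + c2 / T)) := ⟨by positivity, by
    have a1 := hr.2
    have a2 := hc.2
    have : (0 : ℝ) ≤ 2 * ((N + 1 : ℕ) : ℝ) + 2 := by positivity
    nlinarith⟩
  have hδ2 := hδ.mono (show 0 < 2 * (r + c2 / T) by positivity) (by linarith)
  have s2 : ∀ v y η, ‖d.K y - bet N hT‖ ≤ η → ‖⟪d.K v, d.K (Z (d.av (c2 / T) y))⟫_ℂ‖ ≤
      C1 * (4 * (r + T⁻¹)) ^ k * T ^ l.length * β * ‖d.K v‖ +
        η * ‖d.K ((P.op d T ^ k) (ew d.e l.reverse v))‖ := fun v y η hy => by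
    simp only [hZ, Module.End.mul_apply]
    rw [DefA.word d d l (fun y _ => hK.skew N d _ _), norm_mul, norm_pow, norm_neg, norm_one,
      one_pow, one_mul, ← adj_pow hM P d hT0, inner_inv, ← sub_zero (inner _ _ _)]
    refine hv.weak N d _ hcT y _ 0 _ fun x hx => ?_
    have b1 := (hL.mul (N + 1) r (c2 / T) (hr.mono hr0 (by linarith)).2 hcT.2 u hu x hx).1
    have b2 := (hL.mul (N + 1) _ _ hδ2.2 hδ2.2 _ b1 _ b1).2
    have b3 := h1 T hT d hd _ hδ (u * x)⁻¹ (by convert b2 using 2; ring) v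
    rw [sub_zero, inner_inv, ← Module.End.mul_apply, ← d.rho_mul, ← _root_.mul_inv_rev,
      ← sub_add_cancel (d.K y) (bet N hT), inner_add_right, add_comm]
    refine (norm_add_le _ _).trans (add_le_add ?_ ?_)
    · rw [norm_inner_symm]
      refine b3.trans ?_
      rw [List.length_reverse]
      gcongr
      have : 4 * (c2 / T) ≤ 3 * T⁻¹ := by
        rw [div_eq_mul_inv, ← mul_assoc]
        gcongr
        linarith [hc'.half]
      linarith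
    · refine (norm_inner_le_norm _ _).trans ?_
      rw [Dat.K_rho, mul_comm]
      gcongr
  set v := Z (d.av (c2 / T) w) with hv'
  set B := (C2 * C3 * C4 + C1 * 4 ^ k) * (r + T⁻¹) ^ k * β * T ^ l.length with hB
  have hw' : ‖d.K w - bet N hT‖ ≤ (r + T⁻¹) ^ k * β := hw.trans (by
    gcongr
    calc T⁻¹ ^ M ≤ T⁻¹ ^ k := pow_le_pow_of_le_one (by positivity) (inv_le_one_of_one_le₀ hT) hk
      _ ≤ _ := by gcongr; linarith)
  have s3 : ‖d.K v‖ * ‖d.K v‖ ≤ B * ‖d.K v‖ := by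
    set E := C2 * C3 * C4 * T ^ l.length * ‖d.K v‖ +
      ‖d.K ((P.op d T ^ k) (ew d.e l.reverse v))‖ with hE
    have hE0 : 0 ≤ E := by positivity
    refine le_of_forall_pos_le_add fun ε hε => ?_
    obtain ⟨y, hy⟩ := d.dense hn (bet N hT) (η := ε / (E + 1)) (by positivity)
    have e : v = Z (d.av (c2 / T) (w - y)) + Z (d.av (c2 / T) y) := by
      rw [hv.sub, map_sub, sub_add_cancel]
    have c1 : ‖d.K (w - y)‖ ≤ (r + T⁻¹) ^ k * β + ε / (E + 1) := by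
      rw [map_sub, ← sub_sub_sub_cancel_right _ _ (bet N hT)]
      exact (norm_sub_le _ _).trans (add_le_add hw' hy)
    have c2' : ‖d.K v‖ * ‖d.K v‖ = ‖⟪d.K v, d.K (Z (d.av (c2 / T) (w - y)))⟫_ℂ +
        ⟪d.K v, d.K (Z (d.av (c2 / T) y))⟫_ℂ‖ := by
      rw [← inner_add_right, ← map_add, ← e, inner_self_eq_norm_sq_to_K, norm_pow, sq]
      simp
    have c3 : ε / (E + 1) * E ≤ ε := by
      rw [div_mul_eq_mul_div, div_le_iff₀ (by positivity)]
      nlinarith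
    rw [c2']
    refine (norm_add_le _ _).trans ((add_le_add (norm_inner_le_norm _ _) (s2 v y _ hy)).trans ?_)
    calc _ ≤ ‖d.K v‖ * (C2 * (C3 * (C4 * ((r + T⁻¹) ^ k * β + ε / (E + 1)))) * T ^ l.length) +
          (C1 * (4 * (r + T⁻¹)) ^ k * T ^ l.length * β * ‖d.K v‖ +
            ε / (E + 1) * ‖d.K ((P.op d T ^ k) (ew d.e l.reverse v))‖) := by
          gcongr
          exact (s1 _).trans (by gcongr)
      _ = B * ‖d.K v‖ + ε / (E + 1) * E := by rw [hB, hE, mul_pow]; ring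
      _ ≤ _ := by gcongr
  rcases (norm_nonneg (d.K v)).eq_or_lt with h0 | h0
  · rw [← h0]; positivity
  · exact le_of_mul_le_mul_right s3 h0

end VecA

theorem vec (hK : KirStmt) (hM : MulStmt) (hv : CvStmt) (hc : ClsStmt) : VecStmt := by
  intro N M P C0 c2 hc2
  obtain ⟨K1, Fn, h⟩ := hc N C0
  choose C hC hm using fun k l => VecA.one hK hM hv h M P hc2 k l
  have hf := List.finite_length_le (Fin (N + 1) × Fin (N + 1)) 1
  obtain ⟨B, hB⟩ := (((Set.finite_le_nat M).prod hf).image fun p => C p.1 p.2).bddAbove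
  refine ⟨max B 1, by positivity, fun T hT d hd hn w hw r hr u hu k hk l hl => ?_⟩
  refine (hm k l hk T hT d hd hn w hw r hr u hu).trans ?_
  have hr0 : 0 < r := by linarith [hr.1]
  have hT0 : 0 < T := by linarith
  gcongr
  exact (hB ⟨(k, l), ⟨hk, hl⟩, rfl⟩).trans (le_max_left _ _)

end SW

end Pool.Agent.Lib.MP_fa98d2_nt.D
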